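import Pool.Agent.Lib.TNF.LG.Spec

/-!
# TNF/LG/Ad: rules for `Act` (helper85)
-/

set_option autoImplicit false

open HC HC.CC SEJ TATE Topology Metric

noncomputable section

namespace TNF.LG

namespace Ad_aux

variable {m r : ℕ} {b : Fin (r + 1) → ℕ}

theorem addL (Λ : LPD m b) {t : Fin (r + 1) → ℂ} (ht : Function.Injective t)
    {u v : Ix m b → ℂ} (hu : u ∈ Λ.L t) (hv : v ∈ Λ.L t) : u + v ∈ Λ.L t := by
  have h := Λ.sub t ht u hu (0 - v) (Λ.sub t ht 0 (Λ.zero t ht) v hv)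
  have e : u - (0 - v) = u + v := by abel
  rwa [e] at h

theorem negL (Λ : LPD m b) {t : Fin (r + 1) → ℂ} (ht : Function.Injective t)
    {v : Ix m b → ℂ} (hv : v ∈ Λ.L t) : -v ∈ Λ.L t := by
  have h := Λ.sub t ht 0 (Λ.zero t ht) v hv
  rwa [zero_sub] at h

theorem zeroA (Λ : LPD m b) (σ : ℂ ≃+* ℂ) {t : Fin (r + 1) → ℂ} (ht : Function.Injective t) :
    Act Λ σ t 0 0 := by
  have hs : Function.Injective (fun j => σ (t j)) := σ.injective.comp ht
  refine ⟨0, Fin.elim0, Fin.elim0, Fin.elim0, Fin.elim0, fun a => a.elim0, fun a => a.elim0,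
    ?_, ?_⟩
  · rw [Fin.sum_univ_zero, sub_zero]
    exact Λ.zero t ht
  · rw [Fin.sum_univ_zero, sub_zero]
    exact Λ.zero _ hs

theorem addA (Λ : LPD m b) (σ : ℂ ≃+* ℂ) {t : Fin (r + 1) → ℂ} (ht : Function.Injective t)
    {v v' u u' : Ix m b → ℂ} (h : Act Λ σ t v v') (h' : Act Λ σ t u u') :
    Act Λ σ t (v + u) (v' + u') := by
  have hs : Function.Injective (fun j => σ (t j)) := σ.injective.comp ht
  obtain ⟨k, Q', Q, w, w', h1, h2, h3, h4⟩ := h
  obtain ⟨l, R', R, z, z', g1, g2, g3, g4⟩ := h'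
  refine ⟨k + l, Fin.append Q' R', Fin.append Q R, Fin.append w z, Fin.append w' z',
    fun a => ?_, fun a => ?_, ?_, ?_⟩
  · refine Fin.addCases (fun i => ?_) (fun i => ?_) a
    · simpa only [Fin.append_left] using h1 i
    · simpa only [Fin.append_right] using g1 i
  · refine Fin.addCases (fun i => ?_) (fun i => ?_) a
    · simpa only [Fin.append_left] using h2 i
    · simpa only [Fin.append_right] using g2 i
  · rw [Fin.sum_univ_add]
    simp only [Fin.append_left, Fin.append_right]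
    have e : (∑ i, w i + ∑ i, z i) - (v + u) = (∑ i, w i - v) + (∑ i, z i - u) := by abel
    rw [e]
    exact addL Λ ht h3 g3
  · rw [Fin.sum_univ_add]
    simp only [Fin.append_left, Fin.append_right]
    have e : (∑ i, w' i + ∑ i, z' i) - (v' + u') = (∑ i, w' i - v') + (∑ i, z' i - u') := by
      abel
    rw [e]
    exact addL Λ hs h4 g4

theorem negA (hFA : StmtFA2) (Λ : LPD m b) (σ : ℂ ≃+* ℂ) {t : Fin (r + 1) → ℂ}
    (hC : Cvb m b) (ht : Function.Injective t)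
    {v v' : Ix m b → ℂ} (h : Act Λ σ t v v') : Act Λ σ t (-v) (-v') := by
  have hs : Function.Injective (fun j => σ (t j)) := σ.injective.comp ht
  obtain ⟨-, -, hN, -⟩ := hFA m r b hC
  obtain ⟨k, Q', Q, w, w', h1, h2, h3, h4⟩ := h
  refine ⟨k, Q, Q', fun a => -w a, fun a => -w' a, fun a => (hN t ht _ _ _ (h1 a)).2.2,
    fun a => (hN _ hs _ _ _ (h2 a)).2.2, ?_, ?_⟩
  · have e : ∑ i, -w i - -v = -(∑ i, w i - v) := by
      rw [Finset.sum_neg_distrib]
      abel
    rw [e]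
    exact negL Λ ht h3
  · have e : ∑ i, -w' i - -v' = -(∑ i, w' i - v') := by
      rw [Finset.sum_neg_distrib]
      abel
    rw [e]
    exact negL Λ hs h4

theorem latA (Λ : LPD m b) (σ : ℂ ≃+* ℂ) {t : Fin (r + 1) → ℂ} (ht : Function.Injective t)
    {v v' u u' : Ix m b → ℂ} (h : Act Λ σ t v v') (hu : u - v ∈ Λ.L t)
    (hu' : u' - v' ∈ Λ.L (fun j => σ (t j))) : Act Λ σ t u u' := by
  have hs : Function.Injective (fun j => σ (t j)) := σ.injective.comp ht
  obtain ⟨k, Q', Q, w, w', h1, h2, h3, h4⟩ := h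
  refine ⟨k, Q', Q, w, w', h1, h2, ?_, ?_⟩
  · have e : ∑ i, w i - u = (∑ i, w i - v) - (u - v) := by abel
    rw [e]
    exact Λ.sub t ht _ h3 _ hu
  · have e : ∑ i, w' i - u' = (∑ i, w' i - v') - (u' - v') := by abel
    rw [e]
    exact Λ.sub _ hs _ h4 _ hu'

theorem smulN (Λ : LPD m b) (σ : ℂ ≃+* ℂ) {t : Fin (r + 1) → ℂ} (ht : Function.Injective t)
    {v v' : Ix m b → ℂ} (h : Act Λ σ t v v') (n : ℕ) : Act Λ σ t (n • v) (n • v') := by
  induction n with
  | zero =>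
    rw [zero_nsmul, zero_nsmul]
    exact zeroA Λ σ ht
  | succ n ih =>
    rw [succ_nsmul, succ_nsmul]
    exact addA Λ σ ht ih h

end Ad_aux

open Ad_aux in
/-- **Ad**. -/
theorem tAd : StmtFA2 → S_Ad := by
  intro hFA m r b Λ σ t hC ht
  refine ⟨zeroA Λ σ ht, fun v v' u u' h h' => addA Λ σ ht h h', fun v v' h =>
    negA hFA Λ σ hC ht h, fun v v' u u' h hu hu' => latA Λ σ ht h hu hu', fun x v v' h => ?_⟩
  obtain ⟨n, hn⟩ := Int.eq_nat_or_neg x
  rcases hn with rfl | rfl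
  · rw [natCast_zsmul, natCast_zsmul]
    exact smulN Λ σ ht h n
  · rw [neg_zsmul, neg_zsmul, natCast_zsmul, natCast_zsmul]
    exact negA hFA Λ σ hC ht (smulN Λ σ ht h n)

end TNF.LG
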