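import Pool.Agent.Lib.TNF.LG.Spec

/-!
# PROJECT TNF, package LG: rules for the action on the product
-/

set_option autoImplicit false

open HC HC.CC SEJ TATE Topology Metric

noncomputable section

namespace TNF.LG

namespace AdD_aux

variable {p N : ℕ}

theorem LPs_map {Λ : LL} {D : Dt p N} {h : D.ok} {σ : ℂ ≃+* ℂ} {s : Fin p → ℂ} {v : D.V} :
    v ∈ LPs Λ D h (fun i => σ (s i)) ↔
      ∀ n, v n ∈ (Λ _ _ _ (h.cv n)).L fun j => σ (D.t s n j) := by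
  refine forall_congr' fun n => ?_
  rw [Dt_map]

end AdD_aux

open AdD_aux

theorem tAdD : S_Ad → S_Wd → TATE.S_Av → S_AdD := by
  intro hAd hWd hAv Λ p N D h σ s hs hσ
  obtain ⟨hinj, -, -⟩ := hAv p N D s h hs
  have hA := fun n => hAd _ _ _ (Λ _ _ _ (h.cv n)) σ (D.t s n) (h.cv n) (hinj n)
  have hW := fun n => hWd _ _ _ (Λ _ _ _ (h.cv n)) σ (D.t s n) (h.cv n) (hinj n) (hσ n)
  refine ⟨?_, ?_, ?_, ?_, ?_, ?_, ?_, ?_, ?_⟩
  · intro v v' u u' h1 h2 n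
    exact (hA n).2.1 _ _ _ _ (h1 n) (h2 n)
  · intro v v' u u' h1 h2 h3 n
    exact (hA n).2.2.2.1 _ _ _ _ (h1 n) (h2 n) (LPs_map.1 h3 n)
  · intro x v v' h1 n
    exact (hA n).2.2.2.2 x _ _ (h1 n)
  · intro v v' v'' h1 h2
    exact LPs_map.2 fun n => (hW n).1 _ _ _ (h1 n) (h2 n)
  · intro v v' h1 h2
    exact LPs_map.2 fun n => (hW n).2.1 _ _ (h1 n) (h2 n)
  · intro τ hτ v v' v'' h1 h2 n
    have h3 := h2 n
    rw [Dt_map] at h3
    exact (hW n).2.2.1 τ (hτ n) _ _ _ (h1 n) h3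
  · intro v v' h1 n
    have h3 := (hW n).2.2.2.1 _ _ (h1 n)
    rw [Dt_map]
    exact h3
  · intro v
    choose v' hv' using fun n => (hW n).2.2.2.2.1 (v n)
    exact ⟨v', hv'⟩
  · intro v n
    exact (hW n).2.2.2.2.2 (v n)

end TNF.LG
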