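import Pool.Agent.Lib.TNF.LG.SpecD

/-!
# TNF/LG/Bch (helper64): the branches near a point of the Hilbert set
-/

set_option autoImplicit false

open HC HC.CC SEJ TATE Topology Metric

noncomputable section

namespace TNF.LG

namespace Bch_aux

theorem exists_min_pos {ι : Type} [Finite ι] (f : ι → ℝ) (hf : ∀ i, 0 < f i) :
    ∃ ε > 0, ∀ i, ε ≤ f i := by
  rcases isEmpty_or_nonempty ι with h | h
  · exact ⟨1, one_pos, fun i => (h.false i).elim⟩
  · obtain ⟨i₀, hi⟩ := Finite.exists_min f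
    exact ⟨f i₀, hf i₀, hi⟩

variable {p N : ℕ}

theorem yv_hol {D : Dt p N} {k : Fin (rk D) → Fin N → ℕ} (R : Jx D k → Polynomial (QS p))
    (d : QS p) (U : Set (Fin p → ℂ)) (η : (Fin p → ℂ) → ℂ) (hη : DifferentiableOn ℂ η U)
    (hd : ∀ s ∈ U, cf s d ≠ 0) : DifferentiableOn ℂ (fun s => yv R d s (η s)) U := by
  rw [differentiableOn_pi]
  intro j
  exact (differentiableOn_pi.1 (vf_hol (fun _ : Fin 1 => R j) d U (fun s => s) η
    differentiableOn_id hη hd)) 0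

theorem sum_mem (hBd : S_Bd) (Λ : LL) (D : Dt p N) (h : D.ok) (s : Fin p → ℂ)
    (e : Fin (rk D) → D.V) (hs : Function.Injective s) (he : IsBas Λ D h s e)
    (a : Fin (rk D) → ℤ) : ∑ j, (a j : ℂ) • e j ∈ LPs Λ D h s := by
  have h1 := (((hBd Λ p N D h s e hs he).2.2.2.1) 1 one_ne_zero a 0).2 fun j =>
    Subsingleton.elim _ _
  simpa using h1

theorem vq_mem (hBd : S_Bd) (Λ : LL) (D : Dt p N) (h : D.ok) (s : Fin p → ℂ)
    (e : Fin (rk D) → D.V) (hs : Function.Injective s) (he : IsBas Λ D h s e) (q : ℕ)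
    (hq : q ≠ 0) (A : Matrix (Fin (rk D)) (Fin (rk D)) (ZMod q)) (i : Fin (rk D)) :
    (q : ℂ) • vq D q A e i ∈ LPs Λ D h s := by
  have h1 : (q : ℂ) • vq D q A e i = ∑ j, (((A j i).val : ℤ) : ℂ) • e j := by
    unfold vq
    rw [smul_smul, mul_inv_cancel₀ (Nat.cast_ne_zero.2 hq), one_smul]
    refine Finset.sum_congr rfl fun j _ => ?_
    rw [Int.cast_natCast]
  rw [h1]
  exact sum_mem hBd Λ D h s e hs he _

end Bch_aux

open Bch_aux in
theorem tBch : S_Cst → S_Fl → S_Bt → S_Bd → S_Eqc → S_Gpt → S_Bch := by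
  classical
  intro hCst hFl hBt hBd hEq hGpt Λ Φ p N D h q k P R d Δ hq hH s₀ hΔ e he
  have hqz : NeZero q := ⟨hq⟩
  obtain ⟨hs₀, hG, hd⟩ := hH.good s₀ hΔ
  obtain ⟨ε₁, hε₁, η, hη, hrt⟩ := branches P s₀ hG
  obtain ⟨β, hβ, hBt'⟩ := hBt Λ Φ p N D h s₀ hs₀
  obtain ⟨ε₂, hε₂, hΔ'⟩ := Metric.eventually_nhds_iff_ball.1
    ((contDiff_cf Δ).continuous.continuousAt.eventually_ne hΔ)
  set ε₃ := min ε₁ (min β ε₂) with hε₃d
  have hε₃ : 0 < ε₃ := lt_min hε₁ (lt_min hβ hε₂)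
  have b1 : ∀ s ∈ ball s₀ ε₃, s ∈ ball s₀ ε₁ := fun s hs =>
    ball_subset_ball (min_le_left _ _) hs
  have b2 : ∀ s ∈ ball s₀ ε₃, s ∈ ball s₀ β := fun s hs =>
    ball_subset_ball ((min_le_right _ _).trans (min_le_left _ _)) hs
  have b3 : ∀ s ∈ ball s₀ ε₃, cf s Δ ≠ 0 := fun s hs =>
    hΔ' s (ball_subset_ball ((min_le_right _ _).trans (min_le_right _ _)) hs)
  have hc0 : s₀ ∈ ball s₀ ε₃ := mem_ball_self hε₃
  have hroot : ∀ j, ∀ s ∈ ball s₀ ε₃, (PS P s).eval (η j s) = 0 := fun j s hs =>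
    (hrt s (b1 s hs) _).2 ⟨j, rfl⟩
  have hy : ∀ j, DifferentiableOn ℂ (fun s => yv R d s (η j s)) (ball s₀ ε₃) := fun j =>
    yv_hol R d _ (η j) ((hη j).mono b1) fun s hs => (hH.good s (b3 s hs)).2.2
  have hyc : ∀ j (l : Jx D k), ContinuousOn (fun s => yv R d s (η j s) l) (ball s₀ ε₃) :=
    fun j l => (differentiableOn_pi.1 (hy j) l).continuousOn
  have hon : ∀ j, ∀ s ∈ ball s₀ ε₃, OnP D s (yv R d s (η j s)) := fun j s hs =>
    hH.on s (b3 s hs) _ (hroot j s hs)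
  have hcst : ∀ j, ∀ s ∈ ball s₀ ε₃, yv R d s (η j s) (Sum.inr none) =
      yv R d s₀ (η j s₀) (Sum.inr none) := fun j =>
    hCst p q s₀ ε₃ (fun s => yv R d s (η j s) (Sum.inr none)) hq hε₃ (hyc j _) fun s hs =>
      (hH.rc s (b3 s hs) _ (hroot j s hs)).pow_eq_one
  have hmn : ∀ n, D.m n ≠ 0 := fun n h0 => by
    have := (h.cv n).1
    omega
  have haz : ∀ j, ∀ s ∈ ball s₀ ε₃, ∀ n, yv R d s (η j s) (Sum.inr (some n)) =
      yv R d s₀ (η j s₀) (Sum.inr (some n)) := fun j s hs n =>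
    hCst p (D.m n) s₀ ε₃ (fun s => yv R d s (η j s) (Sum.inr (some n))) (hmn n) hε₃ (hyc j _)
      (fun s hs => hH.rz s (b3 s hs) _ (hroot j s hs) n) s hs
  have haz' : ∀ j, ∀ s ∈ ball s₀ ε₃, (Az D (yv R d s (η j s)) ↔ Az D (yv R d s₀ (η j s₀))) := by
    intro j s hs
    constructor
    · intro h1 n
      rw [← haz j s hs n]
      exact h1 n
    · intro h1 n
      rw [haz j s hs n]
      exact h1 n
  have hbas : ∀ s ∈ ball s₀ ε₃, IsBas Λ D h s fun i => HS.trn Φ D h s₀ s (e i) := fun s hs =>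
    (hBt' s (b2 s hs)).2.2.2.1 e he
  have hinj : ∀ s ∈ ball s₀ ε₃, Function.Injective s := fun s hs => (hBt' s (b2 s hs)).1
  -- flatness
  have hfl : ∀ j, Az D (yv R d s₀ (η j s₀)) → ∀ i, ∃ ε' > 0, ε' ≤ ε₃ ∧
      ∃ l ∈ LPs Λ D h s₀, ∀ s ∈ ball s₀ ε', Cls Λ D h s (yv R d s (η j s)) i
        ((q : ℂ)⁻¹ • HS.trn Φ D h s₀ s l) := by
    intro j hj i
    refine hFl Λ Φ p N D h q k p s₀ ε₃ (fun s => s) (fun s => yv R d s (η j s))
      {s | AlgebraicIndependent ℚ s} i hq hε₃ hs₀ differentiableOn_id (hy j) (hon j) ?_ ?_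
    · rw [(hGpt p).1.closure_eq]
      exact Set.subset_univ _
    · rintro s ⟨hs, hsb⟩
      obtain ⟨T, T', -, -, hT⟩ := hH.bas s hs (η j s) (hroot j s hsb) ((haz' j s hsb).2 hj) _
        (hbas s hsb)
      exact ⟨_, vq_mem hBd Λ D h s _ (hinj s hsb) (hbas s hsb) q hq T i, hT i⟩
  have hcls : ∀ j, ∃ ε' > 0, ε' ≤ ε₃ ∧ (Az D (yv R d s₀ (η j s₀)) →
      ∃ T T' : Matrix (Fin (rk D)) (Fin (rk D)) (ZMod q), T * T' = 1 ∧ T' * T = 1 ∧
        ∀ s ∈ ball s₀ ε', ∀ i, Cls Λ D h s (yv R d s (η j s)) i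
          (vq D q T (fun i => HS.trn Φ D h s₀ s (e i)) i)) := by
    intro j
    by_cases hj : Az D (yv R d s₀ (η j s₀))
    swap
    · exact ⟨ε₃, hε₃, le_rfl, fun h0 => absurd h0 hj⟩
    choose f hf hfε l hl hfc using hfl j hj
    obtain ⟨ε', hε', hmin⟩ := exists_min_pos (fun i : Option (Fin (rk D)) => i.elim ε₃ f)
      (by rintro (_ | i); exacts [hε₃, hf i])
    choose a ha using fun i => he.ex (l i) (hl i)
    let T : Matrix (Fin (rk D)) (Fin (rk D)) (ZMod q) := Matrix.of fun r i => (a i r : ZMod q)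
    have hε'₃ : ε' ≤ ε₃ := hmin none
    have hT : ∀ s ∈ ball s₀ ε', ∀ i, Cls Λ D h s (yv R d s (η j s)) i
        (vq D q T (fun i => HS.trn Φ D h s₀ s (e i)) i) := by
      intro s hs i
      have hsb : s ∈ ball s₀ ε₃ := ball_subset_ball hε'₃ hs
      have h1 := hfc i s (ball_subset_ball (hmin (some i)) hs)
      have hrefl : FxZ D (RingEquiv.refl ℂ) := fun n => rfl
      refine (hEq Λ p N D h k s (RingEquiv.refl ℂ) (yv R d s (η j s)) i (hinj s hsb)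
        hrefl).2.2.2.1 _ _ h1 ?_
      have h2 : (q : ℂ)⁻¹ • HS.trn Φ D h s₀ s (l i) =
          (q : ℂ)⁻¹ • ∑ r, (a i r : ℂ) • HS.trn Φ D h s₀ s (e r) := by
        rw [ha i, map_sum]
        congr 1
        refine Finset.sum_congr rfl fun r _ => ?_
        rw [map_zsmul, Int.cast_smul_eq_zsmul]
      have h3 : vq D q T (fun i => HS.trn Φ D h s₀ s (e i)) i =
          (q : ℂ)⁻¹ • ∑ r, ((((T r i).val : ℕ) : ℤ) : ℂ) • HS.trn Φ D h s₀ s (e r) := by
        unfold vq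
        congr 1
      rw [h2, h3]
      refine ((hBd Λ p N D h s _ (hinj s hsb) (hbas s hsb)).2.2.2.1 q hq _ _).2 fun r => ?_
      rw [Int.cast_natCast, ZMod.natCast_zmod_val]
      rfl
    -- invertible
    obtain ⟨s, hsb', hs⟩ := (hGpt p).1.inter_open_nonempty (ball s₀ ε') isOpen_ball
      ⟨s₀, mem_ball_self hε'⟩
    have hsb : s ∈ ball s₀ ε₃ := ball_subset_ball hε'₃ hsb'
    obtain ⟨T₁, T₁', h11, h12, hT₁⟩ := hH.bas s hs (η j s) (hroot j s hsb)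
      ((haz' j s hsb).2 hj) _ (hbas s hsb)
    have hTT : T = T₁ := by
      ext r i
      have hrefl : FxZ D (RingEquiv.refl ℂ) := fun n => rfl
      have h1 := (hEq Λ p N D h k s (RingEquiv.refl ℂ) (yv R d s (η j s)) i (hinj s hsb)
        hrefl).2.2.1 _ _ (hT s hsb' i) (hT₁ i)
      have h3 : ∀ A : Matrix (Fin (rk D)) (Fin (rk D)) (ZMod q),
          vq D q A (fun i => HS.trn Φ D h s₀ s (e i)) i =
          (q : ℂ)⁻¹ • ∑ r, ((((A r i).val : ℕ) : ℤ) : ℂ) • HS.trn Φ D h s₀ s (e r) := by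
        intro A
        unfold vq
        congr 1
      rw [h3, h3] at h1
      have h4 := ((hBd Λ p N D h s _ (hinj s hsb) (hbas s hsb)).2.2.2.1 q hq _ _).1 h1 r
      rw [Int.cast_natCast, Int.cast_natCast, ZMod.natCast_zmod_val,
        ZMod.natCast_zmod_val] at h4
      exact h4
    refine ⟨ε', hε', hε'₃, fun _ => ⟨T, T₁', ?_, ?_, hT⟩⟩
    · rw [hTT]
      exact h11
    · rw [hTT]
      exact h12
  choose g hg hgε hgc using hcls
  obtain ⟨ε, hε, hmin⟩ := exists_min_pos (fun j : Option (Fin P.natDegree) => j.elim ε₃ g)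
    (by rintro (_ | j); exacts [hε₃, hg j])
  have hεε : ∀ s ∈ ball s₀ ε, s ∈ ball s₀ ε₃ := fun s hs => ball_subset_ball (hmin none) hs
  refine ⟨ε, hε, η, fun j => yv R d s₀ (η j s₀) (Sum.inr none), ?_, ?_, ?_, ?_, ?_⟩
  · exact fun s hs x => hrt s (b1 s (hεε s hs)) x
  · exact fun j s hs => ⟨hcst j s (hεε s hs), hH.rc s₀ hΔ _ (hroot j s₀ hc0)⟩
  · exact fun j s hs => haz' j s (hεε s hs)
  · exact fun j s hs => hon j s (hεε s hs)
  · intro j hj
    obtain ⟨T, T', h1, h2, h3⟩ := hgc j hj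
    exact ⟨T, T', h1, h2, fun s hs i => h3 s (ball_subset_ball (hmin (some j)) hs) i⟩

end TNF.LG
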