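import Pool.Agent.Lib.TNF.LG.Spec

/-!
# TNF/LG/Bd (helper6): elementary consequences of a basis of the lattice
-/

set_option autoImplicit false

open HC HC.CC SEJ TATE Topology Metric

noncomputable section

namespace TNF.LG

namespace Bd_aux

variable {ι W : Type} [Fintype ι] [NormedAddCommGroup W] [NormedSpace ℝ W]

/-- a subgroup with a basis -/
structure Ba (L : Set W) (e : ι → W) : Prop where
  mem : ∀ i, e i ∈ L
  ex : ∀ v ∈ L, ∃ a : ι → ℤ, v = ∑ i, a i • e i
  li : LinearIndependent ℝ e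
  card : Fintype.card ι = Module.finrank ℝ W
  zero : (0 : W) ∈ L
  sub : ∀ u ∈ L, ∀ v ∈ L, u - v ∈ L

variable {L : Set W} {e : ι → W}

theorem Ba.neg (h : Ba L e) {u : W} (hu : u ∈ L) : -u ∈ L := by
  have h1 := h.sub 0 h.zero u hu
  rwa [zero_sub] at h1

theorem Ba.add (h : Ba L e) {u v : W} (hu : u ∈ L) (hv : v ∈ L) : u + v ∈ L := by
  have h1 := h.sub u hu (-v) (h.neg hv)
  rwa [sub_neg_eq_add] at h1

/-- the subgroup -/
def Ba.G (h : Ba L e) : AddSubgroup W where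
  carrier := L
  add_mem' := fun hu hv => h.add hu hv
  zero_mem' := h.zero
  neg_mem' := fun hu => h.neg hu

theorem Ba.sum (h : Ba L e) (a : ι → ℤ) : ∑ i, a i • e i ∈ L :=
  h.G.sum_mem fun i _ => h.G.zsmul_mem (h.mem i) (a i)

theorem Ba.uniq (h : Ba L e) {a b : ι → ℤ} (hab : ∑ i, a i • e i = ∑ i, b i • e i) (j : ι) :
    a j = b j := by
  have h1 := Fintype.linearIndependent_iff.1 h.li (fun i => ((a i - b i : ℤ) : ℝ)) (by
    have h2 : ∀ i, ((a i - b i : ℤ) : ℝ) • e i = a i • e i - b i • e i := by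
      intro i
      rw [Int.cast_smul_eq_zsmul, sub_smul]
    simp only [h2]
    rw [Finset.sum_sub_distrib, hab, sub_self]) j
  have h3 : a j - b j = 0 := by exact_mod_cast h1
  omega

variable [FiniteDimensional ℝ W]

/-- the basis of the real space -/
def Ba.B (h : Ba L e) : Module.Basis ι ℝ W :=
  Module.Basis.mk h.li (by rw [h.li.span_eq_top_of_card_eq_finrank' h.card])

theorem Ba.B_apply (h : Ba L e) (i : ι) : h.B i = e i := by
  unfold Ba.B
  rw [Module.Basis.mk_apply]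

theorem Ba.coord_sum (h : Ba L e) (a : ι → ℤ) (j : ι) : h.B.coord j (∑ i, a i • e i) = a j := by
  have h1 : ∑ i, a i • e i = ∑ i, (a i : ℝ) • h.B i := by
    refine Finset.sum_congr rfl fun i _ => ?_
    rw [h.B_apply, Int.cast_smul_eq_zsmul]
  rw [h1, Module.Basis.coord_apply, Module.Basis.repr_sum_self]

theorem Ba.coord_cont (h : Ba L e) (j : ι) : Continuous fun v => h.B.coord j v :=
  LinearMap.continuous_of_finiteDimensional _

theorem Ba.eq (h : Ba L e) : L = ⋂ j, (fun v => h.B.coord j v) ⁻¹' (Set.range ((↑) : ℤ → ℝ)) := by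
  ext v
  rw [Set.mem_iInter]
  constructor
  · intro hv j
    obtain ⟨a, rfl⟩ := h.ex v hv
    exact ⟨a j, (h.coord_sum a j).symm⟩
  · intro hv
    choose a ha using hv
    have h1 := h.B.sum_repr v
    have h2 : v = ∑ i, a i • e i := by
      refine h1.symm.trans (Finset.sum_congr rfl fun i _ => ?_)
      have h3 : h.B.repr v i = (a i : ℝ) := (ha i).symm
      rw [h3, h.B_apply, Int.cast_smul_eq_zsmul]
    rw [h2]
    exact h.sum a

theorem Ba.closed (h : Ba L e) : IsClosed L := by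
  rw [h.eq]
  exact isClosed_iInter fun j =>
    (Int.isClosedEmbedding_coe_real.isClosed_range).preimage (h.coord_cont j)

theorem Ba.disc (h : Ba L e) : ∃ ε > 0, ∀ v ∈ L, ‖v‖ < ε → v = 0 := by
  have h1 : IsOpen (⋂ j, (fun v => h.B.coord j v) ⁻¹' ball (0 : ℝ) 1) :=
    isOpen_iInter_of_finite fun j => isOpen_ball.preimage (h.coord_cont j)
  obtain ⟨ε, hε, hb⟩ := Metric.isOpen_iff.1 h1 0 (by
    rw [Set.mem_iInter]
    intro j
    rw [Set.mem_preimage, map_zero]
    exact mem_ball_self one_pos)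
  refine ⟨ε, hε, fun v hv hvn => ?_⟩
  have h2 := hb (show v ∈ ball (0 : W) ε by rwa [mem_ball_zero_iff])
  rw [Set.mem_iInter] at h2
  obtain ⟨a, rfl⟩ := h.ex v hv
  refine Finset.sum_eq_zero fun i _ => ?_
  have h3 : h.B.coord i (∑ i, a i • e i) ∈ ball (0 : ℝ) 1 := h2 i
  rw [h.coord_sum, mem_ball_zero_iff, Real.norm_eq_abs] at h3
  have h4 : |a i| < 1 := by exact_mod_cast h3
  rw [Int.abs_lt_one_iff.1 h4, zero_smul]

end Bd_aux

open Bd_aux in
theorem tBd : S_Av → S_Bd := by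
  intro hAv Λ p N D h s e hs he
  have hinj : ∀ n, Function.Injective (D.t s n) := (hAv p N D s h hs).1
  have hB : Ba (LPs Λ D h s) e :=
    { mem := he.mem
      ex := he.ex
      li := he.li
      card := Fintype.card_fin _
      zero := fun n => (Λ _ _ _ (h.cv n)).zero _ (hinj n)
      sub := fun u hu v hv n => (Λ _ _ _ (h.cv n)).sub _ (hinj n) _ (hu n) _ (hv n) }
  have hc : ∀ a : Fin (rk D) → ℤ, ∑ j, (a j : ℂ) • e j = ∑ j, a j • e j := fun a =>
    Finset.sum_congr rfl fun j _ => Int.cast_smul_eq_zsmul ℂ (a j) (e j)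
  have h4 : ∀ (q : ℕ), q ≠ 0 → ∀ a b : Fin (rk D) → ℤ,
      ((q : ℂ)⁻¹ • ∑ j, (a j : ℂ) • e j - (q : ℂ)⁻¹ • ∑ j, (b j : ℂ) • e j ∈ LPs Λ D h s ↔
        ∀ j, (a j : ZMod q) = b j) := by
    intro q hq a b
    have hq0 : (q : ℂ) ≠ 0 := Nat.cast_ne_zero.2 hq
    have hd : ∑ j, (a j : ℂ) • e j - ∑ j, (b j : ℂ) • e j = ∑ j, (a j - b j) • e j := by
      rw [hc, hc, ← Finset.sum_sub_distrib]
      exact Finset.sum_congr rfl fun j _ => (sub_smul _ _ _).symm
    rw [← smul_sub, hd]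
    constructor
    · intro hm j
      obtain ⟨c, hcc⟩ := hB.ex _ hm
      have h5 : ∑ j, (a j - b j) • e j = ∑ j, ((q : ℤ) * c j) • e j := by
        have h6 : (q : ℂ) • ((q : ℂ)⁻¹ • ∑ j, (a j - b j) • e j) = (q : ℂ) • ∑ j, c j • e j := by
          rw [hcc]
        rw [smul_inv_smul₀ hq0] at h6
        rw [h6, Finset.smul_sum]
        refine Finset.sum_congr rfl fun j _ => ?_
        rw [mul_smul, natCast_zsmul, Nat.cast_smul_eq_nsmul]
      have h7 := hB.uniq h5 j
      rw [eq_comm, ZMod.intCast_eq_intCast_iff_dvd_sub]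
      exact ⟨c j, h7⟩
    · intro hm
      have h5 : ∀ j, ∃ c : ℤ, a j - b j = (q : ℤ) * c := by
        intro j
        have h6 := (hm j).symm
        rw [ZMod.intCast_eq_intCast_iff_dvd_sub] at h6
        exact h6
      choose c hcc using h5
      have h6 : (q : ℂ)⁻¹ • ∑ j, (a j - b j) • e j = ∑ j, c j • e j := by
        rw [inv_smul_eq_iff₀ hq0, Finset.smul_sum]
        refine Finset.sum_congr rfl fun j _ => ?_
        rw [hcc, mul_smul, natCast_zsmul, Nat.cast_smul_eq_nsmul]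
      rw [h6]
      exact hB.sum c
  refine ⟨hB.closed, hB.disc, fun u hu v hv => ⟨hB.sub u hu v hv, hB.add hu hv⟩, h4, ?_⟩
  intro v q hq hv
  have hq0 : (q : ℂ) ≠ 0 := Nat.cast_ne_zero.2 hq
  have hne : NeZero q := ⟨hq⟩
  obtain ⟨c, hcc⟩ := hB.ex _ hv
  refine ⟨fun j => (c j : ZMod q), ?_⟩
  have h5 := (h4 q hq c fun j => (((c j : ZMod q).val : ℕ) : ℤ)).2 fun j => by
    rw [Int.cast_natCast, ZMod.natCast_zmod_val]
  have h6 : v = (q : ℂ)⁻¹ • ∑ j, (c j : ℂ) • e j := by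
    rw [eq_inv_smul_iff₀ hq0, hcc, hc]
  rw [← h6] at h5
  simpa only [Int.cast_natCast] using h5

end TNF.LG
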