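import Pool.Agent.Lib.TNF.LG.Spec

/-!
# TNF/LG/Bs (helper64): a basis of the lattice exists
-/

set_option autoImplicit false

open HC HC.CC SEJ TATE Topology Metric

noncomputable section

namespace TNF.LG

namespace Bs_aux

/-- The image of a lattice under an isomorphism has a basis. -/
theorem one (T : AV) {W : Type} [NormedAddCommGroup W] [NormedSpace ℂ W]
    (κ : T.V ≃ₗ[ℂ] W) (L : Set W) (hL : κ '' {v | In T v} = L) :
    ∃ (ι : Type) (_ : Fintype ι) (B : Module.Basis ι ℝ W), (∀ i, B i ∈ L) ∧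
      ∀ v ∈ L, ∀ i, ∃ a : ℤ, B.repr v i = a := by
  have hfree : Module.Free ℤ T.L := ZLattice.module_free ℝ T.L
  have hfin : Module.Finite ℤ T.L := ZLattice.module_finite ℝ T.L
  let b : Module.Basis (Module.Free.ChooseBasisIndex ℤ T.L) ℤ T.L := Module.Free.chooseBasis ℤ T.L
  let b' : Module.Basis (Module.Free.ChooseBasisIndex ℤ T.L) ℝ T.V := b.ofZLatticeBasis ℝ T.L
  refine ⟨_, inferInstance, b'.map (κ.restrictScalars ℝ), fun i => ?_, ?_⟩
  · rw [← hL, Module.Basis.map_apply]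
    refine ⟨b' i, ?_, rfl⟩
    change b' i ∈ T.L
    rw [Module.Basis.ofZLatticeBasis_apply]
    exact (b i).2
  · intro v hv i
    rw [← hL] at hv
    obtain ⟨u, hu, rfl⟩ := hv
    refine ⟨b.repr ⟨u, hu⟩ i, ?_⟩
    have h1 : (b'.map (κ.restrictScalars ℝ)).repr (κ u) i = b'.repr u i := by
      rw [Module.Basis.map_repr]
      change b'.repr ((κ.restrictScalars ℝ).symm ((κ.restrictScalars ℝ) u)) i = _
      rw [LinearEquiv.symm_apply_apply]
    rw [h1]
    exact Module.Basis.ofZLatticeBasis_repr_apply ℝ T.L b ⟨u, hu⟩ i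

end Bs_aux

open Bs_aux in
theorem tBs : StmtTP → TATE.S_Av → S_Bs := by
  classical
  intro hTP hAv Λ p N D h s hs
  have hinj := (hAv p N D s h hs).1
  have h1 : ∀ n, ∃ (ι : Type) (_ : Fintype ι) (B : Module.Basis ι ℝ (Ix (D.m n) (D.b n) → ℂ)),
      (∀ i, B i ∈ (Λ _ _ _ (h.cv n)).L (D.t s n)) ∧
      ∀ v ∈ (Λ _ _ _ (h.cv n)).L (D.t s n), ∀ i, ∃ a : ℤ, B.repr v i = a := fun n => by
    obtain ⟨T, Z, γ, κ, -, -, -, -, -, -, h2, -⟩ := hTP (D.m n) (D.r n) (D.b n) (D.t s n)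
      (Λ _ _ _ (h.cv n)) (h.cv n) (le_trans (by norm_num) (h.r3 n)) (hinj n)
    exact one T κ _ h2
  choose ι hι B hB1 hB2 using h1
  let C : Module.Basis (Σ n, ι n) ℝ D.V := Pi.basis B
  have hcard : Fintype.card (Σ n, ι n) = rk D := (Module.finrank_eq_card_basis C).symm
  let q : (Σ n, ι n) ≃ Fin (rk D) := Fintype.equivFinOfCardEq hcard
  let E : Module.Basis (Fin (rk D)) ℝ D.V := C.reindex q
  refine ⟨E, fun i n => ?_, fun v hv => ?_, E.linearIndependent⟩
  · rw [Module.Basis.reindex_apply]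
    change (Pi.basis B (q.symm i)) n ∈ _
    obtain ⟨m, j⟩ := q.symm i
    rw [Pi.basis_apply]
    rcases eq_or_ne m n with hmn | hmn
    · subst hmn
      rw [Pi.single_eq_same]
      exact hB1 m j
    · rw [Pi.single_eq_of_ne hmn.symm]
      exact (Λ _ _ _ (h.cv n)).zero _ (hinj n)
  · have h2 : ∀ i, ∃ a : ℤ, E.repr v i = a := fun i => by
      rw [Module.Basis.repr_reindex_apply]
      obtain ⟨a, ha⟩ := hB2 (q.symm i).1 (v (q.symm i).1) (hv _) (q.symm i).2
      refine ⟨a, ?_⟩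
      rw [← ha]
      exact Pi.basis_repr B v (q.symm i)
    choose a ha using h2
    refine ⟨a, ?_⟩
    conv_lhs => rw [← E.sum_repr v]
    refine Finset.sum_congr rfl fun i _ => ?_
    rw [ha]
    exact Int.cast_smul_eq_zsmul ℝ (a i) (E i)

end TNF.LG
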