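import Pool.Agent.Lib.TNF.LG.SpecD

/-!
# TNF/LG/Bsx (helper6): the divisors give a basis
-/

set_option autoImplicit false

open HC HC.CC SEJ TATE Topology Metric

noncomputable section

namespace TNF.LG

namespace Bsx_aux

/-- The branch points of a factor are distinct. -/
theorem t_inj {p N : ℕ} {D : Dt p N} (h : D.ok) {s : Fin p → ℂ} (hs : Function.Injective s)
    (n : Fin N) : Function.Injective (D.t s n) := by
  unfold Dt.t
  cases D.k n with
  | none => exact hs.comp (h.inj n)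
  | some l =>
    intro a c hac
    change (s (D.i n a) - s l)⁻¹ = (s (D.i n c) - s l)⁻¹ at hac
    exact h.inj n (hs (sub_left_inj.mp (inv_injective hac)))

end Bsx_aux

open Bsx_aux in
theorem tBsx : S_Cnj → S_Eqc → S_Rg → S_Bsx := by
  intro hCnj hEqc hRg Λ p N D h q k s y P R d e₀ θ e hq hs he hex hdj s' hs' hsi' x hx haz e' he'
  obtain ⟨σ, hσ, hθ, hy⟩ := hCnj p (Jx D k) s y P R d e₀ θ hdj s' hs' x hx
  obtain rfl : (fun i => σ (s i)) = s' := funext hσ
  have hyv : yv R d (fun i => σ (s i)) x = fun j => σ (y j) := by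
    funext j
    exact (hy j).symm
  have hfx : FxZ D σ := by
    intro n
    have h1 := haz n
    rw [hyv] at h1
    change σ (y (Sum.inr (some n))) = ze (D.m n) 1 at h1
    rwa [hex.az n] at h1
  have hcl : ∀ i, Cls Λ D h s y i ((q : ℂ)⁻¹ • e i) := by
    intro i n
    obtain ⟨w, hw1, hw2⟩ := hex.ex i n
    refine ⟨w, hw1, ?_⟩
    rw [hw2, sub_self]
    exact (Λ _ _ _ (h.cv n)).zero _ (t_inj h hs n)
  obtain ⟨⟨T, hT⟩, _, _, hinv, _⟩ := hRg Λ p N D h σ s e e' q hq hs hfx he he'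
  obtain ⟨T', _, h1, h2⟩ := hinv T hT
  refine ⟨T, T', h1, h2, fun i => ?_⟩
  rw [hyv]
  exact (hEqc Λ p N D h k s σ y i hs hfx).2.1 _ _ (hcl i) (hT i)

end TNF.LG
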