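import Pool.Agent.Lib.TNF.LG.Spec
import Pool.Agent.Lib.TATE.FL.FL

/-!
# PROJECT TNF, LG: module Bt (transport to near points)
-/

set_option autoImplicit false

open HC HC.CC SEJ TATE Topology Metric

noncomputable section

namespace TNF.LG

namespace Bt_aux

theorem inj_open (p : ℕ) : IsOpen {s : Fin p → ℂ | Function.Injective s} := by
  have h : {s : Fin p → ℂ | Function.Injective s} =
      ⋂ q : {q : Fin p × Fin p // q.1 ≠ q.2}, {s : Fin p → ℂ | s q.1.1 ≠ s q.1.2} := by
    ext s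
    simp only [Set.mem_iInter, Set.mem_ofPred_eq]
    constructor
    · exact fun h q hq => q.2 (h hq)
    · intro h i j hij
      by_contra hne
      exact h ⟨(i, j), hne⟩ hij
  rw [h]
  exact isOpen_iInter_of_finite fun q => isOpen_ne_fun (continuous_apply _) (continuous_apply _)

variable {p N : ℕ}

theorem t_cont {D : Dt p N} (h : D.ok) {s : Fin p → ℂ} (hs : Function.Injective s) (n : Fin N) :
    ContinuousAt (fun s' => D.t s' n) s := by
  rw [continuousAt_pi]
  intro j
  unfold Dt.t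
  cases hk : D.k n with
  | none => exact (continuous_apply (D.i n j)).continuousAt
  | some l =>
    change ContinuousAt (fun s' : Fin p → ℂ => (s' (D.i n j) - s' l)⁻¹) s
    have hc : Continuous fun s' : Fin p → ℂ => s' (D.i n j) - s' l := by fun_prop
    refine ContinuousAt.inv₀ hc.continuousAt ?_
    intro h0
    have h1 := h.lt n l hk j
    have h2 : D.i n j = l := hs (sub_eq_zero.1 h0)
    exact absurd h1 (by rw [h2]; exact lt_irrefl _)

theorem trn_apply (Φ : FF) (D : Dt p N) (h : D.ok) (s s' : Fin p → ℂ) (v : D.V) (n : Fin N) :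
    HS.trn Φ D h s s' v n = (Φ _ _ _ (h.cv n)).τ (D.t s n) (D.t s' n) (v n) := rfl

theorem trn_lat (Λ : LL) (Φ : FF) (D : Dt p N) (h : D.ok) {s s' : Fin p → ℂ}
    (hs : Function.Injective s)
    (hb : ∀ n, D.t s' n ∈ ball (D.t s n) ((Φ _ _ _ (h.cv n)).ρ (D.t s n))) :
    HS.trn Φ D h s s' '' LPs Λ D h s = LPs Λ D h s' := by
  have hl : ∀ n, (Φ _ _ _ (h.cv n)).τ (D.t s n) (D.t s' n) '' (Λ _ _ _ (h.cv n)).L (D.t s n) =
      (Λ _ _ _ (h.cv n)).L (D.t s' n) := fun n =>
    (Λ _ _ _ (h.cv n)).flat _ _ (FL.t_inj h hs n) _ (hb n)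
  ext v
  constructor
  · rintro ⟨u, hu, rfl⟩ n
    rw [← hl n]
    exact ⟨u n, hu n, rfl⟩
  · intro hv
    refine ⟨(HS.trn Φ D h s s').symm v, fun n => ?_, LinearEquiv.apply_symm_apply _ _⟩
    have h1 := hv n
    rw [← hl n] at h1
    obtain ⟨u, hu, hu'⟩ := h1
    have h2 : (HS.trn Φ D h s s').symm v n = u := by
      apply ((Φ _ _ _ (h.cv n)).τ (D.t s n) (D.t s' n)).injective
      rw [hu', ← trn_apply Φ D h, LinearEquiv.apply_symm_apply]
    rw [h2]
    exact hu

/-- The inverse of a continuous family of isomorphisms is continuous. -/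
theorem symm_cont {W : Type} [NormedAddCommGroup W] [NormedSpace ℝ W] [FiniteDimensional ℝ W]
    {X : Type} [TopologicalSpace X] (T : X → (W ≃ₗ[ℝ] W)) (hT : ∀ v, Continuous fun x => T x v)
    (g : X → W) (hg : Continuous g) : Continuous fun x => (T x).symm (g x) := by
  have : CompleteSpace W := FiniteDimensional.complete ℝ W
  let A : X → (W ≃L[ℝ] W) := fun x => (T x).toContinuousLinearEquiv
  have hA : Continuous fun x => ((A x : W ≃L[ℝ] W) : W →L[ℝ] W) :=
    continuous_clm_apply.2 fun v => hT v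
  have hB : Continuous fun x => (((A x).symm : W ≃L[ℝ] W) : W →L[ℝ] W) := by
    have h1 : ∀ x, (((A x).symm : W ≃L[ℝ] W) : W →L[ℝ] W) =
        ContinuousLinearMap.inverse ((A x : W ≃L[ℝ] W) : W →L[ℝ] W) := fun x =>
      (ContinuousLinearMap.inverse_equiv (A x)).symm
    rw [funext h1]
    rw [continuous_iff_continuousAt]
    intro x
    have h2 : ContinuousAt ContinuousLinearMap.inverse ((A x : W ≃L[ℝ] W) : W →L[ℝ] W) :=
      (contDiffAt_map_inverse (n := 0) (A x)).continuousAt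
    exact ContinuousAt.comp (f := fun x => ((A x : W ≃L[ℝ] W) : W →L[ℝ] W)) h2 hA.continuousAt
  exact hB.clm_apply hg

end Bt_aux

open Bt_aux in
theorem tBt : TATE.S_Av → S_Bt := by
  intro _ Λ Φ p N D h s hs
  have h1 : ∀ᶠ s' in 𝓝 s, Function.Injective s' ∧
      ∀ n, D.t s' n ∈ ball (D.t s n) ((Φ _ _ _ (h.cv n)).ρ (D.t s n)) := by
    refine Filter.Eventually.and ((inj_open p).mem_nhds hs) ?_
    rw [Filter.eventually_all]
    intro n
    exact (t_cont h hs n) (ball_mem_nhds _ ((Φ _ _ _ (h.cv n)).rpos _ (FL.t_inj h hs n)))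
  obtain ⟨ε, hε, hb⟩ := Metric.eventually_nhds_iff_ball.1 h1
  have hcont : ∀ v, ContinuousOn (fun s' => HS.trn Φ D h s s' v) (ball s ε) := by
    intro v
    rw [continuousOn_pi]
    intro n
    have h2 : ContinuousOn (fun t' => (Φ _ _ _ (h.cv n)).τ (D.t s n) t' (v n))
        (ball (D.t s n) ((Φ _ _ _ (h.cv n)).ρ (D.t s n))) :=
      ((Φ _ _ _ (h.cv n)).hol _ (FL.t_inj h hs n) (v n)).continuousOn
    have h3 : ContinuousOn (fun s' => D.t s' n) (ball s ε) := fun s' hs' =>
      (t_cont h (hb s' hs').1 n).continuousWithinAt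
    exact h2.comp h3 fun s' hs' => (hb s' hs').2 n
  refine ⟨ε, hε, fun s' hs' => ⟨(hb s' hs').1, (hb s' hs').2, ?_, ?_, hcont, ?_⟩⟩
  · exact trn_lat Λ Φ D h hs (hb s' hs').2
  · intro e he
    have hl := trn_lat Λ Φ D h hs (hb s' hs').2
    refine ⟨fun i => ?_, fun v hv => ?_, ?_⟩
    · rw [← hl]
      exact ⟨e i, he.mem i, rfl⟩
    · rw [← hl] at hv
      obtain ⟨u, hu, rfl⟩ := hv
      obtain ⟨a, ha⟩ := he.ex u hu
      refine ⟨a, ?_⟩
      rw [ha, map_sum]
      exact Finset.sum_congr rfl fun i _ => map_zsmul _ _ _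
    · exact he.li.map' (HS.trn Φ D h s s' : D.V →ₗ[ℝ] D.V) (LinearEquiv.ker _)
  · intro X _ f g hf hg hfb
    exact symm_cont (fun x => HS.trn Φ D h s (f x))
      (fun v => (hcont v).comp_continuous hf hfb) g hg

end TNF.LG
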