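import Pool.Agent.Lib.TNF.LG.SpecE
import Pool.Agent.Lib.TATE.PA.Main

/-!
# PROJECT TNF, LG: the conjugated loop
-/

set_option autoImplicit false

open HC HC.CC SEJ TATE Topology Metric

noncomputable section

namespace TNF.LG

namespace Cjl_aux

/-- The projection to `[0, 1]`. -/
def cc (x : ℝ) : ℝ := max 0 (min 1 x)

theorem cc_cont : Continuous cc := by
  unfold cc
  fun_prop

theorem cc_mem (x : ℝ) : cc x ∈ Set.Icc (0 : ℝ) 1 :=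
  ⟨le_max_left _ _, max_le zero_le_one (min_le_left _ _)⟩

theorem cc_le {x : ℝ} (h : x ≤ 0) : cc x = 0 :=
  max_eq_left ((min_le_right _ _).trans h)

theorem cc_ge {x : ℝ} (h : 1 ≤ x) : cc x = 1 := by
  unfold cc
  rw [min_eq_left h, max_eq_right zero_le_one]

theorem tri (t : ℝ) : (cc (3 * t - 1) = 0 ∧ cc (3 * t - 2) = 0) ∨
    (cc (1 - 3 * t) = 0 ∧ cc (3 * t - 2) = 0) ∨ (cc (1 - 3 * t) = 0 ∧ cc (3 * t - 1) = 1) := by
  rcases le_total t (1 / 3) with h | h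
  · exact Or.inl ⟨cc_le (by linarith), cc_le (by linarith)⟩
  rcases le_total t (2 / 3) with h' | h'
  · exact Or.inr (Or.inl ⟨cc_le (by linarith), cc_le (by linarith)⟩)
  · exact Or.inr (Or.inr ⟨cc_le (by linarith), cc_ge (by linarith)⟩)

/-- The path. -/
def pth (δ : ℝ → ℂ) (z₁ : ℂ) (t : ℝ) : ℂ :=
  (cc (1 - 3 * t) : ℂ) * z₁ + δ (cc (3 * t - 1)) + (cc (3 * t - 2) : ℂ) * z₁

theorem pth_cont {δ : ℝ → ℂ} (hδ : Continuous δ) (z₁ : ℂ) : Continuous (pth δ z₁) := by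
  unfold pth
  have h1 : Continuous fun t : ℝ => cc (1 - 3 * t) := cc_cont.comp (by fun_prop)
  have h2 : Continuous fun t : ℝ => cc (3 * t - 1) := cc_cont.comp (by fun_prop)
  have h3 : Continuous fun t : ℝ => cc (3 * t - 2) := cc_cont.comp (by fun_prop)
  exact (((Complex.continuous_ofReal.comp h1).mul continuous_const).add (hδ.comp h2)).add
    ((Complex.continuous_ofReal.comp h3).mul continuous_const)

theorem mul_mem_ball {z₁ : ℂ} {r : ℝ} (h : z₁ ∈ ball (0 : ℂ) r) {a : ℝ}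
    (ha : a ∈ Set.Icc (0 : ℝ) 1) : (a : ℂ) * z₁ ∈ ball (0 : ℂ) r := by
  rw [mem_ball_zero_iff] at h ⊢
  rw [norm_mul, Complex.norm_real, Real.norm_of_nonneg ha.1]
  calc a * ‖z₁‖ ≤ 1 * ‖z₁‖ := mul_le_mul_of_nonneg_right ha.2 (norm_nonneg _)
    _ = ‖z₁‖ := one_mul _
    _ < r := h

section

variable {V : Type} [NormedAddCommGroup V] [NormedSpace ℂ V] {F : Set ℂ} (M : Fml V F)

/-- The transport. -/
def fr (φ : ℝ → (V ≃ₗ[ℝ] V)) (z₁ : ℂ) (t : ℝ) : V ≃ₗ[ℝ] V :=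
  (((M.τ 0 z₁).symm.trans (M.τ 0 ((cc (1 - 3 * t) : ℂ) * z₁))).trans (φ (cc (3 * t - 1)))).trans
    (M.τ 0 ((cc (3 * t - 2) : ℂ) * z₁))

theorem image_trans (A B : V ≃ₗ[ℝ] V) (X : Set V) : (A.trans B) '' X = B '' (A '' X) := by
  rw [← Set.image_comp]
  rfl

theorem image_id' (A : V ≃ₗ[ℝ] V) (h : ∀ v, A v = v) (X : Set V) : A '' X = X := by
  have h1 : (⇑A) = id := funext h
  rw [h1, Set.image_id]

theorem image_symm (A : V ≃ₗ[ℝ] V) {X Y : Set V} (h : A '' X = Y) : A.symm '' Y = X := by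
  rw [← h, ← Set.image_comp]
  have h1 : (⇑A.symm ∘ ⇑A) = id := funext fun v => A.symm_apply_apply v
  rw [h1, Set.image_id]

theorem fr_image (h0 : (0 : ℂ) ∉ F) {z₁ : ℂ} (hz : z₁ ∈ ball (0 : ℂ) (M.r 0)) {δ : ℝ → ℂ}
    (hδ : IsPth F δ 0 0) {φ : ℝ → (V ≃ₗ[ℝ] V)} (h1 : ∀ v, φ 0 v = v)
    (h2 : ∀ t ∈ Set.Icc (0 : ℝ) 1, φ t '' M.L 0 = M.L (δ t)) (t : ℝ) :
    fr M φ z₁ t '' M.L z₁ = M.L (pth δ z₁ t) := by
  have e0 : ∀ v, M.τ 0 ((0 : ℂ) * z₁) v = v := by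
    intro v
    rw [zero_mul]
    exact M.one 0 h0 v
  have hS : (M.τ 0 z₁).symm '' M.L z₁ = M.L 0 := image_symm _ (M.lat 0 h0 z₁ hz)
  unfold fr pth
  rw [image_trans, image_trans, image_trans, hS]
  rcases tri t with ⟨hb, hd⟩ | ⟨ha, hd⟩ | ⟨ha, hb⟩
  · rw [hb, hd, Complex.ofReal_zero, image_id' _ e0, image_id' _ h1, hδ.src, zero_mul, add_zero,
      add_zero]
    exact M.lat 0 h0 _ (mul_mem_ball hz (cc_mem _))
  · rw [ha, hd, Complex.ofReal_zero, image_id' _ e0, image_id' _ e0, zero_mul, zero_add, add_zero]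
    exact h2 _ (cc_mem _)
  · rw [ha, hb, Complex.ofReal_zero, image_id' _ e0, h2 1 ⟨zero_le_one, le_rfl⟩, hδ.tgt, zero_mul,
      zero_add, zero_add]
    exact M.lat 0 h0 _ (mul_mem_ball hz (cc_mem _))

theorem pth_notMem (h0 : (0 : ℂ) ∉ F) {z₁ : ℂ} (hz : z₁ ∈ ball (0 : ℂ) (M.r 0)) {δ : ℝ → ℂ}
    (hδ : IsPth F δ 0 0) (t : ℝ) : pth δ z₁ t ∉ F := by
  unfold pth
  rcases tri t with ⟨hb, hd⟩ | ⟨ha, hd⟩ | ⟨ha, hb⟩
  · rw [hb, hd, Complex.ofReal_zero, hδ.src, zero_mul, add_zero, add_zero]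
    exact M.dom 0 h0 _ (mul_mem_ball hz (cc_mem _))
  · rw [ha, hd, Complex.ofReal_zero, zero_mul, zero_add, add_zero]
    exact hδ.mem _ (cc_mem _)
  · rw [ha, hb, Complex.ofReal_zero, hδ.tgt, zero_mul, zero_add, zero_add]
    exact M.dom 0 h0 _ (mul_mem_ball hz (cc_mem _))

theorem cl_trans [FiniteDimensional ℂ V] (S T : V ≃ₗ[ℝ] V) :
    PA.cl (S.trans T) = (PA.cl T).comp (PA.cl S) := by
  ext v
  rfl

theorem tau_cont [FiniteDimensional ℂ V] (h0 : (0 : ℂ) ∉ F) {z₁ : ℂ}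
    (hz : z₁ ∈ ball (0 : ℂ) (M.r 0)) {g : ℝ → ℝ} (hg : Continuous g) (s : Set ℝ) :
    ContinuousOn (fun t => PA.cl (M.τ 0 ((cc (g t) : ℂ) * z₁))) s := by
  rw [continuousOn_clm_apply]
  intro v
  have h1 : Continuous fun t : ℝ => (cc (g t) : ℂ) * z₁ :=
    (Complex.continuous_ofReal.comp (cc_cont.comp hg)).mul continuous_const
  exact (M.hol 0 h0 v).continuousOn.comp h1.continuousOn fun t _ => mul_mem_ball hz (cc_mem _)

end

end Cjl_aux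

open Cjl_aux in
theorem tCjl : S_Cjl := by
  intro V _ _ _ F hF M h0 z₁ hz δ hδ φ hφ
  obtain ⟨h1, h2, h3⟩ := (PA.cEqv V F hF M δ 0 0 hδ φ).1 hφ
  have hp : IsPth F (pth δ z₁) z₁ z₁ := by
    refine ⟨pth_cont hδ.cont z₁, ?_, ?_, fun t _ => pth_notMem M h0 hz hδ t⟩
    · unfold pth
      rw [cc_ge (by norm_num : (1 : ℝ) ≤ 1 - 3 * 0), cc_le (by norm_num : (3 : ℝ) * 0 - 1 ≤ 0),
        cc_le (by norm_num : (3 : ℝ) * 0 - 2 ≤ 0), hδ.src]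
      simp
    · unfold pth
      rw [cc_le (by norm_num : (1 : ℝ) - 3 * 1 ≤ 0), cc_ge (by norm_num : (1 : ℝ) ≤ 3 * 1 - 1),
        cc_ge (by norm_num : (1 : ℝ) ≤ 3 * 1 - 2), hδ.tgt]
      simp
  refine ⟨pth δ z₁, fr M φ z₁, hp, (PA.cEqv V F hF M (pth δ z₁) z₁ z₁ hp _).2 ⟨?_, ?_,
    fun t _ => fr_image M h0 hz hδ h1 h3 t⟩, ?_⟩
  · intro v
    unfold fr
    rw [cc_ge (by norm_num : (1 : ℝ) ≤ 1 - 3 * 0), cc_le (by norm_num : (3 : ℝ) * 0 - 1 ≤ 0),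
      cc_le (by norm_num : (3 : ℝ) * 0 - 2 ≤ 0), Complex.ofReal_one, Complex.ofReal_zero, one_mul,
      zero_mul]
    change M.τ 0 0 (φ 0 (M.τ 0 z₁ ((M.τ 0 z₁).symm v))) = v
    rw [LinearEquiv.apply_symm_apply, h1, M.one 0 h0]
  · have e : (fun t => PA.cl (fr M φ z₁ t)) = fun t =>
        (PA.cl (M.τ 0 ((cc (3 * t - 2) : ℂ) * z₁))).comp ((PA.cl (φ (cc (3 * t - 1)))).comp
          ((PA.cl (M.τ 0 ((cc (1 - 3 * t) : ℂ) * z₁))).comp (PA.cl (M.τ 0 z₁).symm))) := by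
      funext t
      unfold fr
      rw [cl_trans, cl_trans, cl_trans]
    rw [e]
    have hφc : ContinuousOn (fun t : ℝ => PA.cl (φ (cc (3 * t - 1)))) (Set.Icc 0 1) :=
      h2.comp (f := fun t : ℝ => cc (3 * t - 1))
        (cc_cont.comp (by fun_prop : Continuous fun t : ℝ => 3 * t - 1)).continuousOn
        fun t _ => cc_mem _
    exact (tau_cont M h0 hz (by fun_prop : Continuous fun t : ℝ => 3 * t - 2) _).clm_comp
      (hφc.clm_comp ((tau_cont M h0 hz (by fun_prop : Continuous fun t : ℝ => 1 - 3 * t) _).clm_comp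
        continuousOn_const))
  · intro v
    unfold fr
    rw [cc_le (by norm_num : (1 : ℝ) - 3 * 1 ≤ 0), cc_ge (by norm_num : (1 : ℝ) ≤ 3 * 1 - 1),
      cc_ge (by norm_num : (1 : ℝ) ≤ 3 * 1 - 2), Complex.ofReal_one, Complex.ofReal_zero, one_mul,
      zero_mul]
    change M.τ 0 z₁ (φ 1 (M.τ 0 0 ((M.τ 0 z₁).symm (M.τ 0 z₁ v)))) = M.τ 0 z₁ (φ 1 v)
    rw [LinearEquiv.symm_apply_apply, M.one 0 h0]

end TNF.LG
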