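import Pool.Agent.Lib.TNF.LG.SpecD

set_option autoImplicit false

open HC HC.CC SEJ TATE Topology Metric

noncomputable section

namespace TNF.LG

theorem tCmp : S_Eqc → S_AdD → S_Bd → S_Rg → S_Cmp := by
  intro hE hA hB hR Λ p N D h q k s e y σ T T₂ A hq hinj hbas hσ hT hT₂ hrep
  have : NeZero q := ⟨hq⟩
  have hz : FxZ D σ := hσ.2
  have hse : (fun i => σ (s i)) = s := funext hσ.1
  have hbas' : IsBas Λ D h (fun i => σ (s i)) e := by
    rw [hse]
    exact hbas
  obtain ⟨-, -, -, -, -, hR6, -⟩ := hR Λ p N D h σ s e e q hq hinj hz hbas hbas'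
  obtain ⟨-, -, -, hA4, -⟩ := hA Λ p N D h σ s hinj hz
  obtain ⟨-, -, -, hB4, -⟩ := hB Λ p N D h s e hinj hbas
  have key : ∀ i j, T₂ j i = (A * T) j i := by
    intro i
    have h1 : ActD Λ D h σ s (vq D q T e i) (vq D q T₂ e i) := by
      apply (hE Λ p N D h k s σ y i hinj hz).1 _ _ (hT i)
      rw [hse]
      exact hT₂ i
    have h2 : ActD Λ D h σ s (vq D q T e i) (vq D q (A * T) e i) := hR6 A hrep T i
    have h3 := hA4 _ _ _ h1 h2
    rw [hse] at h3
    have h4 := (hB4 q hq (fun j => ((T₂ j i).val : ℤ)) (fun j => (((A * T) j i).val : ℤ))).mp (by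
      simp only [Int.cast_natCast]
      exact h3)
    intro j
    have h5 : (((T₂ j i).val : ℤ) : ZMod q) = ((((A * T) j i).val : ℤ) : ZMod q) := h4 j
    rw [Int.cast_natCast, Int.cast_natCast, ZMod.natCast_zmod_val, ZMod.natCast_zmod_val] at h5
    exact h5
  ext j i
  exact key i j

end TNF.LG
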