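import Pool.Agent.Lib.TNF.LG.SpecD

/-!
# TNF/LG/Cnj (helper6): all roots at generic points are conjugate
-/

set_option autoImplicit false

open HC HC.CC SEJ TATE Topology Metric

noncomputable section

namespace TNF.LG

namespace Cnj_aux

variable {p : ℕ}

theorem scf (σ : ℂ ≃+* ℂ) {s s' : Fin p → ℂ} (h : ∀ i, σ (s i) = s' i) (a : QS p) :
    σ (cf s a) = cf s' a := by
  have h1 : (σ : ℂ →+* ℂ).comp (cf s) = cf s' := by
    refine MvPolynomial.ringHom_ext ?_ ?_
    · intro a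
      have h1 : cf s (MvPolynomial.C a) = algebraMap ℚ ℂ a := MvPolynomial.aeval_C _ _
      have h2 : cf s' (MvPolynomial.C a) = algebraMap ℚ ℂ a := MvPolynomial.aeval_C _ _
      rw [RingHom.comp_apply, h1, h2]
      exact map_ratCast (σ : ℂ →+* ℂ) a
    · intro i
      have h1 : cf s (MvPolynomial.X i) = s i := MvPolynomial.aeval_X _ _
      have h2 : cf s' (MvPolynomial.X i) = s' i := MvPolynomial.aeval_X _ _
      rw [RingHom.comp_apply, h1, h2]
      exact h i
  exact congrArg (fun f : QS p →+* ℂ => f a) h1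

theorem sev (σ : ℂ ≃+* ℂ) {s s' : Fin p → ℂ} (h : ∀ i, σ (s i) = s' i) (g : Polynomial (QS p))
    (x : ℂ) : σ (g.eval₂ (cf s) x) = g.eval₂ (cf s') (σ x) := by
  have h1 : (σ : ℂ →+* ℂ).comp (cf s) = cf s' := RingHom.ext fun a => scf σ h a
  have h2 := Polynomial.hom_eval₂ g (cf s) (σ : ℂ →+* ℂ) x
  rw [h1] at h2
  exact h2

end Cnj_aux

open Cnj_aux in
theorem tCnj : S_Gz → S_Cnj := by
  intro hGz p J s y P R d e θ h s' hs' x hx
  obtain ⟨σ₁, hσ, _⟩ := hGz p s s' h.ind hs'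
  have hmem : ∀ x : ℂ, (PS P s).eval x = 0 → ∀ g : Polynomial (QS p),
      g.eval₂ (cf s) x = 0 ↔ P ∣ g := by
    intro x hx g
    constructor
    · exact h.ker x hx g
    · rintro ⟨q, rfl⟩
      rw [Polynomial.eval₂_mul, ← PS_eval P, hx, zero_mul]
  have hx₁ : (PS P s).eval (σ₁.symm x) = 0 := by
    have h1 := sev σ₁ hσ P (σ₁.symm x)
    rw [RingEquiv.apply_symm_apply, ← PS_eval, ← PS_eval, hx] at h1
    exact (map_eq_zero_iff σ₁ σ₁.injective).mp h1
  have hv : ∀ g : Polynomial (QS p), g.eval₂ (cf s') x = 0 ↔ P ∣ g := by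
    intro g
    have h1 := sev σ₁ hσ g (σ₁.symm x)
    rw [RingEquiv.apply_symm_apply] at h1
    rw [← hmem _ hx₁ g, ← h1, map_eq_zero_iff σ₁ σ₁.injective]
  obtain ⟨τ, hτ⟩ := exists_aut_of_ker (Polynomial.eval₂RingHom (cf s) θ)
    (Polynomial.eval₂RingHom (cf s') x) fun g => (hmem θ h.root g).trans (hv g).symm
  have key : ∀ g : Polynomial (QS p), τ (g.eval₂ (cf s) θ) = g.eval₂ (cf s') x := fun g => hτ g
  have hcf : ∀ a : QS p, τ (cf s a) = cf s' a := by
    intro a
    have h1 := key (Polynomial.C a)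
    rwa [Polynomial.eval₂_C, Polynomial.eval₂_C] at h1
  refine ⟨τ, fun i => ?_, ?_, fun j => ?_⟩
  · have h1 := hcf (MvPolynomial.X i)
    have h2 : cf s (MvPolynomial.X i) = s i := MvPolynomial.aeval_X s i
    have h3 : cf s' (MvPolynomial.X i) = s' i := MvPolynomial.aeval_X s' i
    rwa [h2, h3] at h1
  · have h1 := key Polynomial.X
    rwa [Polynomial.eval₂_X, Polynomial.eval₂_X] at h1
  · have hd : cf s' d ≠ 0 := by
      rw [← hcf d]
      exact (map_ne_zero_iff τ τ.injective).mpr h.dne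
    have h1 := key (R j)
    rw [← PS_eval, ← PS_eval, h.val j, map_mul, hcf] at h1
    rw [eq_div_iff hd, mul_comm, h1]

end TNF.LG
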