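import Pool.Agent.Lib.TNF.LG.SpecD

/-!
# TNF, package LG: module Cst, roots of unity are locally constant (helper77)
-/

set_option autoImplicit false

open HC HC.CC SEJ TATE Topology Metric

noncomputable section

namespace TNF.LG

namespace Cst_aux

lemma finite_roots (m : ℕ) (hm : m ≠ 0) : {z : ℂ | z ^ m = 1}.Finite := by
  have hne : (Polynomial.X ^ m - Polynomial.C (1 : ℂ)) ≠ 0 :=
    Polynomial.X_pow_sub_C_ne_zero (Nat.pos_of_ne_zero hm) 1
  refine ((Polynomial.X ^ m - Polynomial.C (1 : ℂ)).roots.toFinset.finite_toSet).subset ?_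
  intro z hz
  have hz' : z ^ m = 1 := hz
  rw [Finset.mem_coe, Multiset.mem_toFinset, Polynomial.mem_roots hne]
  simp [Polynomial.IsRoot, hz']

end Cst_aux

theorem tCst : S_Cst := by
  intro p m s₀ ε f hm hε hf h s hs
  have hpre : IsPreconnected (ball s₀ ε) := (convex_ball s₀ ε).isPreconnected
  have himg : IsPreconnected (f '' ball s₀ ε) := hpre.image f hf
  have hsub : f '' ball s₀ ε ⊆ {z : ℂ | z ^ m = 1} := by
    rintro _ ⟨s', hs', rfl⟩
    exact h s' hs'
  have hss : (f '' ball s₀ ε).Subsingleton :=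
    (Set.Countable.isTotallyDisconnected ((Cst_aux.finite_roots m hm).subset hsub).countable) _ Set.Subset.rfl himg
  exact hss ⟨s, hs, rfl⟩ ⟨s₀, mem_ball_self hε, rfl⟩

end TNF.LG
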