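import Pool.Agent.Lib.TNF.LG.Spec

/-!
# PROJECT TNF, package LG: the cyclotomic character
-/

set_option autoImplicit false

open HC HC.CC SEJ TATE Topology Metric

noncomputable section

namespace TNF.LG

namespace Cy_aux

theorem pv {q : ℕ} (ξ : ℂ) (h : ξ ^ q = 1) (n : ℕ) : ξ ^ (n : ZMod q).val = ξ ^ n := by
  rw [ZMod.val_natCast, ← pow_eq_pow_mod n h]

theorem ex (σ : ℂ ≃+* ℂ) (q : ℕ) (hq : q ≠ 0) : ∃ c, Cyq σ q c := by
  have : NeZero q := ⟨hq⟩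
  have hζ := Complex.isPrimitiveRoot_exp q hq
  obtain ⟨i, -, hi⟩ := hζ.eq_pow_of_pow_eq_one (ξ := σ (Complex.exp (2 * Real.pi * Complex.I / q)))
    (by rw [← map_pow, hζ.pow_eq_one, map_one])
  refine ⟨(i : ZMod q), fun ξ hξ => ?_⟩
  obtain ⟨j, -, rfl⟩ := hζ.eq_pow_of_pow_eq_one hξ
  rw [pv _ hξ, map_pow, ← hi, ← pow_mul, ← pow_mul, mul_comm i j]

theorem inj {q : ℕ} (hq : q ≠ 0) {ξ : ℂ} (hξ : IsPrimitiveRoot ξ q) {c c' : ZMod q}
    (h : ξ ^ c.val = ξ ^ c'.val) : c = c' := by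
  have : NeZero q := ⟨hq⟩
  exact ZMod.val_injective q (hξ.pow_inj (ZMod.val_lt c) (ZMod.val_lt c') h)

theorem uq {σ : ℂ ≃+* ℂ} {q : ℕ} (hq : q ≠ 0) {c c' : ZMod q} (h : Cyq σ q c) (h' : Cyq σ q c') : c = c' := by
  have hζ := Complex.isPrimitiveRoot_exp q hq
  exact inj hq hζ ((h _ hζ.pow_eq_one).symm.trans (h' _ hζ.pow_eq_one))

theorem comp {σ τ : ℂ ≃+* ℂ} {q : ℕ} {c c' : ZMod q} (h : Cyq σ q c) (h' : Cyq τ q c') :
    Cyq (σ.trans τ) q (c' * c) := by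
  intro ξ hξ
  rw [RingEquiv.trans_apply, h ξ hξ, map_pow, h' ξ hξ, ← pow_mul, ZMod.val_mul, ← pow_eq_pow_mod _ hξ]

theorem one (q : ℕ) : Cyq (RingEquiv.refl ℂ) q 1 := by
  intro ξ hξ
  have h := pv ξ hξ 1
  rw [Nat.cast_one, pow_one] at h
  exact h.symm

end Cy_aux

open Cy_aux in
theorem tCy : S_Cy := by
  intro σ q hq
  refine ⟨ex σ q hq, fun c c' => uq hq, fun τ c c' => comp, ?_, one q, ?_, ?_⟩
  · intro c hc
    obtain ⟨c', hc'⟩ := ex σ.symm q hq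
    have h := comp hc hc'
    rw [RingEquiv.self_trans_symm] at h
    have h1 : c' * c = 1 := uq hq h (one q)
    exact ⟨c', hc', by rw [mul_comm, h1], h1⟩
  · intro q' hq' h0 c hc ξ hξ
    have : NeZero q' := ⟨h0⟩
    obtain ⟨d, rfl⟩ := hq'
    have h1 : ξ ^ (q * d) = 1 := by rw [pow_mul, hξ, one_pow]
    have h2 : ZMod.castHom (Dvd.intro d rfl) (ZMod q) c = ((c.val : ℕ) : ZMod q) := by
      conv_lhs => rw [← ZMod.natCast_zmod_val c]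
      exact map_natCast _ _
    rw [h2, pv ξ hξ, hc ξ h1]
  · intro ξ c c' hξ hc h
    exact inj hq hξ ((hc ξ hξ.pow_eq_one).symm.trans h)

end TNF.LG
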