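import Pool.Agent.Lib.TNF.LG.SpecD

/-!
# TNF, package LG, Dat: the data exist for a finite index type (helper42)
-/

set_option autoImplicit false

open Topology Metric HC HC.CC SEJ TATE

noncomputable section

namespace TNF.LG

namespace Dat_aux

theorem ren {p k : ℕ} {J : Type} (ε : J ≃ Fin k) (s : Fin p → ℂ) (z : Fin k → ℂ)
    (f : MvPolynomial (Fin p ⊕ J) ℚ) :
    MvPolynomial.aeval (Sum.elim s z) (MvPolynomial.rename (Sum.map id ε) f) =
      MvPolynomial.aeval (Sum.elim s fun j => z (ε j)) f := by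
  rw [MvPolynomial.aeval_rename]
  congr 2
  funext i
  rcases i with i | i <;> rfl

end Dat_aux

open Dat_aux in
theorem tDat : S_Iri → S_Nvf → S_Dat := by
  intro hIri hNvf p J _ s y hs hy
  have hε : J ≃ Fin (Fintype.card J) := Fintype.equivFin J
  set z : Fin (Fintype.card J) → ℂ := fun i => y (hε.symm i) with hz
  have hzy : (fun j => z (hε j)) = y := by
    funext j; rw [hz]; simp
  obtain ⟨P, R, d, e, θ, hD⟩ := exists_dat s hs z fun i => hy _
  obtain ⟨h1, h2⟩ := hIri p _ s z P R d e θ hD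
  have hne : e ≠ 0 := fun h0 => hD.e0 (by rw [h0, map_zero])
  refine ⟨P, fun j => R (hε j), d, e, θ, hs, hne, h1, h2, hD.good, (hD.good s hD.e0).2, hD.root,
    fun j => ?_, hD.ker, fun s' x hd hx f hf => ?_, fun f hf => ?_⟩
  · rw [hD.val (hε j)]
    congr 1
    exact congrFun hzy j
  · have h3 := hD.spc s' x (fun i => (PS (R i) s').eval x / cf s' d) hd hx fun i => by
      rw [mul_div_cancel₀ _ hd]
    have h4 := h3 (MvPolynomial.rename (Sum.map id hε) f) (by rw [ren, hzy]; exact hf)
    rw [ren] at h4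
    exact h4
  · obtain ⟨Δ, h3, h4⟩ := hNvf p _ s z P R d e θ hs hD (MvPolynomial.rename (Sum.map id hε) f)
      (by rw [ren, hzy]; exact hf)
    refine ⟨Δ, h3, fun s' h5 h6 x h7 => ?_⟩
    have h8 := h4 s' h5 h6 x h7
    rw [ren] at h8
    exact h8

end TNF.LG
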