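import Pool.Agent.Lib.TNF.LG.SpecE

/-!
# PROJECT TNF, package LG: deformation of a divisor (`S_Df`)
-/

set_option autoImplicit false

open HC HC.CC SEJ TATE Topology Metric

noncomputable section

namespace TNF.LG

namespace Df_aux

/-- `g` independent vectors of a space of dimension `g`: the combinations are bijective. -/
theorem bij {ι : Type} [Fintype ι] (v : Fin (Fintype.card ι) → (ι → ℂ))
    (hv : LinearIndependent ℂ v) :
    Function.Bijective (fun x : Fin (Fintype.card ι) → ℂ => ∑ a, x a • v a) := by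
  let f : (Fin (Fintype.card ι) → ℂ) →ₗ[ℂ] (ι → ℂ) := Fintype.linearCombination ℂ v
  have hf : ∀ x, f x = ∑ a, x a • v a := fun x => Fintype.linearCombination_apply ℂ v x
  have h1 : Function.Injective f := by
    have h2 := linearIndependent_iff_injective_fintypeLinearCombination.1 hv
    exact h2
  have h3 : Function.Surjective f := by
    apply (LinearMap.injective_iff_surjective_of_finrank_eq_finrank _).1 h1
    simp
  have h4 : (fun x : Fin (Fintype.card ι) → ℂ => ∑ a, x a • v a) = f := by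
    funext x
    exact (hf x).symm
  rw [h4]
  exact ⟨h1, h3⟩

end Df_aux

/-- **Df**. -/
theorem tDf : S_Dfa → S_Dfb → S_Df := by
  intro hA hB m r b ε t hb hε ht hinj K Q' Q w hw R hR u hu hu0
  obtain ⟨ε₁, hε₁, hε₁', q', q, ρ, ρ', F, hq, hρ, hF, hF0, hF', hx⟩ :=
    hA m r b ε t hb hε ht hinj K Q' Q w hw R hR
  obtain ⟨ε₂, hε₂, hε₂', x, hxd, hx0, hxe⟩ := hB (Fintype.card (Ix m b)) (Ix m b → ℂ)
    (fun a => (R a).1) ε₁ F u hε₁ hF (hu.mono (ball_subset_ball hε₁')) (by rw [hF0, hu0]) (by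
      have h1 : (fun x : Fin (Fintype.card (Ix m b)) → ℂ =>
          fderiv ℂ F (0, fun a => (R a).1) (0, x)) =
          fun x => ∑ a, x a • om m b (t 0) (R a) := by
        funext x
        exact hF' x
      rw [h1]
      exact Df_aux.bij _ hR.li)
  have hsub : ball (0 : ℂ) ε₂ ⊆ ball (0 : ℂ) ε₁ := ball_subset_ball hε₂'
  refine ⟨ε₂, hε₂, hε₂'.trans hε₁', q', q, ρ, fun a z => ρ' a (z, x z), ?_, ?_, ?_⟩
  · intro a
    obtain ⟨h1, h2, h3, h4, h5⟩ := hq a
    exact ⟨h1.mono hsub, h2.mono hsub, h3, h4, fun z hz => h5 z (hsub hz)⟩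
  · intro a
    obtain ⟨h1, h2, h3, h4, h5, h6⟩ := hρ a
    refine ⟨h1.mono hsub, ?_, h2, ?_, fun z hz => h3 z (hsub hz)⟩
    · have h7 : DifferentiableOn ℂ (fun z : ℂ => (z, x z)) (ball 0 ε₂) :=
        differentiableOn_id.prodMk hxd
      exact h4.comp h7 fun z hz => (hxe z hz).1
    · show ρ' a (0, x 0) = R a
      rw [hx0]
      exact h5
  · intro z hz
    obtain ⟨h1, h2⟩ := hxe z hz
    obtain ⟨h3, h4, v, v', h5, h6, h7⟩ := hx (z, x z) h1
    exact ⟨h3, h4, v, v', h5, h6, by rw [h7, h2]⟩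

end TNF.LG
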