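import Pool.Agent.Lib.TNF.LG.SpecE

/-!
# PROJECT TNF, package LG: the sum of the integrals as a holomorphic function (helper64)
-/

set_option autoImplicit false

open HC HC.CC SEJ TATE Topology Metric

noncomputable section

namespace TNF.LG

namespace Dfa_aux

variable {m r : ℕ} {b : Fin (r + 1) → ℕ}

theorem exists_min_pos {ι : Type} [Finite ι] (f : ι → ℝ) (hf : ∀ i, 0 < f i) :
    ∃ ε > 0, ∀ i, ε ≤ f i := by
  rcases isEmpty_or_nonempty ι with h | h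
  · exact ⟨1, one_pos, fun i => (h.false i).elim⟩
  · obtain ⟨i₀, hi⟩ := Finite.exists_min f
    exact ⟨f i₀, hf i₀, hi⟩

/-- Injectivity near `0`. -/
theorem inj_near {ε : ℝ} {t : ℂ → (Fin (r + 1) → ℂ)} (hε : 0 < ε)
    (ht : DifferentiableOn ℂ t (ball 0 ε)) (h0 : Function.Injective (t 0)) :
    ∃ ε' > 0, ∀ z ∈ ball (0 : ℂ) ε', Function.Injective (t z) := by
  have hc : ContinuousAt t 0 := (ht.differentiableAt (ball_mem_nhds 0 hε)).continuousAt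
  have h1 : ∀ᶠ z in 𝓝 (0 : ℂ), ∀ i j : Fin (r + 1), i ≠ j → t z i ≠ t z j := by
    refine Filter.eventually_all.2 fun i => Filter.eventually_all.2 fun j => ?_
    by_cases hij : i = j
    · exact Filter.Eventually.of_forall fun z h => absurd hij h
    · have h2 : t 0 i ≠ t 0 j := fun h => hij (h0 h)
      have h3 := (continuousAt_pi.1 hc i).ne_iff_eventually_ne (continuousAt_pi.1 hc j)
      filter_upwards [h3.1 h2] with z hz _
      exact hz
  obtain ⟨ε', hε', h2⟩ := Metric.eventually_nhds_iff_ball.1 h1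
  refine ⟨ε', hε', fun z hz i j hij => ?_⟩
  by_contra h3
  exact h2 z hz i j h3 hij

/-- Parameters in a finite dimensional space. -/
theorem par (hFA : StmtFA2) (hb : Cvb m b) (E : Type) [NormedAddCommGroup E] [NormedSpace ℂ E]
    [FiniteDimensional ℂ E] (U : Set E) (x₀ : E) (t : E → (Fin (r + 1) → ℂ))
    (P Q : E → ℂ × ℂ) (v₀ : Ix m b → ℂ) (hU : IsOpen U) (hx : x₀ ∈ U)
    (ht : DifferentiableOn ℂ t U) (hP : DifferentiableOn ℂ P U) (hQ : DifferentiableOn ℂ Q U)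
    (hm : ∀ x ∈ U, Function.Injective (t x) ∧ P x ∈ Pts m b (t x) ∧ Q x ∈ Pts m b (t x))
    (h0 : Itg m b (t x₀) (P x₀) (Q x₀) v₀) :
    ∃ U' ⊆ U, IsOpen U' ∧ x₀ ∈ U' ∧ ∃ v : E → (Ix m b → ℂ), DifferentiableOn ℂ v U' ∧
      v x₀ = v₀ ∧ ∀ x ∈ U', Itg m b (t x) (P x) (Q x) (v x) := by
  let κ : E ≃L[ℂ] (Fin (Module.finrank ℂ E) → ℂ) := (Module.finBasis ℂ E).equivFunL
  have hd : ∀ {W : Type} [NormedAddCommGroup W] [NormedSpace ℂ W] (f : E → W),
      DifferentiableOn ℂ f U → DifferentiableOn ℂ (fun y => f (κ.symm y)) (κ.symm ⁻¹' U) := by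
    intro W _ _ f hf
    exact hf.comp κ.symm.differentiable.differentiableOn fun y hy => hy
  obtain ⟨U', hU', hU'o, hxU', v, hv, hv0, hvI⟩ := (hFA m r b hb).2.2.2.2.1 _ (κ.symm ⁻¹' U) (κ x₀)
    (fun y => t (κ.symm y)) (fun y => P (κ.symm y)) (fun y => Q (κ.symm y)) v₀
    (hU.preimage κ.symm.continuous) (by simpa using hx) (hd t ht) (hd P hP) (hd Q hQ)
    (fun y hy => hm _ hy) (by simpa using h0)
  refine ⟨κ ⁻¹' U', ?_, hU'o.preimage κ.continuous, hxU', fun x => v (κ x), ?_, hv0, ?_⟩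
  · intro x hx
    have h1 := hU' hx
    simpa using h1
  · exact hv.comp κ.differentiable.differentiableOn fun x hx => hx
  · intro x hx
    have h1 := hvI _ hx
    simpa using h1

/-- The branch at a point of the curve, with the parameter `z`. -/
theorem br (hYb : S_Yb) (hb : Cvb m b) {ε : ℝ} {t : ℂ → (Fin (r + 1) → ℂ)} (hε : 0 < ε)
    (ht : DifferentiableOn ℂ t (ball 0 ε)) (h0 : Function.Injective (t 0)) (P : ℂ × ℂ)
    (hP : P ∈ Pts m b (t 0)) : ∃ ε' > 0, ε' ≤ ε ∧ ∃ η : ℂ × ℂ → ℂ,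
      DifferentiableOn ℂ η (ball (0, P.1) ε') ∧ η (0, P.1) = P.2 ∧
      ∀ x ∈ ball ((0 : ℂ), P.1) ε', Function.Injective (t x.1) ∧
        (x.2, η x) ∈ Pts m b (t x.1) := by
  obtain ⟨ε₀, hε₀, η, hη, hη0, hηm⟩ := hYb m r b (t 0) hb h0 P hP
  have hc : ContinuousAt t 0 :=
    (ht.differentiableAt (ball_mem_nhds 0 hε)).continuousAt
  obtain ⟨δ, hδ, hδt⟩ := Metric.continuousAt_iff.1 hc ε₀ hε₀
  have hε' : 0 < min ε (min δ ε₀) := lt_min hε (lt_min hδ hε₀)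
  have hmap : ∀ x ∈ ball ((0 : ℂ), P.1) (min ε (min δ ε₀)), x.1 ∈ ball (0 : ℂ) ε ∧
      (t x.1, x.2) ∈ ball (t 0, P.1) ε₀ := by
    rintro ⟨z, x⟩ hx
    rw [← ball_prod_same] at hx
    obtain ⟨h1, h2⟩ := hx
    refine ⟨ball_subset_ball (min_le_left _ _) h1, ?_⟩
    rw [← ball_prod_same]
    exact ⟨hδt (lt_of_lt_of_le (mem_ball.1 h1) ((min_le_right _ _).trans (min_le_left _ _))),
      ball_subset_ball ((min_le_right _ _).trans (min_le_right _ _)) h2⟩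
  refine ⟨_, hε', min_le_left _ _, fun x => η (t x.1, x.2), ?_, hη0, ?_⟩
  · refine hη.comp (DifferentiableOn.prodMk ?_ ?_) fun x hx => (hmap x hx).2
    · exact ht.comp differentiableOn_fst fun x hx => (hmap x hx).1
    · exact differentiableOn_snd
  · intro x hx
    exact hηm _ (hmap x hx).2

/-- `om` is continuous. -/
theorem om_cont {X : Type} [TopologicalSpace X] {x₀ : X} (t : X → (Fin (r + 1) → ℂ))
    (P : X → ℂ × ℂ) (ht : ContinuousAt t x₀) (hP : ContinuousAt P x₀)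
    (h : (P x₀).1 ∉ Set.range (t x₀)) : ContinuousAt (fun x => om m b (t x) (P x)) x₀ := by
  refine continuousAt_pi.2 fun p => ?_
  unfold om
  have h1 : ContinuousAt (fun x => (P x).1) x₀ := continuousAt_fst.comp hP
  have h2 : ContinuousAt (fun x => (P x).2) x₀ := continuousAt_snd.comp hP
  have h3 : ∀ j, ContinuousAt (fun x => t x j) x₀ := fun j => (continuousAt_pi.1 ht) j
  refine ContinuousAt.div ((h1.pow _).mul (h2.pow _)) ?_ ?_
  · exact tendsto_finsetProd _ fun j _ => ((h1.sub (h3 j)).pow _)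
  · refine Finset.prod_ne_zero_iff.2 fun j _ => pow_ne_zero _ ?_
    intro h4
    exact h ⟨j, (sub_eq_zero.1 h4).symm⟩

/-- The first kind of integrals. -/
theorem typ1 (hFA : StmtFA2) (hYb : S_Yb) (hb : Cvb m b) {ε : ℝ} {t : ℂ → (Fin (r + 1) → ℂ)}
    (hε : 0 < ε) (ht : DifferentiableOn ℂ t (ball 0 ε)) (h0 : Function.Injective (t 0))
    (Q' Q : ℂ × ℂ) (w : Ix m b → ℂ) (hw : Itg m b (t 0) Q' Q w) :
    ∃ ε' > 0, ε' ≤ ε ∧ ∃ (q' q : ℂ → ℂ × ℂ) (u : ℂ → (Ix m b → ℂ)),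
      DifferentiableOn ℂ q' (ball 0 ε') ∧ DifferentiableOn ℂ q (ball 0 ε') ∧
      DifferentiableOn ℂ u (ball 0 ε') ∧ q' 0 = Q' ∧ q 0 = Q ∧ u 0 = w ∧
      ∀ z ∈ ball (0 : ℂ) ε', (q' z).1 = Q'.1 ∧ (q z).1 = Q.1 ∧
        Itg m b (t z) (q' z) (q z) (u z) := by
  obtain ⟨hQ', hQ, -⟩ := (hFA m r b hb).2.2.1 _ h0 _ _ _ hw
  obtain ⟨ε₁, hε₁, hε₁ε, η₁, hη₁, hη₁0, hm₁⟩ := br hYb hb hε ht h0 Q' hQ'
  obtain ⟨ε₂, hε₂, hε₂ε, η₂, hη₂, hη₂0, hm₂⟩ := br hYb hb hε ht h0 Q hQ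
  have hmap : ∀ (x₀ : ℂ) (ε' : ℝ), ∀ z ∈ ball (0 : ℂ) ε', (z, x₀) ∈ ball ((0 : ℂ), x₀) ε' := by
    intro x₀ ε' z hz
    rw [← ball_prod_same]
    exact ⟨hz, mem_ball_self (lt_of_le_of_lt dist_nonneg (mem_ball.1 hz))⟩
  have hdd : ∀ (x₀ : ℂ) (ε' : ℝ) (η : ℂ × ℂ → ℂ), DifferentiableOn ℂ η (ball (0, x₀) ε') →
      DifferentiableOn ℂ (fun z : ℂ => (x₀, η (z, x₀))) (ball 0 ε') := by
    intro x₀ ε' η hη
    refine (differentiableOn_const _).prodMk ?_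
    exact hη.comp (differentiableOn_id.prodMk (differentiableOn_const _)) fun z hz =>
      hmap x₀ ε' z hz
  have hd₁ := (hdd _ _ _ hη₁).mono (ball_subset_ball (min_le_left ε₁ ε₂))
  have hd₂ := (hdd _ _ _ hη₂).mono (ball_subset_ball (min_le_right ε₁ ε₂))
  have hε₃ : 0 < min ε₁ ε₂ := lt_min hε₁ hε₂
  obtain ⟨U', hU', hU'o, h0U', u, hu, hu0, huI⟩ := par hFA hb ℂ (ball 0 (min ε₁ ε₂)) 0 t
    (fun z => (Q'.1, η₁ (z, Q'.1))) (fun z => (Q.1, η₂ (z, Q.1))) w isOpen_ball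
    (mem_ball_self hε₃) (ht.mono (ball_subset_ball ((min_le_left _ _).trans hε₁ε))) hd₁ hd₂
    (by
      intro z hz
      have h1 := hm₁ _ (hmap Q'.1 ε₁ z (ball_subset_ball (min_le_left _ _) hz))
      have h2 := hm₂ _ (hmap Q.1 ε₂ z (ball_subset_ball (min_le_right _ _) hz))
      exact ⟨h1.1, h1.2, h2.2⟩)
    (by
      simp only [hη₁0, hη₂0]
      exact hw)
  obtain ⟨ε₄, hε₄, hball⟩ := Metric.isOpen_iff.1 hU'o 0 h0U'
  refine ⟨min ε₄ (min ε₁ ε₂), lt_min hε₄ hε₃, (min_le_right _ _).trans ((min_le_left _ _).trans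
    hε₁ε), _, _, u, hd₁.mono (ball_subset_ball (min_le_right _ _)),
    hd₂.mono (ball_subset_ball (min_le_right _ _)),
    hu.mono ((ball_subset_ball (min_le_left _ _)).trans hball), ?_, ?_, hu0, ?_⟩
  · simp only [hη₁0]
  · simp only [hη₂0]
  · intro z hz
    exact ⟨rfl, rfl, huI z (hball (ball_subset_ball (min_le_left _ _) hz))⟩

/-- The second kind of integrals. -/
theorem typ2 (hFA : StmtFA2) (hYb : S_Yb) (hb : Cvb m b) {ε : ℝ} {t : ℂ → (Fin (r + 1) → ℂ)}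
    (hε : 0 < ε) (ht : DifferentiableOn ℂ t (ball 0 ε)) (h0 : Function.Injective (t 0))
    (R : ℂ × ℂ) (hR : R ∈ Pts m b (t 0)) :
    ∃ ε' > 0, ε' ≤ ε ∧ ∃ (ρ : ℂ → ℂ × ℂ) (ρ' : ℂ × ℂ → ℂ × ℂ) (v : ℂ × ℂ → (Ix m b → ℂ)),
      DifferentiableOn ℂ ρ (ball 0 ε') ∧ DifferentiableOn ℂ ρ' (ball (0, R.1) ε') ∧
      DifferentiableOn ℂ v (ball (0, R.1) ε') ∧ ρ 0 = R ∧ ρ' (0, R.1) = R ∧ v (0, R.1) = 0 ∧
      HasDerivAt (fun x => v (0, x)) (om m b (t 0) R) R.1 ∧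
      (∀ z ∈ ball (0 : ℂ) ε', (ρ z).1 = R.1) ∧
      ∀ x ∈ ball ((0 : ℂ), R.1) ε', (ρ' x).1 = x.2 ∧ Function.Injective (t x.1) ∧
        ρ' x ∈ Pts m b (t x.1) ∧ Itg m b (t x.1) (ρ x.1) (ρ' x) (v x) := by
  obtain ⟨ε₁, hε₁, hε₁ε, η, hη, hη0, hm₁⟩ := br hYb hb hε ht h0 R hR
  have hmap : ∀ z ∈ ball (0 : ℂ) ε₁, (z, R.1) ∈ ball ((0 : ℂ), R.1) ε₁ := by
    intro z hz
    rw [← ball_prod_same]
    exact ⟨hz, mem_ball_self hε₁⟩
  have hfst : ∀ x ∈ ball ((0 : ℂ), R.1) ε₁, x.1 ∈ ball (0 : ℂ) ε₁ := by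
    intro x hx
    rw [← ball_prod_same] at hx
    exact hx.1
  have hd₁ : DifferentiableOn ℂ (fun z : ℂ => (R.1, η (z, R.1))) (ball 0 ε₁) := by
    refine (differentiableOn_const _).prodMk ?_
    exact hη.comp (differentiableOn_id.prodMk (differentiableOn_const _)) hmap
  have hd₂ : DifferentiableOn ℂ (fun x : ℂ × ℂ => (x.2, η x)) (ball (0, R.1) ε₁) :=
    differentiableOn_snd.prodMk hη
  obtain ⟨U', hU', hU'o, h0U', v, hv, hv0, hvI⟩ := par hFA hb (ℂ × ℂ) (ball (0, R.1) ε₁)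
    (0, R.1) (fun x => t x.1) (fun x => (R.1, η (x.1, R.1))) (fun x => (x.2, η x)) 0 isOpen_ball
    (mem_ball_self hε₁)
    ((ht.mono (ball_subset_ball hε₁ε)).comp differentiableOn_fst hfst)
    (hd₁.comp differentiableOn_fst hfst) hd₂
    (by
      intro x hx
      have h1 := hm₁ _ (hmap x.1 (hfst x hx))
      have h2 := hm₁ _ hx
      exact ⟨h1.1, h1.2, h2.2⟩)
    (by
      have h1 : (R.1, η (0, R.1)) = R := by rw [hη0]
      simp only [h1]
      exact Itg.refl R hR)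
  obtain ⟨ε₄, hε₄, hball⟩ := Metric.isOpen_iff.1 hU'o _ h0U'
  have hεm : 0 < min ε₄ ε₁ := lt_min hε₄ hε₁
  refine ⟨min ε₄ ε₁, hεm, (min_le_right _ _).trans hε₁ε, _, _, v,
    hd₁.mono (ball_subset_ball (min_le_right _ _)),
    hd₂.mono (ball_subset_ball (min_le_right _ _)),
    hv.mono ((ball_subset_ball (min_le_left _ _)).trans hball), ?_, ?_, hv0, ?_, fun z hz => rfl,
    ?_⟩
  · simp only [hη0]
  · simp only [hη0]
  · have hmap2 : ∀ x ∈ ball R.1 (min ε₄ ε₁), ((0 : ℂ), x) ∈ ball ((0 : ℂ), R.1) (min ε₄ ε₁) := by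
      intro x hx
      rw [← ball_prod_same]
      exact ⟨mem_ball_self hεm, hx⟩
    have hcv : ContinuousOn (fun x : ℂ => ((0 : ℂ), x)) (ball R.1 (min ε₄ ε₁)) :=
      (continuous_const.prodMk continuous_id).continuousOn
    have h1 := (hFA m r b hb).2.2.2.2.2 (t 0) h0 R hR R.1 (fun x => η (0, x)) (fun x => v (0, x))
      (min ε₄ ε₁) hεm
      ((hη.mono (ball_subset_ball (min_le_right _ _))).continuousOn.comp hcv hmap2)
      ((hv.mono ((ball_subset_ball (min_le_left _ _)).trans hball)).continuousOn.comp hcv hmap2)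
      (by
        intro x hx
        have h2 := hm₁ _ (ball_subset_ball (min_le_right _ _) (hmap2 x hx))
        have h3 := hvI _ (hball (ball_subset_ball (min_le_left _ _) (hmap2 x hx)))
        have h4 : (R.1, η (0, R.1)) = R := by rw [hη0]
        simp only [h4] at h3
        exact ⟨h2.2, h3⟩)
    have h4 : (R.1, η (0, R.1)) = R := by rw [hη0]
    rw [h4] at h1
    exact h1
  · intro x hx
    have h2 := hm₁ _ (ball_subset_ball (min_le_right _ _) hx)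
    exact ⟨rfl, h2.1, h2.2, hvI x (hball (ball_subset_ball (min_le_left _ _) hx))⟩

end Dfa_aux

open Dfa_aux in
theorem tDfa : StmtFA2 → S_Yb → S_Dfa := by
  classical
  intro hFA hYb m r b ε t hb hε ht h0 K Q' Q w hw R hR
  choose ε₁ hε₁ hε₁ε q' q u hq'd hqd hud hq'0 hq0 hu0 hI using fun a =>
    typ1 hFA hYb hb hε ht h0 (Q' a) (Q a) (w a) (hw a)
  choose ε₂ hε₂ hε₂ε ρ ρ' v hρd hρ'd hvd hρ0 hρ'0 hv0 hder hρ1 hJ using fun a =>
    typ2 hFA hYb hb hε ht h0 (R a) (hR.on a)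
  obtain ⟨ε₅, hε₅, hin⟩ := inj_near hε ht h0
  obtain ⟨ε₃, hε₃, hmin⟩ := exists_min_pos (fun j : Option (Fin K ⊕
    Fin (Fintype.card (Ix m b))) => j.elim (min ε ε₅) (Sum.elim ε₁ ε₂))
    (by rintro (_ | (a | a)); exacts [lt_min hε hε₅, hε₁ a, hε₂ a])
  have hm0 : ε₃ ≤ ε := (hmin none).trans (min_le_left _ _)
  have hm5 : ε₃ ≤ ε₅ := (hmin none).trans (min_le_right _ _)
  have hm1 : ∀ a, ε₃ ≤ ε₁ a := fun a => hmin (some (Sum.inl a))
  have hm2 : ∀ a, ε₃ ≤ ε₂ a := fun a => hmin (some (Sum.inr a))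
  set x₀ : Fin (Fintype.card (Ix m b)) → ℂ := fun a => (R a).1 with hx₀
  -- the coordinate maps
  have hco : ∀ (a) (δ : ℝ), 0 < δ → ∀ x ∈ ball ((0 : ℂ), x₀) δ,
      (x.1, x.2 a) ∈ ball ((0 : ℂ), (R a).1) δ := by
    intro a δ hδ x hx
    rw [← ball_prod_same] at hx ⊢
    exact ⟨hx.1, (mem_ball.2 (lt_of_le_of_lt (dist_le_pi_dist x.2 x₀ a) (mem_ball.1 hx.2)))⟩
  have hfs : ∀ (δ : ℝ), ∀ x ∈ ball ((0 : ℂ), x₀) δ, x.1 ∈ ball (0 : ℂ) δ := by
    intro δ x hx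
    rw [← ball_prod_same] at hx
    exact hx.1
  have hdc : ∀ a, DifferentiableOn ℂ (fun x : ℂ × (Fin (Fintype.card (Ix m b)) → ℂ) =>
      (x.1, x.2 a)) (ball (0, x₀) ε₃) := by
    intro a
    have h1 : DifferentiableOn ℂ (fun x : ℂ × (Fin (Fintype.card (Ix m b)) → ℂ) => x.2)
        (ball (0, x₀) ε₃) := differentiableOn_snd
    exact differentiableOn_fst.prodMk ((differentiableOn_pi.1 h1) a)
  have hρ'D : ∀ a, DifferentiableOn ℂ (fun x : ℂ × (Fin (Fintype.card (Ix m b)) → ℂ) =>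
      ρ' a (x.1, x.2 a)) (ball (0, x₀) ε₃) := fun a =>
    ((hρ'd a).mono (ball_subset_ball (hm2 a))).comp (hdc a) (hco a ε₃ hε₃)
  have hvD : ∀ a, DifferentiableOn ℂ (fun x : ℂ × (Fin (Fintype.card (Ix m b)) → ℂ) =>
      v a (x.1, x.2 a)) (ball (0, x₀) ε₃) := fun a =>
    ((hvd a).mono (ball_subset_ball (hm2 a))).comp (hdc a) (hco a ε₃ hε₃)
  have huD : ∀ a, DifferentiableOn ℂ (fun x : ℂ × (Fin (Fintype.card (Ix m b)) → ℂ) =>
      u a x.1) (ball (0, x₀) ε₃) := fun a =>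
    ((hud a).mono (ball_subset_ball (hm1 a))).comp differentiableOn_fst (hfs ε₃)
  -- independence
  have hli : ∀ᶠ x in 𝓝 ((0 : ℂ), x₀), LinearIndependent ℂ fun a =>
      om m b (t x.1) (ρ' a (x.1, x.2 a)) := by
    have hc : ContinuousAt (fun x : ℂ × (Fin (Fintype.card (Ix m b)) → ℂ) => fun a =>
        om m b (t x.1) (ρ' a (x.1, x.2 a))) ((0 : ℂ), x₀) := by
      refine continuousAt_pi.2 fun a => ?_
      refine om_cont (fun x : ℂ × (Fin (Fintype.card (Ix m b)) → ℂ) => t x.1)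
        (fun x => ρ' a (x.1, x.2 a)) ?_ ?_ ?_
      · have h1 : ContinuousAt t 0 := (ht.differentiableAt (ball_mem_nhds 0 hε)).continuousAt
        exact ContinuousAt.comp (f := Prod.fst) (x := ((0 : ℂ), x₀)) h1 continuousAt_fst
      · exact ((hρ'D a).differentiableAt (ball_mem_nhds _ hε₃)).continuousAt
      · have h1 : ρ' a ((0 : ℂ), x₀ a) = R a := hρ'0 a
        show (ρ' a ((0 : ℂ), x₀ a)).1 ∉ Set.range (t 0)
        rw [h1]
        exact (hR.on a).1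
    have h1 : (fun a => om m b (t ((0 : ℂ), x₀).1) (ρ' a (((0 : ℂ), x₀).1, ((0 : ℂ), x₀).2 a))) =
        fun a => om m b (t 0) (R a) := by
      funext a
      exact congrArg _ (hρ'0 a)
    have h2 : {f : Fin (Fintype.card (Ix m b)) → (Ix m b → ℂ) | LinearIndependent ℂ f} ∈
        𝓝 (fun a => om m b (t ((0 : ℂ), x₀).1) (ρ' a (((0 : ℂ), x₀).1, ((0 : ℂ), x₀).2 a))) := by
      rw [h1]
      exact isOpen_setOfPred_linearIndependent.mem_nhds hR.li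
    exact hc.eventually h2
  obtain ⟨ε₄, hε₄, hli'⟩ := Metric.eventually_nhds_iff_ball.1 hli
  have hε' : 0 < min ε₃ ε₄ := lt_min hε₃ hε₄
  have hs : ∀ {X : Type} [PseudoMetricSpace X] (x : X), ball x (min ε₃ ε₄) ⊆ ball x ε₃ :=
    fun x => ball_subset_ball (min_le_left _ _)
  have hFD : DifferentiableOn ℂ (fun x : ℂ × (Fin (Fintype.card (Ix m b)) → ℂ) =>
      ∑ a, u a x.1 + ∑ a, v a (x.1, x.2 a)) (ball (0, x₀) ε₃) :=
    (DifferentiableOn.fun_sum fun a _ => huD a).add (DifferentiableOn.fun_sum fun a _ => hvD a)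
  refine ⟨_, hε', (min_le_left _ _).trans hm0, q', q, ρ, fun a x => ρ' a (x.1, x.2 a),
    fun x => ∑ a, u a x.1 + ∑ a, v a (x.1, x.2 a), ?_, ?_, hFD.mono (hs _), ?_, ?_, ?_⟩
  · intro a
    refine ⟨(hq'd a).mono ((hs _).trans (ball_subset_ball (hm1 a))),
      (hqd a).mono ((hs _).trans (ball_subset_ball (hm1 a))), hq'0 a, hq0 a, fun z hz => ?_⟩
    have h1 := hI a z (ball_subset_ball (hm1 a) (hs _ hz))
    exact ⟨h1.1, h1.2.1⟩
  · intro a
    refine ⟨(hρd a).mono ((hs _).trans (ball_subset_ball (hm2 a))), hρ0 a, fun z hz =>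
      hρ1 a z (ball_subset_ball (hm2 a) (hs _ hz)), (hρ'D a).mono (hs _), hρ'0 a, fun x hx => ?_⟩
    exact (hJ a _ (ball_subset_ball (hm2 a) (hco a ε₃ hε₃ x (hs _ hx)))).1
  · show ∑ a, u a 0 + ∑ a, v a ((0 : ℂ), (R a).1) = ∑ a, w a
    simp only [hu0, hv0, Finset.sum_const_zero, add_zero]
  · intro x
    -- the derivative along a line
    have h1 : HasDerivAt (fun c : ℂ => ((0 : ℂ), x₀ + c • x)) ((0 : ℂ), x) 0 := by
      refine HasDerivAt.prodMk (hasDerivAt_const _ _) ?_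
      have h2 : HasDerivAt (fun c : ℂ => c • x) ((1 : ℂ) • x) 0 := (hasDerivAt_id 0).smul_const x
      rw [one_smul] at h2
      exact h2.const_add x₀
    have h3 : HasDerivAt (fun c : ℂ => ∑ a, u a 0 + ∑ a, v a ((0 : ℂ), (x₀ + c • x) a))
        (fderiv ℂ (fun x : ℂ × (Fin (Fintype.card (Ix m b)) → ℂ) =>
      ∑ a, u a x.1 + ∑ a, v a (x.1, x.2 a)) (0, x₀) (0, x)) 0 := by
      have h4 := (hFD.differentiableAt (ball_mem_nhds _ hε₃)).hasFDerivAt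
      have h5 : ((0 : ℂ), x₀ + (0 : ℂ) • x) = ((0 : ℂ), x₀) := by
        rw [zero_smul, add_zero]
      exact HasFDerivAt.comp_hasDerivAt_of_eq (0 : ℂ) h4 h1 h5.symm
    have h6 : HasDerivAt (fun c : ℂ => ∑ a, u a 0 + ∑ a, v a ((0 : ℂ), (x₀ + c • x) a))
        (∑ a, x a • om m b (t 0) (R a)) 0 := by
      refine HasDerivAt.const_add _ (HasDerivAt.fun_sum fun a _ => ?_)
      have h7 : HasDerivAt (fun c : ℂ => (x₀ + c • x) a) (x a) 0 := by
        have h8 : HasDerivAt (fun c : ℂ => x₀ a + c * x a) (x a) 0 := by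
          have h9 : HasDerivAt (fun c : ℂ => c * x a) (1 * x a) 0 := (hasDerivAt_id 0).mul_const _
          rw [one_mul] at h9
          exact h9.const_add _
        exact h8
      have h10 : x₀ a = (x₀ + (0 : ℂ) • x) a := by
        rw [zero_smul, add_zero]
      exact HasDerivAt.scomp_of_eq (0 : ℂ) (hder a) h7 h10
    exact h3.unique h6
  · intro x hx
    have hJx := fun a => hJ a _ (ball_subset_ball (hm2 a) (hco a ε₃ hε₃ x (hs _ hx)))
    have hIx := fun a => hI a x.1 (ball_subset_ball (hm1 a) (hfs ε₃ x (hs _ hx)))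
    have hinj : Function.Injective (t x.1) :=
      hin _ (ball_subset_ball hm5 (hfs ε₃ x (hs _ hx)))
    exact ⟨hinj, ⟨fun a => (hJx a).2.2.1, hli' x (ball_subset_ball (min_le_right _ _) hx)⟩,
      fun a => u a x.1, fun a => v a (x.1, x.2 a), fun a => (hIx a).2.2, fun a => (hJx a).2.2.2,
      rfl⟩

end TNF.LG
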