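import Pool.Agent.Lib.TNF.LG.SpecE
import Pool.Agent.Lib.Osgood

/-!
# The implicit function theorem for holomorphic maps

Proof of `S_Dfb`.
-/

set_option autoImplicit false

open HC HC.CC SEJ TATE Topology Metric

noncomputable section

namespace TNF.LG

/-- The equation `F (z, x) = u z` has a holomorphic solution. -/
theorem tDfb : S_Dfb := by
  intro g V _ _ _ x₀ ε F u hε hF hu h0 hbij
  haveI : CompleteSpace V := FiniteDimensional.complete ℂ V
  set G : ℂ × (Fin g → ℂ) → V := fun p => F p - u p.1 with hG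
  have hmem : ((0 : ℂ), x₀) ∈ ball ((0 : ℂ), x₀) ε := mem_ball_self hε
  have hfst : Set.MapsTo (fun p : ℂ × (Fin g → ℂ) => p.1) (ball ((0 : ℂ), x₀) ε) (ball 0 ε) := by
    intro p hp
    rw [← ball_prod_same] at hp
    exact hp.1
  have hGd : DifferentiableOn ℂ G (ball ((0 : ℂ), x₀) ε) :=
    hF.sub (hu.comp differentiable_fst.differentiableOn hfst)
  have hGa := Pool.Agent.Lib.Osgood.analyticOnNhd isOpen_ball hGd _ hmem
  have cdf : ContDiffAt ℂ 1 G ((0 : ℂ), x₀) := hGa.contDiffAt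
  have hFd : DifferentiableAt ℂ F ((0 : ℂ), x₀) := hF.differentiableAt (isOpen_ball.mem_nhds hmem)
  have hud : DifferentiableAt ℂ u 0 :=
    hu.differentiableAt (isOpen_ball.mem_nhds (mem_ball_self hε))
  have hfd : ∀ x : Fin g → ℂ, fderiv ℂ G ((0 : ℂ), x₀) (0, x) = fderiv ℂ F ((0 : ℂ), x₀) (0, x) := by
    intro x
    have h1 : HasFDerivAt (fun p : ℂ × (Fin g → ℂ) => u p.1)
        ((fderiv ℂ u 0).comp (ContinuousLinearMap.fst ℂ ℂ (Fin g → ℂ))) ((0 : ℂ), x₀) :=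
      HasFDerivAt.comp (g := u) (f := fun p : ℂ × (Fin g → ℂ) => p.1) ((0 : ℂ), x₀)
        hud.hasFDerivAt hasFDerivAt_fst
    have h2 := (hFd.hasFDerivAt.sub h1).fderiv
    have h3 : fderiv ℂ G ((0 : ℂ), x₀) = fderiv ℂ F ((0 : ℂ), x₀) -
        (fderiv ℂ u 0).comp (ContinuousLinearMap.fst ℂ ℂ (Fin g → ℂ)) := h2
    rw [h3]
    simp
  have hinv : (fderiv ℂ G ((0 : ℂ), x₀) ∘L
      ContinuousLinearMap.inr ℂ ℂ (Fin g → ℂ)).IsInvertible := by
    have hb : Function.Bijective ((fderiv ℂ G ((0 : ℂ), x₀) ∘L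
        ContinuousLinearMap.inr ℂ ℂ (Fin g → ℂ) : (Fin g → ℂ) →L[ℂ] V) : (Fin g → ℂ) →ₗ[ℂ] V) := by
      have he : (((fderiv ℂ G ((0 : ℂ), x₀) ∘L
          ContinuousLinearMap.inr ℂ ℂ (Fin g → ℂ) : (Fin g → ℂ) →L[ℂ] V) :
          (Fin g → ℂ) →ₗ[ℂ] V) : (Fin g → ℂ) → V) =
          fun x : Fin g → ℂ => fderiv ℂ F (0, x₀) (0, x) := by
        funext x
        exact hfd x
      rw [he]
      exact hbij
    refine ⟨(LinearEquiv.ofBijective _ hb).toContinuousLinearEquiv, ?_⟩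
    ext x
    rfl
  have hG0 : G ((0 : ℂ), x₀) = 0 := by
    show F ((0 : ℂ), x₀) - u 0 = 0
    rw [h0, sub_self]
  have h2 := cdf.contDiffAt_implicitFunction one_ne_zero hinv
  have h3 := cdf.eventually_apply_implicitFunction one_ne_zero hinv
  rw [hG0] at h3
  set X := cdf.implicitFunction one_ne_zero hinv with hX
  have hX0 : X 0 = x₀ := cdf.implicitFunction_apply_self one_ne_zero hinv
  have h4 : ∀ᶠ z in 𝓝 (0 : ℂ), DifferentiableAt ℂ X z :=
    (h2.eventually (by simp)).mono fun s hs => hs.differentiableAt (by simp)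
  have h5 : ∀ᶠ z in 𝓝 (0 : ℂ), (z, X z) ∈ ball ((0 : ℂ), x₀) ε := by
    have h6 : ContinuousAt (fun z : ℂ => (z, X z)) 0 := continuousAt_id.prodMk h2.continuousAt
    have h7 : ball ((0 : ℂ), x₀) ε ∈ 𝓝 ((0 : ℂ), X 0) := by
      rw [hX0]
      exact isOpen_ball.mem_nhds hmem
    exact h6 h7
  obtain ⟨ρ, hρ, hb⟩ := Metric.eventually_nhds_iff_ball.1 (h4.and (h3.and h5))
  refine ⟨min ρ ε, lt_min hρ hε, min_le_right _ _, X, fun z hz => ?_, hX0, fun z hz => ?_⟩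
  · exact (hb z (ball_subset_ball (min_le_left _ _) hz)).1.differentiableWithinAt
  · obtain ⟨-, h6, h7⟩ := hb z (ball_subset_ball (min_le_left _ _) hz)
    exact ⟨h7, sub_eq_zero.1 h6⟩

end TNF.LG
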