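import Pool.Agent.Lib.TNF.LG.SpecE

/-!
# PROJECT TNF, package LG: rules for the classes of divisors
-/

set_option autoImplicit false

open HC HC.CC SEJ TATE Topology Metric

noncomputable section

namespace TNF.LG

namespace Eqc_aux

/-- The branch points of a factor are distinct. -/
lemma t_inj {p N : ℕ} {D : Dt p N} (h : D.ok) {s : Fin p → ℂ} (hs : Function.Injective s)
    (n : Fin N) : Function.Injective (D.t s n) := by
  unfold Dt.t
  cases D.k n with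
  | none => exact hs.comp (h.inj n)
  | some l =>
    intro a c hac
    change (s (D.i n a) - s l)⁻¹ = (s (D.i n c) - s l)⁻¹ at hac
    exact h.inj n (hs (sub_left_inj.mp (inv_injective hac)))

section fam

variable {m r : ℕ} {b : Fin (r + 1) → ℕ}

/-- The lattice as a subgroup. -/
def lg (Λ : LPD m b) {t : Fin (r + 1) → ℂ} (ht : Function.Injective t) :
    AddSubgroup (Ix m b → ℂ) where
  carrier := Λ.L t
  zero_mem' := Λ.zero t ht
  add_mem' := by
    intro u v hu hv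
    have h := Λ.sub t ht u hu _ (Λ.sub t ht 0 (Λ.zero t ht) v hv)
    rwa [zero_sub, sub_neg_eq_add] at h
  neg_mem' := by
    intro v hv
    have h := Λ.sub t ht 0 (Λ.zero t ht) v hv
    rwa [zero_sub] at h

/-- The image of a point of the curve. -/
lemma pts_map (t : Fin (r + 1) → ℂ) (τ : ℂ ≃+* ℂ) {P : ℂ × ℂ} (hP : P ∈ Pts m b t) :
    (τ P.1, τ P.2) ∈ Pts m b fun j => τ (t j) := by
  refine ⟨?_, ?_⟩
  · rintro ⟨j, hj⟩
    exact hP.1 ⟨j, τ.injective hj⟩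
  · have h := congrArg τ hP.2
    rw [map_pow, map_prod] at h
    simpa only [map_pow, map_sub] using h

/-- The integrals between the images exist. -/
lemma itg_map (hFA : StmtFA2) (hb : Cvb m b) (t : Fin (r + 1) → ℂ) (ht : Function.Injective t)
    (τ : ℂ ≃+* ℂ) (k : ℕ) (P Q : Fin k → ℂ × ℂ) (w : Fin k → (Ix m b → ℂ))
    (hw : ∀ a, Itg m b t (P a) (Q a) (w a)) : ∃ w' : Fin k → (Ix m b → ℂ),
      ∀ a, Itg m b (fun j => τ (t j)) (τ (P a).1, τ (P a).2) (τ (Q a).1, τ (Q a).2) (w' a) := by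
  have ht' : Function.Injective fun j => τ (t j) := τ.injective.comp ht
  have h1 : ∀ a, ∃ w', Itg m b (fun j => τ (t j)) (τ (P a).1, τ (P a).2)
      (τ (Q a).1, τ (Q a).2) w' := by
    intro a
    obtain ⟨h2, h3, -⟩ := (hFA m r b hb).2.2.1 t ht _ _ _ (hw a)
    exact (hFA m r b hb).1 _ ht' _ (pts_map t τ h2) _ (pts_map t τ h3)
  choose w' hw' using h1
  exact ⟨w', hw'⟩

end fam

end Eqc_aux

open Eqc_aux

theorem tEqc : StmtFA2 → S_AdD → S_Eqc := by
  intro hFA hAd Λ p N D h k s σ y i hs hσ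
  have hσs : Function.Injective fun l => σ (s l) := σ.injective.comp hs
  have hact : ∀ (n : Fin N) (w w' : Fin (k i n) → (Ix (D.m n) (D.b n) → ℂ))
      (v v' : Ix (D.m n) (D.b n) → ℂ),
      (∀ a, Itg (D.m n) (D.b n) (D.t s n) (src y i n a) (tgt y i n a) (w a)) →
      (∀ a, Itg (D.m n) (D.b n) (D.t (fun l => σ (s l)) n) (src (fun j => σ (y j)) i n a)
        (tgt (fun j => σ (y j)) i n a) (w' a)) →
      ∑ a, w a - v ∈ (Λ _ _ _ (h.cv n)).L (D.t s n) →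
      ∑ a, w' a - v' ∈ (Λ _ _ _ (h.cv n)).L (D.t (fun l => σ (s l)) n) →
      Act (Λ _ _ _ (h.cv n)) σ (D.t s n) v v' := by
    intro n w w' v v' h1 h2 h3 h4
    rw [Dt_map] at h2 h4
    exact ⟨k i n, src y i n, tgt y i n, w, w', h1, h2, h3, h4⟩
  refine ⟨?_, ?_, ?_, ?_, ?_, ?_⟩
  · intro v v' h1 h2 n
    obtain ⟨w, hw, hwv⟩ := h1 n
    obtain ⟨w', hw', hwv'⟩ := h2 n
    exact hact n w w' _ _ hw hw' hwv hwv'
  · intro v v' h1 h2
    have h3 : ∀ n, ∃ w' : Fin (k i n) → (Ix (D.m n) (D.b n) → ℂ),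
        (∀ a, Itg (D.m n) (D.b n) (D.t (fun l => σ (s l)) n) (src (fun j => σ (y j)) i n a)
          (tgt (fun j => σ (y j)) i n a) (w' a)) ∧
        Act (Λ _ _ _ (h.cv n)) σ (D.t s n) (v n) (∑ a, w' a) := by
      intro n
      obtain ⟨w, hw, hwv⟩ := h1 n
      obtain ⟨w', hw'⟩ := itg_map hFA (h.cv n) _ (t_inj h hs n) σ _ _ _ w hw
      rw [← Dt_map] at hw'
      refine ⟨w', hw', hact n w w' _ _ hw hw' hwv ?_⟩
      rw [sub_self]
      exact (Λ _ _ _ (h.cv n)).zero _ (t_inj h hσs n)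
    choose w' hw' hA using h3
    have h4 : ActD Λ D h σ s v fun n => ∑ a, w' n a := hA
    obtain ⟨-, -, -, huniq, -⟩ := hAd Λ p N D h σ s hs hσ
    have h5 := huniq _ _ _ h4 h2
    exact fun n => ⟨w' n, hw' n, h5 n⟩
  · intro v v' h1 h2 n
    obtain ⟨w, hw, hwv⟩ := h1 n
    obtain ⟨u, hu, huv⟩ := h2 n
    have ht := t_inj h hs n
    have h3 : ∀ a, w a - u a ∈ lg (Λ _ _ _ (h.cv n)) ht := fun a =>
      (Λ _ _ _ (h.cv n)).le _ ht ((hFA _ _ _ (h.cv n)).2.2.2.1 _ ht _ _ _ (hw a) _ (hu a))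
    have h4 : ∑ a, (w a - u a) ∈ lg (Λ _ _ _ (h.cv n)) ht := sum_mem fun a _ => h3 a
    have h5 : ∑ a, w a - v n ∈ lg (Λ _ _ _ (h.cv n)) ht := hwv
    have h6 : ∑ a, u a - v' n ∈ lg (Λ _ _ _ (h.cv n)) ht := huv
    have h7 : v n - v' n ∈ lg (Λ _ _ _ (h.cv n)) ht := by
      have h8 := sub_mem (add_mem h4 h6) h5
      rw [Finset.sum_sub_distrib] at h8
      have h9 : (∑ a, w a - ∑ a, u a + (∑ a, u a - v' n)) - (∑ a, w a - v n) = v n - v' n := by
        abel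
      rwa [h9] at h8
    exact h7
  · intro v v' h1 h2 n
    obtain ⟨w, hw, hwv⟩ := h1 n
    refine ⟨w, hw, ?_⟩
    have h3 := (Λ _ _ _ (h.cv n)).sub _ (t_inj h hs n) _ hwv _ (h2 n)
    have h4 : ∑ a, w a - v n - (v' - v) n = ∑ a, w a - v' n := by
      rw [Pi.sub_apply]; abel
    rwa [h4] at h3
  · intro h1 j n a
    obtain ⟨h2, h3⟩ := h1 j n a
    rw [Dt_map]
    exact ⟨pts_map _ σ h2, pts_map _ σ h3⟩
  · intro h1
    have h2 : ∀ n, ∃ w : Fin (k i n) → (Ix (D.m n) (D.b n) → ℂ),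
        ∀ a, Itg (D.m n) (D.b n) (D.t s n) (src y i n a) (tgt y i n a) (w a) := by
      intro n
      have h3 : ∀ a, ∃ w, Itg (D.m n) (D.b n) (D.t s n) (src y i n a) (tgt y i n a) w := fun a =>
        (hFA _ _ _ (h.cv n)).1 _ (t_inj h hs n) _ (h1 i n a).1 _ (h1 i n a).2
      choose w hw using h3
      exact ⟨w, hw⟩
    choose w hw using h2
    refine ⟨fun n => ∑ a, w n a, fun n => ⟨w n, hw n, ?_⟩⟩
    rw [sub_self]
    exact (Λ _ _ _ (h.cv n)).zero _ (t_inj h hs n)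

end TNF.LG
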