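import Pool.Agent.Lib.TNF.LG.Cnj

/-!
# TNF/LG/Exz (helper64): a root with the right roots of unity
-/

set_option autoImplicit false

open HC HC.CC SEJ TATE Topology Metric

noncomputable section

namespace TNF.LG

namespace Exz_aux

theorem ze_alg (m u : ℕ) (hm : m ≠ 0) : IsAlgebraic ℚ (ze m u) := by
  refine ⟨Polynomial.X ^ m - 1, ?_, ?_⟩
  · exact (Polynomial.monic_X_pow_sub_C (1 : ℚ) hm).ne_zero
  · have h1 : ze m u ^ m = 1 := by
      unfold ze
      rw [← Complex.exp_nat_mul]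
      have h2 : (m : ℂ) * (2 * Real.pi * Complex.I * u / m) = u * (2 * Real.pi * Complex.I) := by
        have h3 : (m : ℂ) ≠ 0 := Nat.cast_ne_zero.2 hm
        field_simp
      rw [h2]
      exact Complex.exp_nat_mul_two_pi_mul_I u
    simp [h1]

end Exz_aux

open Cnj_aux Exz_aux in
theorem tExz : S_Gz → S_Exz := by
  intro hGz p N D k s y P R d e θ hAz h s' hs'
  obtain ⟨σ, hσ, hσa⟩ := hGz p s s' h.ind hs'
  refine ⟨σ θ, ?_, fun n => ?_⟩
  · rw [PS_eval, ← sev σ hσ, ← PS_eval, h.root, map_zero]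
  · have h1 : yv R d s' (σ θ) (Sum.inr (some n)) = σ (y (Sum.inr (some n))) := by
      unfold yv
      have h2 : σ (cf s d) ≠ 0 := fun h0 => h.dne ((map_eq_zero_iff σ σ.injective).1 h0)
      rw [PS_eval, ← sev σ hσ, ← PS_eval, h.val, ← scf σ hσ, map_mul, mul_div_cancel_left₀ _ h2]
    rw [h1, hAz n]
    by_cases hm : D.m n = 0
    · rw [hm]
      simp [ze]
    · exact hσa _ (ze_alg _ _ hm)

end TNF.LG
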