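import Pool.Agent.Lib.TNF.LG.SpecE

/-!
# PROJECT TNF, package LG: assembly of `StmtLG`
-/

set_option autoImplicit false

open Topology Metric HC HC.CC SEJ TATE

noncomputable section

namespace TNF.LG

namespace Fin_aux

theorem ln0 {p : ℕ} (s w : Fin p → ℂ) : ln s w 0 = s := by
  funext i
  simp [ln]

theorem bl_inj {p N : ℕ} {D : Dt p N} {q : ℕ} {A B : Matrix (Fin (rk D)) (Fin (rk D)) (ZMod q)} {c d : ZMod q}
    (h : bl A c = bl B d) : A = B ∧ c = d := by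
  unfold bl at h
  have h1 := Matrix.fromBlocks_inj.1 h
  refine ⟨h1.1, ?_⟩
  have h2 := congrFun (congrFun h1.2.2.2 ()) ()
  simpa using h2

theorem rt_one {q : ℕ} (ξ : ℂ) (h : ξ ^ q = 1) : ξ ^ (1 : ZMod q).val = ξ := by
  have h1 : (1 : ZMod q).val = 1 % q := by
    have := ZMod.val_natCast q 1
    rwa [Nat.cast_one] at this
  rw [h1, ← pow_eq_pow_mod 1 h, pow_one]

theorem cnt_meagre {Y : Set ℂ} (h : Y.Countable) : IsMeagre Y := by
  have e : Y = ⋃ y ∈ Y, {y} := by simp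
  rw [e]
  refine isMeagre_biUnion h fun y _ => ?_
  have h1 : IsNowhereDense ({y} : Set ℂ) := by
    unfold IsNowhereDense
    rw [closure_singleton, interior_singleton]
  exact h1.isMeagre

theorem pick {Y : Set ℂ} (h : IsMeagre Y) {ε : ℝ} (hε : 0 < ε) : ∃ z ∈ ball (0 : ℂ) ε, z ∉ Y := by
  have h1 : Dense Yᶜ := dense_of_mem_residual h
  obtain ⟨z, hz, hz'⟩ := h1.exists_mem_open isOpen_ball ⟨0, mem_ball_self hε⟩
  exact ⟨z, hz', hz⟩

end Fin_aux

open Fin_aux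

theorem tFin : S_Eq → S_Lp → S_Bs → S_Bd → S_Ltr → S_AdD → S_Rg → CV.StmtCVG → S_Fin := by
  intro hEq hLp hBs hBd hLtr hAdD _ hCVG Λ Φ p N D h ℓ hℓ
  obtain ⟨P, Δ, k₀, hirr, hdeg, hΔ, hEq⟩ := hEq Λ Φ p N D h ℓ hℓ
  refine ⟨P, Δ, hirr, hdeg, hΔ, fun s hs hH => ?_⟩
  obtain ⟨e, he⟩ := hBs Λ p N D h s hs
  obtain ⟨X, hX, hLp⟩ := hLp Λ Φ p N D h s e hs he
  refine ⟨X ∪ {w | ¬ AlgebraicIndependent (Ks s) w}, hX.union (hCVG p p s), ?_⟩
  intro w hw M hM δ hδ φ hφ k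
  simp only [Set.mem_union, Set.mem_setOf_eq, not_or, not_not] at hw
  obtain ⟨ε, hε, Y, hY, hLp⟩ := hLp w hw.1 M hM
  obtain ⟨ε', hε', Y', hY', hEq⟩ := hEq s hH e he w hw.2 (max k k₀) (le_max_right _ _)
  set q := ℓ ^ max k k₀ with hq
  have hq0 : q ≠ 0 := pow_ne_zero _ hℓ.ne_zero
  have hL : φ 1 '' LPs Λ D h s = LPs Λ D h s := by
    have h1 := hLtr Λ Φ p N D h s w M hs hM δ 0 hδ φ hφ
    rwa [ln0] at h1
  have hb : ∀ i, ∃ a : Fin (rk D) → ℤ, φ 1 (e i) = ∑ j, a j • e j := fun i =>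
    he.ex _ (hL ▸ Set.mem_image_of_mem _ (he.mem i))
  choose b' hb' using hb
  obtain ⟨z, hz, hzY⟩ := pick (hY.union (cnt_meagre hY')) (lt_min hε hε')
  rw [Set.mem_union, not_or] at hzY
  have h1 := hLp z (ball_subset_ball (min_le_left _ _) hz) hzY.1 q hq0 δ hδ φ hφ
    (Matrix.of fun j i => b' i j) (fun i => by simpa using hb' i)
  rw [← hEq z (ball_subset_ball (min_le_right _ _) hz) hzY.2] at h1
  obtain ⟨σ, hσ, A, c, hA, hc, hbl⟩ := h1
  obtain ⟨hA', hc'⟩ := bl_inj hbl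
  subst hA' hc'
  have hFx : FxZ D σ := hσ.2
  have hσs : (fun i => σ (s i)) = s := funext hσ.1
  obtain ⟨r1, r2, r3, -, -, -, -, r8, -⟩ := hAdD Λ p N D h σ s hs hFx
  rw [hσs] at r2
  have r0 : ActD Λ D h σ s 0 0 := by
    obtain ⟨v', hv'⟩ := r8 0
    have := r3 0 _ _ hv'
    simpa using this
  have d4 := (hBd Λ p N D h s e hs he).2.2.2.1 q hq0
  -- the generators
  have key : ∀ i, ActD Λ D h σ s ((q : ℂ)⁻¹ • e i) ((q : ℂ)⁻¹ • φ 1 (e i)) := by
    intro i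
    refine r2 _ _ _ _ (hA i) ?_ ?_
    · have hz0 := (d4 (fun _ => 0) (fun _ => 0)).2 fun _ => rfl
      simpa using hz0
    · have h2 := (d4 (fun j => b' i j)
        (fun j => ((((Matrix.of fun j i => b' i j).map fun x : ℤ => (x : ZMod q)) j i).val : ℤ))).2
        fun j => by
          haveI : NeZero q := ⟨hq0⟩
          simp
      have e1 : φ 1 (e i) = ∑ j, ((b' i j : ℤ) : ℂ) • e j := by
        rw [hb' i]
        refine Finset.sum_congr rfl fun j _ => ?_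
        rw [Int.cast_smul_eq_zsmul]
      rw [e1]
      have e2 : vq D q ((Matrix.of fun j i => b' i j).map fun x : ℤ => (x : ZMod q)) e i =
          (q : ℂ)⁻¹ • ∑ j, (((((Matrix.of fun j i => b' i j).map fun x : ℤ => (x : ZMod q)) j i).val : ℤ) : ℂ) •
            e j := by
        unfold vq
        simp
      rw [e2]
      exact h2
  refine ⟨σ, hσ, ?_, ?_⟩
  · intro ξ hξ
    have hξq : ξ ^ q = 1 := by
      obtain ⟨j, hj⟩ := pow_dvd_pow ℓ (le_max_left k k₀)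
      rw [hq, hj, pow_mul, hξ, one_pow]
    rw [hc ξ hξq, rt_one ξ hξq]
  · intro v hv
    obtain ⟨a, ha⟩ := he.ex v hv
    have h3 : ∀ S : Finset (Fin (rk D)), ActD Λ D h σ s ((q : ℂ)⁻¹ • ∑ i ∈ S, a i • e i)
        ((q : ℂ)⁻¹ • φ 1 (∑ i ∈ S, a i • e i)) := by
      intro S
      induction S using Finset.induction_on with
      | empty => simpa using r0
      | insert i S hi ih =>
        rw [Finset.sum_insert hi, map_add, smul_add, smul_add]
        refine r1 _ _ _ _ ?_ ih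
        have h4 := r3 (a i) _ _ (key i)
        rw [map_zsmul, smul_comm ((q : ℂ)⁻¹) (a i), smul_comm ((q : ℂ)⁻¹) (a i)]
        exact h4
    have h5 := h3 Finset.univ
    rw [← ha] at h5
    have h6 := r3 ((ℓ ^ (max k k₀ - k) : ℕ) : ℤ) _ _ h5
    have e3 : ∀ x : D.V, ((ℓ ^ (max k k₀ - k) : ℕ) : ℤ) • ((q : ℂ)⁻¹ • x) = ((ℓ : ℂ) ^ k)⁻¹ • x := by
      intro x
      rw [← Int.cast_smul_eq_zsmul ℂ, smul_smul]
      congr 1
      have hℓ0 : (ℓ : ℂ) ≠ 0 := Nat.cast_ne_zero.2 hℓ.ne_zero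
      have e4 : (q : ℂ) = (ℓ : ℂ) ^ (max k k₀ - k) * (ℓ : ℂ) ^ k := by
        rw [hq, ← pow_add, Nat.sub_add_cancel (le_max_left _ _)]
        push_cast
        rfl
      rw [e4]
      push_cast
      field_simp
    rw [e3, e3] at h6
    exact h6

end TNF.LG
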