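import Pool.Agent.Lib.TNF.LG.Defs2
import Pool.Agent.Lib.TATE.FL.FL

/-!
# PROJECT TNF, LG: the class of a divisor which is torsion on a dense set is flat
-/

set_option autoImplicit false

open HC HC.CC SEJ TATE Topology Metric

noncomputable section

namespace TNF.LG

namespace Fl_aux

variable {p N : ℕ}

theorem t_diff {D : Dt p N} (h : D.ok) {s : Fin p → ℂ} (hs : Function.Injective s) (n : Fin N) :
    DifferentiableAt ℂ (fun s' => D.t s' n) s := by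
  rw [differentiableAt_pi]
  intro j
  have hl : ∀ i : Fin p, DifferentiableAt ℂ (fun s' : Fin p → ℂ => s' i) s := by
    intro i
    fun_prop
  unfold Dt.t
  cases hk : D.k n with
  | none => exact hl _
  | some l =>
    change DifferentiableAt ℂ (fun s' : Fin p → ℂ => (s' (D.i n j) - s' l)⁻¹) s
    refine DifferentiableAt.inv ((hl _).sub (hl _)) ?_
    intro h0
    have h1 := h.lt n l hk j
    have h2 : D.i n j = l := hs (sub_eq_zero.1 h0)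
    exact absurd h1 (by rw [h2]; exact lt_irrefl _)

theorem l_add {m r : ℕ} {b : Fin (r + 1) → ℕ} (Λ : LPD m b) {t : Fin (r + 1) → ℂ}
    (ht : Function.Injective t) {u v : Ix m b → ℂ} (hu : u ∈ Λ.L t) (hv : v ∈ Λ.L t) :
    u + v ∈ Λ.L t := by
  have h1 := Λ.sub t ht _ (Λ.zero t ht) _ hv
  have h2 := Λ.sub t ht _ hu _ h1
  rwa [zero_sub, sub_neg_eq_add] at h2

theorem l_sum {m r : ℕ} {b : Fin (r + 1) → ℕ} (Λ : LPD m b) {t : Fin (r + 1) → ℂ}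
    (ht : Function.Injective t) {ι : Type} (S : Finset ι) (f : ι → (Ix m b → ℂ))
    (hf : ∀ a ∈ S, f a ∈ Λ.L t) : ∑ a ∈ S, f a ∈ Λ.L t := by
  classical
  induction S using Finset.induction_on with
  | empty =>
    rw [Finset.sum_empty]
    exact Λ.zero t ht
  | insert a S ha ih =>
    rw [Finset.sum_insert ha]
    exact l_add Λ ht (hf a (Finset.mem_insert_self a S))
      (ih fun k hk => hf k (Finset.mem_insert_of_mem hk))

theorem l_nsmul {m r : ℕ} {b : Fin (r + 1) → ℕ} (Λ : LPD m b) {t : Fin (r + 1) → ℂ}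
    (ht : Function.Injective t) {u : Ix m b → ℂ} (hu : u ∈ Λ.L t) (q : ℕ) :
    (q : ℂ) • u ∈ Λ.L t := by
  induction q with
  | zero =>
    rw [Nat.cast_zero, zero_smul]
    exact Λ.zero t ht
  | succ q ih =>
    rw [Nat.cast_succ, add_smul, one_smul]
    exact l_add Λ ht ih hu

/-- Two representatives of the class of a divisor. -/
theorem cls_sub (hFA2 : StmtFA2) (Λ : LL) {D : Dt p N} (h : D.ok) {k : Fin (rk D) → Fin N → ℕ}
    {s : Fin p → ℂ} (hs : Function.Injective s) {y : Jx D k → ℂ} {i : Fin (rk D)} {v v' : D.V}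
    (hv : Cls Λ D h s y i v) (hv' : Cls Λ D h s y i v') : v - v' ∈ LPs Λ D h s := by
  intro n
  have ht := FL.t_inj h hs n
  obtain ⟨w, hw, hw2⟩ := hv n
  obtain ⟨w', hw', hw2'⟩ := hv' n
  have h4 := (hFA2 _ _ _ (h.cv n)).2.2.2.1
  have h5 : ∑ a, w a - ∑ a, w' a ∈ (Λ _ _ _ (h.cv n)).L (D.t s n) := by
    rw [← Finset.sum_sub_distrib]
    exact l_sum _ ht _ _ fun a _ =>
      (Λ _ _ _ (h.cv n)).le _ ht (h4 _ ht _ _ _ (hw a) _ (hw' a))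
  have h6 := (Λ _ _ _ (h.cv n)).sub _ ht _ h5 _ hw2
  have h7 := l_add _ ht h6 hw2'
  have h8 : (v - v') n = ∑ a, w a - ∑ a, w' a - (∑ a, w a - v n) + (∑ a, w' a - v' n) := by
    rw [Pi.sub_apply]
    abel
  rw [h8]
  exact h7

end Fl_aux

open Fl_aux

theorem tFl : StmtFA2 → S_Bs → S_Bd → S_Bt → S_Fl := by
  intro hFA2 hBs hBd hBt Λ Φ p N D h q k f ξ₀ ε s y G i hq hε hs₀ hs hy hon hG hcl
  obtain ⟨e, he⟩ := hBs Λ p N D h (s ξ₀) hs₀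
  obtain ⟨hclosed, ⟨δ, hδ, hdisc⟩, hsub, -, -⟩ := hBd Λ p N D h (s ξ₀) e hs₀ he
  obtain ⟨εB, hεB, hB⟩ := hBt Λ Φ p N D h (s ξ₀) hs₀
  -- the first ball
  have hsc : ContinuousAt s ξ₀ := (hs.differentiableAt (isOpen_ball.mem_nhds
    (mem_ball_self hε))).continuousAt
  obtain ⟨ε₁, hε₁, hb₁⟩ := Metric.eventually_nhds_iff_ball.1
    (Filter.Eventually.and (ball_mem_nhds ξ₀ hε) (hsc (ball_mem_nhds _ hεB)) :
      ∀ᶠ ξ in 𝓝 ξ₀, ξ ∈ ball ξ₀ ε ∧ s ξ ∈ ball (s ξ₀) εB)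
  have hinj : ∀ ξ ∈ ball ξ₀ ε₁, Function.Injective (s ξ) := fun ξ hξ => (hB _ (hb₁ ξ hξ).2).1
  -- the integrals
  have hint : ∀ (n : Fin N) (a : Fin (k i n)), ∃ U' ⊆ ball ξ₀ ε₁, IsOpen U' ∧ ξ₀ ∈ U' ∧
      ∃ w : (Fin f → ℂ) → (Ix (D.m n) (D.b n) → ℂ), DifferentiableOn ℂ w U' ∧
        ∀ ξ ∈ U', Itg (D.m n) (D.b n) (D.t (s ξ) n) (src (y ξ) i n a) (tgt (y ξ) i n a)
          (w ξ) := by
    intro n a
    obtain ⟨hex, -, -, -, hpar, -⟩ := hFA2 _ _ _ (h.cv n)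
    obtain ⟨v₀, hv₀⟩ := hex (D.t (s ξ₀) n) (FL.t_inj h hs₀ n) _ (hon ξ₀ (mem_ball_self hε) i n a).1
      _ (hon ξ₀ (mem_ball_self hε) i n a).2
    have hyj : ∀ j, DifferentiableOn ℂ (fun ξ => y ξ j) (ball ξ₀ ε₁) := fun j =>
      (differentiableOn_pi.1 hy j).mono fun ξ hξ => (hb₁ ξ hξ).1
    obtain ⟨U', hU'1, hU'2, hU'3, w, hw, -, hw2⟩ := hpar f (ball ξ₀ ε₁) ξ₀
      (fun ξ => D.t (s ξ) n) (fun ξ => src (y ξ) i n a) (fun ξ => tgt (y ξ) i n a) v₀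
      isOpen_ball (mem_ball_self hε₁) (fun ξ hξ =>
        (DifferentiableAt.comp ξ (t_diff h (hinj ξ hξ) n) (hs.differentiableAt
          (isOpen_ball.mem_nhds (hb₁ ξ hξ).1))).differentiableWithinAt)
      ((hyj _).prodMk (hyj _)) ((hyj _).prodMk (hyj _))
      (fun ξ hξ => ⟨FL.t_inj h (hinj ξ hξ) n, hon ξ (hb₁ ξ hξ).1 i n a⟩) hv₀
    exact ⟨U', hU'1, hU'2, hU'3, w, hw, hw2⟩
  choose U hU1 hU2 hU3 w hw hw2 using hint
  obtain ⟨ε', hε', hb'⟩ := Metric.eventually_nhds_iff_ball.1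
    (Filter.Eventually.and (ball_mem_nhds ξ₀ hε₁) (Filter.eventually_all.2 fun n =>
      Filter.eventually_all.2 fun a => (hU2 n a).mem_nhds (hU3 n a)) :
      ∀ᶠ ξ in 𝓝 ξ₀, ξ ∈ ball ξ₀ ε₁ ∧ ∀ n a, ξ ∈ U n a)
  -- work on the ball of radius `min ε' ε`
  obtain ⟨ε₂, hε₂, hε₂ε, hb₂⟩ : ∃ ε₂ > 0, ε₂ ≤ ε ∧ ∀ ξ ∈ ball ξ₀ ε₂,
      ξ ∈ ball ξ₀ ε₁ ∧ ∀ n a, ξ ∈ U n a :=
    ⟨min ε' ε, lt_min hε' hε, min_le_right _ _, fun ξ hξ =>
      hb' ξ (ball_subset_ball (min_le_left _ _) hξ)⟩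
  let v : (Fin f → ℂ) → D.V := fun ξ n => ∑ a, w n a ξ
  have hvcl : ∀ ξ ∈ ball ξ₀ ε₂, Cls Λ D h (s ξ) (y ξ) i (v ξ) := by
    intro ξ hξ n
    refine ⟨fun a => w n a ξ, fun a => hw2 n a ξ ((hb₂ ξ hξ).2 n a), ?_⟩
    have : ∑ a, w n a ξ - v ξ n = 0 := sub_self _
    rw [this]
    exact (Λ _ _ _ (h.cv n)).zero _ (FL.t_inj h (hinj ξ (hb₂ ξ hξ).1) n)
  have hvc : ContinuousOn v (ball ξ₀ ε₂) := by
    rw [continuousOn_pi]
    intro n
    refine continuousOn_finsetSum _ fun a _ => ?_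
    exact (hw n a).continuousOn.mono fun ξ hξ => (hb₂ ξ hξ).2 n a
  have hcon : IsPreconnected (ball ξ₀ ε₂) := (convex_ball ξ₀ ε₂).isPreconnected
  have hpc : PreconnectedSpace (ball ξ₀ ε₂) := isPreconnected_iff_preconnectedSpace.1 hcon
  let u : ball ξ₀ ε₂ → D.V := fun x => (HS.trn Φ D h (s ξ₀) (s x.1)).symm ((q : ℂ) • v x.1)
  have hsx : Continuous fun x : ball ξ₀ ε₂ => s x.1 := by
    have h1 : ContinuousOn s (ball ξ₀ ε₂) := hs.continuousOn.mono (ball_subset_ball hε₂ε)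
    exact continuousOn_iff_continuous_domRestrict.1 h1
  have hvx : Continuous fun x : ball ξ₀ ε₂ => (q : ℂ) • v x.1 :=
    (continuousOn_iff_continuous_domRestrict.1 hvc).const_smul (q : ℂ)
  have huc : Continuous u := (hB (s ξ₀) (mem_ball_self hεB)).2.2.2.2.2 (ball ξ₀ ε₂)
    (fun x => s x.1) (fun x => (q : ℂ) • v x.1) hsx hvx fun x => (hb₁ _ (hb₂ _ x.2).1).2
  have htrn : ∀ x : ball ξ₀ ε₂, HS.trn Φ D h (s ξ₀) (s x.1) (u x) = (q : ℂ) • v x.1 := fun x =>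
    LinearEquiv.apply_symm_apply _ _
  -- the values are in the lattice
  have huG : ∀ x : ball ξ₀ ε₂, x.1 ∈ G → u x ∈ LPs Λ D h (s ξ₀) := by
    intro x hx
    obtain ⟨v', hv', hc'⟩ := hcl x.1 ⟨hx, ball_subset_ball hε₂ε x.2⟩
    have hi := hinj x.1 (hb₂ _ x.2).1
    have h1 := cls_sub hFA2 Λ h hi (hvcl x.1 x.2) hc'
    have h2 : (q : ℂ) • v x.1 ∈ LPs Λ D h (s x.1) := by
      intro n
      have ht := FL.t_inj h hi n
      have h3 := l_nsmul (Λ _ _ _ (h.cv n)) ht (h1 n) q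
      have h4 := l_add (Λ _ _ _ (h.cv n)) ht h3 (hv' n)
      have h5 : ((q : ℂ) • v x.1) n = (q : ℂ) • (v x.1 - v') n + ((q : ℂ) • v') n := by
        rw [Pi.smul_apply, Pi.smul_apply, Pi.sub_apply, smul_sub, sub_add_cancel]
      rw [h5]
      exact h4
    have h6 := (hB _ (hb₁ _ (hb₂ _ x.2).1).2).2.2.1
    rw [← h6] at h2
    obtain ⟨l, hl, hl'⟩ := h2
    have h7 : u x = l := by
      change (HS.trn Φ D h (s ξ₀) (s x.1)).symm ((q : ℂ) • v x.1) = l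
      rw [← hl', LinearEquiv.symm_apply_apply]
    rw [h7]
    exact hl
  have hu : ∀ x, u x ∈ LPs Λ D h (s ξ₀) := by
    intro x
    have hcl' : IsClosed (u ⁻¹' LPs Λ D h (s ξ₀)) := hclosed.preimage huc
    have hx : x ∈ closure (u ⁻¹' LPs Λ D h (s ξ₀)) := by
      rw [_root_.mem_closure_iff]
      intro O hO hxO
      obtain ⟨O', hO', rfl⟩ := isOpen_induced_iff.1 hO
      have h1 := hG (ball_subset_ball hε₂ε x.2)
      obtain ⟨ξ, hξ, hξG⟩ := _root_.mem_closure_iff.1 h1 (O' ∩ ball ξ₀ ε₂) (hO'.inter isOpen_ball)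
        ⟨hxO, x.2⟩
      exact ⟨⟨ξ, hξ.2⟩, hξ.1, huG ⟨ξ, hξ.2⟩ hξG⟩
    rw [hcl'.closure_eq] at hx
    exact hx
  have hloc : IsLocallyConstant u := by
    rw [IsLocallyConstant.iff_eventually_eq]
    intro x
    have h1 : ∀ᶠ x' in 𝓝 x, u x' ∈ ball (u x) δ := huc.continuousAt (ball_mem_nhds _ hδ)
    filter_upwards [h1] with x' hx'
    have h2 := hdisc (u x' - u x) (hsub _ (hu x') _ (hu x)).1 (by
      rw [← dist_eq_norm]
      exact hx')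
    exact sub_eq_zero.1 h2
  refine ⟨ε₂, hε₂, hε₂ε, u ⟨ξ₀, mem_ball_self hε₂⟩, hu _, fun ξ hξ => ?_⟩
  have h1 : u ⟨ξ₀, mem_ball_self hε₂⟩ = u ⟨ξ, hξ⟩ :=
    hloc.apply_eq_of_preconnectedSpace _ _
  have h2 := htrn ⟨ξ, hξ⟩
  rw [h1, h2, smul_smul, inv_mul_cancel₀ (Nat.cast_ne_zero.2 hq), one_smul]
  exact hvcl ξ hξ

end TNF.LG
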