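import Pool.Agent.Lib.TNF.LG.Spec

/-!
# PROJECT TNF: equal orders at all algebraically independent points
-/

set_option autoImplicit false

open HC HC.CC SEJ TATE Topology Metric

noncomputable section

namespace TNF.LG

namespace Gn_aux

/-- A root of unity is algebraic. -/
theorem alg_root {ξ : ℂ} {q : ℕ} (hq : q ≠ 0) (h : ξ ^ q = 1) : IsAlgebraic ℚ ξ := by
  refine ⟨Polynomial.X ^ q - Polynomial.C 1,
    Polynomial.X_pow_sub_C_ne_zero (Nat.pos_of_ne_zero hq) 1, ?_⟩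
  rw [map_sub, map_pow, Polynomial.aeval_X, Polynomial.aeval_C, h, map_one, sub_self]

theorem ze_alg (m : ℕ) : IsAlgebraic ℚ (ze m 1) := by
  rcases Nat.eq_zero_or_pos m with h | h
  · subst h
    have h1 : ze 0 1 = 1 := by simp [ze]
    rw [h1]
    exact isAlgebraic_one
  · refine alg_root h.ne' ?_
    have h0 : (m : ℂ) ≠ 0 := Nat.cast_ne_zero.2 h.ne'
    have h1 : ze m 1 = Complex.exp (2 * Real.pi * Complex.I / m) := by
      simp [ze]
    rw [h1, ← Complex.exp_nat_mul, mul_div_cancel₀ _ h0]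
    exact Complex.exp_two_pi_mul_I

section

variable {Λ : LL} {p N : ℕ} {D : Dt p N} {h : D.ok} {q : ℕ}

/-- Composition, with the points as equations. -/
theorem comp (hRg : S_Rg) (hq : q ≠ 0) {σ τ : ℂ ≃+* ℂ} {s s₁ s₂ : Fin p → ℂ}
    {e e₁ e₂ : Fin (rk D) → D.V} (hs : Function.Injective s) (hσ : FxZ D σ) (hτ : FxZ D τ)
    (h1 : (fun i => σ (s i)) = s₁) (h2 : (fun i => τ (s₁ i)) = s₂) (be : IsBas Λ D h s e)
    (be₁ : IsBas Λ D h s₁ e₁) (be₂ : IsBas Λ D h s₂ e₂)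
    {A B : Matrix (Fin (rk D)) (Fin (rk D)) (ZMod q)} (hA : RepG Λ D h σ s e e₁ q A)
    (hB : RepG Λ D h τ s₁ e₁ e₂ q B) : RepG Λ D h (σ.trans τ) s e e₂ q (B * A) := by
  subst h1
  subst h2
  exact (hRg Λ p N D h σ s e e₁ q hq hs hσ be be₁).2.2.1 τ e₂ hτ be₂ A B hA hB

theorem bl_mul (A B : Matrix (Fin (rk D)) (Fin (rk D)) (ZMod q)) (c d : ZMod q) :
    (bl A c * bl B d : Matrix (Fin (rk D) ⊕ Unit) (Fin (rk D) ⊕ Unit) (ZMod q)) =
      bl (A * B) (c * d) := by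
  unfold bl
  rw [Matrix.fromBlocks_multiply]
  simp only [Matrix.mul_zero, Matrix.zero_mul, add_zero, zero_add]
  congr 1
  funext i j
  simp [Matrix.mul_apply]

theorem bl_one : (bl (D := D) (1 : Matrix (Fin (rk D)) (Fin (rk D)) (ZMod q)) 1) = 1 := by
  unfold bl
  rw [← Matrix.fromBlocks_one]
  congr 1

/-- One inclusion. -/
theorem incl (hRg : S_Rg) (hq : q ≠ 0) {σ : ℂ ≃+* ℂ} {s s' : Fin p → ℂ}
    {e e' : Fin (rk D) → D.V} (hs' : Function.Injective s')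
    (h1 : ∀ i, σ (s i) = s' i) (hal : ∀ a : ℂ, IsAlgebraic ℚ a → σ a = a)
    (be : IsBas Λ D h s e) (be' : IsBas Λ D h s' e')
    {T T' : Matrix (Fin (rk D)) (Fin (rk D)) (ZMod q)} (hT : RepG Λ D h σ s e e' q T)
    (hT' : RepG Λ D h σ.symm s' e' e q T') {B : Matrix (Fin (rk D) ⊕ Unit) (Fin (rk D) ⊕ Unit) (ZMod q)}
    (hB : B ∈ Sk Λ D h s e q) : bl T 1 * B * bl T' 1 ∈ Sk Λ D h s' e' q := by
  obtain ⟨ρ, hρ, A, c, hA, hc, rfl⟩ := hB
  have hal' : ∀ a : ℂ, IsAlgebraic ℚ a → σ.symm a = a := fun a ha => by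
    rw [RingEquiv.symm_apply_eq, hal a ha]
  have hσ : FxZ D σ := fun n => hal _ (ze_alg _)
  have hσ' : FxZ D σ.symm := fun n => hal' _ (ze_alg _)
  have h1' : ∀ i, σ.symm (s' i) = s i := fun i => by
    rw [RingEquiv.symm_apply_eq, h1]
  have hρσ : FxZ D (σ.symm.trans ρ) := fun n => by
    rw [RingEquiv.trans_apply, hσ' n, hρ.2 n]
  have k1 : RepG Λ D h (σ.symm.trans ρ) s' e' e q (A * T') :=
    comp hRg hq hs' hσ' hρ.2 (funext h1') (funext hρ.1) be' be be hT' hA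
  have k2 : RepG Λ D h ((σ.symm.trans ρ).trans σ) s' e' e' q (T * (A * T')) :=
    comp hRg hq hs' hρσ hσ (funext fun i => by rw [RingEquiv.trans_apply, h1', hρ.1])
      (funext h1) be' be be' k1 hT
  refine ⟨(σ.symm.trans ρ).trans σ, ⟨fun i => ?_, fun n => ?_⟩, T * (A * T'), c, k2, ?_, ?_⟩
  · rw [RingEquiv.trans_apply, RingEquiv.trans_apply, h1', hρ.1, h1]
  · rw [RingEquiv.trans_apply, RingEquiv.trans_apply, hσ' n, hρ.2 n, hσ n]
  · intro ξ hξ
    have hξa : IsAlgebraic ℚ ξ := alg_root hq hξ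
    rw [RingEquiv.trans_apply, RingEquiv.trans_apply, hal' ξ hξa, hc ξ hξ, map_pow, hal ξ hξa]
  · rw [bl_mul, bl_mul, one_mul, mul_one, Matrix.mul_assoc]

end

end Gn_aux

open Gn_aux in
theorem tGn : S_Gz → S_Rg → S_Cy → S_Gn := by
  intro hGz hRg _ Λ p N D h s s' e e' q hq hs hs' be be'
  obtain ⟨σ, h1, hal⟩ := hGz p s s' hs hs'
  have hsi : Function.Injective s := hs.injective
  have hsi' : Function.Injective s' := hs'.injective
  have hal' : ∀ a : ℂ, IsAlgebraic ℚ a → σ.symm a = a := fun a ha => by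
    rw [RingEquiv.symm_apply_eq, hal a ha]
  have h1' : ∀ i, σ.symm (s' i) = s i := fun i => by
    rw [RingEquiv.symm_apply_eq, h1]
  have hσ : FxZ D σ := fun n => hal _ (ze_alg _)
  have hfun : (fun i => σ (s i)) = s' := funext h1
  have be'' : IsBas Λ D h (fun i => σ (s i)) e' := by
    rw [hfun]
    exact be'
  obtain ⟨⟨T, hT⟩, -, -, hinv, -⟩ := hRg Λ p N D h σ s e e' q hq hsi hσ be be''
  obtain ⟨T', hT', hTT, hTT'⟩ := hinv T hT
  rw [hfun] at hT'
  have hU : (bl T 1 * bl T' 1 : Matrix (Fin (rk D) ⊕ Unit) (Fin (rk D) ⊕ Unit) (ZMod q)) = 1 := by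
    rw [bl_mul, hTT, mul_one, bl_one]
  have hU' : (bl T' 1 * bl T 1 : Matrix (Fin (rk D) ⊕ Unit) (Fin (rk D) ⊕ Unit) (ZMod q)) = 1 := by
    rw [bl_mul, hTT', mul_one, bl_one]
  have himg : Sk Λ D h s' e' q = (fun B => bl T 1 * B * bl T' 1) '' Sk Λ D h s e q := by
    ext B
    constructor
    · intro hB
      refine ⟨bl T' 1 * B * bl T 1, ?_, ?_⟩
      · exact incl hRg hq hsi h1' hal' be' be hT' (by
          rw [RingEquiv.symm_symm]
          exact hT) hB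
      · show bl T 1 * (bl T' 1 * B * bl T 1) * bl T' 1 = B
        have e1 : bl T 1 * (bl T' 1 * B * bl T 1) * bl T' 1 =
            (bl T 1 * bl T' 1) * B * (bl T 1 * bl T' 1) := by
          simp only [Matrix.mul_assoc]
        rw [e1, hU, Matrix.one_mul, Matrix.mul_one]
    · rintro ⟨B, hB, rfl⟩
      exact incl hRg hq hsi' h1 hal be be' hT hT' hB
  rw [himg, Set.ncard_image_of_injective]
  intro B C hBC
  have e1 : bl T' 1 * (bl T 1 * B * bl T' 1) * bl T 1 =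
      bl T' 1 * (bl T 1 * C * bl T' 1) * bl T 1 := by
    have hBC' : bl T 1 * B * bl T' 1 = bl T 1 * C * bl T' 1 := hBC
    rw [hBC']
  have e2 : ∀ B : Matrix (Fin (rk D) ⊕ Unit) (Fin (rk D) ⊕ Unit) (ZMod q),
      bl T' 1 * (bl T 1 * B * bl T' 1) * bl T 1 = B := by
    intro B
    have e3 : bl T' 1 * (bl T 1 * B * bl T' 1) * bl T 1 =
        (bl T' 1 * bl T 1) * B * (bl T' 1 * bl T 1) := by
      simp only [Matrix.mul_assoc]
    rw [e3, hU', Matrix.one_mul, Matrix.mul_one]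
  rw [e2, e2] at e1
  exact e1

end TNF.LG
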