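import Pool.Agent.Lib.TNF.LG.SpecD
import Pool.Agent.Lib.TATE.GA.G3

/-!
# PROJECT TNF, package LG: algebraically independent points are dense
-/

set_option autoImplicit false

open HC HC.CC SEJ TATE Topology Metric

noncomputable section

namespace TNF.LG

theorem tGpt : S_Gpt := by
  intro p
  refine ⟨?_, fun s hs => hs.injective⟩
  apply dense_of_mem_residual
  have h := tGA4 p
  rw [IsMeagre] at h
  refine Filter.mem_of_superset h ?_
  intro s hs
  by_contra hc
  exact hs hc

end TNF.LG
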