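import Pool.Agent.Lib.TNF.LG.Spec
import Pool.Agent.Lib.TATE.GA.Sg

/-!
# TNF/LG/Gz (helper6): automorphisms between algebraically independent points
-/

set_option autoImplicit false

open HC HC.CC SEJ TATE Topology Metric

noncomputable section

namespace TNF.LG

theorem tGz : S_Gz := by
  intro p s s' hs hs'
  have hK : Countable (algebraicClosure ℚ ℂ) := by
    have h1 : {x : ℂ | IsAlgebraic ℚ x}.Countable := Algebraic.countable ℚ ℂ
    have h2 : ((algebraicClosure ℚ ℂ : IntermediateField ℚ ℂ) : Set ℂ) ⊆ {x : ℂ | IsAlgebraic ℚ x} :=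
      fun x hx => mem_algebraicClosure_iff.1 hx
    exact (h1.mono h2).to_subtype
  have hM : Countable (MvPolynomial (Fin p) (algebraicClosure ℚ ℂ)) := by
    rw [← Cardinal.mk_le_aleph0_iff]
    refine MvPolynomial.cardinalMk_le_max_lift.trans ?_
    simp
  have h1 : AlgebraicIndependent (algebraicClosure ℚ ℂ) s := hs.algebraicClosure
  have h1' : AlgebraicIndependent (algebraicClosure ℚ ℂ) s' := hs'.algebraicClosure
  obtain ⟨τ, hτ⟩ := exists_aut_of_ker
    ((MvPolynomial.aeval s : MvPolynomial (Fin p) (algebraicClosure ℚ ℂ) →ₐ[algebraicClosure ℚ ℂ] ℂ) :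
      MvPolynomial (Fin p) (algebraicClosure ℚ ℂ) →+* ℂ)
    ((MvPolynomial.aeval s' : MvPolynomial (Fin p) (algebraicClosure ℚ ℂ) →ₐ[algebraicClosure ℚ ℂ] ℂ) :
      MvPolynomial (Fin p) (algebraicClosure ℚ ℂ) →+* ℂ) (fun b => by
      have e1 : (MvPolynomial.aeval s : MvPolynomial (Fin p) (algebraicClosure ℚ ℂ)
          →ₐ[algebraicClosure ℚ ℂ] ℂ) b = 0 ↔ b = 0 := map_eq_zero_iff _ h1
      have e2 : (MvPolynomial.aeval s' : MvPolynomial (Fin p) (algebraicClosure ℚ ℂ)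
          →ₐ[algebraicClosure ℚ ℂ] ℂ) b = 0 ↔ b = 0 := map_eq_zero_iff _ h1'
      exact e1.trans e2.symm)
  refine ⟨τ, fun i => ?_, fun a ha => ?_⟩
  · have h2 := hτ (MvPolynomial.X i)
    rw [RingHom.coe_coe, RingHom.coe_coe, MvPolynomial.aeval_X, MvPolynomial.aeval_X] at h2
    exact h2
  · have h2 := hτ (MvPolynomial.C ⟨a, mem_algebraicClosure_iff.2 ha⟩)
    rw [RingHom.coe_coe, RingHom.coe_coe, MvPolynomial.aeval_C, MvPolynomial.aeval_C] at h2
    exact h2

end TNF.LG
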