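import Pool.Agent.Lib.TNF.LG.SpecD
import Pool.Agent.Lib.TATE.MG.TCo

/-!
# TNF/LG/Hs (helper64): Hilbert data exist
-/

set_option autoImplicit false

open HC HC.CC SEJ TATE Topology Metric

noncomputable section

namespace TNF.LG

theorem tHs : StmtFA2 → S_Gpt → S_Bs → S_Pac → S_Dat → S_Onp → S_Rzc → S_Exz → S_Bsx → S_Hs := by
  classical
  intro hFA2 hGpt hBs hPac hDat hOnp hRzc hExz hBsx Λ p N D h q hq
  obtain ⟨s, hs⟩ := (hGpt p).1.nonempty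
  have hinj : Function.Injective s := (hGpt p).2 s hs
  have hti : ∀ n, Function.Injective (D.t s n) := fun n => (TATE.MG.tTCo p N D h n).2.2.1 s hinj
  obtain ⟨e, he⟩ := hBs Λ p N D h s hinj
  obtain ⟨k, y, hy⟩ := hPac Λ p N D h s hinj e he q hq
  obtain ⟨P, R, d, e₀, θ, hD⟩ := hDat p (Jx D k) s y hs hy.al
  have hon : OnP D s y := fun i n a => by
    obtain ⟨w, hw, -⟩ := hy.ex i n
    have h1 := (hFA2 _ _ _ (h.cv n)).2.2.1 _ (hti n) _ _ _ (hw a)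
    exact ⟨h1.1, h1.2.1⟩
  obtain ⟨Δ₁, hΔ₁, H1⟩ := hOnp p N D h k s y P R d e₀ θ hinj hon hD
  obtain ⟨Δ₂, hΔ₂, H2⟩ := hRzc p N D h k q s y P R d e₀ θ hq hy.az hy.rt hD
  refine ⟨k, P, R, d, Δ₁ * Δ₂, hD.irr, hD.deg, mul_ne_zero hΔ₁ hΔ₂, ?_, ?_, ?_, ?_, ?_, ?_⟩
  · intro s' hs'
    rw [map_mul] at hs'
    obtain ⟨h1, h2, -⟩ := H1 s' (left_ne_zero_of_mul hs')
    exact ⟨h1, hD.good s' h2⟩
  · intro s' hs' x hx
    rw [map_mul] at hs'
    exact (H1 s' (left_ne_zero_of_mul hs')).2.2 x hx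
  · intro s' hs' x hx
    rw [map_mul] at hs'
    exact (H2 s' (right_ne_zero_of_mul hs')
      (hD.good s' (H1 s' (left_ne_zero_of_mul hs')).2.1).2 x hx).1
  · intro s' hs' x hx
    rw [map_mul] at hs'
    exact (H2 s' (right_ne_zero_of_mul hs')
      (hD.good s' (H1 s' (left_ne_zero_of_mul hs')).2.1).2 x hx).2
  · intro s' hs'
    exact hExz p N D k s y P R d e₀ θ hy.az hD s' hs'
  · intro s' hs' x hx hAz e' he'
    exact hBsx Λ p N D h q k s y P R d e₀ θ e hq hinj he hy hD s' hs' ((hGpt p).2 s' hs') x hx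
      hAz e' he'

end TNF.LG
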