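import Pool.Agent.Lib.TNF.LG.SpecD

/-!
# PROJECT TNF, package LG, module Iri: the polynomial is irreducible
-/

set_option autoImplicit false

open HC HC.CC SEJ TATE Topology Metric

noncomputable section

namespace TNF.LG

namespace Iri_aux

/-- `P` is a prime element of `ℚ[S][X]`. -/
theorem prime {p k : ℕ} {s : Fin p → ℂ} {y : Fin k → ℂ} {P : Polynomial (QS p)}
    {R : Fin k → Polynomial (QS p)} {d e : QS p} {θ : ℂ} (h : IsDat s y P R d e θ) :
    P ≠ 0 ∧ 0 < P.natDegree ∧ Prime P := by
  have hlc : cf s P.leadingCoeff ≠ 0 := (h.good s h.e0).1.1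
  have hroot : P.eval₂ (cf s) θ = 0 := by
    rw [← PS_eval]
    exact h.root
  have hP0 : P ≠ 0 := by
    rintro rfl
    rw [Polynomial.leadingCoeff_zero, map_zero] at hlc
    exact hlc rfl
  refine ⟨hP0, ?_, hP0, ?_, ?_⟩
  · by_contra h0
    have h1 : P.natDegree = 0 := by omega
    have h2 := Polynomial.eq_C_of_natDegree_eq_zero h1
    rw [h2, Polynomial.eval₂_C] at hroot
    rw [Polynomial.leadingCoeff, h1] at hlc
    exact hlc hroot
  · intro hu
    have h1 : IsUnit (Polynomial.eval₂RingHom (cf s) θ P) := hu.map _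
    rw [Polynomial.coe_eval₂RingHom, hroot] at h1
    exact not_isUnit_zero h1
  · intro a b hab
    obtain ⟨c, hc⟩ := hab
    have h1 : a.eval₂ (cf s) θ * b.eval₂ (cf s) θ = 0 := by
      rw [← Polynomial.eval₂_mul, hc, Polynomial.eval₂_mul, hroot, zero_mul]
    rcases mul_eq_zero.1 h1 with h2 | h2
    · exact Or.inl (h.ker θ h.root a h2)
    · exact Or.inr (h.ker θ h.root b h2)

end Iri_aux

theorem tIri : S_Iri := by
  intro p k s y P R d e θ h
  obtain ⟨_, hdeg, hprime⟩ := Iri_aux.prime h
  refine ⟨?_, hdeg⟩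
  have hprim : P.IsPrimitive := hprime.irreducible.isPrimitive hdeg.ne'
  exact (hprim.irreducible_iff_irreducible_map_fraction_map).1 hprime.irreducible

end TNF.LG
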