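import Pool.Agent.Lib.TNF.LG.SpecE

set_option autoImplicit false

open HC HC.CC SEJ TATE Topology Metric

noncomputable section

namespace TNF.LG

namespace Kul_aux

theorem contLn {p : ℕ} (s : Fin p → ℂ) (z : ℂ) : Continuous fun w : Fin p → ℂ => ln s w z := by
  unfold ln
  fun_prop

theorem closedA {p : ℕ} (s : Fin p → ℂ) (K : Set (Fin p → ℂ)) (hK : IsClosed K) (U : Set ℂ) :
    IsClosed {w : Fin p → ℂ | ∀ z ∈ U, ln s w z ∈ K} := by
  have h : {w : Fin p → ℂ | ∀ z ∈ U, ln s w z ∈ K} =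
      ⋂ z ∈ U, (fun w => ln s w z) ⁻¹' K := by
    ext w
    simp
  rw [h]
  exact isClosed_biInter fun z _ => hK.preimage (contLn s z)

theorem emptyA {p : ℕ} (s : Fin p → ℂ) (K : Set (Fin p → ℂ)) (hK : interior K = ∅) (z : ℂ)
    (hz : z ≠ 0) : interior ((fun w => ln s w z) ⁻¹' K) = ∅ := by
  rw [Set.eq_empty_iff_forall_notMem]
  intro w₀ hw
  have hg : Continuous fun v : Fin p → ℂ => (fun i => z⁻¹ * (v i - s i) : Fin p → ℂ) := by
    fun_prop
  have hO : IsOpen ((fun v : Fin p → ℂ => (fun i => z⁻¹ * (v i - s i) : Fin p → ℂ)) ⁻¹'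
      interior ((fun w => ln s w z) ⁻¹' K)) := isOpen_interior.preimage hg
  have hsub : ((fun v : Fin p → ℂ => (fun i => z⁻¹ * (v i - s i) : Fin p → ℂ)) ⁻¹'
      interior ((fun w => ln s w z) ⁻¹' K)) ⊆ K := by
    intro v hv
    have h1 := interior_subset hv
    have h2 : ln s (fun i => z⁻¹ * (v i - s i) : Fin p → ℂ) z = v := by
      funext i
      simp only [ln]
      field_simp
      ring
    have h3 : ln s (fun i => z⁻¹ * (v i - s i) : Fin p → ℂ) z ∈ K := h1
    rwa [h2] at h3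
  have hmem : ln s w₀ z ∈ ((fun v : Fin p → ℂ => (fun i => z⁻¹ * (v i - s i) : Fin p → ℂ)) ⁻¹'
      interior ((fun w => ln s w z) ⁻¹' K)) := by
    have h2 : (fun i => z⁻¹ * (ln s w₀ z i - s i) : Fin p → ℂ) = w₀ := by
      funext i
      simp only [ln]
      field_simp
      ring
    rw [Set.mem_preimage, h2]
    exact hw
  have h4 : ln s w₀ z ∈ interior K := interior_maximal hsub hO hmem
  rw [hK] at h4
  exact h4

end Kul_aux

theorem tKul : S_Kul := by
  classical
  intro p X s hX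
  rw [isMeagre_iff_countable_union_isNowhereDense] at hX
  obtain ⟨S, hS, hSc, hXS⟩ := hX
  obtain ⟨b, hbc, hbe, hb⟩ := TopologicalSpace.exists_countable_basis ℂ
  have hcov : {w : Fin p → ℂ | ¬ IsMeagre {z : ℂ | ln s w z ∈ X}} ⊆
      ⋃ K ∈ S, ⋃ U ∈ {U ∈ b | (0 : ℂ) ∉ U}, {w | ∀ z ∈ U, ln s w z ∈ closure K} := by
    intro w hw
    by_contra hcon
    apply hw
    have h1 : {z : ℂ | ln s w z ∈ X} ⊆ ⋃ K ∈ S, {z | ln s w z ∈ closure K} := by
      intro z hz
      obtain ⟨K, hK, hzK⟩ := hXS hz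
      exact Set.mem_biUnion hK (subset_closure hzK)
    refine (isMeagre_biUnion hSc fun K hK => ?_).mono h1
    apply IsNowhereDense.isMeagre
    have hcl : IsClosed {z : ℂ | ln s w z ∈ closure K} := by
      have hc : Continuous fun z : ℂ => ln s w z := by
        unfold ln
        fun_prop
      exact isClosed_closure.preimage hc
    rw [hcl.isNowhereDense_iff]
    by_contra hne
    have hne' := Set.nonempty_iff_ne_empty.mpr hne
    obtain ⟨z₀, hz₀, hz₁⟩ :=
      (dense_compl_singleton (0 : ℂ)).inter_open_nonempty _ isOpen_interior hne'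
    have hVo : IsOpen (interior {z : ℂ | ln s w z ∈ closure K} ∩ {(0 : ℂ)}ᶜ) :=
      isOpen_interior.inter isOpen_compl_singleton
    obtain ⟨U, hUb, hzU, hUV⟩ := hb.exists_subset_of_mem_open (Set.mem_inter hz₀ hz₁) hVo
    apply hcon
    refine Set.mem_biUnion hK (Set.mem_biUnion (⟨hUb, fun h0 => ?_⟩ : U ∈ {U ∈ b | (0 : ℂ) ∉ U}) ?_)
    · exact (hUV h0).2 rfl
    · intro z hz
      have h5 : z ∈ {z : ℂ | ln s w z ∈ closure K} := interior_subset (hUV hz).1
      exact h5
  refine (isMeagre_biUnion hSc fun K hK => ?_).mono hcov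
  refine isMeagre_biUnion (hbc.mono (Set.sep_subset _ _)) fun U hU => ?_
  apply IsNowhereDense.isMeagre
  rw [(Kul_aux.closedA s (closure K) isClosed_closure U).isNowhereDense_iff]
  have hUne : U.Nonempty := by
    rw [Set.nonempty_iff_ne_empty]
    intro h
    exact hbe (h ▸ hU.1)
  obtain ⟨z, hz⟩ := hUne
  have hz0 : z ≠ 0 := fun h => hU.2 (h ▸ hz)
  have h2 := Kul_aux.emptyA s (closure K) (hS K hK) z hz0
  rw [Set.eq_empty_iff_forall_notMem] at h2 ⊢
  intro w hw
  refine h2 w (interior_mono ?_ hw)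
  intro w' hw'
  exact hw' z hz

end TNF.LG
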