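import Pool.Agent.Lib.TNF.LG.SpecE
import Pool.Agent.Lib.TATE.Asm.Rc
import Pool.Agent.Lib.TATE.TO.Sum
import Pool.Agent.Lib.TATE.GA.G1

/-! # PROJECT TNF, package LG: deformation on a line (helper4) -/

set_option autoImplicit false

open HC HC.CC SEJ TATE Topology Metric

noncomputable section

namespace TNF.LG

namespace Lin_aux

theorem algO_mono {p q : ℕ} {s : Fin p → ℂ} {s' : Fin q → ℂ}
    (hle : ∀ i, s i ∈ IntermediateField.adjoin ℚ (Set.range s')) {a : ℂ} (ha : AlgO s a) :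
    AlgO s' a := by
  have hle' : IntermediateField.adjoin ℚ (Set.range s) ≤
      IntermediateField.adjoin ℚ (Set.range s') := by
    rw [IntermediateField.adjoin_le_iff]
    rintro _ ⟨i, rfl⟩
    exact hle i
  let _ : Algebra (IntermediateField.adjoin ℚ (Set.range s))
    (IntermediateField.adjoin ℚ (Set.range s')) := (IntermediateField.inclusion hle').toAlgebra
  have : IsScalarTower (IntermediateField.adjoin ℚ (Set.range s))
    (IntermediateField.adjoin ℚ (Set.range s')) ℂ := IsScalarTower.of_algebraMap_eq fun _ => rfl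
  have ha' : IsAlgebraic (IntermediateField.adjoin ℚ (Set.range s)) a := ha
  exact ha'.extendScalars (RingHom.injective
    (algebraMap (IntermediateField.adjoin ℚ (Set.range s)) (IntermediateField.adjoin ℚ (Set.range s'))))

/-- The second coordinate of a point of the curve is algebraic if the first one is. -/
theorem algO_snd {p m r : ℕ} {s : Fin p → ℂ} {b : Fin (r + 1) → ℕ} {t : Fin (r + 1) → ℂ}
    (hm : m ≠ 0) (hts : ∀ j, t j ∈ IntermediateField.adjoin ℚ (Set.range s)) {P : ℂ × ℂ}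
    (hP : P ∈ Pts m b t) (h1 : AlgO s P.1) : AlgO s P.2 := by
  have h2 : P.2 ^ m ∈ Ks s := by
    rw [hP.2]
    refine prod_mem fun j _ => pow_mem (sub_mem (mem_Ks.2 h1) ?_) _
    exact mem_Ks.2 (TO.Sum_aux.algO_of_mem (hts j))
  exact IsAlgebraic.of_pow (Nat.pos_of_ne_zero hm) (mem_Ks.1 h2)

theorem lq_tau {m r : ℕ} {b : Fin (r + 1) → ℕ} (Φ : FamD m b) {t t' : Fin (r + 1) → ℂ}
    (ht : Function.Injective t) (ht' : t' ∈ ball t (Φ.ρ t)) {v : Ix m b → ℂ} (hv : v ∈ LQ m b t) :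
    Φ.τ t t' v ∈ LQ m b t' := by
  obtain ⟨k, hk, hkv⟩ := hv
  refine ⟨k, hk, ?_⟩
  rw [← map_nsmul, ← Φ.latZ t ht t' ht']
  exact ⟨_, hkv, rfl⟩

/-- One factor. -/
theorem one (hRa : S_Ra) (hTa : S_Ta) (hDf : S_Df) {m r : ℕ} (b : Fin (r + 1) → ℕ) (Λ : LPD m b)
    (Φ : FamD m b) (hC : Cvb m b) (hr : 1 ≤ r) {p d : ℕ} (s : Fin p → ℂ) (U : ℂ → (Fin d → ℂ))
    (hsU : ∀ z i, s i ∈ IntermediateField.adjoin ℚ (Set.range (U z)))
    (t : ℂ → (Fin (r + 1) → ℂ)) (ε : ℝ) (hε : 0 < ε) (ht : DifferentiableOn ℂ t (ball 0 ε))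
    (hinj : ∀ z ∈ ball (0 : ℂ) ε, Function.Injective (t z))
    (hball : ∀ z ∈ ball (0 : ℂ) ε, t z ∈ ball (t 0) (Φ.ρ (t 0)))
    (hadj : ∀ z j, t z j ∈ IntermediateField.adjoin ℚ (Set.range (U z)))
    (hadj0 : ∀ j, t 0 j ∈ IntermediateField.adjoin ℚ (Set.range s)) (v : Ix m b → ℂ)
    (hv : v ∈ LQ m b (t 0)) :
    ∃ ε' > 0, ε' ≤ ε ∧ ∃ (K : ℕ) (S T : Fin K → ℂ → ℂ × ℂ),
      (∀ a, DifferentiableOn ℂ (S a) (ball 0 ε') ∧ DifferentiableOn ℂ (T a) (ball 0 ε')) ∧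
      (∀ a, AlgO s (S a 0).1 ∧ AlgO s (S a 0).2 ∧ AlgO s (T a 0).1 ∧ AlgO s (T a 0).2) ∧
      ∀ z ∈ ball (0 : ℂ) ε', (∀ a, AlgO (U z) (S a z).1 ∧ AlgO (U z) (S a z).2 ∧
        AlgO (U z) (T a z).1 ∧ AlgO (U z) (T a z).2) ∧
        ∃ u : Fin K → (Ix m b → ℂ), (∀ a, Itg m b (t z) (S a z) (T a z) (u a)) ∧
          ∑ a, u a = Φ.τ (t 0) (t z) v := by
  have h0 : (0 : ℂ) ∈ ball (0 : ℂ) ε := mem_ball_self hε
  have hinj0 := hinj 0 h0
  have hm : m ≠ 0 := by
    have := hC.1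
    omega
  obtain ⟨hTa1, R, hR, hRalg⟩ := hTa m r b Λ (t 0) hC hr hinj0 p s hadj0
  obtain ⟨K, Q', Q, w, hQalg, hw, hsum⟩ := hTa1 v hv
  have hu : DifferentiableOn ℂ (fun z => Φ.τ (t 0) (t z) v) (ball 0 ε) :=
    (Φ.hol (t 0) hinj0 v).comp ht hball
  obtain ⟨ε', hε', hle, q', q, ρ, ρ', hq, hρ, hz⟩ := hDf m r b ε t hC hε ht hinj0 K Q' Q w hw R hR
    (fun z => Φ.τ (t 0) (t z) v) hu (by
      show Φ.τ (t 0) (t 0) v = _
      rw [Φ.one (t 0) hinj0, hsum])
  refine ⟨ε', hε', hle, K + Fintype.card (Ix m b),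
    Fin.append q' ρ, Fin.append q ρ', ?_, ?_, ?_⟩
  · intro a
    refine Fin.addCases (fun a => ?_) (fun a => ?_) a
    · rw [Fin.append_left, Fin.append_left]
      exact ⟨(hq a).1, (hq a).2.1⟩
    · rw [Fin.append_right, Fin.append_right]
      exact ⟨(hρ a).1, (hρ a).2.1⟩
  · intro a
    refine Fin.addCases (fun a => ?_) (fun a => ?_) a
    · rw [Fin.append_left, Fin.append_left, (hq a).2.2.1, (hq a).2.2.2.1]
      exact hQalg a
    · rw [Fin.append_right, Fin.append_right, (hρ a).2.2.1, (hρ a).2.2.2.1]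
      exact ⟨(hRalg a).1, (hRalg a).2, (hRalg a).1, (hRalg a).2⟩
  · intro z hzb
    have hzε : z ∈ ball (0 : ℂ) ε := ball_subset_ball hle hzb
    obtain ⟨hinjz, hInd, u, u', hu1, hu2, hu3⟩ := hz z hzb
    have hmono : ∀ {x : ℂ}, AlgO s x → AlgO (U z) x := fun hx => algO_mono (hsU z) hx
    have aq' : ∀ a, AlgO (U z) (q' a z).1 ∧ AlgO (U z) (q' a z).2 := by
      intro a
      have h1 : AlgO (U z) (q' a z).1 := by
        rw [((hq a).2.2.2.2 z hzb).1]
        exact hmono (hQalg a).1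
      exact ⟨h1, algO_snd hm (hadj z) (Rc_aux.pts_of_itg (hu1 a)).1 h1⟩
    have aq : ∀ a, AlgO (U z) (q a z).1 ∧ AlgO (U z) (q a z).2 := by
      intro a
      have h1 : AlgO (U z) (q a z).1 := by
        rw [((hq a).2.2.2.2 z hzb).2]
        exact hmono (hQalg a).2.2.1
      exact ⟨h1, algO_snd hm (hadj z) (Rc_aux.pts_of_itg (hu1 a)).2 h1⟩
    have aρ : ∀ a, AlgO (U z) (ρ a z).1 ∧ AlgO (U z) (ρ a z).2 := by
      intro a
      have h1 : AlgO (U z) (ρ a z).1 := by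
        rw [(hρ a).2.2.2.2 z hzb]
        exact hmono (hRalg a).1
      exact ⟨h1, algO_snd hm (hadj z) (Rc_aux.pts_of_itg (hu2 a)).1 h1⟩
    have aρ' := hRa m r b Λ (t z) hC hr hinjz d (U z) (hadj z) (fun a => ρ a z)
      (fun a => ρ' a z) u' hInd aρ hu2 K (fun a => q' a z) (fun a => q a z) u
      (fun a => ⟨(aq' a).1, (aq' a).2, (aq a).1, (aq a).2⟩) hu1 (by
        rw [add_comm, hu3]
        exact lq_tau Φ hinj0 (hball z hzε) hv)
    refine ⟨fun a => ?_, Fin.append u u', fun a => ?_, ?_⟩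
    · refine Fin.addCases (fun a => ?_) (fun a => ?_) a
      · rw [Fin.append_left, Fin.append_left]
        exact ⟨(aq' a).1, (aq' a).2, (aq a).1, (aq a).2⟩
      · rw [Fin.append_right, Fin.append_right]
        exact ⟨(aρ a).1, (aρ a).2, (aρ' a).1, (aρ' a).2⟩
    · refine Fin.addCases (fun a => ?_) (fun a => ?_) a
      · rw [Fin.append_left, Fin.append_left, Fin.append_left]
        exact hu1 a
      · rw [Fin.append_right, Fin.append_right, Fin.append_right]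
        exact hu2 a
    · rw [Fin.sum_univ_add]
      simp only [Fin.append_left, Fin.append_right]
      exact hu3

/-- A common radius. -/
theorem rad {ι : Type} [Finite ι] (f : ι → ℝ) (hf : ∀ i, 0 < f i) (c : ℝ) (hc : 0 < c) :
    ∃ ε > 0, ε ≤ c ∧ ∀ i, ε ≤ f i := by
  rcases isEmpty_or_nonempty ι with h | h
  · exact ⟨c, hc, le_rfl, fun i => (h.false i).elim⟩
  · obtain ⟨i₀, hi₀⟩ := Finite.exists_min f
    exact ⟨min c (f i₀), lt_min hc (hf i₀), min_le_left _ _,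
      fun i => (min_le_right _ _).trans (hi₀ i)⟩

/-- The tuple. -/
def Th {p N : ℕ} (D : Dt p N) (q : ℕ) (k : Fin (rk D) → Fin N → ℕ)
    (S T : ∀ i n, Fin (k i n) → ℂ → ℂ × ℂ) (z : ℂ) : Jx D k → ℂ :=
  Sum.elim (fun x => if x.2 = 0 then (S x.1.1 x.1.2.1 x.1.2.2 z).1
      else if x.2 = 1 then (S x.1.1 x.1.2.1 x.1.2.2 z).2
      else if x.2 = 2 then (T x.1.1 x.1.2.1 x.1.2.2 z).1 else (T x.1.1 x.1.2.1 x.1.2.2 z).2)
    fun o => o.elim (ze q 1) fun n => ze (D.m n) 1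

theorem th_src {p N : ℕ} (D : Dt p N) (q : ℕ) (k : Fin (rk D) → Fin N → ℕ)
    (S T : ∀ i n, Fin (k i n) → ℂ → ℂ × ℂ) (z : ℂ) (i n a) :
    src (Th D q k S T z) i n a = S i n a z := rfl

theorem th_tgt {p N : ℕ} (D : Dt p N) (q : ℕ) (k : Fin (rk D) → Fin N → ℕ)
    (S T : ∀ i n, Fin (k i n) → ℂ → ℂ × ℂ) (z : ℂ) (i n a) :
    tgt (Th D q k S T z) i n a = T i n a z := rfl

/-- A property of all components. -/
theorem th_all {p N : ℕ} (D : Dt p N) (q : ℕ) (k : Fin (rk D) → Fin N → ℕ)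
    (S T : ∀ i n, Fin (k i n) → ℂ → ℂ × ℂ) (C : (ℂ → ℂ) → Prop)
    (h1 : ∀ i n a, C (fun z => (S i n a z).1) ∧ C (fun z => (S i n a z).2) ∧
      C (fun z => (T i n a z).1) ∧ C (fun z => (T i n a z).2))
    (h2 : C fun _ => ze q 1) (h3 : ∀ n, C fun _ => ze (D.m n) 1) (j : Jx D k) :
    C fun z => Th D q k S T z j := by
  rcases j with ⟨⟨i, n, a⟩, c⟩ | (_ | n)
  · obtain ⟨g1, g2, g3, g4⟩ := h1 i n a
    fin_cases c
    · exact g1
    · exact g2
    · exact g3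
    · exact g4
  · exact h2
  · exact h3 n

theorem algO_ze {p : ℕ} (s : Fin p → ℂ) {m : ℕ} (hm0 : m ≠ 0) : AlgO s (ze m 1) := by
  have h1 : ze m 1 ^ m = 1 := by
    have h2 : (m : ℂ) ≠ 0 := Nat.cast_ne_zero.2 hm0
    have h3 : ze m 1 = Complex.exp (2 * Real.pi * Complex.I / m) := by
      unfold ze
      congr 1
      push_cast
      ring
    rw [h3, ← Complex.exp_nat_mul]
    have h4 : (m : ℂ) * (2 * Real.pi * Complex.I / m) = 2 * Real.pi * Complex.I := by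
      field_simp
    rw [h4, Complex.exp_two_pi_mul_I]
  refine ⟨Polynomial.X ^ m - Polynomial.C 1,
    Polynomial.X_pow_sub_C_ne_zero (Nat.pos_of_ne_zero hm0) 1, ?_⟩
  rw [map_sub, map_pow, Polynomial.aeval_X, Polynomial.aeval_C, h1, map_one, sub_self]

end Lin_aux

open Lin_aux in
theorem tLin : S_Ra → S_Ta → S_Df → S_Bt → TATE.S_Av → S_Lin := by
  classical
  intro hRa hTa hDf hBt hAv Λ Φ p N D h q s w e hq hs hB
  obtain ⟨ε₀, hε₀, hs'⟩ := hBt Λ Φ p N D h s hs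
  have hln0 : ln s w 0 = s := by
    funext i
    simp [ln]
  have hlnc : Continuous (ln s w) := by
    unfold ln
    fun_prop
  obtain ⟨ε₁, hε₁, hε₁'⟩ : ∃ ε₁ > 0, ∀ z ∈ ball (0 : ℂ) ε₁, ln s w z ∈ ball s ε₀ := by
    have h1 : ln s w ⁻¹' ball s ε₀ ∈ 𝓝 (0 : ℂ) := by
      refine hlnc.continuousAt.preimage_mem_nhds ?_
      rw [hln0]
      exact ball_mem_nhds s hε₀
    obtain ⟨ε₁, hε₁, h2⟩ := Metric.mem_nhds_iff.1 h1
    exact ⟨ε₁, hε₁, fun z hz => h2 hz⟩
  have hinj : ∀ z ∈ ball (0 : ℂ) ε₁, ∀ n, Function.Injective (D.t (ln s w z) n) := fun z hz n =>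
    (hAv p N D (ln s w z) h (hs' _ (hε₁' z hz)).1).1 n
  have hU : ∀ z i, ln s w z i ∈ IntermediateField.adjoin ℚ
      (Set.range (Fin.snoc (Fin.append s w) z : Fin (p + p + 1) → ℂ)) := by
    intro z i
    have h1 : s i ∈ IntermediateField.adjoin ℚ
        (Set.range (Fin.snoc (Fin.append s w) z : Fin (p + p + 1) → ℂ)) := by
      refine IntermediateField.subset_adjoin _ _ ⟨Fin.castSucc (Fin.castAdd p i), ?_⟩
      rw [Fin.snoc_castSucc, Fin.append_left]
    have h2 : w i ∈ IntermediateField.adjoin ℚ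
        (Set.range (Fin.snoc (Fin.append s w) z : Fin (p + p + 1) → ℂ)) := by
      refine IntermediateField.subset_adjoin _ _ ⟨Fin.castSucc (Fin.natAdd p i), ?_⟩
      rw [Fin.snoc_castSucc, Fin.append_right]
    have h3 : z ∈ IntermediateField.adjoin ℚ
        (Set.range (Fin.snoc (Fin.append s w) z : Fin (p + p + 1) → ℂ)) := by
      refine IntermediateField.subset_adjoin _ _ ⟨Fin.last _, ?_⟩
      rw [Fin.snoc_last]
    exact add_mem h1 (mul_mem h3 h2)
  have hsU : ∀ z i, s i ∈ IntermediateField.adjoin ℚ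
      (Set.range (Fin.snoc (Fin.append s w) z : Fin (p + p + 1) → ℂ)) := by
    intro z i
    refine IntermediateField.subset_adjoin _ _ ⟨Fin.castSucc (Fin.castAdd p i), ?_⟩
    rw [Fin.snoc_castSucc, Fin.append_left]
  have hptU : ∀ z n j, D.t (ln s w z) n j ∈ IntermediateField.adjoin ℚ
      (Set.range (Fin.snoc (Fin.append s w) z : Fin (p + p + 1) → ℂ)) := by
    intro z n j
    have h1 := Rc_aux.pt_mem (ln s w z) (D.i n) (D.k n) j
    have h2 : IntermediateField.adjoin ℚ (Set.range (ln s w z)) ≤ IntermediateField.adjoin ℚ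
        (Set.range (Fin.snoc (Fin.append s w) z : Fin (p + p + 1) → ℂ)) := by
      rw [IntermediateField.adjoin_le_iff]
      rintro _ ⟨i, rfl⟩
      exact hU z i
    exact h2 h1
  have hdt : ∀ n, DifferentiableOn ℂ (fun z => D.t (ln s w z) n) (ball 0 ε₁) := by
    intro n
    rw [differentiableOn_pi]
    intro j
    have hd : ∀ i, Differentiable ℂ fun z => ln s w z i := by
      intro i
      unfold ln
      fun_prop
    unfold Dt.t
    rcases hk : D.k n with _ | l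
    · exact (hd _).differentiableOn
    · intro z hz
      have hne : ln s w z (D.i n j) - ln s w z l ≠ 0 := by
        intro h0
        have h1 := (hs' _ (hε₁' z hz)).1 (sub_eq_zero.1 h0)
        have h2 := h.lt n l hk j
        rw [h1] at h2
        exact lt_irrefl _ h2
      exact (((hd _) z).sub ((hd _) z)).inv hne |>.differentiableWithinAt
  have hL : ∀ i n, ((q : ℂ)⁻¹ • e i) n ∈ LQ (D.m n) (D.b n) (D.t (ln s w 0) n) := by
    intro i n
    rw [hln0]
    have h1 : e i n ∈ (Λ _ _ _ (h.cv n)).L (D.t s n) := hB.mem i n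
    obtain ⟨M, hM, hM'⟩ := (Λ _ _ _ (h.cv n)).fin _ ((hAv p N D s h hs).1 n)
    refine ⟨M * q, mul_ne_zero hM hq, ?_⟩
    have h2 : (M * q) • ((q : ℂ)⁻¹ • e i) n = M • e i n := by
      rw [Pi.smul_apply, mul_smul, ← Nat.cast_smul_eq_nsmul ℂ q, smul_smul,
        mul_inv_cancel₀ (Nat.cast_ne_zero.2 hq), one_smul]
    rw [h2]
    exact hM' _ h1
  choose εf hεf hεle K S T hd ha0 haz using fun (x : Fin (rk D) × Fin N) =>
    one hRa hTa hDf (D.b x.2) (Λ _ _ _ (h.cv x.2)) (Φ _ _ _ (h.cv x.2)) (h.cv x.2)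
      (by have := h.r3 x.2; omega) s
      (fun z => (Fin.snoc (Fin.append s w) z : Fin (p + p + 1) → ℂ)) hsU
      (fun z => D.t (ln s w z) x.2) ε₁ hε₁ (hdt x.2) (fun z hz => hinj z hz x.2)
      (fun z hz => by
        simp only [hln0]
        exact (hs' _ (hε₁' z hz)).2.1 x.2)
      (fun z j => hptU z x.2 j)
      (fun j => by
        simp only [hln0]
        exact Rc_aux.pt_mem s _ _ j)
      (((q : ℂ)⁻¹ • e x.1) x.2) (hL x.1 x.2)
  obtain ⟨ε, hε, hεε₁, hεall⟩ := rad εf hεf ε₁ hε₁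
  have hsub : ∀ x, ball (0 : ℂ) ε ⊆ ball 0 (εf x) := fun x => ball_subset_ball (hεall x)
  refine ⟨fun i n => K (i, n), ε, Th D q (fun i n => K (i, n)) (fun i n => S (i, n))
    (fun i n => T (i, n)), ?_, ?_, ?_, ?_, ?_, ?_, ?_⟩
  · exact hε
  · rw [differentiableOn_pi]
    intro j
    refine th_all D q _ _ _ (fun f => DifferentiableOn ℂ f (ball 0 ε)) (fun i n a => ?_)
      (differentiableOn_const _) (fun n => differentiableOn_const _) j
    obtain ⟨h1, h2⟩ := hd (i, n) a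
    have h1' := h1.mono (hsub (i, n))
    have h2' := h2.mono (hsub (i, n))
    exact ⟨h1'.fst, h1'.snd, h2'.fst, h2'.snd⟩
  · intro z hz j
    refine th_all D q _ _ _ (fun f => AlgO (Fin.snoc (Fin.append s w) z : Fin (p + p + 1) → ℂ) (f z))
      (fun i n a => ?_) (algO_ze _ hq) (fun n => algO_ze _ (by have := (h.cv n).1; omega)) j
    exact (haz (i, n) z (hsub _ hz)).1 a
  · intro j
    refine th_all D q _ _ _ (fun f => AlgO s (f 0))
      (fun i n a => ?_) (algO_ze _ hq) (fun n => algO_ze _ (by have := (h.cv n).1; omega)) j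
    exact ha0 (i, n) a
  · intro z hz i n a
    obtain ⟨u, hu, -⟩ := (haz (i, n) z (hsub _ hz)).2
    rw [th_src, th_tgt]
    exact Rc_aux.pts_of_itg (hu a)
  · intro z hz
    exact ⟨fun n => rfl, rfl⟩
  · intro z hz i n
    obtain ⟨u, hu, hu'⟩ := (haz (i, n) z (hsub _ hz)).2
    refine ⟨u, fun a => ?_, ?_⟩
    · rw [th_src, th_tgt]
      exact hu a
    · have h1 : ∑ a, u a - ((q : ℂ)⁻¹ • HS.trn Φ D h s (ln s w z) (e i)) n = 0 := by
        rw [hu']
        simp only [hln0]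
        have h2 : ((q : ℂ)⁻¹ : ℂ) = (((q : ℝ)⁻¹ : ℝ) : ℂ) := by push_cast; rfl
        have h3 : (HS.trn Φ D h s (ln s w z) (e i)) n =
            (Φ _ _ _ (h.cv n)).τ (D.t s n) (D.t (ln s w z) n) (e i n) := rfl
        rw [Pi.smul_apply, Pi.smul_apply, h3, h2, Complex.coe_smul, Complex.coe_smul, map_smul,
          sub_self]
      rw [h1]
      exact (Λ _ _ _ (h.cv n)).zero _ (hinj z (ball_subset_ball hεε₁ hz) n)

end TNF.LG
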