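import Pool.Agent.Lib.TNF.LG.SpecE
import Pool.Agent.Lib.TATE.FL.FL

/-!
# PROJECT TNF, package LG, module Lo: the lower level
-/

set_option autoImplicit false

open HC HC.CC SEJ TATE Topology Metric

noncomputable section

namespace TNF.LG

namespace Lo_aux

/-- Finite intersection of cocountable sets near `0`. -/
theorem fin {ι : Type} (S : Set ι) (hS : S.Finite) (P : ι → ℂ → Prop)
    (h : ∀ B ∈ S, ∃ ε > 0, ∃ Y : Set ℂ, Y.Countable ∧ ∀ z ∈ ball (0 : ℂ) ε, z ∉ Y → P B z) :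
    ∃ ε > 0, ∃ Y : Set ℂ, Y.Countable ∧ ∀ z ∈ ball (0 : ℂ) ε, z ∉ Y → ∀ B ∈ S, P B z := by
  induction S, hS using Set.Finite.induction_on with
  | empty => exact ⟨1, one_pos, ∅, Set.countable_empty, fun z _ _ B hB => absurd hB (Set.notMem_empty B)⟩
  | @insert a S _ _ ih =>
    obtain ⟨ε, hε, Y, hY, H⟩ := ih fun B hB => h B (Set.mem_insert_of_mem _ hB)
    obtain ⟨ε', hε', Y', hY', H'⟩ := h a (Set.mem_insert _ _)
    refine ⟨min ε ε', lt_min hε hε', Y ∪ Y', hY.union hY', fun z hz hn B hB => ?_⟩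
    rcases hB with rfl | hB
    · exact H' z (ball_subset_ball (min_le_right _ _) hz) fun h1 => hn (Or.inr h1)
    · exact H z (ball_subset_ball (min_le_left _ _) hz) (fun h1 => hn (Or.inl h1)) B hB

theorem algO_self {p : ℕ} (s : Fin p → ℂ) (i : Fin p) : AlgO s (s i) :=
  isAlgebraic_algebraMap
    (⟨s i, IntermediateField.subset_adjoin ℚ _ ⟨i, rfl⟩⟩ :
      IntermediateField.adjoin ℚ (Set.range s))

theorem algO_root {p : ℕ} (s : Fin p → ℂ) {ξ : ℂ} {q : ℕ} (hq : q ≠ 0) (h : ξ ^ q = 1) :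
    AlgO s ξ := by
  have h1 : IsAlgebraic (IntermediateField.adjoin ℚ (Set.range s)) (ξ ^ q) := by
    rw [h]
    exact isAlgebraic_one
  exact h1.of_pow (Nat.pos_of_ne_zero hq)

theorem algO_ze {p : ℕ} (s : Fin p → ℂ) (m : ℕ) : AlgO s (ze m 1) := by
  by_cases hm : m = 0
  · subst hm
    have h1 : ze 0 1 ^ 1 = 1 := by
      simp [ze]
    exact algO_root s one_ne_zero h1
  · have h1 : ze m 1 ^ m = 1 := by
      have h2 : ((m : ℕ) : ℂ) ≠ 0 := Nat.cast_ne_zero.2 hm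
      unfold ze
      rw [← Complex.exp_nat_mul, Nat.cast_one, mul_one, mul_div_cancel₀ _ h2, Complex.exp_two_pi_mul_I]
    exact algO_root s hm h1

theorem trn_self {p N : ℕ} (Φ : FF) (D : Dt p N) (h : D.ok) {s : Fin p → ℂ}
    (hs : Function.Injective s) (v : D.V) : HS.trn Φ D h s s v = v := by
  funext n
  exact (Φ _ _ _ (h.cv n)).one (D.t s n) (FL.t_inj h hs n) (v n)

end Lo_aux

open Lo_aux

theorem tLo (hLin : S_Lin) (hLo1 : S_Lo1) (hCVE : CV.StmtCVE) (hEqc : S_Eqc) (_hCy : S_Cy) :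
    S_Lo := by
  intro Λ Φ p N D h q s w e hq hs he hw
  have : NeZero q := ⟨hq⟩
  obtain ⟨k, ε, Θ, hΘ⟩ := hLin Λ Φ p N D h q s w e hq hs he
  refine (fin (Sk Λ D h s e q) (Set.toFinite _) (fun B z =>
    B ∈ Sk Λ D h (ln s w z) (fun i => HS.trn Φ D h s (ln s w z) (e i)) q) ?_)
  rintro B ⟨σ, hσ, A, c, hA, hc, rfl⟩
  obtain ⟨τ, hτ, hτw⟩ := hCVE p p s w hw σ hσ.1
  have hτG : τ ∈ Gam D s := by
    refine ⟨fun i => ?_, fun n => ?_⟩
    · rw [hτ _ (algO_self s i), hσ.1 i]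
    · rw [hτ _ (algO_ze s _), hσ.2 n]
  have hc' : Cyq τ q c := fun ξ hξ => by
    rw [hτ ξ (algO_root s hq hξ)]
    exact hc ξ hξ
  have hs1 : (fun l => σ (s l)) = s := funext hσ.1
  have hs2 : (fun l => τ (s l)) = s := funext hτG.1
  have hy : (fun j => τ (Θ 0 j)) = fun j => σ (Θ 0 j) := funext fun j => hτ _ (hΘ.alg0 j)
  have hcl : ∀ i, Cls Λ D h s (Θ 0) i ((q : ℂ)⁻¹ • e i) := by
    intro i
    have h1 := hΘ.cls 0 (mem_ball_self hΘ.pos) i
    rw [TATE.ln_zero, trn_self Φ D h hs] at h1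
    exact h1
  have hA' : RepG Λ D h τ s e e q A := by
    intro i
    have h1 := (hEqc Λ p N D h k s σ (Θ 0) i hs hσ.2).2.1 _ _ (hcl i) (hA i)
    rw [hs1, ← hy] at h1
    refine (hEqc Λ p N D h k s τ (Θ 0) i hs hτG.2).1 _ _ (hcl i) ?_
    rw [hs2]
    exact h1
  exact hLo1 Λ Φ p N D h q k s w e ε Θ hq hs he hΘ τ hτG hτw A c hA' hc'

end TNF.LG
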