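import Pool.Agent.Lib.TNF.LG.SpecE

/-!
# TNF/LG/Lo1: one element of the level group at the generic points of the line (helper10)
-/

set_option autoImplicit false

open HC HC.CC SEJ TATE Topology Metric

noncomputable section

namespace TNF.LG

namespace Lo1_aux

variable {p N : ℕ}

theorem t_inj (D : Dt p N) (h : D.ok) (s : Fin p → ℂ) (hs : Function.Injective s) (n : Fin N) :
    Function.Injective (D.t s n) := by
  intro a b hab
  unfold Dt.t at hab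
  cases hk : D.k n with
  | none =>
    rw [hk] at hab
    exact h.inj n (hs hab)
  | some l =>
    rw [hk] at hab
    have h1 : (s (D.i n a) - s l)⁻¹ = (s (D.i n b) - s l)⁻¹ := hab
    exact h.inj n (hs (sub_left_injective (inv_injective h1)))

theorem trn_self (Φ : FF) (D : Dt p N) (h : D.ok) (s : Fin p → ℂ) (hs : Function.Injective s)
    (v : D.V) : HS.trn Φ D h s s v = v := by
  funext n
  exact (Φ _ _ _ (h.cv n)).one (D.t s n) (t_inj D h s hs n) (v n)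

theorem real_smul (D : Dt p N) (x : ℝ) (u : D.V) : (x : ℂ) • u = x • u := by
  funext n i
  show (x : ℂ) * u n i = x • u n i
  rw [Complex.real_smul]

theorem trn_smul (Φ : FF) (D : Dt p N) (h : D.ok) (s s' : Fin p → ℂ) (x : ℝ) (v : D.V) :
    HS.trn Φ D h s s' ((x : ℂ) • v) = (x : ℂ) • HS.trn Φ D h s s' v := by
  rw [real_smul, real_smul, map_smul]

theorem trn_inv (Φ : FF) (D : Dt p N) (h : D.ok) (s s' : Fin p → ℂ) (q : ℕ) (v : D.V) :
    HS.trn Φ D h s s' ((q : ℂ)⁻¹ • v) = (q : ℂ)⁻¹ • HS.trn Φ D h s s' v := by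
  have h1 : (q : ℂ)⁻¹ = (((q : ℝ)⁻¹ : ℝ) : ℂ) := by push_cast; rfl
  rw [h1, trn_smul]

theorem trn_vq (Φ : FF) (D : Dt p N) (h : D.ok) (s s' : Fin p → ℂ) (q : ℕ)
    (A : Matrix (Fin (rk D)) (Fin (rk D)) (ZMod q)) (e : Fin (rk D) → D.V) (i : Fin (rk D)) :
    HS.trn Φ D h s s' (vq D q A e i) = vq D q A (fun j => HS.trn Φ D h s s' (e j)) i := by
  unfold vq
  rw [trn_inv, map_sum]
  congr 1
  refine Finset.sum_congr rfl fun j _ => ?_
  have h1 : ((A j i).val : ℂ) = (((A j i).val : ℝ) : ℂ) := by push_cast; rfl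
  rw [h1, trn_smul]

/-- The points near `s` on the line. -/
theorem ln_near (s w : Fin p → ℂ) (ε : ℝ) (hε : 0 < ε) :
    ∃ δ > 0, ∀ z ∈ ball (0 : ℂ) δ, ln s w z ∈ ball s ε := by
  have hc : Continuous fun z : ℂ => ln s w z := by
    unfold ln
    fun_prop
  have h1 : ∀ᶠ z in 𝓝 (0 : ℂ), ln s w z ∈ ball s ε := by
    refine hc.continuousAt.eventually ?_
    show ∀ᶠ x in 𝓝 (ln s w 0), x ∈ ball s ε
    rw [ln_zero]
    exact ball_mem_nhds s hε
  exact Metric.eventually_nhds_iff_ball.mp h1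

theorem exists_min {n : ℕ} (P : Fin n → ℝ → Prop) (hP : ∀ i, ∃ ε > 0, P i ε)
    (hm : ∀ i ε ε', 0 < ε' → ε' ≤ ε → P i ε → P i ε') : ∃ ε > 0, ∀ i, P i ε := by
  choose ε hε hPε using hP
  by_cases hn : (Finset.univ : Finset (Fin n)).Nonempty
  · refine ⟨Finset.univ.inf' hn ε, ?_, fun i => ?_⟩
    · exact (Finset.lt_inf'_iff hn).mpr fun i _ => hε i
    · exact hm i _ _ ((Finset.lt_inf'_iff hn).mpr fun i _ => hε i)
        (Finset.inf'_le ε (Finset.mem_univ i)) (hPε i)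
  · refine ⟨1, one_pos, fun i => ?_⟩
    exact absurd ⟨i, Finset.mem_univ i⟩ hn

end Lo1_aux

open Lo1_aux in
/-- From S_Th, S_Fl, S_Eqc, S_AdD, S_Rg, S_Cy, S_Bt, S_Bd. -/
theorem tLo1 : S_Th → S_Fl → S_Eqc → S_AdD → S_Rg → S_Cy → S_Bt → S_Bd → S_Lo1 := by
  intro hTh hFl hEq hAd _ hCy hBt hBd Λ Φ p N D h q k s w e ε Θ hq hs he hΘ σ hσ hw A c hA hc
  obtain ⟨ρ, hρ, hρε, Θ', hhol', h0', hon', Y, hY, hσ'⟩ :=
    hTh Λ Φ p N D h q k s w e ε Θ hq hs hΘ σ hσ hw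
  obtain ⟨β, hβ, hBt'⟩ := hBt Λ Φ p N D h s hs
  obtain ⟨δ, hδ, hln⟩ := ln_near s w β hβ
  have hσs : (fun l => σ (s l)) = s := funext hσ.1
  have h00 : (fun j => σ (Θ 0 j)) = Θ' 0 := funext fun j => (h0' j).symm
  have hz0 : (0 : ℂ) ∈ ball (0 : ℂ) ε := mem_ball_self hΘ.pos
  -- the radius on which everything is defined
  have hm : 0 < min ρ δ := lt_min hρ hδ
  have hmρ : ∀ z ∈ ball (0 : ℂ) (min ρ δ), z ∈ ball (0 : ℂ) ρ := fun z hz =>
    ball_subset_ball (min_le_left _ _) hz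
  have hmδ : ∀ z ∈ ball (0 : ℂ) (min ρ δ), ln s w z ∈ ball s β := fun z hz =>
    hln z (ball_subset_ball (min_le_right _ _) hz)
  have hmε : ∀ z ∈ ball (0 : ℂ) (min ρ δ), z ∈ ball (0 : ℂ) ε := fun z hz =>
    ball_subset_ball hρε (hmρ z hz)
  -- the action of `σ'`
  have hact : ∀ z ∈ ball (0 : ℂ) (min ρ δ), z ∉ Y → ∀ i, ∃ v : D.V,
      (q : ℂ) • v ∈ LPs Λ D h (ln s w z) ∧ Cls Λ D h (ln s w z) (Θ' z) i v := by
    intro z hz hzY i
    obtain ⟨σ', hG, hΘσ⟩ := hσ' z (hmρ z hz) hzY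
    have hinj := (hBt' _ (hmδ z hz)).1
    have hfix : (fun l => σ' (ln s w z l)) = ln s w z := funext hG.1
    have hyy : (fun j => σ' (Θ z j)) = Θ' z := funext hΘσ
    obtain ⟨_, _, hzs, _, hmem, _, _, hex, _⟩ := hAd Λ p N D h σ' (ln s w z) hinj hG.2
    obtain ⟨v, hv⟩ := hex ((q : ℂ)⁻¹ • HS.trn Φ D h s (ln s w z) (e i))
    refine ⟨v, ?_, ?_⟩
    · have h1 := hzs (q : ℤ) _ _ hv
      have h2 : ((q : ℤ)) • ((q : ℂ)⁻¹ • HS.trn Φ D h s (ln s w z) (e i)) =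
          HS.trn Φ D h s (ln s w z) (e i) := by
        rw [natCast_zsmul, ← Nat.cast_smul_eq_nsmul ℂ, smul_smul,
          mul_inv_cancel₀ (Nat.cast_ne_zero.mpr hq), one_smul]
      have h3 : ((q : ℤ)) • v = (q : ℂ) • v := by
        rw [natCast_zsmul, ← Nat.cast_smul_eq_nsmul ℂ]
      rw [h2, h3] at h1
      have h4 : HS.trn Φ D h s (ln s w z) (e i) ∈ LPs Λ D h (ln s w z) := by
        rw [← (hBt' _ (hmδ z hz)).2.2.1]
        exact ⟨e i, he.mem i, rfl⟩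
      have h5 := hmem _ _ h1 h4
      rwa [hfix] at h5
    · have h1 := (hEq Λ p N D h k (ln s w z) σ' (Θ z) i hinj hG.2).2.1 _ v
        (hΘ.cls z (hmε z hz) i) hv
      rwa [hfix, hyy] at h1
  -- flat classes
  have hflat : ∀ i, ∃ ε' > 0, ∃ l ∈ LPs Λ D h s, ∀ z ∈ ball (0 : ℂ) ε',
      Cls Λ D h (ln s w z) (Θ' z) i ((q : ℂ)⁻¹ • HS.trn Φ D h s (ln s w z) l) := by
    intro i
    have hball : ∀ ξ ∈ ball (0 : Fin 1 → ℂ) (min ρ δ), ξ 0 ∈ ball (0 : ℂ) (min ρ δ) := by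
      intro ξ hξ
      rw [mem_ball_zero_iff] at hξ ⊢
      exact lt_of_le_of_lt (norm_le_pi_norm ξ 0) hξ
    have hpr : DifferentiableOn ℂ (fun ξ : Fin 1 → ℂ => ξ 0) (ball 0 (min ρ δ)) := by
      fun_prop
    have hdense : Dense {ξ : Fin 1 → ℂ | ξ 0 ∉ Y} := by
      have h1 : Dense Yᶜ := hY.dense_compl ℂ
      have h2 := h1.preimage (isOpenMap_eval (0 : Fin 1) : IsOpenMap fun ξ : Fin 1 → ℂ => ξ 0)
      exact h2
    obtain ⟨ε', hε', _, l, hl, hcls⟩ := hFl Λ Φ p N D h q k 1 0 (min ρ δ)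
      (fun ξ => ln s w (ξ 0)) (fun ξ => Θ' (ξ 0)) {ξ | ξ 0 ∉ Y} i hq hm
      (by
        show Function.Injective (ln s w 0)
        rw [ln_zero]
        exact hs)
      (by
        refine differentiableOn_pi.mpr fun a => ?_
        unfold ln
        fun_prop)
      (hhol'.comp hpr fun ξ hξ => hmρ _ (hball ξ hξ))
      (fun ξ hξ => (hon' _ (hmρ _ (hball ξ hξ))).1)
      (fun ξ _ => hdense ξ)
      (fun ξ hξ => hact (ξ 0) (hball ξ hξ.2) hξ.1 i)
    have hs0 : (fun ξ : Fin 1 → ℂ => ln s w (ξ 0)) 0 = s := ln_zero s w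
    refine ⟨ε', hε', l, ?_, fun z hz => ?_⟩
    · have h1 : l ∈ LPs Λ D h (ln s w ((0 : Fin 1 → ℂ) 0)) := hl
      have h2 : ln s w ((0 : Fin 1 → ℂ) 0) = s := ln_zero s w
      rwa [h2] at h1
    · have h1 := hcls (fun _ => z) (by
        rw [mem_ball_zero_iff] at hz ⊢
        exact (pi_norm_lt_iff hε').mpr fun _ => hz)
      have h2 : ln s w ((0 : Fin 1 → ℂ) 0) = s := ln_zero s w
      rw [h2] at h1
      exact h1
  -- comparison at `0`
  have hcmp : ∀ i, ∃ ε' > 0, ∀ z ∈ ball (0 : ℂ) ε', z ∈ ball (0 : ℂ) (min ρ δ) →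
      Cls Λ D h (ln s w z) (Θ' z) i
        (vq D q A (fun j => HS.trn Φ D h s (ln s w z) (e j)) i) := by
    intro i
    obtain ⟨ε', hε', l, hl, hcls⟩ := hflat i
    have h1 : Cls Λ D h s (Θ' 0) i ((q : ℂ)⁻¹ • l) := by
      have h2 := hcls 0 (mem_ball_self hε')
      rw [ln_zero, trn_self Φ D h s hs] at h2
      exact h2
    have h3 : Cls Λ D h s (Θ' 0) i (vq D q A e i) := by
      have h4 := hΘ.cls 0 hz0 i
      rw [ln_zero, trn_self Φ D h s hs] at h4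
      have h5 := (hEq Λ p N D h k s σ (Θ 0) i hs hσ.2).2.1 _ _ h4 (hA i)
      rwa [hσs, h00] at h5
    have h6 : (q : ℂ)⁻¹ • l - vq D q A e i ∈ LPs Λ D h s :=
      (hEq Λ p N D h k s σ (Θ' 0) i hs hσ.2).2.2.1 _ _ h1 h3
    refine ⟨ε', hε', fun z hz hz' => ?_⟩
    have hinj := (hBt' _ (hmδ z hz')).1
    have h7 : vq D q A (fun j => HS.trn Φ D h s (ln s w z) (e j)) i -
        (q : ℂ)⁻¹ • HS.trn Φ D h s (ln s w z) l ∈ LPs Λ D h (ln s w z) := by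
      rw [← trn_vq, ← trn_inv, ← map_sub, ← (hBt' _ (hmδ z hz')).2.2.1]
      refine ⟨_, ?_, rfl⟩
      have h8 := (hBd Λ p N D h s e hs he).2.2.1
      have h9 := (h8 _ h6 _ h6).1
      rw [sub_self] at h9
      have h10 := (h8 _ h9 _ h6).1
      rwa [zero_sub, neg_sub] at h10
    exact (hEq Λ p N D h k (ln s w z) (RingEquiv.refl ℂ) (Θ' z) i hinj
      (fun _ => rfl)).2.2.2.1 _ _ (hcls z hz) h7
  obtain ⟨ε', hε', hall⟩ := exists_min (fun i ε' => ∀ z ∈ ball (0 : ℂ) ε',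
      z ∈ ball (0 : ℂ) (min ρ δ) → Cls Λ D h (ln s w z) (Θ' z) i
        (vq D q A (fun j => HS.trn Φ D h s (ln s w z) (e j)) i)) hcmp
    (fun i ε₁ ε₂ _ hle hP z hz => hP z (ball_subset_ball hle hz))
  refine ⟨min ε' (min ρ δ), lt_min hε' hm, Y, hY, fun z hz hzY => ?_⟩
  have hz1 : z ∈ ball (0 : ℂ) ε' := ball_subset_ball (min_le_left _ _) hz
  have hz2 : z ∈ ball (0 : ℂ) (min ρ δ) := ball_subset_ball (min_le_right _ _) hz
  obtain ⟨σ', hG, hΘσ⟩ := hσ' z (hmρ z hz2) hzY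
  have hinj := (hBt' _ (hmδ z hz2)).1
  have hfix : (fun l => σ' (ln s w z l)) = ln s w z := funext hG.1
  have hyy : (fun j => σ' (Θ z j)) = Θ' z := funext hΘσ
  refine ⟨σ', hG, A, c, fun i => ?_, ?_, rfl⟩
  · refine (hEq Λ p N D h k (ln s w z) σ' (Θ z) i hinj hG.2).1 _ _
      (hΘ.cls z (hmε z hz2) i) ?_
    rw [hfix, hyy]
    exact hall i z hz1 hz2
  · obtain ⟨⟨c', hc'⟩, _, _, _, _, _, huniq⟩ := hCy σ' q hq
    have hprim : IsPrimitiveRoot (ze q 1) q := by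
      have h1 := Complex.isPrimitiveRoot_exp q hq
      have h2 : ze q 1 = Complex.exp (2 * Real.pi * Complex.I / q) := by
        unfold ze
        rw [Nat.cast_one, mul_one]
      rw [h2]
      exact h1
    have h1 : σ' (ze q 1) = σ (ze q 1) := by
      have h2 := hΘσ (Sum.inr none)
      rwa [(hΘ.az z (hmε z hz2)).2, (hon' z (hmρ z hz2)).2.2] at h2
    have h3 : σ (ze q 1) = ze q 1 ^ c.val := hc _ hprim.pow_eq_one
    have h4 : c' = c := huniq (ze q 1) c' c hprim hc' (h1.trans h3)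
    rwa [h4] at hc'

end TNF.LG
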