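import Pool.Agent.Lib.TNF.LG.Pac

/-!
# PROJECT TNF, package LG: loops are Galois at the generic points of the line
-/

set_option autoImplicit false

open HC HC.CC SEJ TATE Topology Metric

noncomputable section

namespace TNF.LG

namespace Lp_aux

variable {p N : ℕ}

theorem ln_cont (s w : Fin p → ℂ) : Continuous fun z : ℂ => ln s w z := by
  refine continuous_pi fun i => ?_
  unfold ln
  fun_prop

/-- A rational multiple, real linear maps. -/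
theorem map_q {V V' : Type} [NormedAddCommGroup V] [NormedSpace ℂ V] [NormedAddCommGroup V']
    [NormedSpace ℂ V'] (φ : V ≃ₗ[ℝ] V') (q : ℕ) (v : V) :
    φ ((q : ℂ)⁻¹ • v) = (q : ℂ)⁻¹ • φ v := by
  have h1 : ∀ {W : Type} [NormedAddCommGroup W] [NormedSpace ℂ W] (x : W),
      (q : ℂ)⁻¹ • x = (q : ℝ)⁻¹ • x := by
    intro W _ _ x
    rw [← Complex.coe_smul]
    push_cast
    rfl
  rw [h1, h1, map_smul]

/-- The cyclotomic character is trivial. -/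
theorem cyq_one (hCy : S_Cy) (σ : ℂ ≃+* ℂ) (q : ℕ) (hq : q ≠ 0) (h : σ (ze q 1) = ze q 1) :
    Cyq σ q 1 := by
  obtain ⟨⟨c, hc⟩, -, -, -, -, -, h7⟩ := hCy σ q hq
  have hpr : IsPrimitiveRoot (ze q 1) q := by
    have h1 := Complex.isPrimitiveRoot_exp q hq
    have h2 : ze q 1 = Complex.exp (2 * Real.pi * Complex.I / q) := by
      unfold ze
      congr 1
      push_cast
      ring
    rw [h2]
    exact h1
  have h1 : σ (ze q 1) = ze q 1 ^ (1 : ZMod q).val := by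
    have h2 : (1 : ZMod q).val = 1 % q := ZMod.val_one_eq_one_mod q
    rw [h, h2, ← pow_eq_pow_mod 1 hpr.pow_eq_one, pow_one]
  have h3 := h7 (ze q 1) c 1 hpr hc h1
  rw [← h3]
  exact hc

end Lp_aux

open Lp_aux in
theorem tLp : StmtMG → StmtPA2 → StmtFL → S_Kul → S_Sh → S_Cjl → S_Rot → S_Ta → S_Cy → S_Bt →
    S_Bd → S_Lp := by
  classical
  intro hMG hPA2 hFL hKul hSh hCjl hRot hTa hCy hBt hBd Λ Φ p N D h s e hs he
  obtain ⟨XM, hXM, hMG⟩ := hMG Φ p N D h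
  refine ⟨_, hKul p XM s hXM, ?_⟩
  intro w hw M hM
  have hY : IsMeagre {z : ℂ | ln s w z ∈ XM} := not_not.1 hw
  have h0 : (0 : ℂ) ∉ Bd s w := by
    intro h1
    refine h1 ?_
    rw [ln_zero]
    exact hs
  obtain ⟨ε₀, hε₀, hbt⟩ := hBt Λ Φ p N D h s hs
  obtain ⟨ε₁, hε₁, hln⟩ : ∃ ε₁ > 0, ∀ z ∈ ball (0 : ℂ) ε₁, ln s w z ∈ ball s ε₀ := by
    have h1 : ∀ᶠ z in 𝓝 (0 : ℂ), ln s w z ∈ ball s ε₀ := by
      have h2 : ball s ε₀ ∈ 𝓝 (ln s w 0) := by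
        rw [ln_zero]
        exact ball_mem_nhds s hε₀
      exact (ln_cont s w).continuousAt.eventually h2
    obtain ⟨ε₁, hε₁, h2⟩ := Metric.eventually_nhds_iff_ball.1 h1
    exact ⟨ε₁, hε₁, h2⟩
  refine ⟨min (M.r 0) ε₁, lt_min (M.rpos 0 h0) hε₁, _, hY, ?_⟩
  intro z₁ hz₁ hzY q hq δ hδ φ hφ b hb
  have hz₁M : z₁ ∈ ball (0 : ℂ) (M.r 0) := ball_subset_ball (min_le_left _ _) hz₁
  have hz₁ε : z₁ ∈ ball (0 : ℂ) ε₁ := ball_subset_ball (min_le_right _ _) hz₁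
  obtain ⟨hinj, -, -, hbas, -, -⟩ := hbt _ (hln z₁ hz₁ε)
  obtain ⟨-, hind, hmg⟩ := hMG (ln s w z₁) hzY
  have he₁ := hbas e he
  -- the loop at `z₁`
  have hfin : (Bd s w).Finite := (hFL Φ p N D h s w hs).1
  obtain ⟨δ₁, φ₁, hδ₁, hφ₁, hcj⟩ := hCjl D.V (Bd s w) hfin M h0 z₁ hz₁M δ hδ φ hφ
  obtain ⟨M₁, hM₁, hsh⟩ := hSh Φ p N D h s w M z₁ hM
  obtain ⟨hp₁, ht₁⟩ := hsh δ₁ z₁ z₁ hδ₁ φ₁ hφ₁
  rw [sub_self] at hp₁
  have hτ : ∀ v, M.τ 0 z₁ v = HS.trn Φ D h s (ln s w z₁) v := by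
    intro v
    funext n
    have h1 := hM.τ 0 h0 z₁ hz₁M v n
    rw [ln_zero] at h1
    exact h1
  have hφe : ∀ i, φ₁ 1 (HS.trn Φ D h s (ln s w z₁) (e i)) =
      ∑ j, b j i • HS.trn Φ D h s (ln s w z₁) (e j) := by
    intro i
    rw [← hτ, hcj, hb, hτ, map_sum]
    exact Finset.sum_congr rfl fun j _ => map_zsmul _ _ _
  -- the tuple
  obtain ⟨k, y, hy⟩ := tPac hTa Λ p N D h (ln s w z₁) hinj _ he₁ q hq
  let E := Fintype.equivFin (Jx D k)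
  obtain ⟨D₀, hD₀, hD0, hD⟩ := hmg (Fintype.card (Jx D k)) (fun i => y (E.symm i))
    (fun i => hy.al _) w M₁ hM₁
  have hfin₁ : (Bd (ln s w z₁) w).Finite := (hFL Φ p N D h (ln s w z₁) w hinj).1
  obtain ⟨γ', φ', hγ', hφ', hφφ⟩ := hPA2 D.V (Bd (ln s w z₁) w) hfin₁ M₁ D₀ hD₀ _ 0 0 hp₁ hD0 hD0 φ₁ ht₁
  obtain ⟨y', σ, hy0, hct, hσ, hy1, hlast⟩ := hD γ' hγ' φ' hφ'
  have hfix : ∀ j : Jx D k, ∀ n : ℕ, n ≠ 0 → y j ^ n = 1 → σ (y j) = y j := by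
    intro j n hn hj
    have h1 := hRot p _ (ln s w z₁) w γ' y' hγ'.cont hct (E j) n hn (by
      rw [hy0]
      simpa using hj)
    rw [hy1, hy0] at h1
    simpa using h1
  have hcv : ∀ n, D.m n ≠ 0 := fun n => by
    have := (h.cv n).1
    omega
  have hσs : (fun i => σ ((ln s w z₁) i)) = (ln s w z₁) := funext fun i => hσ.1 i
  have hGam : σ ∈ Gam D (ln s w z₁) := by
    refine ⟨hσ.1, fun n => ?_⟩
    have h1 := hfix (Sum.inr (some n)) (D.m n) (hcv n) (by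
      rw [hy.az n]
      exact Pac_aux.ze_pow (hcv n))
    rw [hy.az n] at h1
    exact h1
  have hze : σ (ze q 1) = ze q 1 := by
    have h1 := hfix (Sum.inr none) q hq (by
      rw [hy.rt]
      exact Pac_aux.ze_pow hq)
    rw [hy.rt] at h1
    exact h1
  refine ⟨σ, hGam, _, 1, ?_, cyq_one hCy σ q hq hze, rfl⟩
  intro i n
  obtain ⟨u, hu, hus⟩ := hy.ex i n
  obtain ⟨u', hu', hus'⟩ := hlast n (k i n)
    (fun a => (E (Sum.inl (⟨i, n, a⟩, 0)), E (Sum.inl (⟨i, n, a⟩, 1))))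
    (fun a => (E (Sum.inl (⟨i, n, a⟩, 2)), E (Sum.inl (⟨i, n, a⟩, 3)))) u
    ((q : ℂ)⁻¹ • HS.trn Φ D h s (ln s w z₁) (e i))
    (by
      intro a
      simp only [Equiv.symm_apply_apply]
      exact hu a)
    (fun n => Pac_aux.mem_LQ (Λ _ _ _ (h.cv n)) (D.t (ln s w z₁) n) (Pac_aux.inj_t D h n (ln s w z₁) hinj)
      (he₁.mem i n) hq) hus
  have hinjn := Pac_aux.inj_t D h n (ln s w z₁) hinj
  have hDt : (fun j => σ (D.t (ln s w z₁) n j)) = D.t (ln s w z₁) n := by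
    rw [← Dt_map D σ (ln s w z₁) n, hσs]
  refine ⟨k i n, src y i n, tgt y i n, u, u', hu, ?_, ?_, ?_⟩
  · intro a
    have h1 := hu' a
    simp only [Equiv.symm_apply_apply] at h1
    rw [hDt]
    exact h1
  · rw [hus, sub_self]
    exact (Λ _ _ _ (h.cv n)).zero _ hinjn
  · rw [hDt, hus', hφφ, map_q, hφe]
    have h4 := ((hBd Λ p N D h (ln s w z₁) _ hinj he₁).2.2.2.1 q hq (fun j => b j i)
      (fun j => (((b j i : ZMod q).val : ℕ) : ℤ))).2 fun j => by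
        have : NeZero q := ⟨hq⟩
        rw [Int.cast_natCast, ZMod.natCast_zmod_val]
    have h5 : (q : ℂ)⁻¹ • ∑ j, b j i • HS.trn Φ D h s (ln s w z₁) (e j) =
        (q : ℂ)⁻¹ • ∑ j, (b j i : ℂ) • HS.trn Φ D h s (ln s w z₁) (e j) := by
      congr 1
      exact Finset.sum_congr rfl fun j _ => (Int.cast_smul_eq_zsmul ℂ _ _).symm
    rw [h5]
    exact h4 n

end TNF.LG
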