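import Pool.Agent.Lib.TNF.LG.SpecE
import Pool.Agent.Lib.TNF.LG.Bt
import Pool.Agent.Lib.TATE.PA.Eqv

/-!
# PROJECT TNF, package LG, module Ltr: transport preserves the lattices (helper84)
-/

set_option autoImplicit false

open HC HC.CC SEJ TATE Topology Metric

noncomputable section

namespace TNF.LG

namespace Ltr_aux

theorem inj_of {p : ℕ} {s w : Fin p → ℂ} {z : ℂ} (hz : z ∉ Bd s w) :
    Function.Injective (ln s w z) := by
  by_contra h
  exact hz h

end Ltr_aux

open Ltr_aux in
theorem tLtr : StmtFL → StmtPA1 → S_Ltr := by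
  intro _ _ Λ Φ p N D h s w M hs hM γ z hγ φ hφ
  have key : ∀ t ∈ Set.Icc (0 : ℝ) 1, φ t '' LPs Λ D h s = LPs Λ D h (ln s w (γ t)) := by
    refine TATE.PA.EqvAux.locc (fun t => φ t '' LPs Λ D h s = LPs Λ D h (ln s w (γ t))) ?_ ?_
    · intro t ht
      obtain ⟨ε, hε, hh⟩ := hφ.loc t ht
      have hF : γ t ∉ Bd s w := hγ.mem t ht
      refine ⟨ε, hε, fun t' ht' htt => ?_⟩
      obtain ⟨hb, hv⟩ := hh t' ht' htt
      have hlat : HS.trn Φ D h (ln s w (γ t)) (ln s w (γ t')) '' LPs Λ D h (ln s w (γ t)) =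
          LPs Λ D h (ln s w (γ t')) :=
        Bt_aux.trn_lat Λ Φ D h (inj_of hF) fun n => hM.r (γ t) hF (γ t') hb n
      have hτ : ∀ v, M.τ (γ t) (γ t') v = HS.trn Φ D h (ln s w (γ t)) (ln s w (γ t')) v := by
        intro v
        funext n
        rw [hM.τ (γ t) hF (γ t') hb v n]
        rfl
      have himg : φ t' '' LPs Λ D h s =
          HS.trn Φ D h (ln s w (γ t)) (ln s w (γ t')) '' (φ t '' LPs Λ D h s) := by
        rw [← Set.image_comp]
        refine Set.image_congr fun v _ => ?_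
        rw [hv v, hτ]
        rfl
      constructor
      · intro hP
        change φ t' '' LPs Λ D h s = LPs Λ D h (ln s w (γ t'))
        rw [himg, hP, hlat]
      · intro hP
        change φ t' '' LPs Λ D h s = LPs Λ D h (ln s w (γ t')) at hP
        rw [himg, ← hlat] at hP
        exact (HS.trn Φ D h (ln s w (γ t)) (ln s w (γ t'))).injective.image_injective hP
    · change φ 0 '' LPs Λ D h s = LPs Λ D h (ln s w (γ 0))
      rw [hγ.src, TATE.ln_zero]
      have : (φ 0 : D.V → D.V) = id := funext fun v => hφ.zero v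
      rw [this, Set.image_id]
  have h1 := key 1 ⟨zero_le_one, le_refl _⟩
  rwa [hγ.tgt] at h1

end TNF.LG
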