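import Pool.Agent.Lib.TNF.LG.SpecD

/-!
# PROJECT TNF, package LG: **Nvf**, nonvanishing (helper43)
-/

set_option autoImplicit false

open Topology Metric HC HC.CC SEJ TATE

noncomputable section

namespace TNF.LG

namespace Nvf_aux

open Polynomial

/-- Bezout with cleared denominators -/
lemma bezout {p : ℕ} {s : Fin p → ℂ} (hs : AlgebraicIndependent ℚ s) {P g : (QS p)[X]} {θ : ℂ}
    (hirr : IrrG P) (hP : P.eval₂ (cf s) θ = 0) (hg : g.eval₂ (cf s) θ ≠ 0) :
    ∃ (U V : (QS p)[X]) (Δ : QS p), Δ ≠ 0 ∧ U * P + V * g = C Δ := by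
  have hφ := cf_injective hs
  let K := FractionRing (QS p)
  let ψ : K →+* ℂ := IsFractionRing.lift hφ
  have hψ : ∀ a : QS p, ψ (algebraMap (QS p) K a) = cf s a :=
    fun a => IsFractionRing.lift_algebraMap hφ a
  have hev : ∀ (g : (QS p)[X]) (x : ℂ),
      (g.map (algebraMap (QS p) K)).eval₂ ψ x = g.eval₂ (cf s) x := by
    intro g x
    rw [eval₂_map]
    have : ψ.comp (algebraMap (QS p) K) = cf s := RingHom.ext hψ
    rw [this]
  have hirr' : Irreducible (P.map (algebraMap (QS p) K)) := hirr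
  have hinj : Function.Injective (algebraMap (QS p) K) := IsFractionRing.injective _ K
  have hnd : ¬ P.map (algebraMap (QS p) K) ∣ g.map (algebraMap (QS p) K) := by
    rintro ⟨q, hq⟩
    have h1 := congrArg (fun r : K[X] => r.eval₂ ψ θ) hq
    simp only [eval₂_mul, hev, hP, zero_mul] at h1
    exact hg h1
  obtain ⟨u, v, huv⟩ := (hirr'.coprime_iff_not_dvd).2 hnd
  obtain ⟨b, hb, hb'⟩ := IsLocalization.integerNormalization_spec (nonZeroDivisors (QS p)) u
  obtain ⟨c, hc, hc'⟩ := IsLocalization.integerNormalization_spec (nonZeroDivisors (QS p)) v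
  set u' := IsLocalization.integerNormalization (nonZeroDivisors (QS p)) u with hu'
  set v' := IsLocalization.integerNormalization (nonZeroDivisors (QS p)) v with hv'
  refine ⟨C c * u', C b * v', b * c,
    mul_ne_zero (nonZeroDivisors.ne_zero hb) (nonZeroDivisors.ne_zero hc), ?_⟩
  refine map_injective (algebraMap (QS p) K) hinj ?_
  rw [Polynomial.map_add, Polynomial.map_mul, Polynomial.map_mul, Polynomial.map_mul,
    Polynomial.map_mul, hb', hc', map_C, map_C, map_C, Algebra.smul_def, Algebra.smul_def,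
    Polynomial.algebraMap_apply, Polynomial.algebraMap_apply, map_mul, C_mul]
  linear_combination (C (algebraMap (QS p) K b) * C (algebraMap (QS p) K c)) * huv

end Nvf_aux

/-- **Nvf**: nonvanishing. -/
theorem tNvf : S_Iri → S_Nvf := by
  intro hI p k s y P R d e θ hs hD f hf
  obtain ⟨N, g, hg⟩ := clear_den R d f
  have hd : cf s d ≠ 0 := (hD.good s hD.e0).2
  have hval : ∀ i, (R i).eval₂ (cf s) θ = cf s d * y i := by
    intro i
    rw [← PS_eval]
    exact hD.val i
  have hgθ : g.eval₂ (cf s) θ ≠ 0 := by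
    rw [← hg s θ y hval]
    exact mul_ne_zero (pow_ne_zero N hd) hf
  have hPθ : P.eval₂ (cf s) θ = 0 := by
    rw [← PS_eval]
    exact hD.root
  obtain ⟨U, V, Δ, hΔ, hUV⟩ := Nvf_aux.bezout hs (hI p k s y P R d e θ hD).1 hPθ hgθ
  refine ⟨Δ, hΔ, fun s' hs' hd' x hx h0 => ?_⟩
  rw [PS_eval] at hx
  have h1 := hg s' x (fun i => (PS (R i) s').eval x / cf s' d) fun i => by
    show Polynomial.eval₂ (cf s') x (R i) = cf s' d * ((PS (R i) s').eval x / cf s' d)
    rw [mul_div_cancel₀ _ hd', PS_eval]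
  rw [h0, mul_zero] at h1
  have h2 := congrArg (fun q : Polynomial (QS p) => q.eval₂ (cf s') x) hUV
  simp only [Polynomial.eval₂_add, Polynomial.eval₂_mul, Polynomial.eval₂_C, hx, ← h1, mul_zero,
    add_zero] at h2
  exact hs' h2.symm

end TNF.LG
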