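import Pool.Agent.Lib.TNF.LG.SpecD

/-!
# PROJECT TNF, package LG: the tuple of the basis (helper57)
-/

set_option autoImplicit false

open HC HC.CC SEJ TATE Topology Metric

noncomputable section

namespace TNF.LG

namespace Pac_aux

variable {p N : ℕ}

theorem inj_t (D : Dt p N) (hD : D.ok) (n : Fin N) (s : Fin p → ℂ)
    (hs : Function.Injective s) : Function.Injective (D.t s n) := by
  intro i j hij
  cases hk : D.k n with
  | none =>
    have h1 : s (D.i n i) = s (D.i n j) := by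
      simpa [Dt.t, hk, HC.CC.pt] using hij
    exact hD.inj n (hs h1)
  | some l =>
    have h1 : (s (D.i n i) - s l)⁻¹ = (s (D.i n j) - s l)⁻¹ := by
      simpa [Dt.t, hk, HC.CC.pt] using hij
    have h2 := inv_inj.mp h1
    have h3 : s (D.i n i) = s (D.i n j) := by
      have := sub_left_injective h2
      exact this
    exact hD.inj n (hs h3)

theorem mem_t (D : Dt p N) (s : Fin p → ℂ) (n : Fin N) (j : Fin (D.r n + 1)) :
    D.t s n j ∈ IntermediateField.adjoin ℚ (Set.range s) := by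
  have hs : ∀ i, s i ∈ IntermediateField.adjoin ℚ (Set.range s) := fun i =>
    IntermediateField.subset_adjoin ℚ _ ⟨i, rfl⟩
  cases hk : D.k n with
  | none =>
    have h1 : D.t s n j = s (D.i n j) := by
      simp [Dt.t, hk, HC.CC.pt]
    rw [h1]
    exact hs _
  | some l =>
    have h1 : D.t s n j = (s (D.i n j) - s l)⁻¹ := by
      simp [Dt.t, hk, HC.CC.pt]
    rw [h1]
    exact inv_mem (sub_mem (hs _) (hs _))

theorem ze_pow {m : ℕ} (hm : m ≠ 0) : ze m 1 ^ m = 1 := by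
  unfold ze
  rw [← Complex.exp_nat_mul]
  have h : (m : ℂ) * (2 * Real.pi * Complex.I * ((1 : ℕ) : ℂ) / m) = 2 * Real.pi * Complex.I := by
    have : (m : ℂ) ≠ 0 := Nat.cast_ne_zero.mpr hm
    field_simp
    push_cast
    ring
  rw [h]
  exact Complex.exp_two_pi_mul_I

theorem algO_ze {m : ℕ} (s : Fin p → ℂ) (hm : m ≠ 0) : AlgO s (ze m 1) := by
  refine IsAlgebraic.of_pow (n := m) (Nat.pos_of_ne_zero hm) ?_
  rw [ze_pow hm]
  exact isAlgebraic_one

/-- `e / q` is in the rational lattice. -/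
theorem mem_LQ {m r : ℕ} {b : Fin (r + 1) → ℕ} (Λ : LPD m b) (t : Fin (r + 1) → ℂ)
    (ht : Function.Injective t) {v : Ix m b → ℂ} (hv : v ∈ Λ.L t) {q : ℕ} (hq : q ≠ 0) :
    (q : ℂ)⁻¹ • v ∈ LQ m b t := by
  obtain ⟨N, hN, h⟩ := Λ.fin t ht
  refine ⟨N * q, mul_ne_zero hN hq, ?_⟩
  have h1 : (N * q) • ((q : ℂ)⁻¹ • v) = N • v := by
    have hq' : (q : ℂ) ≠ 0 := Nat.cast_ne_zero.2 hq
    rw [mul_smul, ← Nat.cast_smul_eq_nsmul ℂ q, smul_smul, mul_inv_cancel₀ hq', one_smul]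
  rw [h1]
  exact h v hv

end Pac_aux

open Pac_aux in
theorem tPac : S_Ta → S_Pac := by
  intro h1 Λ p N D h s hs e he q hq
  have key : ∀ (i : Fin (rk D)) (n : Fin N), ∃ (K : ℕ) (Q' Q : Fin K → ℂ × ℂ)
      (w : Fin K → (Ix (D.m n) (D.b n) → ℂ)),
      (∀ a, AlgO s (Q' a).1 ∧ AlgO s (Q' a).2 ∧ AlgO s (Q a).1 ∧ AlgO s (Q a).2) ∧
      (∀ a, Itg (D.m n) (D.b n) (D.t s n) (Q' a) (Q a) (w a)) ∧
      ∑ a, w a = ((q : ℂ)⁻¹ • e i) n := by
    intro i n
    have hr : 1 ≤ D.r n := le_trans (by norm_num) (h.r3 n)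
    exact (h1 (D.m n) (D.r n) (D.b n) (Λ _ _ _ (h.cv n)) (D.t s n) (h.cv n) hr
      (inj_t D h n s hs) p s (mem_t D s n)).1 _
      (mem_LQ (Λ _ _ _ (h.cv n)) (D.t s n) (inj_t D h n s hs) (he.mem i n) hq)
  choose K Q' Q w hal hit hsum using key
  refine ⟨K, Sum.elim (fun x => ![(Q' x.1.1 x.1.2.1 x.1.2.2).1, (Q' x.1.1 x.1.2.1 x.1.2.2).2,
    (Q x.1.1 x.1.2.1 x.1.2.2).1, (Q x.1.1 x.1.2.1 x.1.2.2).2] x.2)
    (fun o => o.elim (ze q 1) fun n => ze (D.m n) 1), ?_, ?_, ?_, ?_⟩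
  · rintro (⟨⟨i, n, a⟩, c⟩ | o)
    · obtain ⟨a1, a2, a3, a4⟩ := hal i n a
      fin_cases c
      · exact a1
      · exact a2
      · exact a3
      · exact a4
    · cases o with
      | none => exact algO_ze s hq
      | some n =>
        refine algO_ze s ?_
        have := (h.cv n).1
        omega
  · intro n
    rfl
  · rfl
  · intro i n
    exact ⟨w i n, fun a => hit i n a, hsum i n⟩

end TNF.LG
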