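import Pool.Agent.Lib.TNF.LG.SpecD

/-!
# TNF/LG/Pnp (helper64): membership in the curve as polynomial conditions
-/

set_option autoImplicit false

open HC HC.CC SEJ TATE Topology Metric

noncomputable section

namespace TNF.LG

open MvPolynomial in
theorem tPnp : S_Pnp := by
  classical
  intro p N D h n
  cases hk : D.k n with
  | none =>
    refine ⟨X (Sum.inr 1) ^ D.m n - ∏ j, (X (Sum.inr 0) - X (Sum.inl (D.i n j))) ^ D.b n j,
      ∏ j, (X (Sum.inr 0) - X (Sum.inl (D.i n j))), fun s hs P => ?_⟩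
    have ht : D.t s n = fun j => s (D.i n j) := by
      unfold Dt.t
      rw [hk]
      rfl
    have h1 : (aeval (Sum.elim s ![P.1, P.2]) (X (Sum.inr 1) ^ D.m n -
        ∏ j, (X (Sum.inr 0) - X (Sum.inl (D.i n j))) ^ D.b n j : MvPolynomial (Fin p ⊕ Fin 2) ℚ) :
          ℂ) = P.2 ^ D.m n - ∏ j, (P.1 - s (D.i n j)) ^ D.b n j := by
      simp [map_prod]
    have h2 : (aeval (Sum.elim s ![P.1, P.2]) (∏ j, (X (Sum.inr 0) - X (Sum.inl (D.i n j))) :
        MvPolynomial (Fin p ⊕ Fin 2) ℚ) : ℂ) = ∏ j, (P.1 - s (D.i n j)) := by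
      simp [map_prod]
    rw [h1, h2, ht]
    unfold Pts
    rw [Set.mem_setOf_eq, sub_eq_zero, Finset.prod_ne_zero_iff, and_comm]
    refine and_congr_right fun _ => ?_
    constructor
    · intro h3 j _ h4
      exact h3 ⟨j, (sub_eq_zero.1 h4).symm⟩
    · rintro h3 ⟨j, hj⟩
      exact h3 j (Finset.mem_univ j) (sub_eq_zero.2 hj.symm)
  | some l =>
    refine ⟨X (Sum.inr 1) ^ D.m n * ∏ j, (X (Sum.inl (D.i n j)) - X (Sum.inl l)) ^ D.b n j -
      ∏ j, (X (Sum.inr 0) * (X (Sum.inl (D.i n j)) - X (Sum.inl l)) - 1) ^ D.b n j,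
      ∏ j, (X (Sum.inr 0) * (X (Sum.inl (D.i n j)) - X (Sum.inl l)) - 1), fun s hs P => ?_⟩
    have ht : D.t s n = fun j => (s (D.i n j) - s l)⁻¹ := by
      unfold Dt.t
      rw [hk]
      rfl
    have hu : ∀ j, s (D.i n j) - s l ≠ 0 := fun j h0 =>
      (ne_of_lt (h.lt n l hk j)) (hs (sub_eq_zero.1 h0))
    have h1 : (aeval (Sum.elim s ![P.1, P.2])
        (X (Sum.inr 1) ^ D.m n * ∏ j, (X (Sum.inl (D.i n j)) - X (Sum.inl l)) ^ D.b n j -
          ∏ j, (X (Sum.inr 0) * (X (Sum.inl (D.i n j)) - X (Sum.inl l)) - 1) ^ D.b n j :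
          MvPolynomial (Fin p ⊕ Fin 2) ℚ) : ℂ) =
        P.2 ^ D.m n * ∏ j, (s (D.i n j) - s l) ^ D.b n j -
          ∏ j, (P.1 * (s (D.i n j) - s l) - 1) ^ D.b n j := by
      simp [map_prod]
    have h2 : (aeval (Sum.elim s ![P.1, P.2])
        (∏ j, (X (Sum.inr 0) * (X (Sum.inl (D.i n j)) - X (Sum.inl l)) - 1) :
          MvPolynomial (Fin p ⊕ Fin 2) ℚ) : ℂ) = ∏ j, (P.1 * (s (D.i n j) - s l) - 1) := by
      simp [map_prod]
    rw [h1, h2, ht]
    have h5 : ∀ j, P.1 - (s (D.i n j) - s l)⁻¹ =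
        (P.1 * (s (D.i n j) - s l) - 1) / (s (D.i n j) - s l) := fun j => by
      have := hu j
      field_simp
    have h6 : ∏ j, (s (D.i n j) - s l) ^ D.b n j ≠ 0 :=
      Finset.prod_ne_zero_iff.2 fun j _ => pow_ne_zero _ (hu j)
    have h7 : ∏ j, (P.1 - (s (D.i n j) - s l)⁻¹) ^ D.b n j =
        (∏ j, (P.1 * (s (D.i n j) - s l) - 1) ^ D.b n j) /
          ∏ j, (s (D.i n j) - s l) ^ D.b n j := by
      rw [← Finset.prod_div_distrib]
      refine Finset.prod_congr rfl fun j _ => ?_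
      rw [h5, div_pow]
    unfold Pts
    rw [Set.mem_setOf_eq, sub_eq_zero, Finset.prod_ne_zero_iff, and_comm]
    refine and_congr ?_ ?_
    · rw [h7, eq_div_iff h6]
    · constructor
      · intro h3 j _ h4
        refine h3 ⟨j, ?_⟩
        have h8 := h5 j
        rw [h4, zero_div, sub_eq_zero] at h8
        exact h8.symm
      · rintro h3 ⟨j, hj⟩
        refine h3 j (Finset.mem_univ j) ?_
        have h8 := h5 j
        rw [sub_eq_zero.2 hj.symm] at h8
        rcases div_eq_zero_iff.1 h8.symm with h9 | h9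
        · exact h9
        · exact absurd h9 (hu j)

end TNF.LG
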