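import Pool.Agent.Lib.TNF.LG.SpecE
import Pool.Agent.Lib.TATE.TO.Sum

/-!
# PROJECT TNF, package LG, module Ra: algebraicity of the solutions of an equation between integrals
(helper84)
-/

set_option autoImplicit false

open HC HC.CC SEJ TATE Topology Metric

noncomputable section

namespace TNF.LG

namespace Ra_aux

open TATE.TO.Sum_aux

/-- The end points of an integral are on the curve. -/
lemma itg_pts {m r : ℕ} {b : Fin (r + 1) → ℕ} {t : Fin (r + 1) → ℂ} {P Q : ℂ × ℂ}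
    {v : Ix m b → ℂ} (h : Itg m b t P Q v) : P ∈ Pts m b t ∧ Q ∈ Pts m b t := by
  induction h with
  | refl h => exact ⟨h, h⟩
  | step h h' ih =>
    refine ⟨ih.1, ?_⟩
    obtain ⟨y, _, _, h1, h2, _⟩ := h'
    have h3 := h2 1 ⟨zero_le_one, le_refl _⟩
    rw [h1] at h3
    simpa using h3

lemma rt_neg {T : AV} {v : T.V} (h : Rt T v) : Rt T (-v) := by
  obtain ⟨k, hk, hkv⟩ := h
  refine ⟨k, hk, ?_⟩
  rw [smul_neg]
  exact T.L.neg_mem hkv

/-- The action on the rational points. -/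
lemma stab {T : AV} {m r : ℕ} {Z : T.V → T.V} {t : Fin (r + 1) → ℂ} {b : Fin (r + 1) → ℕ}
    {γ : Cur T} (hγ : IsMp T m Z t b γ) {p : ℕ} {s : Fin p → ℂ} {A : Set ℂ} (hmod : IsMod s γ A)
    {σ : ℂ ≃+* ℂ} (hσ : σ ∈ Fix s A) {n : ℕ} {e : Fin n → ℤ} {P : Fin n → ℂ × ℂ}
    (he : ∑ i, e i = 0) (hP : ∀ i, P i ∈ Pts m b t)
    (hσP : ∀ i, (σ (P i).1, σ (P i).2) ∈ Pts m b t)
    (h : Rt T (∑ i, e i • γ.α (P i).1 (P i).2)) :
    Rt T (∑ i, e i • γ.α (σ (P i).1) (σ (P i).2)) := by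
  have key : ∀ R ∈ Pts m b t, R.1 ∉ γ.S ∧ γ.P (R.1, R.2) = 0 := by
    intro R hR
    refine ⟨?_, ?_⟩
    · rw [hγ.S]
      exact hR.1
    · rw [hγ.P, hR.2, sub_self]
  obtain ⟨k, hk, hkv⟩ := h
  refine ⟨k, hk, ?_⟩
  refine hmod σ hσ _ _ ⟨n, fun i => (k : ℤ) * e i, fun i => (P i).1, fun i => (P i).2,
    ?_, ?_, ?_, ?_⟩ hkv
  · rw [← Finset.mul_sum, he, mul_zero]
  · intro i
    exact ⟨(key _ (hP i)).1, (key _ (hP i)).2, (key _ (hσP i)).1, (key _ (hσP i)).2⟩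
  · have h0 : k • ∑ i, e i • γ.α (P i).1 (P i).2 -
        ∑ i, ((k : ℤ) * e i) • γ.α (P i).1 (P i).2 = 0 := by
      rw [Finset.smul_sum, sub_eq_zero]
      refine Finset.sum_congr rfl fun i _ => ?_
      rw [mul_smul, natCast_zsmul]
    rw [h0]
    exact T.L.zero_mem
  · have h0 : k • ∑ i, e i • γ.α (σ (P i).1) (σ (P i).2) -
        ∑ i, ((k : ℤ) * e i) • γ.α (σ (P i).1) (σ (P i).2) = 0 := by
      rw [Finset.smul_sum, sub_eq_zero]
      refine Finset.sum_congr rfl fun i _ => ?_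
      rw [mul_smul, natCast_zsmul]
    rw [h0]
    exact T.L.zero_mem

/-- All points. -/
def pts {g K : ℕ} (P' R : Fin g → ℂ × ℂ) (Q Q' : Fin K → ℂ × ℂ) :
    Fin ((g + g) + (K + K)) → ℂ × ℂ :=
  Fin.append (Fin.append P' R) (Fin.append Q Q')

/-- The coefficients. -/
def cf (g K : ℕ) : Fin ((g + g) + (K + K)) → ℤ :=
  Fin.append (Fin.append (fun _ => 1) (fun _ => -1)) (Fin.append (fun _ => 1) (fun _ => -1))

lemma cf_sum (g K : ℕ) : ∑ i, cf g K i = 0 := by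
  rw [Fin.sum_univ_add, Fin.sum_univ_add, Fin.sum_univ_add]
  simp only [cf, Fin.append_left, Fin.append_right, Finset.sum_const]
  simp

lemma cf_pts {V : Type} [AddCommGroup V] {g K : ℕ} (P' R : Fin g → ℂ × ℂ) (Q Q' : Fin K → ℂ × ℂ)
    (f : ℂ × ℂ → V) :
    ∑ i, cf g K i • f (pts P' R Q Q' i) =
      ∑ a, (f (P' a) - f (R a)) + ∑ a, (f (Q a) - f (Q' a)) := by
  rw [Fin.sum_univ_add, Fin.sum_univ_add, Fin.sum_univ_add]
  simp only [cf, pts, Fin.append_left, Fin.append_right, one_smul, neg_smul,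
    Finset.sum_neg_distrib, Finset.sum_sub_distrib]
  abel

lemma pts_all {g K : ℕ} {P' R : Fin g → ℂ × ℂ} {Q Q' : Fin K → ℂ × ℂ} {X : ℂ × ℂ → Prop}
    (h1 : ∀ a, X (P' a)) (h2 : ∀ a, X (R a)) (h3 : ∀ a, X (Q a)) (h4 : ∀ a, X (Q' a)) :
    ∀ i, X (pts P' R Q Q' i) := by
  intro i
  refine Fin.addCases (fun a => ?_) (fun a => ?_) i
  · refine Fin.addCases (fun a => ?_) (fun a => ?_) a
    · simp only [pts, Fin.append_left]
      exact h1 a
    · simp only [pts, Fin.append_left, Fin.append_right]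
      exact h2 a
  · refine Fin.addCases (fun a => ?_) (fun a => ?_) a
    · simp only [pts, Fin.append_left, Fin.append_right]
      exact h3 a
    · simp only [pts, Fin.append_right]
      exact h4 a

lemma ze_pow {m : ℕ} (hm : m ≠ 0) : ze m 1 ^ m = 1 := by
  unfold ze
  rw [← Complex.exp_nat_mul]
  have h : (m : ℂ) * (2 * Real.pi * Complex.I * ((1 : ℕ) : ℂ) / m) = 2 * Real.pi * Complex.I := by
    have : (m : ℂ) ≠ 0 := Nat.cast_ne_zero.mpr hm
    field_simp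
    push_cast
    ring
  rw [h]
  exact Complex.exp_two_pi_mul_I

lemma algO_ze {p m : ℕ} (s : Fin p → ℂ) (hm : m ≠ 0) : AlgO s (ze m 1) := by
  refine IsAlgebraic.of_pow (n := m) (Nat.pos_of_ne_zero hm) ?_
  rw [ze_pow hm]
  exact isAlgebraic_one

end Ra_aux

open Ra_aux TATE.TO.Sum_aux in
theorem tRa : StmtTP → StmtGA1 → TO.S_Cnt → TO.S_Eqv → S_Ra := by
  intro hTP hGA hCnt hEqv m r b Λ t hc hr ht p s hts R R' w hR' hRalg hItg K Q' Q u hQalg hItg'
    hsum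
  have hm : m ≠ 0 := by
    have := hc.1
    omega
  obtain ⟨T, Z, γ, κ, _, _, hγ, _, _, hLQ, _, hκ, hmod0⟩ := hTP m r b t Λ hc hr ht
  have hmod := hmod0 p s hts
  have hRon : ∀ a, R a ∈ Pts m b t := fun a => (itg_pts (hItg a)).1
  have hQon : ∀ a, Q a ∈ Pts m b t := fun a => (itg_pts (hItg' a)).2
  have hQon' : ∀ a, Q' a ∈ Pts m b t := fun a => (itg_pts (hItg' a)).1
  set α : ℂ × ℂ → T.V := fun P => γ.α P.1 P.2 with hα
  set S : Set (Fin (Fintype.card (Ix m b)) → ℂ × ℂ) := {P' | TO.Ind m b t P' ∧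
    Rt T (∑ a, (α (P' a) - α (R a)) + ∑ a, (α (Q a) - α (Q' a)))} with hSdef
  have hRS : R' ∈ S := by
    refine ⟨hR', ?_⟩
    choose l hl hκl using fun a => hκ (R a) (R' a) (w a) (hItg a)
    choose l' hl' hκl' using fun a => hκ (Q' a) (Q a) (u a) (hItg' a)
    rw [← hLQ] at hsum
    obtain ⟨v, hv, hvs⟩ := hsum
    have h1 : ∑ a, (α (R' a) - α (R a)) + ∑ a, (α (Q a) - α (Q' a)) =
        v + (∑ a, l a + ∑ a, l' a) := by
      apply κ.injective
      rw [map_add, map_sum, map_sum, map_add, map_add, map_sum, map_sum, hvs]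
      have e1 : ∑ a, κ (α (R' a) - α (R a)) = ∑ a, w a + ∑ a, κ (l a) := by
        rw [← Finset.sum_add_distrib]
        refine Finset.sum_congr rfl fun a _ => ?_
        rw [← hκl a]
        abel
      have e2 : ∑ a, κ (α (Q a) - α (Q' a)) = ∑ a, u a + ∑ a, κ (l' a) := by
        rw [← Finset.sum_add_distrib]
        refine Finset.sum_congr rfl fun a _ => ?_
        rw [← hκl' a]
        abel
      rw [e1, e2]
      abel
    rw [h1]
    exact rt_add hv (rt_of_in (T.L.add_mem (T.L.sum_mem fun a _ => hl a)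
      (T.L.sum_mem fun a _ => hl' a)))
  have hScount : S.Countable := by
    have h1 : S ⊆ ⋃ x ∈ {x : T.V | Rt T x}, {P' : Fin (Fintype.card (Ix m b)) → ℂ × ℂ |
        TO.Ind m b t P' ∧ In T (∑ a, γ.α (P' a).1 (P' a).2 -
          (x + ∑ a, α (R a) - ∑ a, (α (Q a) - α (Q' a))))} := by
      rintro P' ⟨hP', hR⟩
      refine Set.mem_iUnion₂.mpr ⟨_, hR, hP', ?_⟩
      have h0 : ∑ a, γ.α (P' a).1 (P' a).2 -
          (∑ a, (α (P' a) - α (R a)) + ∑ a, (α (Q a) - α (Q' a)) + ∑ a, α (R a) -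
            ∑ a, (α (Q a) - α (Q' a))) = 0 := by
        have e : ∑ a, (α (P' a) - α (R a)) = ∑ a, γ.α (P' a).1 (P' a).2 - ∑ a, α (R a) :=
          Finset.sum_sub_distrib _ _
        rw [e]
        abel
      rw [h0]
      exact T.L.zero_mem
    refine Set.Countable.mono h1 ?_
    refine Set.Countable.biUnion (rt_countable T) fun x _ => ?_
    exact hCnt T m r t b γ hc ht κ hκ _
  -- the fixed set
  set A' : Set ℂ := {ze m 1} ∪ (Set.range (flat R) ∪ (Set.range (flat Q) ∪ Set.range (flat Q')))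
    with hA'
  have hA'fin : A'.Finite := (Set.finite_singleton _).union
    ((Set.finite_range _).union ((Set.finite_range _).union (Set.finite_range _)))
  have hflat : ∀ {g : ℕ} (P : Fin g → ℂ × ℂ) (X : ℂ → Prop), (∀ a, X (P a).1 ∧ X (P a).2) →
      ∀ z ∈ Set.range (flat P), X z := by
    rintro g P X hX z ⟨i, rfl⟩
    refine Fin.addCases (fun a => ?_) (fun a => ?_) i
    · simp only [flat, Fin.append_left]
      exact (hX a).1
    · simp only [flat, Fin.append_right]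
      exact (hX a).2
  have hflat' : ∀ {g : ℕ} (P : Fin g → ℂ × ℂ) (a : Fin g),
      (P a).1 ∈ Set.range (flat P) ∧ (P a).2 ∈ Set.range (flat P) := by
    intro g P a
    exact ⟨⟨Fin.castAdd _ a, by simp only [flat, Fin.append_left]⟩,
      ⟨Fin.natAdd _ a, by simp only [flat, Fin.append_right]⟩⟩
  have hA'alg : ∀ a ∈ A', AlgO s a := by
    rintro a (rfl | ha | ha | ha)
    · exact algO_ze s hm
    · exact hflat R (AlgO s) hRalg a ha
    · exact hflat Q (AlgO s) (fun a => ⟨(hQalg a).2.2.1, (hQalg a).2.2.2⟩) a ha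
    · exact hflat Q' (AlgO s) (fun a => ⟨(hQalg a).1, (hQalg a).2.1⟩) a ha
  have hstab : ∀ σ ∈ Fix s A', ∀ z ∈ flat '' S, (fun i => σ (z i)) ∈ flat '' S := by
    rintro σ hσ z ⟨P', hP', rfl⟩
    rw [flat_map]
    refine ⟨_, ?_, rfl⟩
    have hσA : σ ∈ Fix s {ze m 1} := ⟨hσ.1, fun a ha => hσ.2 a (Or.inl ha)⟩
    have hσt : ∀ j, σ (t j) = t j := fun j => fix_mem hσ (hts j)
    have hE := hEqv m r t b σ hσt
    have hfR : ∀ a, (σ (R a).1, σ (R a).2) = R a := fun a => Prod.ext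
      (hσ.2 _ (Or.inr (Or.inl (hflat' R a).1))) (hσ.2 _ (Or.inr (Or.inl (hflat' R a).2)))
    have hfQ : ∀ a, (σ (Q a).1, σ (Q a).2) = Q a := fun a => Prod.ext
      (hσ.2 _ (Or.inr (Or.inr (Or.inl (hflat' Q a).1))))
      (hσ.2 _ (Or.inr (Or.inr (Or.inl (hflat' Q a).2))))
    have hfQ' : ∀ a, (σ (Q' a).1, σ (Q' a).2) = Q' a := fun a => Prod.ext
      (hσ.2 _ (Or.inr (Or.inr (Or.inr (hflat' Q' a).1))))
      (hσ.2 _ (Or.inr (Or.inr (Or.inr (hflat' Q' a).2))))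
    refine ⟨hE.2 P' hP'.1, ?_⟩
    have h1 := stab hγ hmod hσA (P := pts P' R Q Q') (cf_sum _ _)
      (pts_all (X := fun P => P ∈ Pts m b t) hP'.1.on hRon hQon hQon')
      (pts_all (X := fun P => (σ P.1, σ P.2) ∈ Pts m b t) (fun a => hE.1 _ (hP'.1.on a))
        (fun a => hE.1 _ (hRon a)) (fun a => hE.1 _ (hQon a)) fun a => hE.1 _ (hQon' a))
      (by
        have e := cf_pts P' R Q Q' α
        simp only [hα] at e ⊢
        rw [e]
        exact hP'.2)
    have e2 : ∑ i, Ra_aux.cf (Fintype.card (Ix m b)) K i •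
        γ.α (σ (pts P' R Q Q' i).1) (σ (pts P' R Q Q' i).2) =
        ∑ a, (α (σ (P' a).1, σ (P' a).2) - α (σ (R a).1, σ (R a).2)) +
          ∑ a, (α (σ (Q a).1, σ (Q a).2) - α (σ (Q' a).1, σ (Q' a).2)) :=
      cf_pts P' R Q Q' (fun P => α (σ P.1, σ P.2))
    rw [e2] at h1
    simp only [hfR, hfQ, hfQ'] at h1
    exact h1
  have h := hGA p _ s A' hA'fin hA'alg (flat '' S) (hScount.image _) hstab (flat R')
    ⟨R', hRS, rfl⟩
  intro a
  have h1 := h (Fin.castAdd _ a)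
  have h2 := h (Fin.natAdd _ a)
  simp only [flat, Fin.append_left, Fin.append_right] at h1 h2
  exact ⟨h1, h2⟩

end TNF.LG
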