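import Pool.Agent.Lib.TNF.LG.SpecE
import Pool.Agent.Lib.TATE.GA.Ct

/-!
# TNF, LG, module Rot: roots of unity are constant along a continuation
-/

set_option autoImplicit false

open HC HC.CC SEJ TATE Topology Metric

noncomputable section

namespace TNF.LG

theorem tRot : S_Rot := by
  intro p K s w γ y hγ hct i n hn h0
  obtain ⟨hc, hs⟩ := hct.props hγ
  have hpow : ∀ t ∈ Set.Icc (0 : ℝ) 1, y t i ^ n = 1 := by
    intro t ht
    have h1 := hs t ht (MvPolynomial.X (Sum.inr i) ^ n - 1)
      (by simp [h0])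
    have h2 : y t i ^ n - 1 = 0 := by simpa using h1
    exact sub_eq_zero.1 h2
  set T : Set ℂ := {z | z ^ n = 1} with hT
  have hTf : T.Finite := by
    refine ((Polynomial.nthRoots n (1 : ℂ)).toFinset.finite_toSet).subset ?_
    intro z hz
    rw [Finset.mem_coe, Multiset.mem_toFinset, Polynomial.mem_nthRoots (Nat.pos_of_ne_zero hn)]
    exact hz
  have hTd : IsDiscrete T := hTf.isDiscrete
  have hci : ContinuousOn (fun t => y t i) (Set.Icc 0 1) :=
    (continuous_apply i).comp_continuousOn hc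
  have h01 : (0 : ℝ) ∈ Set.Icc (0 : ℝ) 1 := ⟨le_refl _, zero_le_one⟩
  have h11 : (1 : ℝ) ∈ Set.Icc (0 : ℝ) 1 := ⟨zero_le_one, le_refl _⟩
  exact isPreconnected_Icc.constant_of_mapsTo (T := T) hTd hci (fun t ht => hpow t ht) h11 h01

end TNF.LG
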