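import Pool.Agent.Lib.TNF.LG.SpecD

/-!
# PROJECT TNF, package LG: module Rzc (the roots of unity of the Hilbert data)
-/

set_option autoImplicit false

open HC HC.CC SEJ TATE Topology Metric

noncomputable section

namespace TNF.LG

namespace Rzc_aux

theorem ze_prim {m : ℕ} (hm : m ≠ 0) : IsPrimitiveRoot (ze m 1) m := by
  have e : ze m 1 = Complex.exp (2 * Real.pi * Complex.I / m) := by
    unfold SEJ.ze
    rw [Nat.cast_one, mul_one]
  rw [e]
  exact Complex.isPrimitiveRoot_exp m hm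

/-- The polynomial `Y_j ^ l - 1`. -/
def fp {p : ℕ} {J : Type} (j : J) (l : ℕ) : MvPolynomial (Fin p ⊕ J) ℚ :=
  MvPolynomial.X (Sum.inr j) ^ l - 1

theorem fp_aeval {p : ℕ} {J : Type} (s : Fin p → ℂ) (y : J → ℂ) (j : J) (l : ℕ) :
    MvPolynomial.aeval (Sum.elim s y) (fp (p := p) j l) = y j ^ l - 1 := by
  unfold fp
  rw [map_sub, map_pow, MvPolynomial.aeval_X, map_one, Sum.elim_inr]

end Rzc_aux

open Rzc_aux in
theorem tRzc : S_Rzc := by
  classical
  intro p N D hok k q s y P R d e θ hq haz hyq hDJ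
  have hn : ∀ l : ℕ, ∃ Δ : QS p, Δ ≠ 0 ∧ (0 < l → l < q → ∀ s', cf s' Δ ≠ 0 → cf s' d ≠ 0 →
      ∀ x, (PS P s').eval x = 0 → yv R d s' x (Sum.inr none) ^ l ≠ 1) := by
    intro l
    by_cases hl : 0 < l ∧ l < q
    · obtain ⟨Δ, h1, h2⟩ := hDJ.nv (fp (Sum.inr none) l) (by
        rw [fp_aeval, hyq, sub_ne_zero]
        exact (ze_prim hq).pow_ne_one_of_pos_of_lt hl.1.ne' hl.2)
      refine ⟨Δ, h1, fun _ _ s' hs hd x hx h3 => ?_⟩
      apply h2 s' hs hd x hx
      have e1 := fp_aeval s' (fun j => (PS (R j) s').eval x / cf s' d)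
        (Sum.inr none : Jx D k) l
      rw [e1]
      exact sub_eq_zero.2 h3
    · exact ⟨1, one_ne_zero, fun h1 h2 => absurd ⟨h1, h2⟩ hl⟩
  choose Δ hΔ0 hΔ using hn
  refine ⟨∏ l ∈ Finset.range q, Δ l, Finset.prod_ne_zero_iff.2 fun l _ => hΔ0 l,
    fun s' hs hd x hx => ⟨fun n => ?_, ?_⟩⟩
  · have hm : D.m n ≠ 0 := by
      have h := (hok.cv n).1
      omega
    have h1 := hDJ.spc s' x hd hx (fp (Sum.inr (some n)) (D.m n)) (by
      rw [fp_aeval, haz n, (ze_prim hm).pow_eq_one, sub_self])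
    rw [fp_aeval] at h1
    exact sub_eq_zero.1 h1
  · have h1 := hDJ.spc s' x hd hx (fp (Sum.inr none) q) (by
      rw [fp_aeval, hyq, (ze_prim hq).pow_eq_one, sub_self])
    rw [fp_aeval] at h1
    refine IsPrimitiveRoot.mk_of_lt _ (Nat.pos_of_ne_zero hq) (sub_eq_zero.1 h1) ?_
    intro l hl0 hlq
    refine hΔ l hl0 hlq s' ?_ hd x hx
    rw [map_prod] at hs
    exact Finset.prod_ne_zero_iff.1 hs l (Finset.mem_range.2 hlq)

end TNF.LG
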