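import Pool.Agent.Lib.TNF.LG.SpecD

/-!
# TNF/LG/Sgz (helper6): conjugation at a point where the polynomial is irreducible
-/

set_option autoImplicit false

open HC HC.CC SEJ TATE Topology Metric

noncomputable section

namespace TNF.LG

namespace Sgz_aux

variable {p : ℕ}

instance cnt (s : Fin p → ℂ) : Countable (Polynomial (TATE.Qs s)) := by
  rw [← Cardinal.mk_le_aleph0_iff]
  refine Polynomial.cardinalMk_le_max.trans ?_
  rw [sup_le_iff]
  exact ⟨Cardinal.mk_le_aleph0_iff.2 (TATE.Qs_countable s), le_refl _⟩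

theorem comp (s : Fin p → ℂ) : (algebraMap (TNF.Qs s) ℂ).comp (toQs s) = cf s := by
  refine MvPolynomial.ringHom_ext ?_ ?_
  · intro a
    have h1 : (toQs s) (MvPolynomial.C a) = algebraMap ℚ (TNF.Qs s) a :=
      MvPolynomial.aeval_C _ _
    have h2 : cf s (MvPolynomial.C a) = algebraMap ℚ ℂ a := MvPolynomial.aeval_C _ _
    rw [RingHom.comp_apply, h1, h2]
    exact (IsScalarTower.algebraMap_apply ℚ (TNF.Qs s) ℂ a).symm
  · intro i
    have h1 : (toQs s) (MvPolynomial.X i) =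
        ⟨s i, IntermediateField.subset_adjoin ℚ _ ⟨i, rfl⟩⟩ := MvPolynomial.aeval_X _ _
    have h2 : cf s (MvPolynomial.X i) = s i := MvPolynomial.aeval_X _ _
    rw [RingHom.comp_apply, h1, h2]
    rfl

theorem ker {K : Type} [Field K] [Algebra K ℂ] {Q : Polynomial K} (hQ : Irreducible Q) {x : ℂ}
    (hx : Q.eval₂ (algebraMap K ℂ) x = 0) (g : Polynomial K) :
    g.eval₂ (algebraMap K ℂ) x = 0 ↔ Q ∣ g := by
  constructor
  · intro hg
    by_contra hn
    obtain ⟨a, b, hab⟩ := (hQ.coprime_iff_not_dvd (n := g)).mpr hn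
    have h1 := congrArg (fun f : Polynomial K => f.eval₂ (algebraMap K ℂ) x) hab
    simp only [Polynomial.eval₂_add, Polynomial.eval₂_mul, Polynomial.eval₂_one, hx, hg, mul_zero,
      add_zero] at h1
    exact zero_ne_one h1
  · rintro ⟨q, rfl⟩
    rw [Polynomial.eval₂_mul, hx, zero_mul]

end Sgz_aux

open Sgz_aux in
theorem tSgz : S_Sgz := by
  intro p P s₀ hP x x' hx hx'
  have hr : ∀ z, (PS P s₀).eval z = 0 →
      (P.map (toQs s₀)).eval₂ (algebraMap (TNF.Qs s₀) ℂ) z = 0 := by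
    intro z hz
    rw [Polynomial.eval₂_map, comp]
    rwa [PS, Polynomial.eval_map] at hz
  obtain ⟨τ, hτ⟩ := exists_aut_of_ker (B := Polynomial (TNF.Qs s₀))
    (Polynomial.eval₂RingHom (algebraMap (TNF.Qs s₀) ℂ) x)
    (Polynomial.eval₂RingHom (algebraMap (TNF.Qs s₀) ℂ) x')
    fun g => (ker hP (hr x hx) g).trans (ker hP (hr x' hx') g).symm
  refine ⟨τ, fun i => ?_, ?_⟩
  · have h1 := hτ (Polynomial.C ⟨s₀ i, IntermediateField.subset_adjoin ℚ _ ⟨i, rfl⟩⟩)
    rw [Polynomial.coe_eval₂RingHom, Polynomial.coe_eval₂RingHom, Polynomial.eval₂_C,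
      Polynomial.eval₂_C] at h1
    exact h1
  · have h1 := hτ Polynomial.X
    rwa [Polynomial.coe_eval₂RingHom, Polynomial.coe_eval₂RingHom, Polynomial.eval₂_X,
      Polynomial.eval₂_X] at h1

end TNF.LG
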