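import Pool.Agent.Lib.TNF.LG.SpecE

/-!
# PROJECT TNF, package LG, module Sh: the shifted family
-/

set_option autoImplicit false

open HC HC.CC SEJ TATE Topology Metric

noncomputable section

namespace TNF.LG

namespace Sh_aux

theorem ln_ln {p : ℕ} (s w : Fin p → ℂ) (z₁ z : ℂ) : ln (ln s w z₁) w z = ln s w (z₁ + z) := by
  funext i
  unfold ln
  ring

theorem bd_iff {p : ℕ} (s w : Fin p → ℂ) (z₁ z : ℂ) : z ∈ Bd (ln s w z₁) w ↔ z₁ + z ∈ Bd s w := by
  unfold Bd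
  show ¬ Function.Injective (ln (ln s w z₁) w z) ↔ ¬ Function.Injective (ln s w (z₁ + z))
  rw [ln_ln]

theorem ball_iff (z₁ z z' : ℂ) (r : ℝ) (h : z' ∈ ball z r) : z₁ + z' ∈ ball (z₁ + z) r := by
  rw [mem_ball, dist_add_left]
  exact h

/-- The shifted family. -/
def shift {p : ℕ} {V : Type} [NormedAddCommGroup V] [NormedSpace ℂ V] (s w : Fin p → ℂ)
    (M : Fml V (Bd s w)) (z₁ : ℂ) : Fml V (Bd (ln s w z₁) w) where
  L := fun z => M.L (z₁ + z)
  E := fun z => M.E (z₁ + z)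
  r := fun z => M.r (z₁ + z)
  τ := fun z z' => M.τ (z₁ + z) (z₁ + z')
  cnt := fun z hz => M.cnt _ fun h => hz ((bd_iff s w z₁ z).2 h)
  spn := fun z hz => M.spn _ fun h => hz ((bd_iff s w z₁ z).2 h)
  alt := fun z hz => M.alt _ fun h => hz ((bd_iff s w z₁ z).2 h)
  cpx := fun z hz => M.cpx _ fun h => hz ((bd_iff s w z₁ z).2 h)
  pos := fun z hz => M.pos _ fun h => hz ((bd_iff s w z₁ z).2 h)
  rpos := fun z hz => M.rpos _ fun h => hz ((bd_iff s w z₁ z).2 h)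
  dom := fun z hz z' hz' h => M.dom _ (fun h => hz ((bd_iff s w z₁ z).2 h)) _
    (ball_iff z₁ z z' _ hz') ((bd_iff s w z₁ z').1 h)
  one := fun z hz => M.one _ fun h => hz ((bd_iff s w z₁ z).2 h)
  lat := fun z hz z' hz' => M.lat _ (fun h => hz ((bd_iff s w z₁ z).2 h)) _ (ball_iff z₁ z z' _ hz')
  iso := fun z hz z' hz' => M.iso _ (fun h => hz ((bd_iff s w z₁ z).2 h)) _ (ball_iff z₁ z z' _ hz')
  hol := fun z hz v => by
    have h1 := M.hol (z₁ + z) (fun h => hz ((bd_iff s w z₁ z).2 h)) v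
    have h2 : DifferentiableOn ℂ (fun z' : ℂ => z₁ + z') (ball z (M.r (z₁ + z))) :=
      ((differentiable_const z₁).add differentiable_id).differentiableOn
    exact h1.comp h2 fun z' hz' => ball_iff z₁ z z' _ hz'

end Sh_aux

open Sh_aux in
theorem tSh : S_Sh := by
  intro Φ p N D h s w M z₁ hM
  refine ⟨shift s w M z₁, ⟨?_, ?_, ?_⟩, ?_⟩
  · intro z hz
    rw [ln_ln]
    exact hM.L _ fun h' => hz ((bd_iff s w z₁ z).2 h')
  · intro z hz z' hz' n
    rw [ln_ln, ln_ln]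
    exact hM.r _ (fun h' => hz ((bd_iff s w z₁ z).2 h')) _ (ball_iff z₁ z z' _ hz') n
  · intro z hz z' hz' v n
    rw [ln_ln, ln_ln]
    exact hM.τ _ (fun h' => hz ((bd_iff s w z₁ z).2 h')) _ (ball_iff z₁ z z' _ hz') v n
  · intro γ z z' hγ φ hφ
    refine ⟨⟨hγ.cont.sub continuous_const, ?_, ?_, ?_⟩, ⟨hφ.zero, ?_⟩⟩
    · show γ 0 - z₁ = z - z₁
      rw [hγ.src]
    · show γ 1 - z₁ = z' - z₁
      rw [hγ.tgt]
    · intro t ht hmem
      have h1 := (bd_iff s w z₁ (γ t - z₁)).1 hmem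
      rw [add_sub_cancel] at h1
      exact hγ.mem t ht h1
    · intro t ht
      obtain ⟨ε, hε, h1⟩ := hφ.loc t ht
      refine ⟨ε, hε, fun t' ht' htt => ?_⟩
      obtain ⟨h2, h3⟩ := h1 t' ht' htt
      have e1 : z₁ + (γ t - z₁) = γ t := add_sub_cancel _ _
      have e2 : z₁ + (γ t' - z₁) = γ t' := add_sub_cancel _ _
      constructor
      · show γ t' - z₁ ∈ ball (γ t - z₁) (M.r (z₁ + (γ t - z₁)))
        rw [e1, mem_ball, dist_sub_right]
        exact h2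
      · intro v
        show φ t' v = M.τ (z₁ + (γ t - z₁)) (z₁ + (γ t' - z₁)) (φ t v)
        rw [e1, e2]
        exact h3 v

end TNF.LG
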