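import Pool.Agent.Lib.TNF.LG.SpecE
import Pool.Agent.Lib.TATE.TO.Sum

/-!
# TNF/LG, module Ta: rational vectors are exact sums at every injective point
-/

set_option autoImplicit false

open HC HC.CC SEJ TATE Topology Metric

noncomputable section

namespace TNF.LG

/-- **Ta**: rational vectors are exact sums between algebraic points, at every injective point. -/
theorem tTa : S_Ra → TO.S_Om → TO.S_Inv → S_Ta := by
  intro hRa hOm hInv m r b hL t hb hr ht p s hts
  have hm : m ≠ 0 := by
    have := hb.1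
    omega
  obtain ⟨P, hP, hPq⟩ := TO.Sum_aux.base hOm m r b t hb ht
  choose q hq using hPq
  have hPalg : ∀ a, AlgO s (P a).1 ∧ AlgO s (P a).2 := fun a =>
    TO.Sum_aux.algO_base hm hts (hP.on a) (hq a)
  refine ⟨fun v hv => ?_, P, hP, hPalg⟩
  obtain ⟨n, Q, w, hn, hQ, hw, hsum⟩ := (hInv m r b t hb ht P hP).1 v
  have hLQ : ∑ a, w a ∈ LQ m b t := by
    obtain ⟨k, hk, hkv⟩ := hv
    refine ⟨k * n, mul_ne_zero hk hn, ?_⟩
    rw [mul_smul, hsum]
    exact hkv
  have hQalg : ∀ a, AlgO s (Q a).1 ∧ AlgO s (Q a).2 := by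
    refine hRa m r b hL t hb hr ht p s hts P Q w hQ hPalg hw 0 (fun a => a.elim0)
      (fun a => a.elim0) (fun a => a.elim0) (fun a => a.elim0) (fun a => a.elim0) ?_
    rw [Finset.univ_eq_empty (α := Fin 0), Finset.sum_empty, add_zero]
    exact hLQ
  refine ⟨n * Fintype.card (Ix m b), fun i => P (finProdFinEquiv.symm i).2,
    fun i => Q (finProdFinEquiv.symm i).2, fun i => w (finProdFinEquiv.symm i).2, fun i => ?_,
    fun i => hw _, ?_⟩
  · exact ⟨(hPalg _).1, (hPalg _).2, (hQalg _).1, (hQalg _).2⟩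
  · rw [← hsum, Equiv.sum_comp finProdFinEquiv.symm (fun x => w x.2), Fintype.sum_prod_type]
    simp only [Finset.sum_const, Finset.card_univ, Fintype.card_fin]

end TNF.LG
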