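import Pool.Agent.Lib.TNF.LG.SpecE

/-!
# TNF/LG/Th: the conjugated family (helper10)
-/

set_option autoImplicit false

open HC HC.CC SEJ TATE Topology Metric

noncomputable section

namespace TNF.LG

namespace Th_aux

/-- The points of the line are distinct near `0`. -/
theorem inj_near {p : ℕ} (s w : Fin p → ℂ) (hs : Function.Injective s) :
    ∃ δ > 0, ∀ z ∈ ball (0 : ℂ) δ, Function.Injective (ln s w z) := by
  have h1 : ∀ᶠ z in 𝓝 (0 : ℂ), ∀ i j, i ≠ j → ln s w z i ≠ ln s w z j := by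
    rw [Filter.eventually_all]
    intro i
    rw [Filter.eventually_all]
    intro j
    by_cases hij : i = j
    · exact Filter.Eventually.of_forall fun z hz => absurd hij hz
    · have hc : ContinuousAt (fun z : ℂ => ln s w z i - ln s w z j) 0 := by
        unfold ln
        fun_prop
      have h0 : (fun z : ℂ => ln s w z i - ln s w z j) 0 ≠ 0 := by
        have : s i - s j ≠ 0 := sub_ne_zero.mpr fun h => hij (hs h)
        simpa [ln] using this
      filter_upwards [hc.eventually_ne h0] with z hz _ h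
      exact hz (sub_eq_zero.mpr h)
  obtain ⟨δ, hδ, H⟩ := Metric.eventually_nhds_iff_ball.mp h1
  refine ⟨δ, hδ, fun z hz i j hij => ?_⟩
  by_contra hne
  exact H z hz i j hne hij

/-- The branch points depend continuously on the point of the line. -/
theorem t_cont {p N : ℕ} (D : Dt p N) (h : D.ok) (s w : Fin p → ℂ) (δ : ℝ)
    (hinj : ∀ z ∈ ball (0 : ℂ) δ, Function.Injective (ln s w z)) (n : Fin N)
    (j : Fin (D.r n + 1)) :
    ContinuousOn (fun z => D.t (ln s w z) n j) (ball (0 : ℂ) δ) := by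
  have hc : ∀ i, Continuous fun z : ℂ => ln s w z i := by
    intro i
    unfold ln
    fun_prop
  unfold Dt.t
  cases hk : D.k n with
  | none => exact (hc _).continuousOn
  | some l =>
    refine ContinuousOn.inv₀ (((hc _).sub (hc _)).continuousOn) fun z hz => ?_
    exact sub_ne_zero.mpr fun he => (h.lt n l hk j).ne (hinj z hz he)

/-- A continuous family of points which is on the curves at `0` and outside a countable set is on the
curves near `0`. -/
theorem on_near {m r : ℕ} (b : Fin (r + 1) → ℕ) (t : ℂ → Fin (r + 1) → ℂ) (P Q : ℂ → ℂ) (ρ : ℝ)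
    (hρ : 0 < ρ) (ht : ∀ j, ContinuousOn (fun z => t z j) (ball 0 ρ))
    (hP : ContinuousOn P (ball 0 ρ)) (hQ : ContinuousOn Q (ball 0 ρ))
    (h0 : (P 0, Q 0) ∈ Pts m b (t 0)) (Y : Set ℂ) (hY : Y.Countable)
    (hon : ∀ z ∈ ball (0 : ℂ) ρ, z ∉ Y → (P z, Q z) ∈ Pts m b (t z)) :
    ∃ δ > 0, ∀ z ∈ ball (0 : ℂ) δ, (P z, Q z) ∈ Pts m b (t z) := by
  have hnb : ball (0 : ℂ) ρ ∈ 𝓝 (0 : ℂ) := ball_mem_nhds _ hρ
  have h1 : ∀ᶠ z in 𝓝 (0 : ℂ), ∀ j, P z ≠ t z j := by
    rw [Filter.eventually_all]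
    intro j
    have hc : ContinuousAt (fun z => P z - t z j) 0 :=
      (hP.continuousAt hnb).sub ((ht j).continuousAt hnb)
    have hne : (fun z => P z - t z j) 0 ≠ 0 := by
      refine sub_ne_zero.mpr fun he => h0.1 ⟨j, ?_⟩
      exact he.symm
    filter_upwards [hc.eventually_ne hne] with z hz h
    exact hz (sub_eq_zero.mpr h)
  obtain ⟨δ, hδ, H⟩ := Metric.eventually_nhds_iff_ball.mp h1
  have hF : ContinuousOn (fun z => Q z ^ m - ∏ j, (P z - t z j) ^ b j) (ball 0 ρ) :=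
    (hQ.pow m).sub (continuousOn_finsetProd _ fun j _ => (hP.sub (ht j)).pow (b j))
  have hdense : Dense Yᶜ := hY.dense_compl ℂ
  have hz0 : ∀ z ∈ ball (0 : ℂ) ρ, Q z ^ m - ∏ j, (P z - t z j) ^ b j = 0 := by
    intro z hz
    by_contra hne
    have hc := hF.continuousAt (isOpen_ball.mem_nhds hz)
    have hev : ∀ᶠ x in 𝓝 z, Q x ^ m - ∏ j, (P x - t x j) ^ b j ≠ 0 := hc.eventually_ne hne
    have hev2 : ∀ᶠ x in 𝓝 z, x ∈ ball (0 : ℂ) ρ ∧ Q x ^ m - ∏ j, (P x - t x j) ^ b j ≠ 0 :=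
      Filter.Eventually.and (isOpen_ball.mem_nhds hz) hev
    obtain ⟨U, hU, hUo, hzU⟩ := _root_.mem_nhds_iff.mp hev2
    obtain ⟨x, hxU, hxY⟩ := hdense.inter_open_nonempty U hUo ⟨z, hzU⟩
    have hx := hU hxU
    exact hx.2 (sub_eq_zero.mpr (hon x hx.1 hxY).2)
  refine ⟨min δ ρ, lt_min hδ hρ, fun z hz => ?_⟩
  have hzδ : z ∈ ball (0 : ℂ) δ := ball_subset_ball (min_le_left _ _) hz
  have hzρ : z ∈ ball (0 : ℂ) ρ := ball_subset_ball (min_le_right _ _) hz
  refine ⟨?_, sub_eq_zero.mp (hz0 z hzρ)⟩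
  rintro ⟨j, hj⟩
  exact H z hzδ j hj.symm

end Th_aux

open Th_aux in
/-- From CV.StmtCV, S_Eqc. -/
theorem tTh : CV.StmtCV → S_Eqc → S_Th := by
  intro hCV hEq Λ Φ p N D h q k s w e ε Θ hq hs hΘ σ hσ hw
  classical
  let ee : Jx D k ≃ Fin (Fintype.card (Jx D k)) := Fintype.equivFin (Jx D k)
  have hu : ∀ j, σ (Fin.append s w j) = Fin.append s w j := by
    intro j
    refine Fin.addCases (fun i => ?_) (fun i => ?_) j
    · rw [Fin.append_left]
      exact hσ.1 i
    · rw [Fin.append_right]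
      exact hw i
  obtain ⟨ρ, Θe, hρ, hρε, hhol, hat0, hcst, E, hE, hτ⟩ :=
    hCV (p + p) (Fintype.card (Jx D k)) (Fin.append s w) ε hΘ.pos
      (fun z a => Θ z (ee.symm a))
      (differentiableOn_pi.mpr fun a => differentiableOn_pi.mp hΘ.hol (ee.symm a)) ∅
      IsMeagre.empty (fun z hz _ a => hΘ.alg z hz (ee.symm a)) σ hu
  let Θ' : ℂ → (Jx D k → ℂ) := fun z j => Θe z (ee j)
  have hΘ'hol : DifferentiableOn ℂ Θ' (ball 0 ρ) :=
    differentiableOn_pi.mpr fun j => differentiableOn_pi.mp hhol (ee j)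
  have hΘ'0 : ∀ j, Θ' 0 j = σ (Θ 0 j) := by
    intro j
    have := hat0 (ee j)
    rw [Equiv.symm_apply_apply] at this
    exact this
  have haz : ∀ z ∈ ball (0 : ℂ) ρ, ∀ n, Θ' z (Sum.inr (some n)) = ze (D.m n) 1 := by
    intro z hz n
    have := hcst (ee (Sum.inr (some n))) (ze (D.m n) 1) (fun z' hz' => by
      rw [Equiv.symm_apply_apply]
      exact (hΘ.az z' hz').1 n) z hz
    exact this.trans (hσ.2 n)
  have hqz : ∀ z ∈ ball (0 : ℂ) ρ, Θ' z (Sum.inr none) = σ (ze q 1) := by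
    intro z hz
    exact hcst (ee (Sum.inr none)) (ze q 1) (fun z' hz' => by
      rw [Equiv.symm_apply_apply]
      exact (hΘ.az z' hz').2) z hz
  -- the automorphisms
  have hτ' : ∀ z ∈ ball (0 : ℂ) ρ, z ∉ E →
      ∃ σ' ∈ Gam D (ln s w z), ∀ j, σ' (Θ z j) = Θ' z j := by
    intro z hz hzE
    obtain ⟨τ, hτu, hτz, hτΘ⟩ := hτ z hz hzE
    have hj : ∀ j, τ (Θ z j) = Θ' z j := by
      intro j
      have := hτΘ (ee j)
      rw [Equiv.symm_apply_apply] at this
      exact this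
    refine ⟨τ, ⟨fun i => ?_, fun n => ?_⟩, hj⟩
    · have h1 := hτu (Fin.castAdd p i)
      have h2 := hτu (Fin.natAdd p i)
      rw [Fin.append_left] at h1
      rw [Fin.append_right] at h2
      show τ (s i + z * w i) = s i + z * w i
      rw [map_add, map_mul, h1, h2, hτz]
    · have h1 := hj (Sum.inr (some n))
      rw [haz z hz n, (hΘ.az z (ball_subset_ball hρε hz)).1 n] at h1
      exact h1
  obtain ⟨δ, hδ, hinj⟩ := inj_near s w hs
  -- points on the curves
  have hon0 : OnP D (ln s w 0) (Θ' 0) := by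
    intro i n a
    have h0 : (0 : ℂ) ∈ ball (0 : ℂ) ε := mem_ball_self hΘ.pos
    have h1 := (hEq Λ p N D h k s σ (Θ 0) i hs hσ.2).2.2.2.2.1
      (by have := hΘ.on 0 h0; rwa [ln_zero] at this)
    have h2 : (fun l => σ (s l)) = ln s w 0 := by
      rw [ln_zero]
      exact funext hσ.1
    have h3 : (fun j => σ (Θ 0 j)) = Θ' 0 := funext fun j => (hΘ'0 j).symm
    rw [h2, h3] at h1
    exact h1 i n a
  have honY : ∀ z ∈ ball (0 : ℂ) (min ρ δ), z ∉ E → OnP D (ln s w z) (Θ' z) := by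
    intro z hz hzE
    have hzρ := ball_subset_ball (min_le_left _ _) hz
    have hzδ := ball_subset_ball (min_le_right _ _) hz
    obtain ⟨σ', hσ', hσ'Θ⟩ := hτ' z hzρ hzE
    intro i n a
    have h1 := (hEq Λ p N D h k (ln s w z) σ' (Θ z) i (hinj z hzδ) hσ'.2).2.2.2.2.1
      (hΘ.on z (ball_subset_ball hρε hzρ))
    have h2 : (fun l => σ' (ln s w z l)) = ln s w z := funext hσ'.1
    have h3 : (fun j => σ' (Θ z j)) = Θ' z := funext hσ'Θ
    rw [h2, h3] at h1
    exact h1 i n a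
  have hmin : 0 < min ρ δ := lt_min hρ hδ
  have hcΘ : ∀ j, ContinuousOn (fun z => Θ' z j) (ball 0 (min ρ δ)) := fun j =>
    ((differentiableOn_pi.mp hΘ'hol j).continuousOn).mono (ball_subset_ball (min_le_left _ _))
  have hct : ∀ n j, ContinuousOn (fun z => D.t (ln s w z) n j) (ball 0 (min ρ δ)) := fun n j =>
    (t_cont D h s w δ hinj n j).mono (ball_subset_ball (min_le_right _ _))
  have hev : ∀ᶠ z in 𝓝 (0 : ℂ), OnP D (ln s w z) (Θ' z) := by
    unfold OnP
    rw [Filter.eventually_all]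
    intro i
    rw [Filter.eventually_all]
    intro n
    rw [Filter.eventually_all]
    intro a
    refine Filter.Eventually.and ?_ ?_
    · exact Metric.eventually_nhds_iff_ball.mpr (on_near (D.b n) (fun z => D.t (ln s w z) n)
        (fun z => Θ' z (Sum.inl (⟨i, n, a⟩, 0))) (fun z => Θ' z (Sum.inl (⟨i, n, a⟩, 1)))
        (min ρ δ) hmin (hct n) (hcΘ _) (hcΘ _) (hon0 i n a).1 E hE
        fun z hz hzE => (honY z hz hzE i n a).1)
    · exact Metric.eventually_nhds_iff_ball.mpr (on_near (D.b n) (fun z => D.t (ln s w z) n)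
        (fun z => Θ' z (Sum.inl (⟨i, n, a⟩, 2))) (fun z => Θ' z (Sum.inl (⟨i, n, a⟩, 3)))
        (min ρ δ) hmin (hct n) (hcΘ _) (hcΘ _) (hon0 i n a).2 E hE
        fun z hz hzE => (honY z hz hzE i n a).2)
  obtain ⟨η, hη, hηon⟩ := Metric.eventually_nhds_iff_ball.mp hev
  refine ⟨min ρ η, lt_min hρ hη, (min_le_left _ _).trans hρε, Θ',
    hΘ'hol.mono (ball_subset_ball (min_le_left _ _)), hΘ'0, fun z hz => ?_, E, hE,
    fun z hz hzE => hτ' z (ball_subset_ball (min_le_left _ _) hz) hzE⟩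
  have hzρ : z ∈ ball (0 : ℂ) ρ := ball_subset_ball (min_le_left _ _) hz
  have hzη : z ∈ ball (0 : ℂ) η := ball_subset_ball (min_le_right _ _) hz
  exact ⟨hηon z hzη, haz z hzρ, hqz z hzρ⟩

end TNF.LG
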