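import Pool.Agent.Lib.TNF.LG.Spec

/-!
# PROJECT TNF, package LG, module Tw: the level groups are a tower
-/

set_option autoImplicit false

open HC HC.CC SEJ TATE Topology Metric

noncomputable section

namespace TNF.LG

namespace Tw_aux

variable {p N : ℕ}

theorem bl_mul {D : Dt p N} {q : ℕ} (A B : Matrix (Fin (rk D)) (Fin (rk D)) (ZMod q))
    (c d : ZMod q) : bl (D := D) A c * bl (D := D) B d = bl (D := D) (A * B) (c * d) := by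
  unfold bl
  rw [Matrix.fromBlocks_multiply]
  simp only [Matrix.mul_zero, Matrix.zero_mul, add_zero, zero_add]
  congr 1
  funext i j
  simp [Matrix.mul_apply]

theorem bl_one {D : Dt p N} {q : ℕ} : bl (D := D) (1 : Matrix _ _ (ZMod q)) 1 = 1 := by
  unfold bl
  rw [← Matrix.fromBlocks_one]
  congr 1

theorem bl_map {D : Dt p N} {q q' : ℕ} (A : Matrix (Fin (rk D)) (Fin (rk D)) (ZMod q'))
    (c : ZMod q') (f : ZMod q' →+* ZMod q) :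
    (bl (D := D) A c).map f = bl (D := D) (A.map f) (f c) := by
  unfold bl
  rw [Matrix.fromBlocks_map]
  congr 1
  · funext i j
    simp
  · funext i j
    simp

theorem refl_mem (D : Dt p N) (s : Fin p → ℂ) : RingEquiv.refl ℂ ∈ Gam D s :=
  ⟨fun _ => rfl, fun _ => rfl⟩

theorem trans_mem {D : Dt p N} {s : Fin p → ℂ} {σ τ : ℂ ≃+* ℂ} (hσ : σ ∈ Gam D s)
    (hτ : τ ∈ Gam D s) : σ.trans τ ∈ Gam D s := by
  refine ⟨fun i => ?_, fun n => ?_⟩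
  · rw [RingEquiv.trans_apply, hσ.1 i, hτ.1 i]
  · rw [RingEquiv.trans_apply, hσ.2 n, hτ.2 n]

theorem symm_mem {D : Dt p N} {s : Fin p → ℂ} {σ : ℂ ≃+* ℂ} (hσ : σ ∈ Gam D s) :
    σ.symm ∈ Gam D s :=
  ⟨fun i => by rw [RingEquiv.symm_apply_eq, hσ.1 i], fun n => by rw [RingEquiv.symm_apply_eq, hσ.2 n]⟩

theorem fix {D : Dt p N} {s : Fin p → ℂ} {σ : ℂ ≃+* ℂ} (hσ : σ ∈ Gam D s) :
    (fun i => σ (s i)) = s := funext fun i => hσ.1 i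

end Tw_aux

open Tw_aux

theorem tTw (hRg : S_Rg) (hCy : S_Cy) : S_Tw := by
  intro Λ p N D h s e ℓ hℓ hs he
  have hq : ∀ k : ℕ, ℓ ^ k ≠ 0 := fun k => pow_ne_zero k hℓ.ne_zero
  have hb : ∀ {σ : ℂ ≃+* ℂ}, σ ∈ Gam D s → IsBas Λ D h (fun i => σ (s i)) e := by
    intro σ hσ
    rw [fix hσ]
    exact he
  refine ⟨fun k => ?_, fun k => ?_, fun k => ?_, fun k j hkj => ?_⟩
  · obtain ⟨-, -, -, -, h5, -, -⟩ :=
      hRg Λ p N D h (RingEquiv.refl ℂ) s e e (ℓ ^ k) (hq k) hs (refl_mem D s).2 he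
        (hb (refl_mem D s))
    exact ⟨RingEquiv.refl ℂ, refl_mem D s, 1, 1, h5, (hCy (RingEquiv.refl ℂ) _ (hq k)).2.2.2.2.1,
      bl_one.symm⟩
  · rintro A ⟨σ, hσ, A₀, c, hA, hc, rfl⟩ B ⟨τ, hτ, B₀, d, hB, hd, rfl⟩
    obtain ⟨-, -, h3, -, -, -, -⟩ :=
      hRg Λ p N D h τ s e e (ℓ ^ k) (hq k) hs hτ.2 he (hb hτ)
    have hb' : IsBas Λ D h (fun i => σ (τ (s i))) e := by
      have : (fun i => σ (τ (s i))) = s := by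
        funext i
        rw [hτ.1 i, hσ.1 i]
      rw [this]
      exact he
    have hA' : RepG Λ D h σ (fun i => τ (s i)) e e (ℓ ^ k) A₀ := by
      rw [fix hτ]
      exact hA
    exact ⟨τ.trans σ, trans_mem hτ hσ, A₀ * B₀, c * d, h3 σ e hσ.2 hb' B₀ A₀ hB hA',
      (hCy τ _ (hq k)).2.2.1 σ d c hd hc, bl_mul A₀ B₀ c d⟩
  · rintro A ⟨σ, hσ, A₀, c, hA, hc, rfl⟩
    obtain ⟨-, -, -, h4, -, -, -⟩ :=
      hRg Λ p N D h σ s e e (ℓ ^ k) (hq k) hs hσ.2 he (hb hσ)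
    obtain ⟨B, hB, hAB, hBA⟩ := h4 A₀ hA
    obtain ⟨c', hc', hcc, hcc'⟩ := (hCy σ _ (hq k)).2.2.2.1 c hc
    rw [fix hσ] at hB
    refine ⟨bl B c', ⟨σ.symm, symm_mem hσ, B, c', hB, hc', rfl⟩, ?_, ?_⟩
    · rw [bl_mul, hAB, hcc, bl_one]
    · rw [bl_mul, hBA, hcc', bl_one]
  · have hred : ∀ σ ∈ Gam D s, ∀ (A : Matrix (Fin (rk D)) (Fin (rk D)) (ZMod (ℓ ^ j)))
        (c : ZMod (ℓ ^ j)), RepG Λ D h σ s e e (ℓ ^ j) A → Cyq σ (ℓ ^ j) c →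
        RepG Λ D h σ s e e (ℓ ^ k) (A.map (ZMod.castHom hkj (ZMod (ℓ ^ k)))) ∧
          Cyq σ (ℓ ^ k) (ZMod.castHom hkj (ZMod (ℓ ^ k)) c) := by
      intro σ hσ A c hA hc
      obtain ⟨-, -, -, -, -, -, h7⟩ :=
        hRg Λ p N D h σ s e e (ℓ ^ k) (hq k) hs hσ.2 he (hb hσ)
      exact ⟨h7 (ℓ ^ j) hkj (hq j) A hA, (hCy σ _ (hq k)).2.2.2.2.2.1 _ hkj (hq j) c hc⟩
    apply Set.Subset.antisymm
    · rintro _ ⟨A, ⟨σ, hσ, A₀, c, hA, hc, rfl⟩, rfl⟩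
      obtain ⟨h1, h2⟩ := hred σ hσ A₀ c hA hc
      exact ⟨σ, hσ, _, _, h1, h2, bl_map A₀ c _⟩
    · rintro _ ⟨σ, hσ, A₀, c, hA, hc, rfl⟩
      obtain ⟨⟨A₁, hA₁⟩, -⟩ :=
        hRg Λ p N D h σ s e e (ℓ ^ j) (hq j) hs hσ.2 he (hb hσ)
      obtain ⟨⟨c₁, hc₁⟩, -⟩ := hCy σ _ (hq j)
      obtain ⟨-, h2, -⟩ :=
        hRg Λ p N D h σ s e e (ℓ ^ k) (hq k) hs hσ.2 he (hb hσ)
      obtain ⟨-, h3, -⟩ := hCy σ _ (hq k)
      obtain ⟨h4, h5⟩ := hred σ hσ A₁ c₁ hA₁ hc₁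
      refine ⟨bl A₁ c₁, ⟨σ, hσ, A₁, c₁, hA₁, hc₁, rfl⟩, ?_⟩
      change (bl (D := D) A₁ c₁).map (ZMod.castHom hkj (ZMod (ℓ ^ k))) = _
      rw [bl_map, h2 _ _ h4 hA, h3 _ _ h5 hc]

end TNF.LG
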