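import Pool.Agent.Lib.TNF.LG.SpecD

/-!
# PROJECT TNF, LG: the upper level (note 4967, 2.4)
-/

set_option autoImplicit false

open Topology Metric HC HC.CC SEJ TATE

noncomputable section

namespace TNF.LG

namespace Up_aux

variable {p N : ℕ}

/-- The branch points of a factor are distinct. -/
theorem t_inj {D : Dt p N} (h : D.ok) {s : Fin p → ℂ} (hs : Function.Injective s)
    (n : Fin N) : Function.Injective (D.t s n) := by
  unfold Dt.t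
  cases D.k n with
  | none => exact hs.comp (h.inj n)
  | some l =>
    intro a c hac
    change (s (D.i n a) - s l)⁻¹ = (s (D.i n c) - s l)⁻¹ at hac
    exact h.inj n (hs (sub_left_inj.mp (inv_injective hac)))

/-- The transport from a point to itself is the identity. -/
theorem trn_self (Φ : FF) {D : Dt p N} (h : D.ok) {s : Fin p → ℂ} (hs : Function.Injective s)
    (v : D.V) : HS.trn Φ D h s s v = v := by
  funext n
  exact (Φ _ _ _ (h.cv n)).one (D.t s n) (t_inj h hs n) (v n)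

end Up_aux

theorem tUp : S_Bch → S_Bt → S_Gpt → S_Sgz → S_Yvs → S_Cmp → S_Rg → S_Cy → S_Up := by
  intro hBch hBt hGpt hSgz hYvs hCmp hRg hCy Λ Φ p N D h q k P R d Δ hq hHD s₀ hHil e he
  have hΔ : cf s₀ Δ ≠ 0 := hHil.1
  have hirr : IrrAt P s₀ := hHil.2 P (List.mem_singleton.2 rfl)
  have hs₀ : Function.Injective s₀ := (hHD.good s₀ hΔ).1
  obtain ⟨ε₁, hε₁, η, c, hB⟩ := hBch Λ Φ p N D h q k P R d Δ hq hHD s₀ hΔ e he
  obtain ⟨ε₂, hε₂, hT⟩ := hBt Λ Φ p N D h s₀ hs₀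
  refine ⟨min ε₁ ε₂, lt_min hε₁ hε₂, ?_⟩
  rintro s hs hsa B ⟨σ, hσ, A, c₀, hA, hc₀, rfl⟩
  have hs1 : s ∈ ball s₀ ε₁ := ball_subset_ball (min_le_left _ _) hs
  have hs2 : s ∈ ball s₀ ε₂ := ball_subset_ball (min_le_right _ _) hs
  have h0 : s₀ ∈ ball s₀ ε₁ := mem_ball_self hε₁
  have hsi : Function.Injective s := (hGpt p).2 s hsa
  have hbs := (hT s hs2).2.2.2.1 e he
  -- the root at `s` and its image under `σ`
  obtain ⟨x, hx, hxA⟩ := hHD.ex s hsa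
  obtain ⟨i₀, hi₀⟩ := (hB.rts s hs1 x).1 hx
  subst hi₀
  have hσs : (fun i => σ (s i)) = s := funext hσ.1
  obtain ⟨-, hY2, hY3⟩ := hYvs p N D k P R d s (η i₀ s) σ
  rw [hσs] at hY2 hY3
  obtain ⟨j, hj⟩ := (hB.rts s hs1 _).1 (hY2 hx)
  have hyj : ∀ l, σ (yv R d s (η i₀ s) l) = yv R d s (η j s) l := by
    intro l
    rw [hj]
    exact hY3 l
  have hazj : Az D (yv R d s (η j s)) := by
    intro n
    rw [← hyj, hxA n]
    exact hσ.2 n
  have haz0 := (hB.az i₀ s hs1).1 hxA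
  have hazj0 := (hB.az j s hs1).1 hazj
  -- the conjugation at `s₀`
  obtain ⟨σ₀, hσ₀, hσ₀x⟩ := hSgz p P s₀ hirr (η i₀ s₀) (η j s₀)
    ((hB.rts s₀ h0 _).2 ⟨i₀, rfl⟩) ((hB.rts s₀ h0 _).2 ⟨j, rfl⟩)
  have hσ₀s : (fun i => σ₀ (s₀ i)) = s₀ := funext hσ₀
  obtain ⟨-, -, hZ3⟩ := hYvs p N D k P R d s₀ (η i₀ s₀) σ₀
  rw [hσ₀s, hσ₀x] at hZ3
  have hΓ : σ₀ ∈ Gam D s₀ := by
    refine ⟨hσ₀, fun n => ?_⟩
    have h1 := hZ3 (Sum.inr (some n))
    rw [haz0 n, hazj0 n] at h1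
    exact h1
  obtain ⟨A₀, hA₀⟩ := (hRg Λ p N D h σ₀ s₀ e e q hq hs₀ hΓ.2 he (by rw [hσ₀s]; exact he)).1
  -- the two matrices
  obtain ⟨T, T', hTT', -, hTc⟩ := hB.cls i₀ haz0
  obtain ⟨T₂, -, -, -, hT₂c⟩ := hB.cls j hazj0
  have e1 : T₂ = A * T := by
    refine hCmp Λ p N D h q k s _ (yv R d s (η i₀ s)) σ T T₂ A hq hsi hbs hσ (hTc s hs1) ?_ hA
    rw [show (fun l => σ (yv R d s (η i₀ s) l)) = yv R d s (η j s) from funext hyj]
    exact hT₂c s hs1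
  have htr : (fun i => HS.trn Φ D h s₀ s₀ (e i)) = e :=
    funext fun i => Up_aux.trn_self Φ h hs₀ (e i)
  have e2 : T₂ = A₀ * T := by
    have t1 := hTc s₀ h0
    have t2 := hT₂c s₀ h0
    rw [htr] at t1 t2
    refine hCmp Λ p N D h q k s₀ e (yv R d s₀ (η i₀ s₀)) σ₀ T T₂ A₀ hq hs₀ he hΓ t1 ?_ hA₀
    rw [show (fun l => σ₀ (yv R d s₀ (η i₀ s₀) l)) = yv R d s₀ (η j s₀) from funext hZ3]
    exact t2
  have e3 : A = A₀ := by
    have h1 : A * T = A₀ * T := e1.symm.trans e2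
    calc A = A * (T * T') := by rw [hTT', mul_one]
      _ = A * T * T' := (mul_assoc _ _ _).symm
      _ = A₀ * T * T' := by rw [h1]
      _ = A₀ := by rw [mul_assoc, hTT', mul_one]
  -- the cyclotomic character
  obtain ⟨c₁, hc₁⟩ := (hCy σ₀ q hq).1
  have hprim := (hB.cst i₀ s₀ h0).2
  have hcc : σ₀ (c i₀) = σ (c i₀) := by
    have a1 := hyj (Sum.inr none)
    rw [(hB.cst i₀ s hs1).1, (hB.cst j s hs1).1] at a1
    have a2 := hZ3 (Sum.inr none)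
    rw [(hB.cst i₀ s₀ h0).1, (hB.cst j s₀ h0).1] at a2
    rw [a1, a2]
  have e4 : c₁ = c₀ := by
    refine (hCy σ₀ q hq).2.2.2.2.2.2 (c i₀) c₁ c₀ hprim hc₁ ?_
    rw [hcc]
    exact hc₀ _ hprim.pow_eq_one
  refine ⟨σ₀, hΓ, A₀, c₁, hA₀, hc₁, ?_⟩
  rw [e3, e4]

end TNF.LG
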