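import Pool.Agent.Lib.TNF.LG.Spec

/-!
# PROJECT TNF, package LG: the action is well defined; composition, inverse, total
-/

set_option autoImplicit false

open HC HC.CC SEJ TATE Topology Metric

noncomputable section

namespace TNF.LG

namespace Wd_aux

variable {m r : ℕ} {b : Fin (r + 1) → ℕ}

/-- A basis of values of the forms. -/
lemma base (hOm : TO.S_Om) (t : Fin (r + 1) → ℂ) (hb : Cvb m b) (ht : Function.Injective t) :
    ∃ P : Fin (Fintype.card (Ix m b)) → ℂ × ℂ, TO.Ind m b t P := by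
  classical
  have hs := hOm m r b t hb ht Set.univ Set.infinite_univ
  obtain ⟨B, hBs, hBspan, hBli⟩ := exists_linearIndependent ℂ
    {v | ∃ P ∈ Pts m b t, P.1 ∈ (Set.univ : Set ℂ) ∧ v = om m b t P}
  rw [hs] at hBspan
  let bas : Module.Basis B ℂ (Ix m b → ℂ) := Module.Basis.mk hBli (by
    rw [Subtype.range_coe, hBspan])
  have : Fintype B := FiniteDimensional.fintypeBasisIndex bas
  have hcard : Fintype.card B = Fintype.card (Ix m b) := by
    rw [← Module.finrank_eq_card_basis bas, Module.finrank_fintype_fun_eq_card]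
  let e : B ≃ Fin (Fintype.card (Ix m b)) := Fintype.equivFinOfCardEq hcard
  choose P hP1 _ hP3 using fun v : B => hBs v.2
  refine ⟨fun a => P (e.symm a), ⟨fun a => hP1 _, ?_⟩⟩
  have h2 : (fun a => om m b t (P (e.symm a))) = (fun v : B => (v : Ix m b → ℂ)) ∘ e.symm := by
    funext a
    exact (hP3 (e.symm a)).symm
  rw [h2]
  exact hBli.comp e.symm e.symm.injective

/-- Every vector is a multiple of a sum of integrals. -/
lemma exact_sum (hOm : TO.S_Om) (hInv : TO.S_Inv) (t : Fin (r + 1) → ℂ) (hb : Cvb m b)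
    (ht : Function.Injective t) (v : Ix m b → ℂ) :
    ∃ (n : ℤ) (k : ℕ) (P Q : Fin k → ℂ × ℂ) (w : Fin k → (Ix m b → ℂ)),
      (∀ a, Itg m b t (P a) (Q a) (w a)) ∧ v = n • ∑ a, w a := by
  obtain ⟨P, hP⟩ := base hOm t hb ht
  obtain ⟨n, Q, w, -, -, hw, hv⟩ := (hInv m r b t hb ht P hP).1 v
  exact ⟨n, _, P, Q, w, hw, by rw [natCast_zsmul, hv]⟩

/-- The image of a point of the curve. -/
lemma pts_map (t : Fin (r + 1) → ℂ) (τ : ℂ ≃+* ℂ) {P : ℂ × ℂ} (hP : P ∈ Pts m b t) :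
    (τ P.1, τ P.2) ∈ Pts m b fun j => τ (t j) := by
  refine ⟨?_, ?_⟩
  · rintro ⟨j, hj⟩
    exact hP.1 ⟨j, τ.injective hj⟩
  · have h := congrArg τ hP.2
    rw [map_pow, map_prod] at h
    simpa only [map_pow, map_sub] using h

/-- The integrals between the images exist. -/
lemma itg_map (hFA : StmtFA2) (hb : Cvb m b) (t : Fin (r + 1) → ℂ) (ht : Function.Injective t)
    (τ : ℂ ≃+* ℂ) (k : ℕ) (P Q : Fin k → ℂ × ℂ) (w : Fin k → (Ix m b → ℂ))
    (hw : ∀ a, Itg m b t (P a) (Q a) (w a)) : ∃ w' : Fin k → (Ix m b → ℂ),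
      ∀ a, Itg m b (fun j => τ (t j)) (τ (P a).1, τ (P a).2) (τ (Q a).1, τ (Q a).2) (w' a) := by
  have ht' : Function.Injective fun j => τ (t j) := τ.injective.comp ht
  have h1 : ∀ a, ∃ w', Itg m b (fun j => τ (t j)) (τ (P a).1, τ (P a).2)
      (τ (Q a).1, τ (Q a).2) w' := by
    intro a
    obtain ⟨h2, h3, -⟩ := (hFA m r b hb).2.2.1 t ht _ _ _ (hw a)
    exact (hFA m r b hb).1 _ ht' _ (pts_map t τ h2) _ (pts_map t τ h3)
  choose w' hw' using h1
  exact ⟨w', hw'⟩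

/-- The sum of two elements of the lattice. -/
lemma lp_add (Λ : LPD m b) {t : Fin (r + 1) → ℂ} (ht : Function.Injective t)
    {u v : Ix m b → ℂ} (hu : u ∈ Λ.L t) (hv : v ∈ Λ.L t) : u + v ∈ Λ.L t := by
  have h := Λ.sub t ht u hu _ (Λ.sub t ht 0 (Λ.zero t ht) v hv)
  rwa [zero_sub, sub_neg_eq_add] at h

/-- (2). -/
lemma two (Λ : LPD m b) (σ : ℂ ≃+* ℂ) (t : Fin (r + 1) → ℂ) (ht : Function.Injective t)
    (hσ : σ (ze m 1) = ze m 1) (v v' : Ix m b → ℂ) (h : Act Λ σ t v v') (hv : v ∈ Λ.L t) :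
    v' ∈ Λ.L fun j => σ (t j) := by
  have ht' : Function.Injective fun j => σ (t j) := σ.injective.comp ht
  obtain ⟨k, Q', Q, w, w', h1, h2, h3, h4⟩ := h
  have h5 : ∑ a, w a ∈ Λ.L t := by
    have := lp_add Λ ht h3 hv
    rwa [sub_add_cancel] at this
  have h6 := Λ.aut σ hσ t ht k Q' Q w w' h1 h2 h5
  have h7 := Λ.sub _ ht' _ h6 _ h4
  rwa [sub_sub_cancel] at h7

end Wd_aux

open Wd_aux

theorem tWd : StmtFA2 → S_Ad → TO.S_Om → TO.S_Inv → S_Wd := by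
  intro hFA hAd hOm hInv m r b Λ σ t hb ht hσ
  have one : ∀ (σ : ℂ ≃+* ℂ) (t : Fin (r + 1) → ℂ), Function.Injective t → σ (ze m 1) = ze m 1 →
      ∀ v v' v'' : Ix m b → ℂ, Act Λ σ t v v' → Act Λ σ t v v'' →
      v' - v'' ∈ Λ.L fun j => σ (t j) := by
    intro σ t ht hσ v v' v'' h1 h2
    obtain ⟨-, hadd, hneg, -, -⟩ := hAd m r b Λ σ t hb ht
    have h3 := hadd _ _ _ _ h1 (hneg _ _ h2)
    have h4 := two Λ σ t ht hσ _ _ h3 (by rw [add_neg_cancel]; exact Λ.zero t ht)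
    rwa [← sub_eq_add_neg] at h4
  have ht' : Function.Injective fun j => σ (t j) := σ.injective.comp ht
  refine ⟨one σ t ht hσ, two Λ σ t ht hσ, ?_, ?_, ?_, ?_⟩
  · intro τ hτ v v' v'' h1 h2
    obtain ⟨k, Q', Q, w, w', g1, g2, g3, g4⟩ := h1
    obtain ⟨w'', g5⟩ := itg_map hFA hb _ ht' τ k _ _ w' g2
    have ht'' : Function.Injective fun j => τ (σ (t j)) := τ.injective.comp ht'
    refine ⟨k, Q', Q, w, w'', g1, g5, g3, ?_⟩
    obtain ⟨-, -, -, hlat, -⟩ := hAd m r b Λ τ (fun j => σ (t j)) hb ht'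
    have h3 : Act Λ τ (fun j => σ (t j)) (∑ a, w' a) v'' :=
      hlat _ _ _ _ h2 g4 (by rw [sub_self]; exact Λ.zero _ ht'')
    have h4 : Act Λ τ (fun j => σ (t j)) (∑ a, w' a) (∑ a, w'' a) :=
      ⟨k, _, _, w', w'', g2, g5, by rw [sub_self]; exact Λ.zero _ ht',
        by rw [sub_self]; exact Λ.zero _ ht''⟩
    exact one τ _ ht' hτ _ _ _ h4 h3
  · rintro v v' ⟨k, Q', Q, w, w', g1, g2, g3, g4⟩
    have e1 : (fun j => σ.symm (σ (t j))) = t := funext fun j => σ.symm_apply_apply _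
    refine ⟨k, fun a => (σ (Q' a).1, σ (Q' a).2), fun a => (σ (Q a).1, σ (Q a).2), w', w, g2, ?_,
      g4, ?_⟩
    · intro a
      simp only [RingEquiv.symm_apply_apply]
      exact g1 a
    · simp only [e1]
      exact g3
  · intro v
    obtain ⟨n, k, P, Q, w, hw, rfl⟩ := exact_sum hOm hInv t hb ht v
    obtain ⟨w', hw'⟩ := itg_map hFA hb t ht σ k P Q w hw
    refine ⟨n • ∑ a, w' a, (hAd m r b Λ σ t hb ht).2.2.2.2 n _ _ ⟨k, P, Q, w, w', hw, hw', ?_, ?_⟩⟩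
    · rw [sub_self]; exact Λ.zero _ ht
    · rw [sub_self]; exact Λ.zero _ ht'
  · intro v
    obtain ⟨n, k, P, Q, w, hw, rfl⟩ := exact_sum hOm hInv t hb ht v
    refine (hAd m r b Λ (RingEquiv.refl ℂ) t hb ht).2.2.2.2 n _ _
      ⟨k, P, Q, w, w, hw, hw, ?_, ?_⟩
    · rw [sub_self]; exact Λ.zero _ ht
    · rw [sub_self]; exact Λ.zero _ ht

end TNF.LG
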