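import Pool.Agent.Lib.TNF.LG.SpecE

/-!
# TNF, LG, module Yb: the branch of the curve with parameters
-/

set_option autoImplicit false

open HC HC.CC SEJ TATE Topology Metric

noncomputable section

namespace TNF.LG

namespace Yb_aux

/-- injectivity is an open condition. -/
lemma inj_open {n : ℕ} (t₀ : Fin n → ℂ) (h : Function.Injective t₀) :
    ∀ᶠ t in 𝓝 t₀, Function.Injective t := by
  have h1 : ∀ i j : Fin n, i ≠ j → ∀ᶠ t in 𝓝 t₀, t i ≠ t j := by
    intro i j hij
    have hc : ContinuousAt (fun t : Fin n → ℂ => t i - t j) t₀ :=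
      ((continuous_apply i).sub (continuous_apply j)).continuousAt
    have hne : t₀ i - t₀ j ≠ 0 := sub_ne_zero.2 fun e => hij (h e)
    filter_upwards [hc.eventually_ne hne] with t ht
    exact fun e => ht (sub_eq_zero.2 e)
  have h2 : ∀ᶠ t in 𝓝 t₀, ∀ i j : Fin n, i ≠ j → t i ≠ t j := by
    rw [Filter.eventually_all]
    intro i
    rw [Filter.eventually_all]
    intro j
    by_cases hij : i = j
    · exact Filter.Eventually.of_forall fun t h' => absurd hij h'
    · filter_upwards [h1 i j hij] with t ht _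
      exact ht
  filter_upwards [h2] with t ht i j hij
  by_contra hne
  exact ht i j hne hij

end Yb_aux

theorem tYb : S_Yb := by
  intro m r b t₀ hC hinj P hP
  obtain ⟨hP1, hP2⟩ := hP
  have hm : 3 ≤ m := hC.1
  have hm0 : m ≠ 0 := by omega
  set f : (Fin (r + 1) → ℂ) × ℂ → ℂ := fun x => ∏ j, (x.2 - x.1 j) ^ b j with hf
  have hfd : Differentiable ℂ f := by
    have hfun : ∀ j : Fin (r + 1), Differentiable ℂ
        fun x : (Fin (r + 1) → ℂ) × ℂ => (x.2 - x.1 j) ^ b j := by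
      intro j
      have h1 : Differentiable ℂ fun x : (Fin (r + 1) → ℂ) × ℂ => x.2 := differentiable_snd
      have h2 : Differentiable ℂ fun x : (Fin (r + 1) → ℂ) × ℂ => x.1 j :=
        fun y => (differentiableAt_pi.1 differentiableAt_fst) j
      exact (h1.sub h2).pow _
    rw [hf]
    intro x
    exact (HasFDerivAt.finsetProd (u := Finset.univ)
      (g := fun (j : Fin (r + 1)) (x : (Fin (r + 1) → ℂ) × ℂ) => (x.2 - x.1 j) ^ b j)
      fun j _ => (hfun j x).hasFDerivAt).differentiableAt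
  have hf0 : f (t₀, P.1) ≠ 0 := by
    rw [hf]
    refine Finset.prod_ne_zero_iff.2 fun j _ => pow_ne_zero _ ?_
    exact sub_ne_zero.2 fun e => hP1 ⟨j, e.symm⟩
  have hPf : P.2 ^ m = f (t₀, P.1) := hP2
  have hE1 : ∀ᶠ x in 𝓝 ((t₀, P.1) : (Fin (r + 1) → ℂ) × ℂ), Function.Injective x.1 := by
    have := Yb_aux.inj_open t₀ hinj
    exact (continuous_fst.tendsto ((t₀, P.1) : (Fin (r + 1) → ℂ) × ℂ)).eventually this
  have hE2 : ∀ᶠ x in 𝓝 ((t₀, P.1) : (Fin (r + 1) → ℂ) × ℂ), x.2 ∉ Set.range x.1 := by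
    have : ∀ᶠ x in 𝓝 ((t₀, P.1) : (Fin (r + 1) → ℂ) × ℂ), ∀ j, x.2 - x.1 j ≠ 0 := by
      rw [Filter.eventually_all]
      intro j
      have hc : ContinuousAt (fun x : (Fin (r + 1) → ℂ) × ℂ => x.2 - x.1 j) (t₀, P.1) :=
        (continuous_snd.sub ((continuous_apply j).comp continuous_fst)).continuousAt
      exact hc.eventually_ne (sub_ne_zero.2 fun e => hP1 ⟨j, e.symm⟩)
    filter_upwards [this] with x hx
    rintro ⟨j, hj⟩
    exact hx j (sub_eq_zero.2 hj.symm)
  have hE3 : ∀ᶠ x in 𝓝 ((t₀, P.1) : (Fin (r + 1) → ℂ) × ℂ),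
      f x / f (t₀, P.1) ∈ Complex.slitPlane := by
    have hc : ContinuousAt (fun x : (Fin (r + 1) → ℂ) × ℂ => f x / f (t₀, P.1)) (t₀, P.1) :=
      (hfd.continuous.div_const _).continuousAt
    have h1 : f (t₀, P.1) / f (t₀, P.1) ∈ Complex.slitPlane := by
      rw [div_self hf0]
      exact Complex.one_mem_slitPlane
    exact hc.preimage_mem_nhds (Complex.isOpen_slitPlane.mem_nhds h1)
  obtain ⟨ε, hε, hb⟩ := Metric.eventually_nhds_iff_ball.1 (hE1.and (hE2.and hE3))
  refine ⟨ε, hε, fun x => P.2 * (f x / f (t₀, P.1)) ^ ((m : ℂ)⁻¹), ?_, ?_, ?_⟩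
  · intro x hx
    refine DifferentiableAt.differentiableWithinAt ?_
    refine (differentiableAt_const _).mul ?_
    have hq : DifferentiableAt ℂ (fun x => f x / f (t₀, P.1)) x := by
      simp only [div_eq_mul_inv]
      exact (hfd x).mul_const _
    exact hq.cpow (differentiableAt_const _) (hb x hx).2.2
  · show P.2 * (f (t₀, P.1) / f (t₀, P.1)) ^ ((m : ℂ)⁻¹) = P.2
    rw [div_self hf0, Complex.one_cpow, mul_one]
  · intro x hx
    refine ⟨(hb x hx).1, (hb x hx).2.1, ?_⟩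
    show (P.2 * (f x / f (t₀, P.1)) ^ ((m : ℂ)⁻¹)) ^ m = ∏ j, (x.2 - x.1 j) ^ b j
    rw [mul_pow, Complex.cpow_nat_inv_pow _ hm0, hPf, mul_div_cancel₀ _ hf0]

end TNF.LG
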