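import Pool.Agent.Lib.TNF.LG.Cnj

/-!
# TNF/LG/Yvs (helper64): conjugation of the tuples
-/

set_option autoImplicit false

open HC HC.CC SEJ TATE Topology Metric

noncomputable section

namespace TNF.LG

open Cnj_aux in
theorem tYvs : S_Yvs := by
  intro p N D k P R d s x σ
  have h : ∀ i, σ (s i) = (fun i => σ (s i)) i := fun _ => rfl
  refine ⟨fun a => scf σ h a, fun hx => ?_, fun j => ?_⟩
  · rw [PS_eval, ← sev σ h, ← PS_eval, hx, map_zero]
  · unfold yv
    rw [map_div₀, PS_eval, PS_eval, sev σ h, scf σ h]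

end TNF.LG
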