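import Pool.Agent.Lib.TATE.All
import Pool.Agent.Lib.TNF.CV.All
import Pool.Agent.Lib.TNF.FR.FR
import Pool.Agent.Lib.TNF.LG.Ad
import Pool.Agent.Lib.TNF.LG.Wd
import Pool.Agent.Lib.TNF.LG.AdD
import Pool.Agent.Lib.TNF.LG.Bs
import Pool.Agent.Lib.TNF.LG.Bd
import Pool.Agent.Lib.TNF.LG.Bt
import Pool.Agent.Lib.TNF.LG.Cy
import Pool.Agent.Lib.TNF.LG.Tw
import Pool.Agent.Lib.TNF.LG.Gz
import Pool.Agent.Lib.TNF.LG.Gn
import Pool.Agent.Lib.TNF.LG.Rg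
import Pool.Agent.Lib.TNF.LG.Fl
import Pool.Agent.Lib.TNF.LG.Eqc
import Pool.Agent.Lib.TNF.LG.Ra
import Pool.Agent.Lib.TNF.LG.Ta
import Pool.Agent.Lib.TNF.LG.Yb
import Pool.Agent.Lib.TNF.LG.Dfa
import Pool.Agent.Lib.TNF.LG.Dfb
import Pool.Agent.Lib.TNF.LG.Df
import Pool.Agent.Lib.TNF.LG.Lin
import Pool.Agent.Lib.TNF.LG.Th
import Pool.Agent.Lib.TNF.LG.Lo1
import Pool.Agent.Lib.TNF.LG.Lo
import Pool.Agent.Lib.TNF.LG.Eq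
import Pool.Agent.Lib.TNF.LG.Kul
import Pool.Agent.Lib.TNF.LG.Ltr
import Pool.Agent.Lib.TNF.LG.Sh
import Pool.Agent.Lib.TNF.LG.Cjl
import Pool.Agent.Lib.TNF.LG.Rot
import Pool.Agent.Lib.TNF.LG.Lp
import Pool.Agent.Lib.TNF.LG.Fin
import Pool.Agent.Lib.TNF.LG.Pac
import Pool.Agent.Lib.TNF.LG.Iri
import Pool.Agent.Lib.TNF.LG.Nvf
import Pool.Agent.Lib.TNF.LG.Dat
import Pool.Agent.Lib.TNF.LG.Pnp
import Pool.Agent.Lib.TNF.LG.Onp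
import Pool.Agent.Lib.TNF.LG.Rzc
import Pool.Agent.Lib.TNF.LG.Exz
import Pool.Agent.Lib.TNF.LG.Cnj
import Pool.Agent.Lib.TNF.LG.Bsx
import Pool.Agent.Lib.TNF.LG.Gpt
import Pool.Agent.Lib.TNF.LG.Hs
import Pool.Agent.Lib.TNF.LG.Cst
import Pool.Agent.Lib.TNF.LG.Sgz
import Pool.Agent.Lib.TNF.LG.Yvs
import Pool.Agent.Lib.TNF.LG.Bch
import Pool.Agent.Lib.TNF.LG.Cmp
import Pool.Agent.Lib.TNF.LG.Up

/-!
# PROJECT TNF, LG: all modules (helper64)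
-/

set_option autoImplicit false

noncomputable section

namespace TNF.LG

open TATE

theorem aAd : S_Ad := tAd tFA2

theorem aInv : TO.S_Inv := TO.tInv TO.tBr

theorem aWd : S_Wd := tWd tFA2 aAd TO.tOm aInv

theorem aAdD : S_AdD := tAdD aAd aWd aAv

theorem aBs (hTP : StmtTP) : S_Bs := tBs hTP aAv

theorem aBd : S_Bd := tBd aAv

theorem aBt : S_Bt := tBt aAv

theorem aRg : S_Rg := tRg aAdD aBd

theorem aTw : S_Tw := tTw aRg tCy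

theorem aGn : S_Gn := tGn tGz aRg tCy

theorem aFl (hTP : StmtTP) : S_Fl := tFl tFA2 (aBs hTP) aBd aBt

theorem aEqc : S_Eqc := tEqc tFA2 aAdD

theorem aRa (hTP : StmtTP) : S_Ra := tRa hTP GA.cGA1 (TO.tCnt aInv) TO.tEqv

theorem aTa (hTP : StmtTP) : S_Ta := tTa (aRa hTP) TO.tOm aInv

theorem aDf : S_Df := tDf (tDfa tFA2 tYb) tDfb

theorem aLin (hTP : StmtTP) : S_Lin := tLin (aRa hTP) (aTa hTP) aDf aBt aAv

theorem aTh : S_Th := tTh CV.cCV aEqc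

theorem aLo1 (hTP : StmtTP) : S_Lo1 := tLo1 aTh (aFl hTP) aEqc aAdD aRg tCy aBt aBd

theorem aLo (hTP : StmtTP) : S_Lo := tLo (aLin hTP) (aLo1 hTP) CV.cCVE aEqc tCy

theorem aDat : S_Dat := tDat tIri (tNvf tIri)

theorem aCnj : S_Cnj := tCnj tGz

theorem aHs (hTP : StmtTP) : S_Hs :=
  tHs tFA2 tGpt (aBs hTP) (tPac (aTa hTP)) aDat (tOnp tPnp) tRzc (tExz tGz)
    (tBsx aCnj aEqc aRg)

theorem aUp (hTP : StmtTP) : S_Up :=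
  tUp (tBch tCst (aFl hTP) aBt aBd aEqc tGpt) aBt tGpt tSgz tYvs (tCmp aEqc aAdD aBd aRg) aRg tCy

theorem aEq (hTP : StmtTP) : S_Eq :=
  tEq (aHs hTP) (aUp hTP) (aLo hTP) aGn aTw (aBs hTP) aBt FR.tFR CV.cCVG CV.cCVL GA.cGA4

theorem aLtr : S_Ltr := tLtr tFL PA.cPA1

theorem aLp (hTP : StmtTP) : S_Lp :=
  tLp aMG PA.cPA2 tFL tKul tSh tCjl tRot (aTa hTP) tCy aBt aBd

/-- **LG**. -/
theorem cLG (hTP : StmtTP) : StmtLG :=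
  tFin (aEq hTP) (aLp hTP) (aBs hTP) aBd aLtr aAdD aRg CV.cCVG

end TNF.LG
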