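import Pool.Agent.Lib.TNF.LG.Spec
import Pool.Agent.Lib.TATE.GA.Sg

/-!
# PROJECT TNF, package LG: tuples of coordinates, Hilbert data (helper64)

A tuple `y : Jx D k → ℂ` contains the coordinates of divisors, one for every `(i, n)`, `i : Fin (rk D)`, `n : Fin N` (`k i n` pairs of
points), the roots of unity `exp (2 π i / m n)` (index `inr (some n)`) and a primitive `q`-th root of unity (index `inr none`).
-/

set_option autoImplicit false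

open Topology Metric HC HC.CC SEJ TATE

noncomputable section

namespace TNF.LG

section dt

variable {p N : ℕ}

/-- The index set of the coordinates. -/
abbrev Jx (D : Dt p N) (k : Fin (rk D) → Fin N → ℕ) : Type :=
  ((Σ i : Fin (rk D), Σ n : Fin N, Fin (k i n)) × Fin 4) ⊕ Option (Fin N)

variable {D : Dt p N} {k : Fin (rk D) → Fin N → ℕ}

/-- The initial point of the integral `a` of the divisor `(i, n)`. -/
def src (y : Jx D k → ℂ) (i : Fin (rk D)) (n : Fin N) (a : Fin (k i n)) : ℂ × ℂ :=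
  (y (Sum.inl (⟨i, n, a⟩, 0)), y (Sum.inl (⟨i, n, a⟩, 1)))

/-- The end point of the integral `a` of the divisor `(i, n)`. -/
def tgt (y : Jx D k → ℂ) (i : Fin (rk D)) (n : Fin N) (a : Fin (k i n)) : ℂ × ℂ :=
  (y (Sum.inl (⟨i, n, a⟩, 2)), y (Sum.inl (⟨i, n, a⟩, 3)))

/-- All points are on the curves. -/
def OnP (D : Dt p N) {k : Fin (rk D) → Fin N → ℕ} (s : Fin p → ℂ) (y : Jx D k → ℂ) : Prop :=
  ∀ i n a, src y i n a ∈ Pts (D.m n) (D.b n) (D.t s n) ∧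
    tgt y i n a ∈ Pts (D.m n) (D.b n) (D.t s n)

/-- `v` represents the class of the divisor `i` of the tuple `y` at `s`. -/
def Cls (Λ : LL) (D : Dt p N) (h : D.ok) {k : Fin (rk D) → Fin N → ℕ} (s : Fin p → ℂ)
    (y : Jx D k → ℂ) (i : Fin (rk D)) (v : D.V) : Prop :=
  ∀ n, ∃ w : Fin (k i n) → (Ix (D.m n) (D.b n) → ℂ),
    (∀ a, Itg (D.m n) (D.b n) (D.t s n) (src y i n a) (tgt y i n a) (w a)) ∧
    ∑ a, w a - v n ∈ (Λ _ _ _ (h.cv n)).L (D.t s n)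

/-- The components of `y` for the roots of unity are right. -/
def Az (D : Dt p N) {k : Fin (rk D) → Fin N → ℕ} (y : Jx D k → ℂ) : Prop :=
  ∀ n, y (Sum.inr (some n)) = ze (D.m n) 1

/-- The tuple of the root `x` of `P (s, X)`. -/
def yv (R : Jx D k → Polynomial (QS p)) (d : QS p) (s : Fin p → ℂ) (x : ℂ) : Jx D k → ℂ :=
  fun j => (PS (R j) s).eval x / cf s d

/-- **HILBERT DATA** at the level `q`. -/
structure HD (Λ : LL) (D : Dt p N) (h : D.ok) (q : ℕ) (k : Fin (rk D) → Fin N → ℕ)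
    (P : Polynomial (QS p)) (R : Jx D k → Polynomial (QS p)) (d Δ : QS p) : Prop where
  irr : IrrG P
  deg : 0 < P.natDegree
  ne : Δ ≠ 0
  good : ∀ s, cf s Δ ≠ 0 → Function.Injective s ∧ GoodAt P s ∧ cf s d ≠ 0
  on : ∀ s, cf s Δ ≠ 0 → ∀ x, (PS P s).eval x = 0 → OnP D s (yv R d s x)
  rz : ∀ s, cf s Δ ≠ 0 → ∀ x, (PS P s).eval x = 0 → ∀ n,
    yv R d s x (Sum.inr (some n)) ^ D.m n = 1
  rc : ∀ s, cf s Δ ≠ 0 → ∀ x, (PS P s).eval x = 0 → IsPrimitiveRoot (yv R d s x (Sum.inr none)) q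
  ex : ∀ s, AlgebraicIndependent ℚ s → ∃ x, (PS P s).eval x = 0 ∧ Az D (yv R d s x)
  bas : ∀ s, AlgebraicIndependent ℚ s → ∀ x, (PS P s).eval x = 0 → Az D (yv R d s x) →
    ∀ e, IsBas Λ D h s e → ∃ T T' : Matrix (Fin (rk D)) (Fin (rk D)) (ZMod q),
      T * T' = 1 ∧ T' * T = 1 ∧ ∀ i, Cls Λ D h s (yv R d s x) i (vq D q T e i)

end dt

/-- **Hs**: HILBERT DATA EXIST (note 4967, 2.3; helper59 writes the modules). -/
def S_Hs : Prop :=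
  ∀ (Λ : LL) (p N : ℕ) (D : Dt p N) (h : D.ok) (q : ℕ), q ≠ 0 →
    ∃ (k : Fin (rk D) → Fin N → ℕ) (P : Polynomial (QS p)) (R : Jx D k → Polynomial (QS p))
      (d Δ : QS p), HD Λ D h q k P R d Δ

/-- **Fl**: THE CLASS OF A DIVISOR WHICH IS TORSION ON A DENSE SET IS FLAT. From StmtFA2, S_Bd, S_Bt, S_AdD. PROOF. The fifth clause of `StmtFA2` for every integral
(`i`, `n`, `a`): on a smaller ball there are continuous `w_a(ξ)`; `v ξ = (∑ w_a)_n` is continuous and `Cls … (v ξ)`. For `ξ ∈ G`: `q • v ξ ∈ L (s ξ)` (the class is unique modulo the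
lattice). `u ξ = (trn s₀ (s ξ))⁻¹ (q • v ξ)` is continuous (`S_Bt`), in the closed set `L (s₀)` for `ξ ∈ G`, so for all `ξ` of the ball; it is constant because the lattice is discrete (the ball is
connected). `l = u ξ₀`. -/
def S_Fl : Prop :=
  ∀ (Λ : LL) (Φ : FF) (p N : ℕ) (D : Dt p N) (h : D.ok) (q : ℕ) (k : Fin (rk D) → Fin N → ℕ)
    (f : ℕ) (ξ₀ : Fin f → ℂ) (ε : ℝ) (s : (Fin f → ℂ) → (Fin p → ℂ))
    (y : (Fin f → ℂ) → (Jx D k → ℂ)) (G : Set (Fin f → ℂ)) (i : Fin (rk D)), q ≠ 0 → 0 < ε →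
    Function.Injective (s ξ₀) → DifferentiableOn ℂ s (ball ξ₀ ε) →
    DifferentiableOn ℂ y (ball ξ₀ ε) → (∀ ξ ∈ ball ξ₀ ε, OnP D (s ξ) (y ξ)) →
    ball ξ₀ ε ⊆ closure G →
    (∀ ξ ∈ G ∩ ball ξ₀ ε, ∃ v, (q : ℂ) • v ∈ LPs Λ D h (s ξ) ∧ Cls Λ D h (s ξ) (y ξ) i v) →
    ∃ ε' > 0, ε' ≤ ε ∧ ∃ l ∈ LPs Λ D h (s ξ₀), ∀ ξ ∈ ball ξ₀ ε',
      Cls Λ D h (s ξ) (y ξ) i ((q : ℂ)⁻¹ • HS.trn Φ D h (s ξ₀) (s ξ) l)

/-- **Up**: THE UPPER LEVEL (note 4967, 2.4; helper59 writes the modules). -/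
def S_Up : Prop :=
  ∀ (Λ : LL) (Φ : FF) (p N : ℕ) (D : Dt p N) (h : D.ok) (q : ℕ) (k : Fin (rk D) → Fin N → ℕ)
    (P : Polynomial (QS p)) (R : Jx D k → Polynomial (QS p)) (d Δ : QS p), q ≠ 0 →
    HD Λ D h q k P R d Δ → ∀ s₀ : Fin p → ℂ, Hil [P] Δ s₀ → ∀ e, IsBas Λ D h s₀ e →
    ∃ ε > 0, ∀ s ∈ ball s₀ ε, AlgebraicIndependent ℚ s →
      Sk Λ D h s (fun i => HS.trn Φ D h s₀ s (e i)) q ⊆ Sk Λ D h s₀ e q

end TNF.LG
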