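import Pool.Agent.Lib.TNF.LG.SpecE

/-!
# TNF, LG, module Eq: equality of the level groups
-/

set_option autoImplicit false

open HC HC.CC SEJ TATE Topology Metric

noncomputable section

namespace TNF.LG

namespace Eq_aux

/-- a ball is not contained in a countable set. -/
lemma pick {Y : Set ℂ} (hY : Y.Countable) {r : ℝ} (hr : 0 < r) : ∃ z ∈ ball (0 : ℂ) r, z ∉ Y := by
  obtain ⟨z, hz1, hz2⟩ := (hY.dense_compl ℂ).inter_open_nonempty (ball (0 : ℂ) r) isOpen_ball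
    ⟨0, mem_ball_self hr⟩
  exact ⟨z, hz1, hz2⟩

/-- the line is in a given ball near `0`. -/
lemma near {p : ℕ} (s w : Fin p → ℂ) {ε : ℝ} (hε : 0 < ε) :
    ∃ r > 0, ∀ z ∈ ball (0 : ℂ) r, ln s w z ∈ ball s ε := by
  have h1 : ∀ᶠ z in 𝓝 (0 : ℂ), ln s w z ∈ ball s ε := by
    refine (continuous_ln s w).continuousAt.eventually ?_
    rw [ln_zero]
    exact ball_mem_nhds s hε
  obtain ⟨r, hr, h2⟩ := Metric.eventually_nhds_iff_ball.1 h1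
  exact ⟨r, hr, h2⟩

/-- algebraically independent points exist. -/
lemma exi (hG : StmtGA4) (p : ℕ) : ∃ s : Fin p → ℂ, AlgebraicIndependent ℚ s := by
  by_contra hne
  push Not at hne
  have h1 : {s : Fin p → ℂ | ¬ AlgebraicIndependent ℚ s} = Set.univ :=
    Set.eq_univ_of_forall hne
  have h2 := hG p
  rw [h1] at h2
  exact not_isMeagre_of_isOpen isOpen_univ Set.univ_nonempty h2

end Eq_aux

open Eq_aux

theorem tEq (hHs : S_Hs) (hUp : S_Up) (hLo : S_Lo) (hGn : S_Gn) (hTw : S_Tw) (hBs : S_Bs)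
    (hBt : S_Bt) (hFR : StmtFR) (_hCVG : CV.StmtCVG) (hCVL : CV.StmtCVL) (hGA : StmtGA4) :
    S_Eq := by
  intro Λ Φ p N D h ℓ hℓ
  obtain ⟨s₁, hs₁⟩ := exi hGA p
  have hs₁i : Function.Injective s₁ := hs₁.injective
  obtain ⟨e₁, he₁⟩ := hBs Λ p N D h s₁ hs₁i
  have hT₁ := hTw Λ p N D h s₁ e₁ ℓ hℓ hs₁i he₁
  obtain ⟨k₀, hk₀⟩ := hFR (Fin (rk D) ⊕ Unit) ℓ hℓ _ hT₁
  have hq : ∀ j : ℕ, ℓ ^ j ≠ 0 := fun j => pow_ne_zero j hℓ.ne_zero
  obtain ⟨κ, P, R, d, Δ, hHD⟩ := hHs Λ p N D h (ℓ ^ k₀) (hq k₀)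
  refine ⟨P, Δ, k₀, hHD.irr, hHD.deg, hHD.ne, ?_⟩
  intro s hs e he w hw k hk
  have hsi : Function.Injective s := (hHD.good s hs.1).1
  -- the data near `s`
  obtain ⟨εb, hεb, hb⟩ := hBt Λ Φ p N D h s hsi
  obtain ⟨rb, hrb, hrb'⟩ := near s w hεb
  obtain ⟨E, hE, hE'⟩ := hCVL p s w hw
  -- the orders at the generic points of the line
  have hord : ∀ j : ℕ, ∀ z ∈ ball (0 : ℂ) rb, z ∉ E →
      (Sk Λ D h (ln s w z) (fun i => HS.trn Φ D h s (ln s w z) (e i)) (ℓ ^ j)).ncard =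
        (Sk Λ D h s₁ e₁ (ℓ ^ j)).ncard := by
    intro j z hz hzE
    have h1 := (hb _ (hrb' z hz)).2.2.2.1 e he
    exact hGn Λ p N D h (ln s w z) s₁ _ e₁ (ℓ ^ j) (hq j) (hE' z hzE).1 hs₁ h1 he₁
  have hfin : ∀ (j : ℕ) (S : Set (Matrix (Fin (rk D) ⊕ Unit) (Fin (rk D) ⊕ Unit) (ZMod (ℓ ^ j)))),
      S.Finite := by
    intro j S
    have : NeZero (ℓ ^ j) := ⟨hq j⟩
    exact Set.toFinite S
  have hle : ∀ j : ℕ, (Sk Λ D h s e (ℓ ^ j)).ncard ≤ (Sk Λ D h s₁ e₁ (ℓ ^ j)).ncard := by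
    intro j
    obtain ⟨ε, hε, Y, hY, hsub⟩ := hLo Λ Φ p N D h (ℓ ^ j) s w e (hq j) hsi he hw
    obtain ⟨z, hz, hzY⟩ := pick (hY.union hE) (lt_min hε hrb)
    have h1 := hsub z (ball_subset_ball (min_le_left _ _) hz) fun h' => hzY (Or.inl h')
    have h2 := hord j z (ball_subset_ball (min_le_right _ _) hz) fun h' => hzY (Or.inr h')
    rw [← h2]
    exact Set.ncard_le_ncard h1 (hfin j _)
  have hge : (Sk Λ D h s₁ e₁ (ℓ ^ k₀)).ncard ≤ (Sk Λ D h s e (ℓ ^ k₀)).ncard := by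
    obtain ⟨ε, hε, hup⟩ := hUp Λ Φ p N D h (ℓ ^ k₀) κ P R d Δ (hq k₀) hHD s hs e he
    obtain ⟨r, hr, hr'⟩ := near s w hε
    obtain ⟨z, hz, hzE⟩ := pick hE (lt_min hr hrb)
    have h1 := hup _ (hr' z (ball_subset_ball (min_le_left _ _) hz)) (hE' z hzE).1
    rw [← hord k₀ z (ball_subset_ball (min_le_right _ _) hz) hzE]
    exact Set.ncard_le_ncard h1 (hfin k₀ _)
  have hT := hTw Λ p N D h s e ℓ hℓ hsi he
  have heq := hk₀ _ hT hle hge k hk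
  obtain ⟨ε, hε, Y, hY, hsub⟩ := hLo Λ Φ p N D h (ℓ ^ k) s w e (hq k) hsi he hw
  refine ⟨min ε rb, lt_min hε hrb, Y ∪ E, hY.union hE, ?_⟩
  intro z hz hzY
  refine Set.eq_of_subset_of_ncard_le
    (hsub z (ball_subset_ball (min_le_left _ _) hz) fun h' => hzY (Or.inl h')) ?_ (hfin k _)
  rw [hord k z (ball_subset_ball (min_le_right _ _) hz) fun h' => hzY (Or.inr h')]
  exact heq.symm.le

end TNF.LG
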