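import Pool.Agent.Lib.TNF.LG.SpecD

/-!
# TNF/LG: the points stay on the curves (`S_Onp`)
-/

set_option autoImplicit false

open HC HC.CC SEJ TATE Topology Metric

noncomputable section

namespace TNF.LG

namespace Onp_aux

theorem ren {p : ℕ} {J : Type} (s : Fin p → ℂ) (y : J → ℂ) (j : Fin 2 → J)
    (f : MvPolynomial (Fin p ⊕ Fin 2) ℚ) :
    MvPolynomial.aeval (Sum.elim s y) (MvPolynomial.rename (Sum.map id j) f) =
      MvPolynomial.aeval (Sum.elim s ![y (j 0), y (j 1)]) f := by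
  rw [MvPolynomial.aeval_rename]
  have h : Sum.elim s y ∘ Sum.map id j = Sum.elim s ![y (j 0), y (j 1)] := by
    funext x
    rcases x with x | x
    · rfl
    · fin_cases x <;> rfl
  rw [h]

/-- One point. -/
theorem one {p N : ℕ} (D : Dt p N) {J : Type} (n : Fin N) (f g : MvPolynomial (Fin p ⊕ Fin 2) ℚ)
    (hfg : ∀ s : Fin p → ℂ, Function.Injective s → ∀ P : ℂ × ℂ,
      (P ∈ Pts (D.m n) (D.b n) (D.t s n) ↔
        MvPolynomial.aeval (Sum.elim s ![P.1, P.2]) f = 0 ∧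
        MvPolynomial.aeval (Sum.elim s ![P.1, P.2]) g ≠ 0))
    (s : Fin p → ℂ) (y : J → ℂ) (P : Polynomial (QS p)) (R : J → Polynomial (QS p)) (d e : QS p)
    (θ : ℂ) (hs : Function.Injective s) (hD : DJ s y P R d e θ) (j : Fin 2 → J)
    (hP : (y (j 0), y (j 1)) ∈ Pts (D.m n) (D.b n) (D.t s n)) :
    ∃ Δ : QS p, Δ ≠ 0 ∧ ∀ s', cf s' Δ ≠ 0 → Function.Injective s' → cf s' d ≠ 0 →
      ∀ x, (PS P s').eval x = 0 →
      ((PS (R (j 0)) s').eval x / cf s' d, (PS (R (j 1)) s').eval x / cf s' d) ∈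
        Pts (D.m n) (D.b n) (D.t s' n) := by
  obtain ⟨h1, h2⟩ := (hfg s hs _).1 hP
  obtain ⟨Δ, hΔ, h3⟩ := hD.nv (MvPolynomial.rename (Sum.map id j) g) (by
    rw [ren]
    exact h2)
  refine ⟨Δ, hΔ, fun s' h4 hs' hd x hx => ?_⟩
  rw [hfg s' hs']
  have h5 := h3 s' h4 hd x hx
  have h6 := hD.spc s' x hd hx (MvPolynomial.rename (Sum.map id j) f) (by
    rw [ren]
    exact h1)
  rw [ren] at h5 h6
  exact ⟨h6, h5⟩

end Onp_aux

open Onp_aux

theorem tOnp : S_Pnp → S_Onp := by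
  classical
  intro hPnp p N D hok k s y P R d e θ hs hOn hD
  choose f g hfg using hPnp p N D hok
  have h1 := fun τ : (Σ i : Fin (rk D), Σ n : Fin N, Fin (k i n)) =>
    one D τ.2.1 (f τ.2.1) (g τ.2.1) (hfg τ.2.1) s y P R d e θ hs hD
      ![Sum.inl (τ, 0), Sum.inl (τ, 1)] (hOn τ.1 τ.2.1 τ.2.2).1
  have h2 := fun τ : (Σ i : Fin (rk D), Σ n : Fin N, Fin (k i n)) =>
    one D τ.2.1 (f τ.2.1) (g τ.2.1) (hfg τ.2.1) s y P R d e θ hs hD
      ![Sum.inl (τ, 2), Sum.inl (τ, 3)] (hOn τ.1 τ.2.1 τ.2.2).2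
  choose Δ1 hΔ1 h3 using h1
  choose Δ2 hΔ2 h4 using h2
  refine ⟨e * (∏ q : Fin p × Fin p, if q.1 = q.2 then 1 else MvPolynomial.X q.1 -
    MvPolynomial.X q.2) * ((∏ τ, Δ1 τ) * ∏ τ, Δ2 τ), ?_, ?_⟩
  · refine mul_ne_zero (mul_ne_zero hD.e0 ?_) (mul_ne_zero ?_ ?_)
    · rw [Finset.prod_ne_zero_iff]
      intro q _
      split_ifs with h
      · exact one_ne_zero
      · intro h5
        exact h (MvPolynomial.X_injective (sub_eq_zero.1 h5))
    · exact Finset.prod_ne_zero_iff.2 fun τ _ => hΔ1 τ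
    · exact Finset.prod_ne_zero_iff.2 fun τ _ => hΔ2 τ
  · intro s' h5
    rw [map_mul, map_mul, map_mul, map_prod, map_prod, map_prod] at h5
    have he := left_ne_zero_of_mul (left_ne_zero_of_mul h5)
    have hX := Finset.prod_ne_zero_iff.1 (right_ne_zero_of_mul (left_ne_zero_of_mul h5))
    have h6 := Finset.prod_ne_zero_iff.1 (left_ne_zero_of_mul (right_ne_zero_of_mul h5))
    have h7 := Finset.prod_ne_zero_iff.1 (right_ne_zero_of_mul (right_ne_zero_of_mul h5))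
    have hs' : Function.Injective s' := by
      intro i j hij
      by_contra hne
      have h8 : cf s' (if i = j then (1 : QS p) else MvPolynomial.X i - MvPolynomial.X j) ≠ 0 :=
        hX (i, j) (Finset.mem_univ _)
      rw [if_neg hne] at h8
      apply h8
      show MvPolynomial.aeval s' (MvPolynomial.X i - MvPolynomial.X j : QS p) = 0
      rw [map_sub, MvPolynomial.aeval_X, MvPolynomial.aeval_X, hij, sub_self]
    refine ⟨hs', he, fun x hx i n a => ?_⟩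
    have hd := (hD.good s' he).2
    exact ⟨h3 ⟨i, n, a⟩ s' (h6 _ (Finset.mem_univ _)) hs' hd x hx,
      h4 ⟨i, n, a⟩ s' (h7 _ (Finset.mem_univ _)) hs' hd x hx⟩

end TNF.LG
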