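import Pool.Agent.Lib.TNF.LG.Spec

/-!
# PROJECT TNF, LG: matrices of automorphisms
-/

set_option autoImplicit false

open HC HC.CC SEJ TATE Topology Metric

noncomputable section

namespace TNF.LG

namespace Rg_aux

variable {p N : ℕ} {D : Dt p N}

theorem inj_map (σ : ℂ ≃+* ℂ) {s : Fin p → ℂ} (hs : Function.Injective s) :
    Function.Injective fun i => σ (s i) := σ.injective.comp hs

theorem cast_val {q : ℕ} (hq : q ≠ 0) (a : ZMod q) : (((a.val : ℤ)) : ZMod q) = a := by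
  have : NeZero q := ⟨hq⟩
  rw [Int.cast_natCast, ZMod.natCast_zmod_val]

/-- Integer combinations: `1/q ∑ a_j e_j`. -/
def vz (D : Dt p N) (q : ℕ) (a : Fin (rk D) → ℤ) (e : Fin (rk D) → D.V) : D.V :=
  (q : ℂ)⁻¹ • ∑ j, (a j : ℂ) • e j

theorem vq_eq (q : ℕ) (A : Matrix (Fin (rk D)) (Fin (rk D)) (ZMod q)) (e : Fin (rk D) → D.V)
    (i : Fin (rk D)) : vq D q A e i = vz D q (fun j => ((A j i).val : ℤ)) e := by
  unfold vq vz
  simp only [Int.cast_natCast]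

theorem vz_smul (q : ℕ) (a : Fin (rk D) → ℤ) (e : Fin (rk D) → D.V) (x : ℤ) :
    x • vz D q a e = vz D q (fun j => x * a j) e := by
  unfold vz
  rw [smul_comm, Finset.smul_sum]
  congr 1
  refine Finset.sum_congr rfl fun j _ => ?_
  rw [← Int.cast_smul_eq_zsmul ℂ x, smul_smul, Int.cast_mul]

theorem vz_sum {ι : Type} (S : Finset ι) (q : ℕ) (a : ι → Fin (rk D) → ℤ)
    (e : Fin (rk D) → D.V) :
    ∑ l ∈ S, vz D q (a l) e = vz D q (fun j => ∑ l ∈ S, a l j) e := by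
  unfold vz
  rw [← Finset.smul_sum, Finset.sum_comm]
  congr 1
  refine Finset.sum_congr rfl fun j _ => ?_
  rw [← Finset.sum_smul, Int.cast_sum]

theorem vz_single (q : ℕ) (i : Fin (rk D)) (e : Fin (rk D) → D.V) :
    vz D q (fun j => if j = i then 1 else 0) e = (q : ℂ)⁻¹ • e i := by
  unfold vz
  congr 1
  rw [Finset.sum_eq_single i]
  · simp
  · intro j _ hj
    simp [hj]
  · intro h
    exact absurd (Finset.mem_univ _) h

section

variable (Λ : LL) (h : D.ok) (σ : ℂ ≃+* ℂ) (s : Fin p → ℂ)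

theorem act_zero (hAdD : S_AdD) (hs : Function.Injective s) (hσ : FxZ D σ) :
    ActD Λ D h σ s 0 0 := by
  obtain ⟨-, -, h3, -, -, -, -, h8, -⟩ := hAdD Λ p N D h σ s hs hσ
  obtain ⟨v', hv'⟩ := h8 0
  have h4 := h3 0 0 v' hv'
  rwa [zero_smul, zero_smul] at h4

theorem act_sum (hAdD : S_AdD) (hs : Function.Injective s) (hσ : FxZ D σ) {ι : Type}
    (S : Finset ι) (f g : ι → D.V) (hfg : ∀ l ∈ S, ActD Λ D h σ s (f l) (g l)) :
    ActD Λ D h σ s (∑ l ∈ S, f l) (∑ l ∈ S, g l) := by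
  classical
  induction S using Finset.induction_on with
  | empty =>
    rw [Finset.sum_empty, Finset.sum_empty]
    exact act_zero Λ h σ s hAdD hs hσ
  | insert l S hl ih =>
    rw [Finset.sum_insert hl, Finset.sum_insert hl]
    exact (hAdD Λ p N D h σ s hs hσ).1 _ _ _ _ (hfg l (Finset.mem_insert_self l S))
      (ih fun k hk => hfg k (Finset.mem_insert_of_mem hk))

/-- Change of the representative of the value. -/
theorem act_cong (hAdD : S_AdD) (hBd : S_Bd) (hs : Function.Injective s) (hσ : FxZ D σ)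
    {e' : Fin (rk D) → D.V} (he' : IsBas Λ D h (fun i => σ (s i)) e') {q : ℕ} (hq : q ≠ 0)
    {v : D.V} {a b : Fin (rk D) → ℤ} (hv : ActD Λ D h σ s v (vz D q a e'))
    (hab : ∀ j, (a j : ZMod q) = b j) (hz : (0 : D.V) ∈ LPs Λ D h s) :
    ActD Λ D h σ s v (vz D q b e') := by
  obtain ⟨-, h2, -⟩ := hAdD Λ p N D h σ s hs hσ
  refine h2 _ _ _ _ hv (by rw [sub_self]; exact hz) ?_
  exact ((hBd Λ p N D h _ e' (inj_map σ hs) he').2.2.2.1 q hq b a).2 fun j => (hab j).symm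

theorem zero_mem' (hBd : S_Bd) (hs : Function.Injective s) {e : Fin (rk D) → D.V}
    (he : IsBas Λ D h s e) : (0 : D.V) ∈ LPs Λ D h s := by
  obtain ⟨-, -, -, h4, -⟩ := hBd Λ p N D h s e hs he
  have h5 := (h4 1 one_ne_zero (fun _ => 0) fun _ => 0).2 fun _ => rfl
  rwa [sub_self] at h5

end

end Rg_aux

open Rg_aux

theorem Rg_aux.six (hAdD : S_AdD) (hBd : S_Bd) (Λ : LL) (p N : ℕ) (D : Dt p N) (h : D.ok)
    (σ : ℂ ≃+* ℂ) (s : Fin p → ℂ) (e e' : Fin (rk D) → D.V) (q : ℕ) (hq : q ≠ 0)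
    (hs : Function.Injective s) (hσ : FxZ D σ) (he : IsBas Λ D h s e)
    (he' : IsBas Λ D h (fun i => σ (s i)) e') (A : Matrix (Fin (rk D)) (Fin (rk D)) (ZMod q))
    (hA : RepG Λ D h σ s e e' q A) (T : Matrix (Fin (rk D)) (Fin (rk D)) (ZMod q))
    (i : Fin (rk D)) : ActD Λ D h σ s (vq D q T e i) (vq D q (A * T) e' i) := by
  obtain ⟨-, h2, h3, -⟩ := hAdD Λ p N D h σ s hs hσ
  have h5 : ActD Λ D h σ s (∑ j, ((T j i).val : ℤ) • ((q : ℂ)⁻¹ • e j))
      (∑ j, ((T j i).val : ℤ) • vq D q A e' j) :=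
    act_sum Λ h σ s hAdD hs hσ _ _ _ fun j _ => h3 _ _ _ (hA j)
  have h6 : ∑ j, ((T j i).val : ℤ) • ((q : ℂ)⁻¹ • e j) = vq D q T e i := by
    unfold vq
    rw [Finset.smul_sum]
    refine Finset.sum_congr rfl fun j _ => ?_
    rw [← Int.cast_smul_eq_zsmul ℂ, Int.cast_natCast, smul_comm]
  have h7 : ∑ j, ((T j i).val : ℤ) • vq D q A e' j =
      vz D q (fun l => ∑ j, ((T j i).val : ℤ) * ((A l j).val : ℤ)) e' := by
    rw [← vz_sum]
    refine Finset.sum_congr rfl fun j _ => ?_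
    rw [vq_eq, vz_smul]
  rw [h6, h7] at h5
  rw [vq_eq q (A * T)]
  refine act_cong Λ h σ s hAdD hBd hs hσ he' hq h5 (fun l => ?_) (zero_mem' Λ h s hBd hs he)
  rw [cast_val hq, Int.cast_sum, Matrix.mul_apply]
  refine Finset.sum_congr rfl fun j _ => ?_
  rw [Int.cast_mul, cast_val hq, cast_val hq, mul_comm]

theorem tRg : S_AdD → S_Bd → S_Rg := by
  intro hAdD hBd
  have H1 : ∀ (Λ : LL) (p N : ℕ) (D : Dt p N) (h : D.ok) (σ : ℂ ≃+* ℂ) (s : Fin p → ℂ)
      (e e' : Fin (rk D) → D.V) (q : ℕ), q ≠ 0 → Function.Injective s → FxZ D σ →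
      IsBas Λ D h s e → IsBas Λ D h (fun i => σ (s i)) e' →
      ∃ A, RepG Λ D h σ s e e' q A := by
    intro Λ p N D h σ s e e' q hq hs hσ he he'
    obtain ⟨-, h2, h3, -, h5, -, -, h8, -⟩ := hAdD Λ p N D h σ s hs hσ
    have hz := zero_mem' Λ h s hBd hs he
    have h9 : ∀ i, ∃ a : Fin (rk D) → ZMod q,
        ActD Λ D h σ s ((q : ℂ)⁻¹ • e i) ((q : ℂ)⁻¹ • ∑ j, ((a j).val : ℂ) • e' j) := by
      intro i
      obtain ⟨v', hv'⟩ := h8 ((q : ℂ)⁻¹ • e i)
      have h10 := h3 (q : ℤ) _ _ hv'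
      have h11 : (q : ℤ) • ((q : ℂ)⁻¹ • e i) = e i := by
        rw [← Int.cast_smul_eq_zsmul ℂ, Int.cast_natCast, smul_smul,
          mul_inv_cancel₀ (Nat.cast_ne_zero.2 hq), one_smul]
      have h12 : (q : ℤ) • v' = (q : ℂ) • v' := by
        rw [← Int.cast_smul_eq_zsmul ℂ, Int.cast_natCast]
      rw [h11, h12] at h10
      have h13 := h5 _ _ h10 (he.mem i)
      obtain ⟨a, ha⟩ := (hBd Λ p N D h _ e' (inj_map σ hs) he').2.2.2.2 v' q hq h13
      refine ⟨a, h2 _ _ _ _ hv' (by rw [sub_self]; exact hz) ?_⟩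
      have h14 := ((hBd Λ p N D h _ e' (inj_map σ hs) he').2.2.1 _
        (zero_mem' Λ h _ hBd (inj_map σ hs) he') _ ha).1
      rwa [zero_sub, neg_sub] at h14
    choose a ha using h9
    exact ⟨Matrix.of fun j i => a i j, fun i => ha i⟩
  have H2 : ∀ (Λ : LL) (p N : ℕ) (D : Dt p N) (h : D.ok) (σ : ℂ ≃+* ℂ) (s : Fin p → ℂ)
      (e e' : Fin (rk D) → D.V) (q : ℕ), q ≠ 0 → Function.Injective s → FxZ D σ →
      IsBas Λ D h s e → IsBas Λ D h (fun i => σ (s i)) e' →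
      ∀ A B, RepG Λ D h σ s e e' q A → RepG Λ D h σ s e e' q B → A = B := by
    intro Λ p N D h σ s e e' q hq hs hσ he he' A B hA hB
    obtain ⟨-, -, -, h4, -⟩ := hAdD Λ p N D h σ s hs hσ
    ext j i
    have h5 := h4 _ _ _ (hA i) (hB i)
    rw [vq_eq, vq_eq] at h5
    have h6 := ((hBd Λ p N D h _ e' (inj_map σ hs) he').2.2.2.1 q hq _ _).1 h5 j
    rwa [cast_val hq, cast_val hq] at h6
  have H3 : ∀ (Λ : LL) (p N : ℕ) (D : Dt p N) (h : D.ok) (σ : ℂ ≃+* ℂ) (s : Fin p → ℂ)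
      (e e' : Fin (rk D) → D.V) (q : ℕ), q ≠ 0 → Function.Injective s → FxZ D σ →
      IsBas Λ D h s e → IsBas Λ D h (fun i => σ (s i)) e' →
      ∀ (τ : ℂ ≃+* ℂ) (e'' : Fin (rk D) → D.V), FxZ D τ →
      IsBas Λ D h (fun i => τ (σ (s i))) e'' → ∀ A B, RepG Λ D h σ s e e' q A →
      RepG Λ D h τ (fun i => σ (s i)) e' e'' q B →
      RepG Λ D h (σ.trans τ) s e e'' q (B * A) := by
    intro Λ p N D h σ s e e' q hq hs hσ he he' τ e'' hτ he'' A B hA hB i
    exact (hAdD Λ p N D h σ s hs hσ).2.2.2.2.2.1 τ hτ _ _ _ (hA i)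
      (Rg_aux.six hAdD hBd Λ p N D h τ (fun i => σ (s i)) e' e'' q hq (inj_map σ hs) hτ he' he''
        B hB A i)
  have H5 : ∀ (Λ : LL) (p N : ℕ) (D : Dt p N) (h : D.ok) (s : Fin p → ℂ)
      (e : Fin (rk D) → D.V) (q : ℕ), q ≠ 0 → Function.Injective s → IsBas Λ D h s e →
      RepG Λ D h (RingEquiv.refl ℂ) s e e q 1 := by
    intro Λ p N D h s e q hq hs he i
    have hr : FxZ D (RingEquiv.refl ℂ) := fun n => rfl
    have h9 := (hAdD Λ p N D h (RingEquiv.refl ℂ) s hs hr).2.2.2.2.2.2.2.2 ((q : ℂ)⁻¹ • e i)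
    rw [vq_eq]
    nth_rewrite 2 [← vz_single] at h9
    refine act_cong Λ h (RingEquiv.refl ℂ) s hAdD hBd hs hr he hq h9 (fun j => ?_)
      (zero_mem' Λ h s hBd hs he)
    rw [cast_val hq, Matrix.one_apply]
    split_ifs
    · exact Int.cast_one
    · exact Int.cast_zero
  intro Λ p N D h σ s e e' q hq hs hσ he he'
  refine ⟨H1 Λ p N D h σ s e e' q hq hs hσ he he', H2 Λ p N D h σ s e e' q hq hs hσ he he',
    H3 Λ p N D h σ s e e' q hq hs hσ he he', ?_, H5 Λ p N D h s e q hq hs he,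
    fun A hA T i => Rg_aux.six hAdD hBd Λ p N D h σ s e e' q hq hs hσ he he' A hA T i, ?_⟩
  · intro A hA
    have hσ' : FxZ D σ.symm := fun n => by
      rw [RingEquiv.symm_apply_eq]
      exact (hσ n).symm
    have hpt : (fun i => σ.symm (σ (s i))) = s := by
      funext i
      exact σ.symm_apply_apply (s i)
    have hes : IsBas Λ D h (fun i => σ.symm (σ (s i))) e := by
      rw [hpt]
      exact he
    obtain ⟨B, hB⟩ := H1 Λ p N D h σ.symm (fun i => σ (s i)) e' e q hq (inj_map σ hs) hσ' he' hes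
    have h1 := H3 Λ p N D h σ s e e' q hq hs hσ he he' σ.symm e hσ' hes A B hA hB
    rw [RingEquiv.self_trans_symm] at h1
    have hr : FxZ D (RingEquiv.refl ℂ) := fun n => rfl
    have h2 : B * A = 1 := H2 Λ p N D h (RingEquiv.refl ℂ) s e e q hq hs hr he he _ _ h1
      (H5 Λ p N D h s e q hq hs he)
    exact ⟨B, hB, mul_eq_one_comm.1 h2, h2⟩
  · intro q' hqq hq' A hA i
    obtain ⟨k, rfl⟩ := hqq
    have hk : k ≠ 0 := fun h0 => hq' (by rw [h0, mul_zero])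
    have h1 := (hAdD Λ p N D h σ s hs hσ).2.2.1 (k : ℤ) _ _ (hA i)
    have hkc : (k : ℂ) ≠ 0 := Nat.cast_ne_zero.2 hk
    have hqc : (q : ℂ) ≠ 0 := Nat.cast_ne_zero.2 hq
    have h2 : (k : ℤ) • (((q * k : ℕ) : ℂ)⁻¹ • e i) = (q : ℂ)⁻¹ • e i := by
      rw [← Int.cast_smul_eq_zsmul ℂ, Int.cast_natCast, smul_smul]
      congr 1
      push_cast
      field_simp
    have h3 : (k : ℤ) • vq D (q * k) A e' i = vz D q (fun j => ((A j i).val : ℤ)) e' := by
      unfold vq vz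
      rw [← Int.cast_smul_eq_zsmul ℂ, Int.cast_natCast, smul_smul]
      congr 1
      push_cast
      field_simp
    rw [h2, h3] at h1
    rw [vq_eq]
    refine act_cong Λ h σ s hAdD hBd hs hσ he' hq h1 (fun j => ?_) (zero_mem' Λ h s hBd hs he)
    have : NeZero (q * k) := ⟨hq'⟩
    rw [cast_val hq, Int.cast_natCast, Matrix.map_apply, ZMod.castHom_apply, ZMod.natCast_val]

end TNF.LG
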