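import Pool.Agent.Lib.TNF.Iface2
import Pool.Agent.Lib.TNF.HS.Spec
import Pool.Agent.Lib.TATE.TO.Spec

/-!
# PROJECT TNF, package LG (helper64; note 4967, section 2): loops are Galois at all points of a Hilbert set. Part 1: level groups

Modules: file `TNF/LG/Xyz.lean`, `theorem tXyz : S_Xyz`, namespace `TNF.LG` (before it `open HC HC.CC SEJ TATE Topology Metric`),
import this file (or Spec2) and the proved modules you want. If the docstring says `From S_A, StmtB` the theorem is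
`tXyz : S_A → StmtB → S_Xyz`. Auxiliary lemmas in `namespace TNF.LG.Xyz_aux`.

`Λ` a choice of the lattices `L t` (`LPD`), `LPs Λ D h s` the lattice of the product at `s`. `Act`, `ActD`: `σ ∈ Aut(ℂ)` maps the class of `v` in
`V / L (s)` to the class of `v'` in `V / L (σ s)`; here `v` is an exact sum of integrals from `Q'_a` to `Q_a` and `v'` from `σ Q'_a` to `σ Q_a`.
-/

set_option autoImplicit false

open Topology Metric HC HC.CC SEJ TATE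

noncomputable section

namespace TNF.LG

/-! ## A. The action -/

/-- **Ad**: RULES for `Act`. From StmtFA2. PROOF. zero: `k = 0`; addition: `Fin.append` (`Fin.sum_univ_add`); negative: exchange `Q'`, `Q` (the
third clause of `StmtFA2`: `Itg Q P (-v)`, at `t` and at `σ t`); lattice: `sub`, `zero` of `LPD`. -/
def S_Ad : Prop :=
  ∀ (m r : ℕ) (b : Fin (r + 1) → ℕ) (Λ : LPD m b) (σ : ℂ ≃+* ℂ) (t : Fin (r + 1) → ℂ), Cvb m b →
    Function.Injective t → Act Λ σ t 0 0 ∧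
    (∀ v v' u u', Act Λ σ t v v' → Act Λ σ t u u' → Act Λ σ t (v + u) (v' + u')) ∧
    (∀ v v', Act Λ σ t v v' → Act Λ σ t (-v) (-v')) ∧
    (∀ v v' u u', Act Λ σ t v v' → u - v ∈ Λ.L t → u' - v' ∈ Λ.L (fun j => σ (t j)) →
      Act Λ σ t u u') ∧
    ∀ (x : ℤ) (v v' : Ix m b → ℂ), Act Λ σ t v v' → Act Λ σ t (x • v) (x • v')

/-- **Wd**: WELL DEFINED, COMPOSITION, INVERSE, TOTAL. From StmtFA2, S_Ad, TO.S_Om, TO.S_Inv. PROOF. (1) `LPD.aut`. (2) from (1): `v' ≡ ∑ w'` where `w'` are integrals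
at `σ t` from `σ Q'` to `σ Q`; integrals `w''` at `τ (σ t)` from `τ σ Q'` to `τ σ Q` exist (`StmtFA2`, first clause); `Act τ (∑ w') (∑ w'')`, so by (1) for
`τ` `v'' ≡ ∑ w''`. (3) the definition is symmetric. (4) `TO.S_Om`: a basis `om (P a)`, `TO.S_Inv` (1): `v = n • ∑ w a` is an exact sum (`n` copies); the
integrals at `σ t` exist, `StmtFA2`. The identity: `σ = id`, `w' = w`. -/
def S_Wd : Prop :=
  ∀ (m r : ℕ) (b : Fin (r + 1) → ℕ) (Λ : LPD m b) (σ : ℂ ≃+* ℂ) (t : Fin (r + 1) → ℂ), Cvb m b →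
    Function.Injective t → σ (ze m 1) = ze m 1 →
    (∀ v v' v'', Act Λ σ t v v' → Act Λ σ t v v'' → v' - v'' ∈ Λ.L fun j => σ (t j)) ∧
    (∀ v v', Act Λ σ t v v' → v ∈ Λ.L t → v' ∈ Λ.L fun j => σ (t j)) ∧
    (∀ τ : ℂ ≃+* ℂ, τ (ze m 1) = ze m 1 → ∀ v v' v'', Act Λ σ t v v' →
      Act Λ τ (fun j => σ (t j)) v' v'' → Act Λ (σ.trans τ) t v v'') ∧
    (∀ v v', Act Λ σ t v v' → Act Λ σ.symm (fun j => σ (t j)) v' v) ∧
    (∀ v, ∃ v', Act Λ σ t v v') ∧ ∀ v, Act Λ (RingEquiv.refl ℂ) t v v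

section dt

variable {p N : ℕ}

/-- The points of the factor `n` at `σ s`. -/
theorem Dt_map (D : Dt p N) (σ : ℂ ≃+* ℂ) (s : Fin p → ℂ) (n : Fin N) :
    D.t (fun i => σ (s i)) n = fun j => σ (D.t s n j) := by
  funext j
  unfold Dt.t
  cases D.k n with
  | none => rfl
  | some l => simp only [HC.CC.pt, map_inv₀, map_sub]

/-- The rank. -/
abbrev rk (D : Dt p N) : ℕ := Module.finrank ℝ D.V

/-- `e` is a basis of the lattice. -/
structure IsBas (Λ : LL) (D : Dt p N) (h : D.ok) (s : Fin p → ℂ) (e : Fin (rk D) → D.V) :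
    Prop where
  mem : ∀ i, e i ∈ LPs Λ D h s
  ex : ∀ v ∈ LPs Λ D h s, ∃ a : Fin (rk D) → ℤ, v = ∑ i, a i • e i
  li : LinearIndependent ℝ e

/-- `1/q ∑_j A_ji e_j`. -/
def vq (D : Dt p N) (q : ℕ) (A : Matrix (Fin (rk D)) (Fin (rk D)) (ZMod q))
    (e : Fin (rk D) → D.V) (i : Fin (rk D)) : D.V :=
  (q : ℂ)⁻¹ • ∑ j, ((A j i).val : ℂ) • e j

/-- `σ` maps the class of `e_i / q` to `1/q ∑_j A_ji e'_j` (`e` a basis at `s`, `e'` a basis at `σ s`). -/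
def RepG (Λ : LL) (D : Dt p N) (h : D.ok) (σ : ℂ ≃+* ℂ) (s : Fin p → ℂ)
    (e e' : Fin (rk D) → D.V) (q : ℕ) (A : Matrix (Fin (rk D)) (Fin (rk D)) (ZMod q)) : Prop :=
  ∀ i, ActD Λ D h σ s ((q : ℂ)⁻¹ • e i) (vq D q A e' i)

/-- `σ` fixes the roots of unity `exp (2 π i / m n)`. -/
def FxZ (D : Dt p N) (σ : ℂ ≃+* ℂ) : Prop := ∀ n, σ (ze (D.m n) 1) = ze (D.m n) 1

/-- The cyclotomic character modulo `q`. -/
def Cyq (σ : ℂ ≃+* ℂ) (q : ℕ) (c : ZMod q) : Prop := ∀ ξ : ℂ, ξ ^ q = 1 → σ ξ = ξ ^ c.val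

/-- The matrix of the pair. -/
def bl {D : Dt p N} {q : ℕ} (A : Matrix (Fin (rk D)) (Fin (rk D)) (ZMod q)) (c : ZMod q) :
    Matrix (Fin (rk D) ⊕ Unit) (Fin (rk D) ⊕ Unit) (ZMod q) :=
  Matrix.fromBlocks A 0 0 (Matrix.of fun _ _ => c)

/-- **THE LEVEL GROUP** modulo `q` at `s` in the basis `e`. -/
def Sk (Λ : LL) (D : Dt p N) (h : D.ok) (s : Fin p → ℂ) (e : Fin (rk D) → D.V) (q : ℕ) :
    Set (Matrix (Fin (rk D) ⊕ Unit) (Fin (rk D) ⊕ Unit) (ZMod q)) :=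
  {B | ∃ σ ∈ Gam D s, ∃ (A : Matrix (Fin (rk D)) (Fin (rk D)) (ZMod q)) (c : ZMod q),
    RepG Λ D h σ s e e q A ∧ Cyq σ q c ∧ B = bl A c}

end dt

/-- **AdD**: RULES for the product. From S_Ad, S_Wd, TATE.S_Av. PROOF. Componentwise; `Dt_map`; `D.t s n` is injective (`S_Av`). -/
def S_AdD : Prop :=
  ∀ (Λ : LL) (p N : ℕ) (D : Dt p N) (h : D.ok) (σ : ℂ ≃+* ℂ) (s : Fin p → ℂ),
    Function.Injective s → FxZ D σ →
    (∀ v v' u u', ActD Λ D h σ s v v' → ActD Λ D h σ s u u' →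
      ActD Λ D h σ s (v + u) (v' + u')) ∧
    (∀ v v' u u', ActD Λ D h σ s v v' → u - v ∈ LPs Λ D h s →
      u' - v' ∈ LPs Λ D h (fun i => σ (s i)) → ActD Λ D h σ s u u') ∧
    (∀ (x : ℤ) (v v' : D.V), ActD Λ D h σ s v v' → ActD Λ D h σ s (x • v) (x • v')) ∧
    (∀ v v' v'', ActD Λ D h σ s v v' → ActD Λ D h σ s v v'' →
      v' - v'' ∈ LPs Λ D h fun i => σ (s i)) ∧
    (∀ v v', ActD Λ D h σ s v v' → v ∈ LPs Λ D h s → v' ∈ LPs Λ D h fun i => σ (s i)) ∧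
    (∀ τ : ℂ ≃+* ℂ, FxZ D τ → ∀ v v' v'', ActD Λ D h σ s v v' →
      ActD Λ D h τ (fun i => σ (s i)) v' v'' → ActD Λ D h (σ.trans τ) s v v'') ∧
    (∀ v v', ActD Λ D h σ s v v' → ActD Λ D h σ.symm (fun i => σ (s i)) v' v) ∧
    (∀ v, ∃ v', ActD Λ D h σ s v v') ∧ ∀ v, ActD Λ D h (RingEquiv.refl ℂ) s v v

/-! ## B. Bases -/

/-- **Bs**: A BASIS EXISTS; `q⁻¹ L` is rational. From StmtTP, TATE.S_Av. PROOF. `L (D.t s n) = κ '' {In T}` (`StmtTP`): the `ℤ`-basis of `T.L` gives a basis of every factor, the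
number of its elements is `finrank ℝ`; the product: `Pi.basis`, reindexed. -/
def S_Bs : Prop :=
  ∀ (Λ : LL) (p N : ℕ) (D : Dt p N) (h : D.ok) (s : Fin p → ℂ), Function.Injective s →
    ∃ e, IsBas Λ D h s e

/-- **Bd**: BASIS: elementary consequences. From TATE.S_Av (only: `D.t s n` is injective). PROOF. `e` is a basis of `D.V` over `ℝ` (`finrank` independent vectors); the lattice is the `ℤ`-span, closed and discrete:
`ZSpan`. (4): `1/q ∑ a_j e_j - 1/q ∑ b_j e_j` in the lattice iff all `a_j ≡ b_j` modulo `q`. -/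
def S_Bd : Prop :=
  ∀ (Λ : LL) (p N : ℕ) (D : Dt p N) (h : D.ok) (s : Fin p → ℂ) (e : Fin (rk D) → D.V),
    Function.Injective s → IsBas Λ D h s e →
    IsClosed (LPs Λ D h s) ∧ (∃ ε > 0, ∀ v ∈ LPs Λ D h s, ‖v‖ < ε → v = 0) ∧
    (∀ u ∈ LPs Λ D h s, ∀ v ∈ LPs Λ D h s, u - v ∈ LPs Λ D h s ∧ u + v ∈ LPs Λ D h s) ∧
    (∀ (q : ℕ), q ≠ 0 → ∀ a b : Fin (rk D) → ℤ,
      ((q : ℂ)⁻¹ • ∑ j, (a j : ℂ) • e j - (q : ℂ)⁻¹ • ∑ j, (b j : ℂ) • e j ∈ LPs Λ D h s ↔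
        ∀ j, (a j : ZMod q) = b j)) ∧
    ∀ v : D.V, ∀ q : ℕ, q ≠ 0 → (q : ℂ) • v ∈ LPs Λ D h s →
      ∃ a : Fin (rk D) → ZMod q, v - (q : ℂ)⁻¹ • ∑ j, ((a j).val : ℂ) • e j ∈ LPs Λ D h s

/-- **Bt**: TRANSPORT to near points (`HS.trn`). From TATE.S_Av. PROOF. `ε` such that `s' ↦ D.t s' n` maps the ball into the balls of `FamD` (continuity of `pt` at the
injective point `s`; `FamD.rpos`, `FamD.dom`); `LPD.flat` componentwise; the basis: `LinearIndependent.map'`. The last two clauses: continuity of `s' ↦ trn v` (`FamD.hol`) and of the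
inverse (finite dimension: `s' ↦ trn` is continuous into the operators; inversion is continuous). -/
def S_Bt : Prop :=
  ∀ (Λ : LL) (Φ : FF) (p N : ℕ) (D : Dt p N) (h : D.ok) (s : Fin p → ℂ), Function.Injective s →
    ∃ ε > 0, ∀ s' ∈ ball s ε, Function.Injective s' ∧
      (∀ n, D.t s' n ∈ ball (D.t s n) ((Φ _ _ _ (h.cv n)).ρ (D.t s n))) ∧
      HS.trn Φ D h s s' '' LPs Λ D h s = LPs Λ D h s' ∧
      (∀ e, IsBas Λ D h s e → IsBas Λ D h s' fun i => HS.trn Φ D h s s' (e i)) ∧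
      (∀ v, ContinuousOn (fun s' => HS.trn Φ D h s s' v) (ball s ε)) ∧
      ∀ (X : Type) [TopologicalSpace X] (f : X → (Fin p → ℂ)) (g : X → D.V), Continuous f →
        Continuous g → (∀ x, f x ∈ ball s ε) → Continuous fun x =>
          (HS.trn Φ D h s (f x)).symm (g x)

/-! ## C. The level groups -/

/-- **Rg**: MATRICES OF AUTOMORPHISMS. From S_AdD, S_Bd. PROOF. (1) existence: `v'` with `ActD σ (e_i / q) v'`; `q v'` is in the lattice (`q • (e_i / q) = e_i`, well defined);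
`S_Bd` (5). (2) uniqueness: `S_Bd` (4). (3) composition: additivity, `vq` modulo the lattice. (4) inverse: the matrix of `σ.symm` (existence at `σ s`, `σ.symm (σ s) = s`), composition with uniqueness; the
identity has the matrix `1`. -/
def S_Rg : Prop :=
  ∀ (Λ : LL) (p N : ℕ) (D : Dt p N) (h : D.ok) (σ : ℂ ≃+* ℂ) (s : Fin p → ℂ)
    (e e' : Fin (rk D) → D.V) (q : ℕ), q ≠ 0 → Function.Injective s → FxZ D σ →
    IsBas Λ D h s e → IsBas Λ D h (fun i => σ (s i)) e' →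
    (∃ A, RepG Λ D h σ s e e' q A) ∧
    (∀ A B, RepG Λ D h σ s e e' q A → RepG Λ D h σ s e e' q B → A = B) ∧
    (∀ (τ : ℂ ≃+* ℂ) (e'' : Fin (rk D) → D.V), FxZ D τ →
      IsBas Λ D h (fun i => τ (σ (s i))) e'' → ∀ A B, RepG Λ D h σ s e e' q A →
      RepG Λ D h τ (fun i => σ (s i)) e' e'' q B →
      RepG Λ D h (σ.trans τ) s e e'' q (B * A)) ∧
    (∀ A, RepG Λ D h σ s e e' q A → ∃ B, RepG Λ D h σ.symm (fun i => σ (s i)) e' e q B ∧
      A * B = 1 ∧ B * A = 1) ∧ RepG Λ D h (RingEquiv.refl ℂ) s e e q 1 ∧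
    (∀ A, RepG Λ D h σ s e e' q A → ∀ (T : Matrix (Fin (rk D)) (Fin (rk D)) (ZMod q)) i,
      ActD Λ D h σ s (vq D q T e i) (vq D q (A * T) e' i)) ∧
    ∀ (q' : ℕ) (hq : q ∣ q'), q' ≠ 0 → ∀ A : Matrix (Fin (rk D)) (Fin (rk D)) (ZMod q'),
      RepG Λ D h σ s e e' q' A → RepG Λ D h σ s e e' q (A.map (ZMod.castHom hq (ZMod q)))

/-- **Cy**: THE CYCLOTOMIC CHARACTER. PROOF. `σ` of the primitive root `exp (2 π i / q)` is a power of it. -/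
def S_Cy : Prop :=
  ∀ (σ : ℂ ≃+* ℂ) (q : ℕ), q ≠ 0 → (∃ c, Cyq σ q c) ∧ (∀ c c', Cyq σ q c → Cyq σ q c' → c = c') ∧
    (∀ (τ : ℂ ≃+* ℂ) (c c' : ZMod q), Cyq σ q c → Cyq τ q c' → Cyq (σ.trans τ) q (c' * c)) ∧
    (∀ c, Cyq σ q c → ∃ c', Cyq σ.symm q c' ∧ c * c' = 1 ∧ c' * c = 1) ∧
    Cyq (RingEquiv.refl ℂ) q 1 ∧ (∀ (q' : ℕ) (hq : q ∣ q'), q' ≠ 0 → ∀ c : ZMod q', Cyq σ q' c →
      Cyq σ q (ZMod.castHom hq (ZMod q) c)) ∧
    ∀ (ξ : ℂ) (c c' : ZMod q), IsPrimitiveRoot ξ q → Cyq σ q c → σ ξ = ξ ^ c'.val → c = c'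

/-- **Tw**: THE LEVEL GROUPS ARE A TOWER. From S_Rg, S_Cy. PROOF. `bl A c * bl B d = bl (A * B) (c * d)`, `Matrix.fromBlocks_multiply`; `Gam` is a group. -/
def S_Tw : Prop :=
  ∀ (Λ : LL) (p N : ℕ) (D : Dt p N) (h : D.ok) (s : Fin p → ℂ) (e : Fin (rk D) → D.V) (ℓ : ℕ),
    ℓ.Prime → Function.Injective s → IsBas Λ D h s e →
    Twr (Fin (rk D) ⊕ Unit) ℓ fun k => Sk Λ D h s e (ℓ ^ k)

/-- **Gz**: AUTOMORPHISMS between algebraically independent points, the identity on the algebraic numbers. PROOF. `K = ` the (countable) algebraic closure of `ℚ` in `ℂ`; `s`, `s'` are algebraically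
independent over `K` (`AlgebraicIndependent` and algebraic extensions); `exists_aut_of_ker` (TATE/GA/Sg) for the two evaluations of `MvPolynomial (Fin p) K`. -/
def S_Gz : Prop :=
  ∀ (p : ℕ) (s s' : Fin p → ℂ), AlgebraicIndependent ℚ s → AlgebraicIndependent ℚ s' →
    ∃ σ : ℂ ≃+* ℂ, (∀ i, σ (s i) = s' i) ∧ ∀ a : ℂ, IsAlgebraic ℚ a → σ a = a

/-- **Gn**: ALL ALGEBRAICALLY INDEPENDENT POINTS HAVE THE SAME ORDERS. From S_Gz, S_Rg, S_Cy. PROOF. `σ` from `S_Gz`, `T` its matrix (`RepG σ s e e' q T`), `Sk s' e' = bl T 1 * Sk s e * (bl T 1)⁻¹`: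
for `ρ ∈ Gam s'`: `σ.trans (ρ.trans σ.symm) ∈ Gam s`. -/
def S_Gn : Prop :=
  ∀ (Λ : LL) (p N : ℕ) (D : Dt p N) (h : D.ok) (s s' : Fin p → ℂ) (e e' : Fin (rk D) → D.V)
    (q : ℕ), q ≠ 0 → AlgebraicIndependent ℚ s → AlgebraicIndependent ℚ s' → IsBas Λ D h s e →
    IsBas Λ D h s' e' → (Sk Λ D h s e q).ncard = (Sk Λ D h s' e' q).ncard

end TNF.LG
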