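import Pool.Agent.Lib.TNF.LG.SpecE

/-!
# PROJECT TNF, package LG, (2.3) and (2.4) of note 4967 (helper59): Hilbert data (`S_Hs`) and the upper level (`S_Up`)

Modules: file `TNF/LG/Xyz.lean`, `theorem tXyz : S_Xyz` (for `S_Hs`, `S_Up`: `tHs`, `tUp`), namespace `TNF.LG` (before it `open HC HC.CC SEJ TATE Topology Metric`),
import this file and the proved modules you want. If the docstring says `From S_A, StmtB` the theorem is `tXyz : S_A → StmtB → S_Xyz`. Auxiliary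
lemmas in `namespace TNF.LG.Xyz_aux`. `S_AdD`, `S_Bd`, `S_Bt`, `S_Rg`, `S_Cy`, `S_Gz`, `S_Bs`: `LG/Spec.lean`; `S_Ta`, `S_Eqc`: `LG/SpecE.lean`; `S_Fl`: `LG/Defs2.lean`.
-/

set_option autoImplicit false

open Topology Metric HC HC.CC SEJ TATE

noncomputable section

namespace TNF.LG

/-! ## D1. Algebraic divisors (`S_Ta`, `S_Eqc`: `LG/SpecE.lean`) -/

section dt

variable {p N : ℕ}

/-- `y` contains exact divisors for the `e_i / q`. -/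
structure IsEx (D : Dt p N) (s : Fin p → ℂ) (e : Fin (rk D) → D.V) (q : ℕ)
    {k : Fin (rk D) → Fin N → ℕ} (y : Jx D k → ℂ) : Prop where
  al : ∀ j, AlgO s (y j)
  az : Az D y
  rt : y (Sum.inr none) = ze q 1
  ex : ∀ i n, ∃ w : Fin (k i n) → (Ix (D.m n) (D.b n) → ℂ),
    (∀ a, Itg (D.m n) (D.b n) (D.t s n) (src y i n a) (tgt y i n a) (w a)) ∧
    ∑ a, w a = ((q : ℂ)⁻¹ • e i) n

end dt

/-- **Pac**: THE TUPLE OF THE BASIS. From S_Ta. PROOF. `D.t s n` is injective (`Dt.ok`, `pt`: `inv_inj`, `D.k n = some l` gives `D.i n j ≠ l`; compare TATE/MG/TCo.lean), its values are in `ℚ(s)`, `1 ≤ D.r n` (`ok.r3`). `e i ∈ LPs`, `LPD.fin`: `N₀ • e i n ∈ LZ`, so `q⁻¹ • e i n ∈ LQ`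
(`k = N₀ q`). The first part of `S_Ta` for every `(i, n)`: choose `N = k i n` and the points; `y` is defined by the matches `Sum.inl (⟨i, n, a⟩, 0 | 1 | 2 | 3)`, `Sum.inr (some n) ↦ ze (D.m n) 1`, `Sum.inr none ↦ ze q 1`. Roots of unity are algebraic. -/
def S_Pac : Prop :=
  ∀ (Λ : LL) (p N : ℕ) (D : Dt p N) (h : D.ok) (s : Fin p → ℂ), Function.Injective s →
    ∀ e, IsBas Λ D h s e → ∀ q : ℕ, q ≠ 0 → ∃ (k : Fin (rk D) → Fin N → ℕ) (y : Jx D k → ℂ),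
      IsEx D s e q y

/-! ## D2. The polynomial -/

/-- **Iri**: THE POLYNOMIAL IS IRREDUCIBLE. PROOF. `P` is in the kernel of `QS p [X] → ℂ`, `X ↦ θ` (`root`), and divides all its elements (`ker`), so the kernel is `(P)`, a prime ideal; `P ≠ 0` (`GoodAt`: `cf s leadingCoeff ≠ 0`), so `P` is prime, irreducible. `natDegree P ≠ 0`: otherwise `P = C a`, `cf s a = 0`
contradicts `GoodAt`. So `P` is primitive and Gauss (`Polynomial.IsPrimitive.irreducible_iff_irreducible_map_fraction_map`). -/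
def S_Iri : Prop :=
  ∀ (p k : ℕ) (s : Fin p → ℂ) (y : Fin k → ℂ) (P : Polynomial (QS p))
    (R : Fin k → Polynomial (QS p)) (d e : QS p) (θ : ℂ), IsDat s y P R d e θ →
    IrrG P ∧ 0 < P.natDegree

/-- **Nvf**: NONVANISHING. From S_Iri. PROOF. `clear_den`: `N`, `g` with `cf s' d ^ N * f(s', y') = g.eval₂ (cf s') x`. At `s`, `θ`: `g.eval₂ (cf s) θ ≠ 0` (`cf s d ≠ 0`), so `P ∤ g` (`root`). `P` is irreducible over the field of fractions (`S_Iri`) and does not divide `g` there (Gauss, or: if `P q = b g`, `b ≠ 0`, evaluate at `s`, `θ`: `cf s b * g(θ) = 0`,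
`cf s b ≠ 0` by the injectivity of `cf s`), so `U P + V g = C Δ`, `Δ ≠ 0` (Bezout, clear denominators; compare `kernel_gen` in TATE/GA/Al.lean). If `cf s' Δ ≠ 0` and `P(s', x) = 0` then `g(s', x) ≠ 0`. -/
def S_Nvf : Prop :=
  ∀ (p k : ℕ) (s : Fin p → ℂ) (y : Fin k → ℂ) (P : Polynomial (QS p))
    (R : Fin k → Polynomial (QS p)) (d e : QS p) (θ : ℂ), AlgebraicIndependent ℚ s →
    IsDat s y P R d e θ → ∀ f : MvPolynomial (Fin p ⊕ Fin k) ℚ,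
    MvPolynomial.aeval (Sum.elim s y) f ≠ 0 → ∃ Δ : QS p, Δ ≠ 0 ∧ ∀ s', cf s' Δ ≠ 0 →
      cf s' d ≠ 0 → ∀ x, (PS P s').eval x = 0 →
      MvPolynomial.aeval (Sum.elim s' fun i => (PS (R i) s').eval x / cf s' d) f ≠ 0

/-- The data of a tuple with the index set `J`. -/
structure DJ {p : ℕ} {J : Type} (s : Fin p → ℂ) (y : J → ℂ) (P : Polynomial (QS p))
    (R : J → Polynomial (QS p)) (d e : QS p) (θ : ℂ) : Prop where
  ind : AlgebraicIndependent ℚ s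
  e0 : e ≠ 0
  irr : IrrG P
  deg : 0 < P.natDegree
  good : ∀ s', cf s' e ≠ 0 → GoodAt P s' ∧ cf s' d ≠ 0
  dne : cf s d ≠ 0
  root : (PS P s).eval θ = 0
  val : ∀ j, (PS (R j) s).eval θ = cf s d * y j
  ker : ∀ x, (PS P s).eval x = 0 → ∀ g : Polynomial (QS p), g.eval₂ (cf s) x = 0 → P ∣ g
  spc : ∀ s' x, cf s' d ≠ 0 → (PS P s').eval x = 0 → ∀ f : MvPolynomial (Fin p ⊕ J) ℚ,
    MvPolynomial.aeval (Sum.elim s y) f = 0 →
    MvPolynomial.aeval (Sum.elim s' fun j => (PS (R j) s').eval x / cf s' d) f = 0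
  nv : ∀ f : MvPolynomial (Fin p ⊕ J) ℚ, MvPolynomial.aeval (Sum.elim s y) f ≠ 0 →
    ∃ Δ : QS p, Δ ≠ 0 ∧ ∀ s', cf s' Δ ≠ 0 → cf s' d ≠ 0 → ∀ x, (PS P s').eval x = 0 →
      MvPolynomial.aeval (Sum.elim s' fun j => (PS (R j) s').eval x / cf s' d) f ≠ 0

/-- **Dat**: THE DATA EXIST. From S_Iri, S_Nvf. PROOF. `exists_dat` (TATE/GA/Al3.lean) for `y ∘ e.symm`, `e : J ≃ Fin (card J)` (`Fintype.equivFin`), `R j = R' (e j)`; polynomials are renamed: `MvPolynomial.rename (Sum.map id e)`, `MvPolynomial.aeval_rename`. `e ≠ 0` from `cf s e ≠ 0`. -/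
def S_Dat : Prop :=
  ∀ (p : ℕ) (J : Type) [Fintype J] (s : Fin p → ℂ) (y : J → ℂ), AlgebraicIndependent ℚ s →
    (∀ j, AlgO s (y j)) → ∃ (P : Polynomial (QS p)) (R : J → Polynomial (QS p)) (d e : QS p)
      (θ : ℂ), DJ s y P R d e θ

/-- **Pnp**: `P ∈ Pts` AS POLYNOMIAL CONDITIONS. PROOF. `D.k n = none`: `f = Y_1 ^ m - ∏_j (Y_0 - S_(i j)) ^ b j`, `g = ∏_j (Y_0 - S_(i j))`. `D.k n = some l`: `t_j = (S_(i j) - S_l)⁻¹`, `D.i n j ≠ l` (`ok.lt`), `f = Y_1 ^ m ∏_j (S_(i j) - S_l) ^ b j - ∏_j (Y_0 (S_(i j) - S_l) - 1) ^ b j`,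
`g = ∏_j (Y_0 (S_(i j) - S_l) - 1)`; the factors `s (i j) - s l` are not `0`. Compare TATE/MG/Ext.lean. -/
def S_Pnp : Prop :=
  ∀ (p N : ℕ) (D : Dt p N), D.ok → ∀ n : Fin N, ∃ f g : MvPolynomial (Fin p ⊕ Fin 2) ℚ,
    ∀ s : Fin p → ℂ, Function.Injective s → ∀ P : ℂ × ℂ,
      (P ∈ Pts (D.m n) (D.b n) (D.t s n) ↔
        MvPolynomial.aeval (Sum.elim s ![P.1, P.2]) f = 0 ∧
        MvPolynomial.aeval (Sum.elim s ![P.1, P.2]) g ≠ 0)

/-- **Onp**: THE POINTS STAY ON THE CURVES. From S_Pnp. PROOF. `Δ = e * ∏_(i ≠ j) (X i - X j) * ∏ Δ_(i, n, a)`, the `Δ_(i, n, a)` from `DJ.nv` for the polynomial `g` of `S_Pnp` renamed by `Sum.map id ![index of the first coordinate, index of the second coordinate]`, for the two points of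
`(i, n, a)` (a finite product over `Σ i n, Fin (k i n)`); the equation `f` by `DJ.spc`. `X i - X j ≠ 0`. -/
def S_Onp : Prop :=
  ∀ (p N : ℕ) (D : Dt p N), D.ok → ∀ (k : Fin (rk D) → Fin N → ℕ) (s : Fin p → ℂ)
    (y : Jx D k → ℂ) (P : Polynomial (QS p)) (R : Jx D k → Polynomial (QS p)) (d e : QS p)
    (θ : ℂ), Function.Injective s → OnP D s y → DJ s y P R d e θ →
    ∃ Δ : QS p, Δ ≠ 0 ∧ ∀ s', cf s' Δ ≠ 0 → Function.Injective s' ∧ cf s' e ≠ 0 ∧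
      ∀ x, (PS P s').eval x = 0 → OnP D s' (yv R d s' x)

/-- **Rzc**: THE ROOTS OF UNITY. PROOF. `X_j ^ m - 1` with `DJ.spc` (`ze m 1 ^ m = 1`; `D.m n ≥ 3` by `ok.cv`); primitive: `y ^ q = 1` by `DJ.spc`, `y ^ l ≠ 1` for `0 < l < q` by `DJ.nv`, a finite product of the `Δ_l` (`IsPrimitiveRoot.mk_of_lt`); `ze q 1` is primitive (`Complex.isPrimitiveRoot_exp`). -/
def S_Rzc : Prop :=
  ∀ (p N : ℕ) (D : Dt p N), D.ok → ∀ (k : Fin (rk D) → Fin N → ℕ) (q : ℕ) (s : Fin p → ℂ)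
    (y : Jx D k → ℂ) (P : Polynomial (QS p)) (R : Jx D k → Polynomial (QS p)) (d e : QS p)
    (θ : ℂ), q ≠ 0 → Az D y → y (Sum.inr none) = ze q 1 → DJ s y P R d e θ →
    ∃ Δ : QS p, Δ ≠ 0 ∧ ∀ s', cf s' Δ ≠ 0 → cf s' d ≠ 0 → ∀ x, (PS P s').eval x = 0 →
      (∀ n, yv R d s' x (Sum.inr (some n)) ^ D.m n = 1) ∧
      IsPrimitiveRoot (yv R d s' x (Sum.inr none)) q

/-- **Exz**: A ROOT WITH THE RIGHT ROOTS OF UNITY. From S_Gz. PROOF. `σ` from `S_Gz`, `σ s = s'`, the identity on algebraic numbers: `x = σ θ`, `yv R d s' x j = σ (y j)` (`val`, apply `σ`; `σ ∘ cf s = cf s'`), `ze` is algebraic. -/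
def S_Exz : Prop :=
  ∀ (p N : ℕ) (D : Dt p N) (k : Fin (rk D) → Fin N → ℕ) (s : Fin p → ℂ) (y : Jx D k → ℂ)
    (P : Polynomial (QS p)) (R : Jx D k → Polynomial (QS p)) (d e : QS p) (θ : ℂ), Az D y →
    DJ s y P R d e θ → ∀ s', AlgebraicIndependent ℚ s' →
      ∃ x, (PS P s').eval x = 0 ∧ Az D (yv R d s' x)

/-- **Cnj**: ALL ROOTS AT GENERIC POINTS ARE CONJUGATE. From S_Gz. PROOF. `σ₁` from `S_Gz` with `σ₁ s = s'`, `x₁ = σ₁⁻¹ x` is a root of `P(s, X)`; `exists_aut_of_ker` for `eval₂ (cf s) θ` and `eval₂ (cf s') x` on `QS p [X]`: both kernels are `(P)` (`DJ.ker` for `θ` and for `x₁`, transported by `σ₁`). -/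
def S_Cnj : Prop :=
  ∀ (p : ℕ) (J : Type) (s : Fin p → ℂ) (y : J → ℂ) (P : Polynomial (QS p))
    (R : J → Polynomial (QS p)) (d e : QS p) (θ : ℂ), DJ s y P R d e θ →
    ∀ s', AlgebraicIndependent ℚ s' → ∀ x, (PS P s').eval x = 0 →
      ∃ σ : ℂ ≃+* ℂ, (∀ i, σ (s i) = s' i) ∧ σ θ = x ∧
        ∀ j, σ (y j) = (PS (R j) s').eval x / cf s' d

/-- **Bsx**: THE DIVISORS GIVE A BASIS. From S_Cnj, S_Eqc, S_Rg. PROOF. `σ` from `S_Cnj`: `σ y = yv R d s' x`, so `FxZ D σ` (`Az` for `y` and for `yv R d s' x`); `σ s = s'` as functions (`funext`). `Cls Λ D h s y i (q⁻¹ • e i)` (`IsEx.ex`, the difference `0` is in `L`). `S_Rg` (1): `T` with `RepG Λ D h σ s e e' q T`, `T'` from (4).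
`ActD σ s (q⁻¹ • e i) (vq D q T e' i)` is `RepG`, and `S_Eqc` (2) gives `Cls … s' (σ y) i (vq D q T e' i)`. -/
def S_Bsx : Prop :=
  ∀ (Λ : LL) (p N : ℕ) (D : Dt p N) (h : D.ok) (q : ℕ) (k : Fin (rk D) → Fin N → ℕ)
    (s : Fin p → ℂ) (y : Jx D k → ℂ) (P : Polynomial (QS p)) (R : Jx D k → Polynomial (QS p))
    (d e₀ : QS p) (θ : ℂ) (e : Fin (rk D) → D.V), q ≠ 0 → Function.Injective s →
    IsBas Λ D h s e → IsEx D s e q y → DJ s y P R d e₀ θ →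
    ∀ s', AlgebraicIndependent ℚ s' → Function.Injective s' → ∀ x, (PS P s').eval x = 0 →
      Az D (yv R d s' x) → ∀ e', IsBas Λ D h s' e' →
      ∃ T T' : Matrix (Fin (rk D)) (Fin (rk D)) (ZMod q), T * T' = 1 ∧ T' * T = 1 ∧
        ∀ i, Cls Λ D h s' (yv R d s' x) i (vq D q T e' i)

/-- **Gpt**: ALGEBRAICALLY INDEPENDENT POINTS. PROOF. `tGA4` (TATE/GA/G3.lean): the others are a meagre set; the complement of a meagre set is dense (`dense_of_mem_residual`; `Fin p → ℂ` is a Baire space). An algebraically independent family is injective. -/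
def S_Gpt : Prop :=
  ∀ p : ℕ, Dense {s : Fin p → ℂ | AlgebraicIndependent ℚ s} ∧
    ∀ s : Fin p → ℂ, AlgebraicIndependent ℚ s → Function.Injective s

/-! **Hs** (module `LG/Hs.lean`): `tHs : S_Gpt → S_Bs → S_Pac → S_Dat → S_Onp → S_Rzc → S_Exz → S_Bsx → S_Hs`. PROOF. `s` algebraically independent (`S_Gpt`), a basis `e` (`S_Bs`), `k`, `y` (`S_Pac`), `P R d e₀ θ` (`S_Dat`; `Jx D k` is finite), `OnP D s y` (the end points of an `Itg` are in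
`Pts`: `StmtFA2`, third clause; so `StmtFA2` is an additional first hypothesis), `Δ` = the product of the `Δ` of `S_Onp` and `S_Rzc` and of `e₀`. `irr`, `deg`: `DJ`. `good`: `DJ.good`. `on`, `rz`, `rc`, `ex` (`S_Exz`), `bas` (`S_Bsx`). So: `tHs : StmtFA2 → S_Gpt → S_Bs → S_Pac → S_Dat → S_Onp → S_Rzc → S_Exz → S_Bsx → S_Hs`. -/

/-! ## D3. The upper level -/

/-- **Cst**: ROOTS OF UNITY ARE LOCALLY CONSTANT. PROOF. The values are in the finite set of the roots of `X ^ m - 1`; the image of the preconnected ball is preconnected and finite, so it has at most one point (`Set.Finite.isTotallyDisconnected` / `IsPreconnected.subsingleton`). -/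
def S_Cst : Prop :=
  ∀ (p m : ℕ) (s₀ : Fin p → ℂ) (ε : ℝ) (f : (Fin p → ℂ) → ℂ), m ≠ 0 → 0 < ε →
    ContinuousOn f (ball s₀ ε) → (∀ s ∈ ball s₀ ε, f s ^ m = 1) → ∀ s ∈ ball s₀ ε, f s = f s₀

/-- **Sgz**: CONJUGATION AT `s₀`. PROOF. `K = Qs s₀` is countable; `exists_aut_of_ker` (TATE/GA/Sg.lean) for `B = Polynomial (QS p)` is not enough (`cf s₀` is not injective): use `B = Polynomial (Qs s₀)`, the evaluations at `x` and `x'`; both kernels are generated by `P.map (toQs s₀)` (irreducible over the field `Qs s₀`, with the roots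
`x`, `x'`; `cf s₀ = algebraMap ∘ toQs s₀`). Countable: `Qs s₀` is algebraic over a countable ring, or it is generated by `s₀` (`IntermediateField.adjoin`, cardinality; compare `Pool.Agent.A640.Tate.countable_…`, or the image of the fraction field of the countable ring `QS p ⧸ ker (cf s₀)`). The automorphism fixes `algebraMap a`,
`a ∈ Qs s₀`, so it fixes `s₀ i`. -/
def S_Sgz : Prop :=
  ∀ (p : ℕ) (P : Polynomial (QS p)) (s₀ : Fin p → ℂ), IrrAt P s₀ → ∀ x x', (PS P s₀).eval x = 0 →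
    (PS P s₀).eval x' = 0 → ∃ σ : ℂ ≃+* ℂ, (∀ i, σ (s₀ i) = s₀ i) ∧ σ x = x'

/-- **Yvs**: CONJUGATION OF THE TUPLES. PROOF. `σ (cf s a) = cf (σ s) a` (`MvPolynomial.aeval`, `map_aeval`; induction), so `σ ((PS Q s).eval x) = (PS Q (σ s)).eval (σ x)` (`Polynomial.eval_map`, `hom_eval₂`); division. -/
def S_Yvs : Prop :=
  ∀ (p N : ℕ) (D : Dt p N) (k : Fin (rk D) → Fin N → ℕ) (P : Polynomial (QS p))
    (R : Jx D k → Polynomial (QS p)) (d : QS p) (s : Fin p → ℂ) (x : ℂ) (σ : ℂ ≃+* ℂ),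
    (∀ a : QS p, σ (cf s a) = cf (fun i => σ (s i)) a) ∧
    ((PS P s).eval x = 0 → (PS P fun i => σ (s i)).eval (σ x) = 0) ∧
    ∀ j, σ (yv R d s x j) = yv R d (fun i => σ (s i)) (σ x) j

/-- The branches near `s₀`: `η j` the roots, `c j` the value of the entry `inr none`. -/
structure Brs (Λ : LL) (Φ : FF) {p N : ℕ} (D : Dt p N) (h : D.ok) (q : ℕ)
    {k : Fin (rk D) → Fin N → ℕ} (P : Polynomial (QS p)) (R : Jx D k → Polynomial (QS p))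
    (d : QS p) (s₀ : Fin p → ℂ) (e : Fin (rk D) → D.V) (ε : ℝ)
    (η : Fin P.natDegree → (Fin p → ℂ) → ℂ) (c : Fin P.natDegree → ℂ) : Prop where
  rts : ∀ s ∈ ball s₀ ε, ∀ x, (PS P s).eval x = 0 ↔ ∃ j, η j s = x
  cst : ∀ j, ∀ s ∈ ball s₀ ε, yv R d s (η j s) (Sum.inr none) = c j ∧ IsPrimitiveRoot (c j) q
  az : ∀ j, ∀ s ∈ ball s₀ ε, Az D (yv R d s (η j s)) ↔ Az D (yv R d s₀ (η j s₀))
  on : ∀ j, ∀ s ∈ ball s₀ ε, OnP D s (yv R d s (η j s))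
  cls : ∀ j, Az D (yv R d s₀ (η j s₀)) → ∃ T T' : Matrix (Fin (rk D)) (Fin (rk D)) (ZMod q),
    T * T' = 1 ∧ T' * T = 1 ∧ ∀ s ∈ ball s₀ ε, ∀ i,
      Cls Λ D h s (yv R d s (η j s)) i (vq D q T (fun i => HS.trn Φ D h s₀ s (e i)) i)

/-- **Bch**: THE BRANCHES. From S_Cst, S_Fl, S_Bt, S_Bd, S_Eqc, S_Gpt. PROOF. (`S_Eqc` for `σ = RingEquiv.refl ℂ`.) `s₀` is injective, `GoodAt P s₀`, `cf s₀ d ≠ 0` (`HD.good`). `branches` (TATE/GA/Rt2.lean): `ε₁`, `η`; shrink: `cf s Δ ≠ 0` on the ball (continuity of `s ↦ cf s Δ`) and `ε₁ ≤ ε` of `S_Bt`. `yv R d s (η j s)` is holomorphic on the ball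
(`vf_hol` in TATE/GA/Gm.lean for `Fin k`; the same proof), `OnP` by `HD.on`. `cst`, `az`: `S_Cst`, `HD.rz`, `HD.rc` (`rc`: the power `q`). `cls`: `S_Fl` with `f = p`, `ξ₀ = s₀`, `s ξ = ξ`, `y ξ = yv R d ξ (η j ξ)`, `G` = the algebraically independent points (`S_Gpt`: dense); for `ξ ∈ G` in the ball: `Az` holds at `ξ`, so `HD.bas` for the basis
`trn s₀ ξ ∘ e` (`S_Bt`) gives `T₁` with `Cls ξ (y ξ) i (vq D q T₁ (trn e) i)`, and `q • vq … ∈ L`. So: `ε' i`, `l i ∈ LPs s₀`, `Cls ξ (y ξ) i (q⁻¹ • trn s₀ ξ (l i))` on `ball s₀ (ε' i)`. `l i = ∑_r a_(r i) e_r` (`IsBas.ex`), `T r i = (a_(r i) : ZMod q)`; `q⁻¹ • trn (l i) - vq D q T (trn e) i ∈ L` (`a ≡ (a : ZMod q).val` modulo `q`), so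
`Cls … (vq D q T …)` by `S_Eqc` (4). Invertible: at one algebraically independent `ξ` in the small ball `T = T₁` (`S_Eqc` (3), `S_Bd` (4)). Take the minimum of the finitely many radii (`i`, `j`). -/
def S_Bch : Prop :=
  ∀ (Λ : LL) (Φ : FF) (p N : ℕ) (D : Dt p N) (h : D.ok) (q : ℕ) (k : Fin (rk D) → Fin N → ℕ)
    (P : Polynomial (QS p)) (R : Jx D k → Polynomial (QS p)) (d Δ : QS p), q ≠ 0 →
    HD Λ D h q k P R d Δ → ∀ s₀ : Fin p → ℂ, cf s₀ Δ ≠ 0 → ∀ e, IsBas Λ D h s₀ e →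
    ∃ ε > 0, ∃ (η : Fin P.natDegree → (Fin p → ℂ) → ℂ) (c : Fin P.natDegree → ℂ),
      Brs Λ Φ D h q P R d s₀ e ε η c

/-- **Cmp**: THE MATRIX FROM TWO BRANCHES. From S_Eqc, S_AdD, S_Bd, S_Rg. PROOF. `ActD σ s (vq T e i) (vq T₂ e i)` (`S_Eqc` (1); `σ s = s`), `ActD σ s (vq T e i) (vq (A * T) e i)` (`S_Rg` (6)); so `vq T₂ e i - vq (A T) e i ∈ L` (`S_AdD` (4)) and `T₂ = A T` (`S_Bd` (4)). -/
def S_Cmp : Prop :=
  ∀ (Λ : LL) (p N : ℕ) (D : Dt p N) (h : D.ok) (q : ℕ) (k : Fin (rk D) → Fin N → ℕ)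
    (s : Fin p → ℂ) (e : Fin (rk D) → D.V) (y : Jx D k → ℂ) (σ : ℂ ≃+* ℂ)
    (T T₂ A : Matrix (Fin (rk D)) (Fin (rk D)) (ZMod q)), q ≠ 0 → Function.Injective s →
    IsBas Λ D h s e → σ ∈ Gam D s → (∀ i, Cls Λ D h s y i (vq D q T e i)) →
    (∀ i, Cls Λ D h s (fun j => σ (y j)) i (vq D q T₂ e i)) → RepG Λ D h σ s e e q A → T₂ = A * T

/-! **Up** (module `LG/Up.lean`): `tUp : S_Bch → S_Bt → S_Gpt → S_Sgz → S_Yvs → S_Cmp → S_Rg → S_Cy → S_Up`. PROOF. `Hil [P] Δ s₀`: `cf s₀ Δ ≠ 0`, `IrrAt P s₀`. `ε`, `η`, `c` from `S_Bch`, `ε ≤` the radius of `S_Bt`. Let `s` be algebraically independent in the ball, `e_s = trn s₀ s ∘ e` (a basis at `s`), `σ ∈ Gam D s`, `A`, `c₀`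
with `RepG σ s e_s e_s q A`, `Cyq σ q c₀`. `HD.ex`: a root `x` at `s` with `Az`; `x = η i₀ s` (`Brs.rts`), `Az` at `s₀` (`Brs.az`). `σ x` is a root at `σ s = s` (`S_Yvs`): `σ x = η j s`; `σ (yv R d s (η i₀ s)) = yv R d s (η j s)`, so `Az` holds for `j` at `s` (`σ ∈ Gam`), hence at `s₀`. `S_Sgz`: `σ₀` with `σ₀ s₀ = s₀`, `σ₀ (η i₀ s₀) = η j s₀`,
`σ₀ (yv R d s₀ (η i₀ s₀)) = yv R d s₀ (η j s₀)`, so `σ₀` fixes the `ze (D.m n) 1` (`Az` for both): `σ₀ ∈ Gam D s₀`. `A₀` the matrix of `σ₀` (`S_Rg` (1)). `T`, `T_2` from `Brs.cls` for `i₀`, `j`: `S_Cmp` at `s` and at `s₀` (`trn s₀ s₀ = id`, `Φ.one`): `T_2 = A T`, `T_2 = A₀ T`, `T` invertible: `A = A₀`. Cyclotomic: `c₁` with `Cyq σ₀ q c₁` (`S_Cy` (1)),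
`σ (c i₀) = c j = σ₀ (c i₀)`, `c i₀` is primitive and `σ (c i₀) = (c i₀) ^ c₀.val` (`Cyq`), so `c₁ = c₀` (`S_Cy` (7)). So `bl A c₀ ∈ Sk s₀ e q`. -/

end TNF.LG
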