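import Pool.Agent.Lib.TNF.LG.Defs2
import Pool.Agent.Lib.TNF.CV.Spec

/-!
# PROJECT TNF, package LG (helper64): deformation of divisors, lower level, loops (note 4967, 2.5 - 2.7)

Modules: file `TNF/LG/Xyz.lean`, `theorem tXyz : S_Xyz`, namespace `TNF.LG`; `From S_A, StmtB`: `tXyz : S_A → StmtB → S_Xyz`.
-/

set_option autoImplicit false

open Topology Metric HC HC.CC SEJ TATE

noncomputable section

namespace TNF.LG

/-! ## D0. Classes -/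

/-- **Eqc**: RULES FOR CLASSES. From StmtFA2, S_AdD. PROOF. (1) by definition of `Act` (the components of `σ y` are the images). (2) integrals at `σ s` between the points of `σ y` exist
(`StmtFA2`, first clause); (3) two integrals between the same points differ by a period, `LZ ⊆ L`; (4) `sub`. (5) `TATE.TO.S_Eqv` style: `σ (P) ∈ Pts` at `σ t`. (6): integrals exist, `v = ∑ w`. -/
def S_Eqc : Prop :=
  ∀ (Λ : LL) (p N : ℕ) (D : Dt p N) (h : D.ok) (k : Fin (rk D) → Fin N → ℕ) (s : Fin p → ℂ)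
    (σ : ℂ ≃+* ℂ) (y : Jx D k → ℂ) (i : Fin (rk D)), Function.Injective s → FxZ D σ →
    (∀ v v', Cls Λ D h s y i v → Cls Λ D h (fun l => σ (s l)) (fun j => σ (y j)) i v' →
      ActD Λ D h σ s v v') ∧
    (∀ v v', Cls Λ D h s y i v → ActD Λ D h σ s v v' →
      Cls Λ D h (fun l => σ (s l)) (fun j => σ (y j)) i v') ∧
    (∀ v v', Cls Λ D h s y i v → Cls Λ D h s y i v' → v - v' ∈ LPs Λ D h s) ∧
    (∀ v v', Cls Λ D h s y i v → v' - v ∈ LPs Λ D h s → Cls Λ D h s y i v') ∧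
    (OnP D s y → OnP D (fun l => σ (s l)) fun j => σ (y j)) ∧
    (OnP D s y → ∃ v, Cls Λ D h s y i v)

/-! ## E. Deformation of divisors -/

/-- **Ra**: ALGEBRAICITY. From StmtTP, StmtGA1, TO.S_Cnt, TO.S_Eqv. PROOF. As `TATE.TO.S_Sum` (TATE/TO). `T`, `γ`, `κ` from `StmtTP` for `t`, `IsMod s γ {ze m 1}`. `A = {ze m 1} ∪` the coordinates of the
`R a`, `Q' a`, `Q a`. `S` = the set of the tuples `P'` with `Ind m b t P'` and `Rt T (∑ (α P'_a - α R_a) + ∑ (α Q_a - α Q'_a))`: countable (`TO.S_Cnt`; the torsion points are countable), stable under `Fix s A` (`IsMod`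
with the coefficients `k`, `-k`; `TO.S_Eqv`), contains `R'`. `StmtGA1`. -/
def S_Ra : Prop :=
  ∀ (m r : ℕ) (b : Fin (r + 1) → ℕ), LPD m b → ∀ t : Fin (r + 1) → ℂ, Cvb m b → 1 ≤ r →
    Function.Injective t → ∀ (p : ℕ) (s : Fin p → ℂ),
    (∀ j, t j ∈ IntermediateField.adjoin ℚ (Set.range s)) →
    ∀ (R R' : Fin (Fintype.card (Ix m b)) → ℂ × ℂ)
      (w : Fin (Fintype.card (Ix m b)) → (Ix m b → ℂ)), TO.Ind m b t R' →
    (∀ a, AlgO s (R a).1 ∧ AlgO s (R a).2) → (∀ a, Itg m b t (R a) (R' a) (w a)) →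
    ∀ (K : ℕ) (Q' Q : Fin K → ℂ × ℂ) (u : Fin K → (Ix m b → ℂ)),
    (∀ a, AlgO s (Q' a).1 ∧ AlgO s (Q' a).2 ∧ AlgO s (Q a).1 ∧ AlgO s (Q a).2) →
    (∀ a, Itg m b t (Q' a) (Q a) (u a)) → ∑ a, w a + ∑ a, u a ∈ LQ m b t →
    ∀ a, AlgO s (R' a).1 ∧ AlgO s (R' a).2

/-- **Ta**: RATIONAL VECTORS ARE EXACT SUMS between algebraic points, at every injective point. From S_Ra, TO.S_Om, TO.S_Inv. PROOF. A basis `om (R a)`, `(R a).1` rational (`TO.S_Om`), the coordinates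
of `R a` are algebraic (`y ^ m = ∏ (x - t_j) ^ b_j`); `TO.S_Inv` (1) for `v`: `n • ∑ w a = v`; `∑ w a ∈ LQ`; `S_Ra` with `K = 0`; `n` copies. Second part: `R` itself. -/
def S_Ta : Prop :=
  ∀ (m r : ℕ) (b : Fin (r + 1) → ℕ), LPD m b → ∀ t : Fin (r + 1) → ℂ, Cvb m b → 1 ≤ r →
    Function.Injective t → ∀ (p : ℕ) (s : Fin p → ℂ),
    (∀ j, t j ∈ IntermediateField.adjoin ℚ (Set.range s)) →
    (∀ v ∈ LQ m b t, ∃ (K : ℕ) (Q' Q : Fin K → ℂ × ℂ) (w : Fin K → (Ix m b → ℂ)),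
      (∀ a, AlgO s (Q' a).1 ∧ AlgO s (Q' a).2 ∧ AlgO s (Q a).1 ∧ AlgO s (Q a).2) ∧
      (∀ a, Itg m b t (Q' a) (Q a) (w a)) ∧ ∑ a, w a = v) ∧
    ∃ R, TO.Ind m b t R ∧ ∀ a, AlgO s (R a).1 ∧ AlgO s (R a).2

/-- **Yb**: THE BRANCH WITH PARAMETERS. PROOF. `f (t, x) = ∏ (x - t_j) ^ b_j` has no zero near `(t₀, P.1)`; on a small ball `|f (t, x) / f (t₀, P.1) - 1| < 1`; `η = P.2 * (f (t, x) / f (t₀, P.1)) ^ (1 / m : ℂ)` (compare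
TATE/TO, the proof of `S_Br`). Last clause: a point `(x, y)` of the curve near `P` is `(x, η (t, x))` (`y = ξ η`, `ξ ^ m = 1`, `ξ` near `1`). -/
def S_Yb : Prop :=
  ∀ (m r : ℕ) (b : Fin (r + 1) → ℕ) (t₀ : Fin (r + 1) → ℂ), Cvb m b → Function.Injective t₀ →
    ∀ P ∈ Pts m b t₀, ∃ ε > 0, ∃ η : (Fin (r + 1) → ℂ) × ℂ → ℂ,
      DifferentiableOn ℂ η (ball (t₀, P.1) ε) ∧ η (t₀, P.1) = P.2 ∧
      ∀ x ∈ ball (t₀, P.1) ε, Function.Injective x.1 ∧ (x.2, η x) ∈ Pts m b x.1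

/-- **Dfb**: THE EQUATION `F (z, x) = u z` has a holomorphic solution. PROOF. Implicit function theorem: `(z, x) ↦ (z, F (z, x) - u z)` is `C^1` (holomorphic), its derivative at `(0, x₀)` is invertible
(triangular); local inverse `HasStrictFDerivAt.toOpenPartialHomeomorph` (`ContDiffAt.toOpenPartialHomeomorph`), it is holomorphic near `(0, 0)`. -/
def S_Dfb : Prop :=
  ∀ (g : ℕ) (V : Type) [NormedAddCommGroup V] [NormedSpace ℂ V] [FiniteDimensional ℂ V]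
    (x₀ : Fin g → ℂ) (ε : ℝ) (F : ℂ × (Fin g → ℂ) → V) (u : ℂ → V), 0 < ε →
    DifferentiableOn ℂ F (ball (0, x₀) ε) → DifferentiableOn ℂ u (ball 0 ε) → F (0, x₀) = u 0 →
    Function.Bijective (fun x : Fin g → ℂ => fderiv ℂ F (0, x₀) (0, x)) →
    ∃ ε' > 0, ε' ≤ ε ∧ ∃ x : ℂ → (Fin g → ℂ), DifferentiableOn ℂ x (ball 0 ε') ∧ x 0 = x₀ ∧
      ∀ z ∈ ball (0 : ℂ) ε', (z, x z) ∈ ball (0, x₀) ε ∧ F (z, x z) = u z

/-- **Dfa**: THE SUM OF THE INTEGRALS AS A FUNCTION. From StmtFA2, S_Yb. PROOF. Keep the `x`-coordinates of `Q'_a`, `Q_a`, `R_a` and take `y = η (t z, x)` (`S_Yb`); the end points of the last integrals are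
`(x_a, η (t z, x_a))`. `StmtFA2`, fifth clause, with the parameters `(z, x) ∈ Fin (1 + g) → ℂ` (or `Fin.cons z x`), for every integral; the integral from `R a` to `R a` is `0` (`Itg.refl`). The derivative in `x`: `F (0, x) - F (0, x₀)` is the sum
of the integrals from `R a` to `(x_a, η (t₀, x_a))` (continuous functions of `x_a`): `StmtFA2`, last clause. -/
def S_Dfa : Prop :=
  ∀ (m r : ℕ) (b : Fin (r + 1) → ℕ) (ε : ℝ) (t : ℂ → (Fin (r + 1) → ℂ)), Cvb m b → 0 < ε →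
    DifferentiableOn ℂ t (ball 0 ε) → Function.Injective (t 0) →
    ∀ (K : ℕ) (Q' Q : Fin K → ℂ × ℂ) (w : Fin K → (Ix m b → ℂ)),
    (∀ a, Itg m b (t 0) (Q' a) (Q a) (w a)) →
    ∀ R : Fin (Fintype.card (Ix m b)) → ℂ × ℂ, TO.Ind m b (t 0) R →
    ∃ ε' > 0, ε' ≤ ε ∧ ∃ (q' q : Fin K → ℂ → ℂ × ℂ)
      (ρ : Fin (Fintype.card (Ix m b)) → ℂ → ℂ × ℂ)
      (ρ' : Fin (Fintype.card (Ix m b)) → ℂ × (Fin (Fintype.card (Ix m b)) → ℂ) → ℂ × ℂ)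
      (F : ℂ × (Fin (Fintype.card (Ix m b)) → ℂ) → (Ix m b → ℂ)),
      (∀ a, DifferentiableOn ℂ (q' a) (ball 0 ε') ∧ DifferentiableOn ℂ (q a) (ball 0 ε') ∧
        q' a 0 = Q' a ∧ q a 0 = Q a ∧
        ∀ z ∈ ball (0 : ℂ) ε', (q' a z).1 = (Q' a).1 ∧ (q a z).1 = (Q a).1) ∧
      (∀ a, DifferentiableOn ℂ (ρ a) (ball 0 ε') ∧ ρ a 0 = R a ∧
        (∀ z ∈ ball (0 : ℂ) ε', (ρ a z).1 = (R a).1) ∧
        DifferentiableOn ℂ (ρ' a) (ball (0, fun a => (R a).1) ε') ∧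
        ρ' a (0, fun a => (R a).1) = R a ∧
        ∀ x ∈ ball ((0 : ℂ), fun a => (R a).1) ε', (ρ' a x).1 = x.2 a) ∧
      DifferentiableOn ℂ F (ball (0, fun a => (R a).1) ε') ∧
      F (0, fun a => (R a).1) = ∑ a, w a ∧
      (∀ x : Fin (Fintype.card (Ix m b)) → ℂ, fderiv ℂ F (0, fun a => (R a).1) (0, x) =
        ∑ a, x a • om m b (t 0) (R a)) ∧
      ∀ x ∈ ball ((0 : ℂ), fun a => (R a).1) ε', Function.Injective (t x.1) ∧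
        TO.Ind m b (t x.1) (fun a => ρ' a x) ∧
        ∃ (u : Fin K → (Ix m b → ℂ)) (u' : Fin (Fintype.card (Ix m b)) → (Ix m b → ℂ)),
          (∀ a, Itg m b (t x.1) (q' a x.1) (q a x.1) (u a)) ∧
          (∀ a, Itg m b (t x.1) (ρ a x.1) (ρ' a x) (u' a)) ∧ ∑ a, u a + ∑ a, u' a = F x

/-- **Df**: DEFORMATION OF A DIVISOR. From S_Dfa, S_Dfb. PROOF. `∑ x_a om (R a)` is an isomorphism (`g` independent vectors in dimension `g`). `r' a z = ρ' a (z, x z)`. -/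
def S_Df : Prop :=
  ∀ (m r : ℕ) (b : Fin (r + 1) → ℕ) (ε : ℝ) (t : ℂ → (Fin (r + 1) → ℂ)), Cvb m b → 0 < ε →
    DifferentiableOn ℂ t (ball 0 ε) → Function.Injective (t 0) →
    ∀ (K : ℕ) (Q' Q : Fin K → ℂ × ℂ) (w : Fin K → (Ix m b → ℂ)),
    (∀ a, Itg m b (t 0) (Q' a) (Q a) (w a)) →
    ∀ R : Fin (Fintype.card (Ix m b)) → ℂ × ℂ, TO.Ind m b (t 0) R →
    ∀ u : ℂ → (Ix m b → ℂ), DifferentiableOn ℂ u (ball 0 ε) → u 0 = ∑ a, w a →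
    ∃ ε' > 0, ε' ≤ ε ∧ ∃ (q' q : Fin K → ℂ → ℂ × ℂ)
      (ρ ρ' : Fin (Fintype.card (Ix m b)) → ℂ → ℂ × ℂ),
      (∀ a, DifferentiableOn ℂ (q' a) (ball 0 ε') ∧ DifferentiableOn ℂ (q a) (ball 0 ε') ∧
        q' a 0 = Q' a ∧ q a 0 = Q a ∧
        ∀ z ∈ ball (0 : ℂ) ε', (q' a z).1 = (Q' a).1 ∧ (q a z).1 = (Q a).1) ∧
      (∀ a, DifferentiableOn ℂ (ρ a) (ball 0 ε') ∧ DifferentiableOn ℂ (ρ' a) (ball 0 ε') ∧
        ρ a 0 = R a ∧ ρ' a 0 = R a ∧ ∀ z ∈ ball (0 : ℂ) ε', (ρ a z).1 = (R a).1) ∧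
      ∀ z ∈ ball (0 : ℂ) ε', Function.Injective (t z) ∧
        TO.Ind m b (t z) (fun a => ρ' a z) ∧
        ∃ (v : Fin K → (Ix m b → ℂ)) (v' : Fin (Fintype.card (Ix m b)) → (Ix m b → ℂ)),
          (∀ a, Itg m b (t z) (q' a z) (q a z) (v a)) ∧
          (∀ a, Itg m b (t z) (ρ a z) (ρ' a z) (v' a)) ∧ ∑ a, v a + ∑ a, v' a = u z

section dt

variable {p N : ℕ}

/-- `Θ` is a holomorphic family of divisors on the line `s + z w`, algebraic over `ℚ(s, w, z)`, which represents the flat classes `e_i / q`. -/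
structure IsTh (Λ : LL) (Φ : FF) (D : Dt p N) (h : D.ok) (q : ℕ) (k : Fin (rk D) → Fin N → ℕ)
    (s w : Fin p → ℂ) (e : Fin (rk D) → D.V) (ε : ℝ) (Θ : ℂ → (Jx D k → ℂ)) : Prop where
  pos : 0 < ε
  hol : DifferentiableOn ℂ Θ (ball 0 ε)
  alg : ∀ z ∈ ball (0 : ℂ) ε, ∀ j,
    AlgO (Fin.snoc (Fin.append s w) z : Fin (p + p + 1) → ℂ) (Θ z j)
  alg0 : ∀ j, AlgO s (Θ 0 j)
  on : ∀ z ∈ ball (0 : ℂ) ε, OnP D (ln s w z) (Θ z)
  az : ∀ z ∈ ball (0 : ℂ) ε, Az D (Θ z) ∧ Θ z (Sum.inr none) = ze q 1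
  cls : ∀ z ∈ ball (0 : ℂ) ε, ∀ i,
    Cls Λ D h (ln s w z) (Θ z) i ((q : ℂ)⁻¹ • HS.trn Φ D h s (ln s w z) (e i))

end dt

/-- **Lin**: DEFORMATION ON A LINE. From S_Ra, S_Ta, S_Df, S_Bt, TATE.S_Av. PROOF. For `(i, n)`: `(q⁻¹ • e i) n ∈ LQ` (`LPD.fin`), the exact sum and the points `R` of `S_Ta` at `D.t s n`, `S_Df` for `t z = D.t (ln s w z) n`,
`u z = τ (t 0) (t z) ((q⁻¹ • e i) n)` (`FamD.hol`, `FamD.one`). `k i n = K + card`, the divisor is `(q', q)` and `(ρ, ρ')`. `ε` = the minimum over the finitely many `(i, n)`. `alg`: the `x`-coordinates of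
`q'`, `q`, `ρ` are algebraic over `ℚ(s)`, their `y`-coordinates satisfy `y ^ m = ∏ (x - t_j) ^ b_j`, `t_j ∈ ℚ(s, w, z)`; `ρ'`: `S_Ra` at `t z` over `ℚ(s, w, z)` (`u z ∈ LQ (t z)`: `FamD.latZ`). `alg0`: at `z = 0` all points are `Q'`, `Q`, `R`.
The equation `cls`: the sum is exact. The roots of unity: constant components. -/
def S_Lin : Prop :=
  ∀ (Λ : LL) (Φ : FF) (p N : ℕ) (D : Dt p N) (h : D.ok) (q : ℕ) (s w : Fin p → ℂ)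
    (e : Fin (rk D) → D.V), q ≠ 0 → Function.Injective s → IsBas Λ D h s e →
    ∃ (k : Fin (rk D) → Fin N → ℕ) (ε : ℝ) (Θ : ℂ → (Jx D k → ℂ)), IsTh Λ Φ D h q k s w e ε Θ

/-! ## F. Lower level -/

/-- **Th**: THE CONJUGATED FAMILY. From CV.StmtCV, S_Eqc. PROOF. `CV.StmtCV` for `u = Fin.append s w` and the components of `Θ` (reindexed by `Fintype.equivFin`); `σ` fixes `u`. `σ'` fixes `s`, `w`, `z`, so `ln s w z`. The roots of unity are constant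
components. `OnP`: at `0`: `Θ' 0 = σ (Θ 0)`, `S_Eqc` (5); near `0` the first coordinates are not in `range t` (continuity); the equation `y ^ m = ∏ (x - t_j) ^ b_j` holds outside a countable set (`S_Eqc` (5) for `σ'`), so everywhere (continuity). -/
def S_Th : Prop :=
  ∀ (Λ : LL) (Φ : FF) (p N : ℕ) (D : Dt p N) (h : D.ok) (q : ℕ) (k : Fin (rk D) → Fin N → ℕ)
    (s w : Fin p → ℂ) (e : Fin (rk D) → D.V) (ε : ℝ) (Θ : ℂ → (Jx D k → ℂ)), q ≠ 0 →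
    Function.Injective s → IsTh Λ Φ D h q k s w e ε Θ → ∀ σ ∈ Gam D s, (∀ i, σ (w i) = w i) →
    ∃ ε' > 0, ε' ≤ ε ∧ ∃ Θ' : ℂ → (Jx D k → ℂ), DifferentiableOn ℂ Θ' (ball 0 ε') ∧
      (∀ j, Θ' 0 j = σ (Θ 0 j)) ∧
      (∀ z ∈ ball (0 : ℂ) ε', OnP D (ln s w z) (Θ' z) ∧ Az D (Θ' z) ∧
        Θ' z (Sum.inr none) = σ (ze q 1)) ∧
      ∃ Y : Set ℂ, Y.Countable ∧ ∀ z ∈ ball (0 : ℂ) ε', z ∉ Y →
        ∃ σ' ∈ Gam D (ln s w z), ∀ j, σ' (Θ z j) = Θ' z j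

/-- **Lo1**: ONE ELEMENT OF THE LEVEL GROUP is in the level groups at the generic points of the line. From S_Th, S_Fl, S_Eqc, S_AdD, S_Rg, S_Cy, S_Bt, S_Bd. PROOF. `Θ'`, `σ'` from `S_Th`. For `z ∉ Y`: `v'` with `ActD σ' (q⁻¹ trn e_i) v'`
(`S_AdD`), `q v' ∈ L`, `Cls (Θ' z) i v'` (`S_Eqc` (2), `σ'` fixes `ln s w z`). `S_Fl` for `f = 1`, `ξ ↦ ln s w (ξ 0)`, `Θ' (ξ 0)`, `G` = the complement of `Y` (dense): `l_i ∈ L (s)` with `Cls (Θ' z) i (q⁻¹ trn l_i)` near `0`. At `z = 0`: `Cls (σ Θ 0) i (q⁻¹ l_i)` and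
`Cls (σ Θ 0) i (vq A e i)` (`S_Eqc` (2)), so `q⁻¹ l_i - vq A e i ∈ L (s)`, `q⁻¹ trn l_i - vq A (trn e) i ∈ L` (`trn` is additive and maps `L (s)` to `L`): so `RepG σ' … A` (`S_Eqc` (1), rules). `Cyq`: `σ' (ze q 1) = σ (ze q 1)`, `ze q 1` is a primitive root. -/
def S_Lo1 : Prop :=
  ∀ (Λ : LL) (Φ : FF) (p N : ℕ) (D : Dt p N) (h : D.ok) (q : ℕ) (k : Fin (rk D) → Fin N → ℕ)
    (s w : Fin p → ℂ) (e : Fin (rk D) → D.V) (ε : ℝ) (Θ : ℂ → (Jx D k → ℂ)), q ≠ 0 →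
    Function.Injective s → IsBas Λ D h s e → IsTh Λ Φ D h q k s w e ε Θ → ∀ σ ∈ Gam D s,
    (∀ i, σ (w i) = w i) → ∀ (A : Matrix (Fin (rk D)) (Fin (rk D)) (ZMod q)) (c : ZMod q),
    RepG Λ D h σ s e e q A → Cyq σ q c →
    ∃ ε' > 0, ∃ Y : Set ℂ, Y.Countable ∧ ∀ z ∈ ball (0 : ℂ) ε', z ∉ Y →
      bl A c ∈ Sk Λ D h (ln s w z) (fun i => HS.trn Φ D h s (ln s w z) (e i)) q

/-- **Lo**: THE LOWER LEVEL. From S_Lin, S_Lo1, CV.StmtCVE, S_Eqc, S_Cy. PROOF. `Sk` is finite. For `bl A c` with `σ`: `τ` from `StmtCVE` (`τ = σ` on the algebraic points over `ℚ(s)`, `τ w = w`): `τ ∈ Gam D s` (`ze` is algebraic), `RepG τ s e e q A`: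
`Cls (Θ 0) i (q⁻¹ e_i)`, so `Cls (σ Θ 0) i (vq A e i)`, `σ Θ 0 = τ Θ 0` (`alg0`), `S_Eqc` (1). `S_Lo1` for `τ`; finite intersection of balls, finite union of the `Y`. -/
def S_Lo : Prop :=
  ∀ (Λ : LL) (Φ : FF) (p N : ℕ) (D : Dt p N) (h : D.ok) (q : ℕ) (s w : Fin p → ℂ)
    (e : Fin (rk D) → D.V), q ≠ 0 → Function.Injective s → IsBas Λ D h s e →
    AlgebraicIndependent (Ks s) w →
    ∃ ε > 0, ∃ Y : Set ℂ, Y.Countable ∧ ∀ z ∈ ball (0 : ℂ) ε, z ∉ Y →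
      Sk Λ D h s e q ⊆ Sk Λ D h (ln s w z) (fun i => HS.trn Φ D h s (ln s w z) (e i)) q

/-- **Eq**: EQUALITY OF THE LEVEL GROUPS (2.6). From S_Hs, S_Up, S_Lo, S_Gn, S_Tw, S_Bs, S_Bt, StmtFR, CV.StmtCVG, CV.StmtCVL, StmtGA4. PROOF. `s*` algebraically independent (`StmtGA4`), `e*` a basis; `k₀` from `StmtFR` for the tower of `s*`; the Hilbert data at
`q = ℓ ^ k₀`. Let `s`, `e`, `w` be given. For every `k` and `z` small outside a countable set: `ln s w z` is algebraically independent (`StmtCVL`), `trn e` is a basis (`S_Bt`), `Sk s e ⊆ Sk (ln s w z)` (`S_Lo`), `|Sk (ln s w z)| = γ_k` (`S_Gn`): `h_k ≤ γ_k`. `γ_k₀ ≤ h_k₀`: `S_Up`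
at one such `z` in its ball (for some `w` outside the meagre set, if the given one is not needed: use the given `w`). `StmtFR`: `h_k = γ_k` for `k ≥ k₀`; `Set.eq_of_subset_of_ncard_le`. -/
def S_Eq : Prop :=
  ∀ (Λ : LL) (Φ : FF) (p N : ℕ) (D : Dt p N) (h : D.ok) (ℓ : ℕ), ℓ.Prime →
    ∃ (P : Polynomial (MvPolynomial (Fin p) ℚ)) (Δ : MvPolynomial (Fin p) ℚ) (k₀ : ℕ), IrrG P ∧
      0 < P.natDegree ∧ Δ ≠ 0 ∧ ∀ s : Fin p → ℂ, Hil [P] Δ s → ∀ e, IsBas Λ D h s e →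
      ∀ w : Fin p → ℂ, AlgebraicIndependent (Ks s) w → ∀ k, k₀ ≤ k →
      ∃ ε > 0, ∃ Y : Set ℂ, Y.Countable ∧ ∀ z ∈ ball (0 : ℂ) ε, z ∉ Y →
        Sk Λ D h s e (ℓ ^ k) =
          Sk Λ D h (ln s w z) (fun i => HS.trn Φ D h s (ln s w z) (e i)) (ℓ ^ k)

/-! ## G. Loops -/

/-- **Kul**: KURATOWSKI-ULAM FOR LINES. PROOF. `K ⊆ ℂ^p` closed with empty interior, `B` a closed ball in `ℂ \ {0}` (a countable base): `{w | ∀ z ∈ B, s + z w ∈ K}` is closed with empty interior (fix one `z ∈ B`: `w ↦ s + z w` is a homeomorphism).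
If `{z | s + z w ∈ K}` is not nowhere dense, `w` is in the union of these sets. `X` is contained in a countable union of such `K`. -/
def S_Kul : Prop :=
  ∀ (p : ℕ) (X : Set (Fin p → ℂ)) (s : Fin p → ℂ), IsMeagre X →
    IsMeagre {w : Fin p → ℂ | ¬ IsMeagre {z : ℂ | ln s w z ∈ X}}

/-- **Ltr**: TRANSPORT PRESERVES THE LATTICES. From StmtFL, StmtPA1. PROOF. `IsTr.loc`, `IsLn.r`, `IsLn.τ`, `LPD.flat`: the set of the `t` with `φ t '' LPs s = LPs (ln s w (γ t))` is open and closed in `[0, 1]` (compare `TATE/PA/Eqv.lean`, `locc`). -/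
def S_Ltr : Prop :=
  ∀ (Λ : LL) (Φ : FF) (p N : ℕ) (D : Dt p N) (h : D.ok) (s w : Fin p → ℂ) (M : Fml D.V (Bd s w)),
    Function.Injective s → IsLn Φ D h s w M → ∀ (γ : ℝ → ℂ) (z : ℂ), IsPth (Bd s w) γ 0 z →
    ∀ φ, IsTr M γ φ → φ 1 '' LPs Λ D h s = LPs Λ D h (ln s w z)

/-- **Sh**: THE SHIFTED FAMILY. PROOF. `ln (ln s w z₁) w z = ln s w (z₁ + z)`; all fields of `M` at `z₁ + z`. Second part: transport along shifted paths. -/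
def S_Sh : Prop :=
  ∀ (Φ : FF) (p N : ℕ) (D : Dt p N) (h : D.ok) (s w : Fin p → ℂ) (M : Fml D.V (Bd s w)) (z₁ : ℂ),
    IsLn Φ D h s w M →
    ∃ M₁ : Fml D.V (Bd (ln s w z₁) w), IsLn Φ D h (ln s w z₁) w M₁ ∧
      ∀ (γ : ℝ → ℂ) (z z' : ℂ), IsPth (Bd s w) γ z z' → ∀ φ, IsTr M γ φ →
        IsPth (Bd (ln s w z₁) w) (fun t => γ t - z₁) (z - z₁) (z' - z₁) ∧
        IsTr M₁ (fun t => γ t - z₁) φ

/-- **Cjl**: THE CONJUGATED LOOP. From StmtPA1, StmtPA5 (or directly). PROOF. The path from `z₁` to `0` (segment in the ball), then `δ`, then back to `z₁`; the transport along the segment is `M.τ 0 z₁` or its inverse (compare TATE/PA: `S_Unq`, P5.lean for the transport along a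
concatenation; `Frm`). Simplest: `λ t` = the segment from `0` to `z₁` with the transport `ψ t = M.τ 0 (t z₁)` (near `0` by definition; at other points: the transport from `0` in the ball `ball 0 (M.r 0)` is given by `M.τ 0`, see `TATE/PA`, `S_Unq`). -/
def S_Cjl : Prop :=
  ∀ (V : Type) [NormedAddCommGroup V] [NormedSpace ℂ V] [FiniteDimensional ℂ V] (F : Set ℂ),
    F.Finite → ∀ (M : Fml V F), (0 : ℂ) ∉ F → ∀ z₁ ∈ ball (0 : ℂ) (M.r 0), ∀ δ,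
    IsPth F δ 0 0 → ∀ φ, IsTr M δ φ → ∃ δ₁ φ₁, IsPth F δ₁ z₁ z₁ ∧ IsTr M δ₁ φ₁ ∧
      ∀ v, φ₁ 1 (M.τ 0 z₁ v) = M.τ 0 z₁ (φ 1 v)

/-- **Rot**: ROOTS OF UNITY ARE CONSTANT along a continuation. PROOF. `Spc`: `(y t i) ^ n = 1` for all `t`; `y` is continuous on `[0, 1]` (`IsCt.props`, TATE/GA/Ct.lean); the set of the `n`-th roots of unity is finite, `[0, 1]` is connected. -/
def S_Rot : Prop :=
  ∀ (p K : ℕ) (s w : Fin p → ℂ) (γ : ℝ → ℂ) (y : ℝ → (Fin K → ℂ)), Continuous γ →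
    IsCt s w γ y → ∀ (i : Fin K) (n : ℕ), n ≠ 0 → y 0 i ^ n = 1 → y 1 i = y 0 i

/-- **Lp**: LOOPS ARE GALOIS AT THE GENERIC POINTS OF THE LINE (2.7). From StmtMG, StmtPA2, StmtFL, S_Kul, S_Sh, S_Cjl, S_Rot, S_Ta, S_Ltr, S_Eqc, S_AdD, S_Rg, S_Cy, S_Bt. PROOF. `X` = `S_Kul` for the meagre set of `StmtMG`. Let `w ∉ X`, `M`; `Y = {z | ln s w z ∈ X_MG}`, `ε` such that
`z ∈ ball 0 ε` is in `ball 0 (M.r 0)` and in the ball of `S_Bt`. Let `z₁`, `s₁ = ln s w z₁`, `e₁ = trn e`, `M.τ 0 z₁ = trn s s₁` (`IsLn.τ`). `S_Cjl`, `S_Sh`: a loop at `0` for `M₁` with the transport `φ₁`, `φ₁ 1 e₁_i = ∑ b_ji e₁_j`. `y` = the coordinates of the exact sums for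
`(q⁻¹ • e₁ i) n` (`S_Ta` at `D.t s₁ n`, `s₁` injective), all `ze (D.m n) 1` and `ze q 1`. `StmtMG`: `D₀`; `StmtPA2` (for `M₁`): a loop outside `D₀` with the same transport; `σ`, `y'`. `S_Rot`: `σ` fixes `ze (D.m n) 1`, `ze q 1`. `σ ∈ Gam D s₁`. The last clause of `StmtMG` (`v = q⁻¹ • e₁ i`, in `D.L s₁` by
`LPD.fin`): `ActD σ s₁ (q⁻¹ e₁_i) (φ₁ 1 (q⁻¹ e₁_i))`. `φ₁ 1` is real linear: `φ₁ 1 (q⁻¹ e₁_i) = q⁻¹ ∑ b_ji e₁_j`, equal to `vq (b mod q) e₁ i` modulo the lattice. -/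
def S_Lp : Prop :=
  ∀ (Λ : LL) (Φ : FF) (p N : ℕ) (D : Dt p N) (h : D.ok) (s : Fin p → ℂ) (e : Fin (rk D) → D.V),
    Function.Injective s → IsBas Λ D h s e → ∃ X : Set (Fin p → ℂ), IsMeagre X ∧ ∀ w ∉ X,
    ∀ M : Fml D.V (Bd s w), IsLn Φ D h s w M → ∃ ε > 0, ∃ Y : Set ℂ, IsMeagre Y ∧
    ∀ z ∈ ball (0 : ℂ) ε, z ∉ Y → ∀ (q : ℕ), q ≠ 0 → ∀ δ, IsPth (Bd s w) δ 0 0 →
    ∀ φ, IsTr M δ φ → ∀ b : Matrix (Fin (rk D)) (Fin (rk D)) ℤ,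
    (∀ i, φ 1 (e i) = ∑ j, b j i • e j) →
      bl (b.map fun x : ℤ => (x : ZMod q)) 1 ∈
        Sk Λ D h (ln s w z) (fun i => HS.trn Φ D h s (ln s w z) (e i)) q

/-- **Fin**: `StmtLG`. From S_Eq, S_Lp, S_Bs, S_Bd, S_Ltr, S_AdD, S_Rg, CV.StmtCVG. PROOF. `P`, `Δ`, `k₀` from `S_Eq`. `e` a basis at `s`, `X` = the set of `S_Lp` and the `w` which are not algebraically independent over `Ks s`. Let `k`, `K = max k k₀`, `q = ℓ ^ K`. `φ 1 (e i) = ∑ b_ji e_j` (`S_Ltr`, `IsBas.ex`).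
`z` small outside the meagre sets (Baire): `bl (b mod q) 1 ∈ Sk (ln s w z) = Sk s e`: `σ ∈ Gam D s`, `RepG σ s e e q (b mod q)`, `Cyq σ q 1` (`bl` is injective). For `v = ∑ c_i e_i`: `ActD σ (q⁻¹ v) (q⁻¹ φ 1 v)` (additivity, modulo the lattice); multiply by `ℓ ^ (K - k)`. -/
def S_Fin : Prop := StmtLG

end TNF.LG
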